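import Pool.Agent.Lib.MP_4f3c81_gt.Inf.Stmts

/-!
# Smooth actions: local boundedness of the derivative (helper30)
-/

open Filter Topology Set Matrix MeasureTheory
open scoped ContDiff

namespace Pool.Agent.Lib.MP_4f3c81_gt.Inf

section

variable {G E : Type} [Group G] [TopologicalSpace G] [IsTopologicalGroup G]
  [NormedAddCommGroup E] [NormedSpace ℝ E] {A : G → E → E}

/-- the sets for the category argument -/
def a1_E (A : G → E → E) (x₀ : E) (N : ℕ) : Set G :=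
  {g | ∀ x v : E, ‖x - x₀‖ ≤ 1 / ((N : ℝ) + 1) → ‖v‖ ≤ 1 / ((N : ℝ) + 1) →
    ‖A g (x + v) - A g x‖ ≤ ((N : ℝ) + 1) * ‖v‖}

theorem a1_cont (hA : SAct G E A) (y : E) : Continuous fun g => A g y :=
  hA.cont.comp (by fun_prop : Continuous fun g : G => (g, y))

theorem a1_closed (hA : SAct G E A) (x₀ : E) (N : ℕ) : IsClosed (a1_E A x₀ N) := by
  unfold a1_E
  simp only [setOf_forall]
  refine isClosed_iInter fun x => isClosed_iInter fun v => isClosed_iInter fun _ =>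
    isClosed_iInter fun _ => ?_
  exact isClosed_le ((a1_cont hA _).sub (a1_cont hA _)).norm continuous_const

theorem a1_union (hA : SAct G E A) (x₀ : E) : ⋃ N, a1_E A x₀ N = univ := by
  refine eq_univ_of_forall fun g => ?_
  have h1 : ContDiffAt ℝ 1 (A g) x₀ := ((hA.smooth g).of_le (by exact_mod_cast le_top)).contDiffAt
  obtain ⟨K, t, ht, hK⟩ := h1.exists_lipschitzOnWith
  obtain ⟨δ, hδ, hδt⟩ := Metric.mem_nhds_iff.1 ht
  obtain ⟨N, hN⟩ := exists_nat_gt (max (K : ℝ) (2 / δ))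
  have hN1 : (K : ℝ) < N := lt_of_le_of_lt (le_max_left _ _) hN
  have hN2 : 2 / δ < N := lt_of_le_of_lt (le_max_right _ _) hN
  have hN0 : (0 : ℝ) < (N : ℝ) + 1 := by positivity
  have hr : 2 * (1 / ((N : ℝ) + 1)) < δ := by
    rw [div_lt_iff₀ hδ] at hN2
    rw [mul_one_div, div_lt_iff₀ hN0]
    nlinarith
  refine mem_iUnion.2 ⟨N, ?_⟩
  intro x v hx hv
  have m1 : x ∈ t := hδt (by
    rw [Metric.mem_ball, dist_eq_norm]
    have : 0 < 1 / ((N : ℝ) + 1) := by positivity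
    linarith)
  have m2 : x + v ∈ t := hδt (by
    rw [Metric.mem_ball, dist_eq_norm]
    have : x + v - x₀ = (x - x₀) + v := by abel
    rw [this]
    have := norm_add_le (x - x₀) v
    linarith)
  have h2 := hK.dist_le_mul (x + v) m2 x m1
  rw [dist_eq_norm, dist_eq_norm, add_sub_cancel_left] at h2
  refine h2.trans (mul_le_mul_of_nonneg_right (by linarith) (norm_nonneg _))

theorem a1_fderiv (hA : SAct G E A) (x₀ : E) (N : ℕ) {h : G} (hh : h ∈ a1_E A x₀ N) {x : E}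
    (hx : ‖x - x₀‖ ≤ 1 / ((N : ℝ) + 1)) : ‖fderiv ℝ (A h) x‖ ≤ (N : ℝ) + 1 := by
  have hd : DifferentiableAt ℝ (A h) x :=
    ((hA.smooth h).differentiable (by simp)).differentiableAt
  have hr0 : (0 : ℝ) < 1 / ((N : ℝ) + 1) := by positivity
  refine hd.hasFDerivAt.le_of_lip' (by positivity) ?_
  filter_upwards [Metric.ball_mem_nhds x hr0] with y hy
  rw [Metric.mem_ball, dist_eq_norm] at hy
  have h1 := hh x (y - x) hx hy.le
  rwa [add_sub_cancel] at h1

end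

theorem p_A1 : S_A1 := by
  intro G E _ _ _ _ _ _ _ A hA g₀ x₀
  obtain ⟨N, u, hu⟩ := nonempty_interior_of_iUnion_of_closed (fun N => a1_closed hA x₀ N)
    (a1_union hA x₀)
  have hr0 : (0 : ℝ) < 1 / ((N : ℝ) + 1) := by positivity
  -- the element `h`
  have hc1 : Continuous fun q : G × E => u * g₀⁻¹ * q.1 := by fun_prop
  have hc2 : Continuous fun q : G × E => A (u * g₀⁻¹ * q.1) q.2 :=
    hA.cont.comp (hc1.prodMk continuous_snd)
  have e1 : ∀ᶠ q : G × E in 𝓝 (g₀, x₀), u * g₀⁻¹ * q.1 ∈ a1_E A x₀ N := by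
    have h1 : Tendsto (fun q : G × E => u * g₀⁻¹ * q.1) (𝓝 (g₀, x₀)) (𝓝 u) := by
      have := hc1.tendsto (g₀, x₀)
      simpa using this
    exact h1.eventually (mem_interior_iff_mem_nhds.1 hu)
  have e2 : ∀ᶠ q : G × E in 𝓝 (g₀, x₀), ‖q.2 - x₀‖ ≤ 1 / ((N : ℝ) + 1) := by
    have h1 : Tendsto (fun q : G × E => ‖q.2 - x₀‖) (𝓝 (g₀, x₀)) (𝓝 0) := by
      have h2 : Continuous fun q : G × E => ‖q.2 - x₀‖ := by fun_prop
      have := h2.tendsto (g₀, x₀)
      simpa using this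
    exact (h1.eventually_lt_const hr0).mono fun q hq => hq.le
  set D := fun y : E => fderiv ℝ (A (g₀ * u⁻¹)) y with hD
  have hDc : Continuous D := (hA.smooth (g₀ * u⁻¹)).continuous_fderiv (by simp)
  have e3 : ∀ᶠ q : G × E in 𝓝 (g₀, x₀), ‖D (A (u * g₀⁻¹ * q.1) q.2)‖ <
      ‖D (A u x₀)‖ + 1 := by
    have h1 : Tendsto (fun q : G × E => ‖D (A (u * g₀⁻¹ * q.1) q.2)‖) (𝓝 (g₀, x₀))
        (𝓝 ‖D (A u x₀)‖) := by
      have := (hDc.comp hc2).norm.tendsto (g₀, x₀)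
      simpa using this
    exact h1.eventually_lt_const (by linarith)
  refine ⟨(‖D (A u x₀)‖ + 1) * ((N : ℝ) + 1), ?_⟩
  filter_upwards [e1, e2, e3] with q h1 h2 h3
  have hg : A q.1 = A (g₀ * u⁻¹) ∘ A (u * g₀⁻¹ * q.1) := by
    funext x
    rw [Function.comp_apply, ← hA.mul]
    congr 1
    group
  have hd1 : DifferentiableAt ℝ (A (u * g₀⁻¹ * q.1)) q.2 :=
    ((hA.smooth _).differentiable (by simp)).differentiableAt
  have hd2 : DifferentiableAt ℝ (A (g₀ * u⁻¹)) (A (u * g₀⁻¹ * q.1) q.2) :=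
    ((hA.smooth _).differentiable (by simp)).differentiableAt
  rw [hg, fderiv_comp _ hd2 hd1]
  refine (ContinuousLinearMap.opNorm_comp_le _ _).trans ?_
  exact mul_le_mul h3.le (a1_fderiv hA x₀ N h1 h2) (norm_nonneg _) (by positivity)

end Pool.Agent.Lib.MP_4f3c81_gt.Inf
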