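import Pool.Agent.Lib.MP_4f3c81_gt.Inf.Stmts

/-! Joint continuity of the derivative. -/

open Filter Topology Set
open scoped ContDiff

namespace Pool.Agent.Lib.MP_4f3c81_gt.Inf

section

variable {G E : Type} [Group G] [TopologicalSpace G] [NormedAddCommGroup E] [NormedSpace ℝ E]
  {A : G → E → E}

private theorem a2_diff (hA : SAct G E A) (g : G) : Differentiable ℝ (A g) :=
  (hA.smooth g).differentiable (by simp)

private theorem a2_cont (hA : SAct G E A) {X : Type} [TopologicalSpace X] {f : X → G}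
    {k : X → E} (hf : Continuous f) (hk : Continuous k) : Continuous fun z => A (f z) (k z) :=
  hA.cont.comp (hf.prodMk hk)

/-- the sets for the category argument -/
private def a2_F (A : G → E → E) (x₀ : E) (ε : ℝ) (N : ℕ) : Set G :=
  ⋂ x ∈ Metric.closedBall x₀ (1 / ((N : ℝ) + 1)), ⋂ v ∈ Metric.closedBall (0 : E) (1 / ((N : ℝ) + 1)),
    {g | ‖(A g (x + v) - A g x) - (A g (x₀ + v) - A g x₀)‖ ≤ ε * ‖v‖}

omit [Group G] [TopologicalSpace G] [NormedSpace ℝ E] in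
private theorem a2_mem {x₀ : E} {ε : ℝ} {N : ℕ} {g : G} (hg : g ∈ a2_F A x₀ ε N) {x v : E}
    (hx : x ∈ Metric.closedBall x₀ (1 / ((N : ℝ) + 1)))
    (hv : v ∈ Metric.closedBall (0 : E) (1 / ((N : ℝ) + 1))) :
    ‖(A g (x + v) - A g x) - (A g (x₀ + v) - A g x₀)‖ ≤ ε * ‖v‖ := by
  unfold a2_F at hg
  rw [mem_iInter₂] at hg
  have h1 := hg x hx
  rw [mem_iInter₂] at h1
  exact h1 v hv

private theorem a2_closed (hA : SAct G E A) (x₀ : E) (ε : ℝ) (N : ℕ) :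
    IsClosed (a2_F A x₀ ε N) := by
  unfold a2_F
  refine isClosed_biInter fun x _ => isClosed_biInter fun v _ => ?_
  refine isClosed_le ?_ continuous_const
  refine Continuous.norm ?_
  exact ((a2_cont hA continuous_id continuous_const).sub
    (a2_cont hA continuous_id continuous_const)).sub
    ((a2_cont hA continuous_id continuous_const).sub
      (a2_cont hA continuous_id continuous_const))

private theorem a2_union (hA : SAct G E A) (x₀ : E) {ε : ℝ} (hε : 0 < ε) :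
    ⋃ N, a2_F A x₀ ε N = univ := by
  rw [eq_univ_iff_forall]
  intro g
  have hc : Continuous (fderiv ℝ (A g)) := (hA.smooth g).continuous_fderiv (by simp)
  obtain ⟨δ, hδ, h⟩ := Metric.continuousAt_iff.1 (hc.continuousAt (x := x₀)) (ε / 2) (by positivity)
  obtain ⟨N, hN⟩ := exists_nat_one_div_lt (show 0 < δ / 2 by positivity)
  rw [mem_iUnion]
  refine ⟨N, ?_⟩
  have hmv : ∀ y ∈ Metric.ball x₀ δ, ∀ z ∈ Metric.ball x₀ δ,
      ‖A g z - A g y - fderiv ℝ (A g) x₀ (z - y)‖ ≤ ε / 2 * ‖z - y‖ := by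
    intro y hy z hz
    refine Convex.norm_image_sub_le_of_norm_fderiv_le' (fun w _ => (a2_diff hA g) w)
      (fun w hw => ?_) (convex_ball x₀ δ) hy hz
    have := h (Metric.mem_ball.1 hw)
    rw [dist_eq_norm] at this
    exact this.le
  unfold a2_F
  rw [mem_iInter₂]
  intro x hx
  rw [mem_iInter₂]
  intro v hv
  rw [Metric.mem_closedBall, dist_eq_norm] at hx
  rw [Metric.mem_closedBall, dist_zero_right] at hv
  have h1 : x ∈ Metric.ball x₀ δ := by
    rw [Metric.mem_ball, dist_eq_norm]; linarith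
  have h2 : x + v ∈ Metric.ball x₀ δ := by
    rw [Metric.mem_ball, dist_eq_norm]
    have : x + v - x₀ = (x - x₀) + v := by abel
    rw [this]
    have := norm_add_le (x - x₀) v
    linarith
  have h3 : x₀ ∈ Metric.ball x₀ δ := Metric.mem_ball_self hδ
  have h4 : x₀ + v ∈ Metric.ball x₀ δ := by
    rw [Metric.mem_ball, dist_eq_norm, add_sub_cancel_left]; linarith
  have e1 := hmv x h1 (x + v) h2
  have e2 := hmv x₀ h3 (x₀ + v) h4
  rw [add_sub_cancel_left] at e1 e2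
  change ‖(A g (x + v) - A g x) - (A g (x₀ + v) - A g x₀)‖ ≤ ε * ‖v‖
  have e3 : (A g (x + v) - A g x) - (A g (x₀ + v) - A g x₀) =
      (A g (x + v) - A g x - fderiv ℝ (A g) x₀ v) -
        (A g (x₀ + v) - A g x₀ - fderiv ℝ (A g) x₀ v) := by abel
  rw [e3]
  have e4 := norm_sub_le (A g (x + v) - A g x - fderiv ℝ (A g) x₀ v)
    (A g (x₀ + v) - A g x₀ - fderiv ℝ (A g) x₀ v)
  linarith

private theorem a2_osc (hA : SAct G E A) {x₀ : E} {ε : ℝ} (hε : 0 < ε) {N : ℕ} {g : G}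
    (hg : g ∈ a2_F A x₀ ε N) {x : E} (hx : x ∈ Metric.ball x₀ (1 / ((N : ℝ) + 1))) :
    ‖fderiv ℝ (A g) x - fderiv ℝ (A g) x₀‖ ≤ ε := by
  have hr : (0 : ℝ) < 1 / ((N : ℝ) + 1) := by positivity
  have h1 : HasFDerivAt (fun v => A g (x + v) - A g (x₀ + v))
      (fderiv ℝ (A g) x - fderiv ℝ (A g) x₀) 0 := by
    have k : ∀ y : E, HasFDerivAt (fun v => A g (y + v)) (fderiv ℝ (A g) y) 0 := by
      intro y
      have k1 : HasFDerivAt (A g) (fderiv ℝ (A g) y) (y + 0) := by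
        rw [add_zero]
        exact ((a2_diff hA g) y).hasFDerivAt
      have k2 := k1.comp (0 : E) ((hasFDerivAt_id (0 : E)).const_add y)
      rw [ContinuousLinearMap.comp_id] at k2
      exact k2
    exact (k x).sub (k x₀)
  refine h1.le_of_lip' hε.le ?_
  filter_upwards [Metric.closedBall_mem_nhds (0 : E) hr] with v hv
  have h2 := a2_mem hg (Metric.ball_subset_closedBall hx) hv
  rw [add_zero, add_zero, sub_zero]
  have e : (A g (x + v) - A g (x₀ + v)) - (A g x - A g x₀) =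
      (A g (x + v) - A g x) - (A g (x₀ + v) - A g x₀) := by abel
  rw [e]
  exact h2

private theorem a2_lin (hA : SAct G E A) {x₀ : E} {ε : ℝ} (hε : 0 < ε) {N : ℕ} {g : G}
    (hg : g ∈ a2_F A x₀ ε N) {v : E} (hv : ‖v‖ < 1 / ((N : ℝ) + 1)) :
    ‖A g (x₀ + v) - A g x₀ - fderiv ℝ (A g) x₀ v‖ ≤ ε * ‖v‖ := by
  have hr : (0 : ℝ) < 1 / ((N : ℝ) + 1) := by positivity
  have h := Convex.norm_image_sub_le_of_norm_fderiv_le' (𝕜 := ℝ) (f := A g)
    (s := Metric.ball x₀ (1 / ((N : ℝ) + 1))) (φ := fderiv ℝ (A g) x₀) (C := ε)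
    (fun w _ => (a2_diff hA g) w) (fun w hw => a2_osc hA hε hg hw) (convex_ball _ _)
    (Metric.mem_ball_self hr) (y := x₀ + v) (by
      rw [Metric.mem_ball, dist_eq_norm, add_sub_cancel_left]; exact hv)
  rwa [add_sub_cancel_left] at h

private theorem a2_unif [FiniteDimensional ℝ E] (hA : SAct G E A) (x₀ : E) (u : G) {ρ c : ℝ}
    (hc : 0 < c) : ∀ᶠ g in 𝓝 u, ∀ v ∈ Metric.closedBall (0 : E) ρ,
      ‖A g (x₀ + v) - A u (x₀ + v)‖ ≤ c := by
  have : ProperSpace E := FiniteDimensional.proper ℝ E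
  refine (isCompact_closedBall (0 : E) ρ).eventually_forall_of_forall_eventually fun v _ => ?_
  have h1 : Continuous fun z : G × E => ‖A z.1 (x₀ + z.2) - A u (x₀ + z.2)‖ := by
    refine Continuous.norm ?_
    exact (a2_cont hA continuous_fst (continuous_const.add continuous_snd)).sub
      (a2_cont hA continuous_const (continuous_const.add continuous_snd))
  have h2 : ‖A ((u, v) : G × E).1 (x₀ + ((u, v) : G × E).2) -
      A u (x₀ + ((u, v) : G × E).2)‖ < c := by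
    simpa using hc
  exact (h1.continuousAt.eventually_lt continuousAt_const h2).mono fun z hz => hz.le

private theorem a2_claim [BaireSpace G] [FiniteDimensional ℝ E] (hA : SAct G E A) (x₀ : E)
    {ε : ℝ} (hε : 0 < ε) {O : Set G} {g₁ : G} (hO : O ∈ 𝓝 g₁) : ∃ u ∈ O,
    ∀ᶠ q in 𝓝 ((u, x₀) : G × E), ‖fderiv ℝ (A q.1) q.2 - fderiv ℝ (A u) x₀‖ ≤ 4 * ε := by
  have hd := dense_iUnion_interior_of_closed (a2_closed hA x₀ ε) (a2_union hA x₀ hε)
  obtain ⟨u, hu, huO⟩ := hd.inter_nhds_nonempty hO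
  obtain ⟨N, huN⟩ := mem_iUnion.1 hu
  refine ⟨u, huO, ?_⟩
  have hr : (0 : ℝ) < 1 / ((N : ℝ) + 1) := by positivity
  set r : ℝ := 1 / ((N : ℝ) + 1) with hrdef
  set ρ : ℝ := r / 2 with hρdef
  have hρ : 0 < ρ := by positivity
  have hρr : ρ < r := by rw [hρdef]; linarith
  have hun := a2_unif hA x₀ u (ρ := ρ) (c := ε * ρ / 2) (by positivity)
  have h1 : ∀ᶠ g in 𝓝 u, g ∈ interior (a2_F A x₀ ε N) := isOpen_interior.mem_nhds huN
  have h2 : ∀ᶠ g in 𝓝 u, g ∈ interior (a2_F A x₀ ε N) ∧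
      ‖fderiv ℝ (A g) x₀ - fderiv ℝ (A u) x₀‖ ≤ 3 * ε := by
    filter_upwards [h1, hun] with g hg hgu
    refine ⟨hg, ?_⟩
    refine ContinuousLinearMap.opNorm_le_of_unit_norm (by positivity) fun y hy => ?_
    have hvn : ‖ρ • y‖ = ρ := by rw [norm_smul, hy, mul_one, Real.norm_of_nonneg hρ.le]
    have e1 := a2_lin hA hε (interior_subset hg) (v := ρ • y) (by rw [hvn]; exact hρr)
    have e2 := a2_lin hA hε (interior_subset huN) (v := ρ • y) (by rw [hvn]; exact hρr)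
    have e3 := hgu (ρ • y) (by rw [Metric.mem_closedBall, dist_zero_right, hvn])
    have e4 := hgu 0 (by rw [Metric.mem_closedBall, dist_self]; exact hρ.le)
    rw [add_zero] at e4
    rw [hvn] at e1 e2
    set a1 := A g (x₀ + ρ • y) - A g x₀ - fderiv ℝ (A g) x₀ (ρ • y) with ha1
    set a2 := A u (x₀ + ρ • y) - A u x₀ - fderiv ℝ (A u) x₀ (ρ • y) with ha2
    set a3 := A g (x₀ + ρ • y) - A u (x₀ + ρ • y) with ha3
    set a4 := A g x₀ - A u x₀ with ha4
    have e5 : ρ • ((fderiv ℝ (A g) x₀ - fderiv ℝ (A u) x₀) y) = (a2 - a1) + (a3 - a4) := by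
      rw [← map_smul, _root_.sub_apply, ha1, ha2, ha3, ha4]
      abel
    have e6 : ρ * ‖(fderiv ℝ (A g) x₀ - fderiv ℝ (A u) x₀) y‖ ≤ ρ * (3 * ε) := by
      have e7 : ρ * ‖(fderiv ℝ (A g) x₀ - fderiv ℝ (A u) x₀) y‖ =
          ‖ρ • ((fderiv ℝ (A g) x₀ - fderiv ℝ (A u) x₀) y)‖ := by
        rw [norm_smul, Real.norm_of_nonneg hρ.le]
      rw [e7, e5]
      have e8 := norm_add_le (a2 - a1) (a3 - a4)
      have e9 := norm_sub_le a2 a1
      have e10 := norm_sub_le a3 a4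
      linarith
    exact le_of_mul_le_mul_left e6 hρ
  have h3 : ∀ᶠ q in 𝓝 ((u, x₀) : G × E), (q.1 ∈ interior (a2_F A x₀ ε N) ∧
      ‖fderiv ℝ (A q.1) x₀ - fderiv ℝ (A u) x₀‖ ≤ 3 * ε) :=
    (continuous_fst.tendsto ((u, x₀) : G × E)).eventually h2
  have h4 : ∀ᶠ q in 𝓝 ((u, x₀) : G × E), q.2 ∈ Metric.ball x₀ r :=
    (continuous_snd.tendsto ((u, x₀) : G × E)).eventually (Metric.ball_mem_nhds x₀ hr)
  filter_upwards [h3, h4] with q hq hq2
  have e1 := a2_osc hA hε (interior_subset hq.1) hq2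
  have e2 := norm_sub_le_norm_sub_add_norm_sub (fderiv ℝ (A q.1) q.2) (fderiv ℝ (A q.1) x₀)
    (fderiv ℝ (A u) x₀)
  linarith [hq.2]

end

theorem p_A2 (hA1 : S_A1) : S_A2 := by
  intro G E _ _ _ _ _ _ _ A hA
  rw [continuous_iff_continuousAt]
  rintro ⟨g₀, x₀⟩
  obtain ⟨B, hB⟩ := hA1 G E A hA g₀ x₀
  rw [Metric.continuousAt_iff']
  intro ε' hε'
  set B' : ℝ := max B 0 with hB'
  have hB'0 : 0 ≤ B' := le_max_right _ _
  set ε : ℝ := ε' / (4 * B' + 2) with hεdef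
  have hε : 0 < ε := by positivity
  -- choice of the neighbourhood of one
  have c1 : Continuous fun u : G => ((g₀ * u⁻¹, A u x₀) : G × E) :=
    (continuous_const.mul continuous_inv).prodMk (a2_cont hA continuous_id continuous_const)
  have hO : ∀ᶠ u in 𝓝 (1 : G), ∀ᶠ q in 𝓝 ((g₀ * u⁻¹, A u x₀) : G × E),
      ‖fderiv ℝ (A q.1) q.2‖ ≤ B := by
    have h1 := eventually_eventually_nhds.2 hB
    have h2 : Tendsto (fun u : G => ((g₀ * u⁻¹, A u x₀) : G × E)) (𝓝 1) (𝓝 (g₀, x₀)) := by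
      have := c1.tendsto 1
      rwa [inv_one, mul_one, hA.one] at this
    exact h2.eventually h1
  obtain ⟨u, hu, huc⟩ := a2_claim hA x₀ hε hO
  -- the elements near `g₀`
  have c2 : Continuous fun q : G × E => ((u * g₀⁻¹ * q.1, q.2) : G × E) :=
    (continuous_const.mul continuous_fst).prodMk continuous_snd
  have t2 : Tendsto (fun q : G × E => ((u * g₀⁻¹ * q.1, q.2) : G × E)) (𝓝 (g₀, x₀))
      (𝓝 (u, x₀)) := by
    have := c2.tendsto (g₀, x₀)
    rwa [inv_mul_cancel_right] at this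
  have t3 : Tendsto (fun q : G × E => A (u * g₀⁻¹ * q.1) q.2) (𝓝 (g₀, x₀)) (𝓝 (A u x₀)) := by
    have := (a2_cont hA (continuous_const.mul continuous_fst) continuous_snd :
      Continuous fun q : G × E => A (u * g₀⁻¹ * q.1) q.2).tendsto (g₀, x₀)
    rwa [inv_mul_cancel_right] at this
  have e1 := t2.eventually huc
  have e2 : ∀ᶠ q in 𝓝 ((g₀, x₀) : G × E),
      ‖fderiv ℝ (A (g₀ * u⁻¹)) (A (u * g₀⁻¹ * q.1) q.2)‖ ≤ B := by
    have t4 : Tendsto (fun q : G × E => ((g₀ * u⁻¹, A (u * g₀⁻¹ * q.1) q.2) : G × E))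
        (𝓝 (g₀, x₀)) (𝓝 (g₀ * u⁻¹, A u x₀)) := tendsto_const_nhds.prodMk_nhds t3
    exact t4.eventually hu
  have e3 : ∀ᶠ q in 𝓝 ((g₀, x₀) : G × E),
      ‖fderiv ℝ (A (g₀ * u⁻¹)) (A (u * g₀⁻¹ * q.1) q.2) -
        fderiv ℝ (A (g₀ * u⁻¹)) (A u x₀)‖ * ‖fderiv ℝ (A u) x₀‖ < ε := by
    have hc : Continuous (fderiv ℝ (A (g₀ * u⁻¹))) :=
      (hA.smooth _).continuous_fderiv (by simp)
    have t5 : Tendsto (fun q : G × E =>
        ‖fderiv ℝ (A (g₀ * u⁻¹)) (A (u * g₀⁻¹ * q.1) q.2) -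
          fderiv ℝ (A (g₀ * u⁻¹)) (A u x₀)‖ * ‖fderiv ℝ (A u) x₀‖) (𝓝 (g₀, x₀)) (𝓝 0) := by
      have k1 := ((hc.tendsto (A u x₀)).comp t3).sub_const (fderiv ℝ (A (g₀ * u⁻¹)) (A u x₀))
      have k2 := k1.norm.mul_const ‖fderiv ℝ (A u) x₀‖
      rw [sub_self, norm_zero, zero_mul] at k2
      exact k2
    exact t5.eventually_lt tendsto_const_nhds hε
  filter_upwards [e1, e2, e3] with q hq1 hq2 hq3
  -- the chain rule
  have key : ∀ (h k : G) (x : E), fderiv ℝ (A (h * k)) x =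
      (fderiv ℝ (A h) (A k x)).comp (fderiv ℝ (A k) x) := by
    intro h k x
    have : A (h * k) = A h ∘ A k := by
      funext y
      exact hA.mul h k y
    rw [this]
    exact fderiv_comp x ((a2_diff hA h) _) ((a2_diff hA k) _)
  have k1 : q.1 = g₀ * u⁻¹ * (u * g₀⁻¹ * q.1) := by group
  have k2 : g₀ = g₀ * u⁻¹ * u := by group
  have k3 : fderiv ℝ (A q.1) q.2 =
      (fderiv ℝ (A (g₀ * u⁻¹)) (A (u * g₀⁻¹ * q.1) q.2)).comp
        (fderiv ℝ (A (u * g₀⁻¹ * q.1)) q.2) := by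
    conv_lhs => rw [k1]
    exact key _ _ _
  have k4 : fderiv ℝ (A g₀) x₀ =
      (fderiv ℝ (A (g₀ * u⁻¹)) (A u x₀)).comp (fderiv ℝ (A u) x₀) := by
    conv_lhs => rw [k2]
    exact key _ _ _
  rw [dist_eq_norm]
  change ‖fderiv ℝ (A q.1) q.2 - fderiv ℝ (A g₀) x₀‖ < ε'
  rw [k3, k4]
  set D1 := fderiv ℝ (A (g₀ * u⁻¹)) (A (u * g₀⁻¹ * q.1) q.2)
  set D2 := fderiv ℝ (A (u * g₀⁻¹ * q.1)) q.2 with hD2
  set D3 := fderiv ℝ (A (g₀ * u⁻¹)) (A u x₀)
  set D4 := fderiv ℝ (A u) x₀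
  have k5 : D1.comp D2 - D3.comp D4 = D1.comp (D2 - D4) + (D1 - D3).comp D4 := by
    ext y
    simp
  rw [k5]
  have k6 := norm_add_le (D1.comp (D2 - D4)) ((D1 - D3).comp D4)
  have k7 := ContinuousLinearMap.opNorm_comp_le D1 (D2 - D4)
  have k8 := ContinuousLinearMap.opNorm_comp_le (D1 - D3) D4
  have k9 : ‖D1‖ * ‖D2 - D4‖ ≤ B' * (4 * ε) := by
    apply mul_le_mul (hq2.trans (le_max_left _ _)) hq1 (norm_nonneg _) hB'0
  have k10 : B' * (4 * ε) + ε < ε' := by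
    have : ε' = ε * (4 * B' + 2) := by
      rw [hεdef]; field_simp
    rw [this]
    nlinarith
  linarith

end Pool.Agent.Lib.MP_4f3c81_gt.Inf
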