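import Pool.Agent.Lib.MP_4f3c81_gt.Inf.Stmts

/-!
# Smooth actions: joint continuity of all derivatives
-/

open Filter Topology Set Matrix MeasureTheory
open scoped ContDiff

namespace Pool.Agent.Lib.MP_4f3c81_gt.Inf

section

variable {P : Type} [TopologicalSpace P] {E : Type} [NormedAddCommGroup E] [NormedSpace ℝ E]

theorem a3_congr (k : ℕ) {E' : Type} [NormedAddCommGroup E'] [NormedSpace ℝ E']
    {F F' : P → E → E'} (h : F = F') (hF : JC k F) : JC k F' := h ▸ hF

theorem a3_diff {k : ℕ} {E' : Type} [NormedAddCommGroup E'] [NormedSpace ℝ E']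
    {F : P → E → E'} (h : JC (k + 1) F) : ∀ p, Differentiable ℝ (F p) := h.1

theorem a3_const (k : ℕ) : ∀ {E' : Type} [NormedAddCommGroup E'] [NormedSpace ℝ E'] (c : E'),
    JC k (fun (_ : P) (_ : E) => c) := by
  induction k with
  | zero =>
    intro E' _ _ c
    exact continuous_const
  | succ k ih =>
    intro E' _ _ c
    refine ⟨fun p => differentiable_const c, continuous_const, ?_⟩
    refine a3_congr k ?_ (ih (0 : E →L[ℝ] E'))
    funext p x
    exact (fderiv_const_apply c).symm

theorem a3_add (k : ℕ) : ∀ {E' : Type} [NormedAddCommGroup E'] [NormedSpace ℝ E']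
    {F F' : P → E → E'}, JC k F → JC k F' → JC k (fun p x => F p x + F' p x) := by
  induction k with
  | zero =>
    intro E' _ _ F F' hF hF'
    exact Continuous.add hF hF'
  | succ k ih =>
    intro E' _ _ F F' hF hF'
    refine ⟨fun p => (hF.1 p).add (hF'.1 p), hF.2.1.add hF'.2.1, ?_⟩
    refine a3_congr k ?_ (ih hF.2.2 hF'.2.2)
    funext p x
    exact (fderiv_add (hF.1 p x) (hF'.1 p x)).symm

theorem a3_sum (k : ℕ) {E' : Type} [NormedAddCommGroup E'] [NormedSpace ℝ E']
    {ι : Type} (s : Finset ι) (F : ι → P → E → E') (hF : ∀ i ∈ s, JC k (F i)) :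
    JC k (fun p x => ∑ i ∈ s, F i p x) := by
  classical
  induction s using Finset.induction_on with
  | empty => exact a3_congr k (by funext p x; simp) (a3_const k (0 : E'))
  | insert a s ha ih =>
    have h1 := a3_add k (hF a (Finset.mem_insert_self a s))
      (ih fun i hi => hF i (Finset.mem_insert_of_mem hi))
    refine a3_congr k ?_ h1
    funext p x
    rw [Finset.sum_insert ha]

/-- the operator `T ↦ l ∘ T ∘ a` -/
noncomputable def a3_op {E₁ E₂ E₃ : Type} [NormedAddCommGroup E₁] [NormedSpace ℝ E₁]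
    [NormedAddCommGroup E₂] [NormedSpace ℝ E₂] [NormedAddCommGroup E₃] [NormedSpace ℝ E₃]
    (l : E₂ →L[ℝ] E₃) (a : E →L[ℝ] E₁) : (E₁ →L[ℝ] E₂) →L[ℝ] (E →L[ℝ] E₃) :=
  (ContinuousLinearMap.compL ℝ E E₂ E₃ l).comp ((ContinuousLinearMap.compL ℝ E E₁ E₂).flip a)

theorem a3_op_apply {E₁ E₂ E₃ : Type} [NormedAddCommGroup E₁] [NormedSpace ℝ E₁]
    [NormedAddCommGroup E₂] [NormedSpace ℝ E₂] [NormedAddCommGroup E₃] [NormedSpace ℝ E₃]
    (l : E₂ →L[ℝ] E₃) (a : E →L[ℝ] E₁) (T : E₁ →L[ℝ] E₂) :
    a3_op l a T = l.comp (T.comp a) := rfl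

theorem a3_sub (k : ℕ) : ∀ {E₁ E₂ E₃ : Type} [NormedAddCommGroup E₁] [NormedSpace ℝ E₁]
    [NormedAddCommGroup E₂] [NormedSpace ℝ E₂] [NormedAddCommGroup E₃] [NormedSpace ℝ E₃]
    (l : E₂ →L[ℝ] E₃) (a : E →L[ℝ] E₁) (b : E₁) {F : P → E₁ → E₂}, JC k F →
    JC k (fun (p : P) (x : E) => l (F p (a x + b))) := by
  induction k with
  | zero =>
    intro E₁ E₂ E₃ _ _ _ _ _ _ l a b F hF
    have h0 : Continuous fun q : P × E₁ => F q.1 q.2 := hF
    change Continuous fun q : P × E => l (F q.1 (a q.2 + b))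
    have h1 : Continuous fun q : P × E => (q.1, a q.2 + b) :=
      continuous_fst.prodMk ((a.continuous.comp continuous_snd).add continuous_const)
    exact l.continuous.comp (h0.comp h1)
  | succ k ih =>
    intro E₁ E₂ E₃ _ _ _ _ _ _ l a b F hF
    have ha : ∀ x : E, HasFDerivAt (fun x : E => a x + b) a x := fun x =>
      a.hasFDerivAt.add_const b
    have hd : ∀ (p : P) (x : E), HasFDerivAt (fun x : E => l (F p (a x + b)))
        (l.comp ((fderiv ℝ (F p) (a x + b)).comp a)) x := by
      intro p x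
      have h1 : HasFDerivAt (F p) (fderiv ℝ (F p) (a x + b)) (a x + b) :=
        (hF.1 p (a x + b)).hasFDerivAt
      exact l.hasFDerivAt.comp x (h1.comp x (ha x))
    have h0 : Continuous fun q : P × E₁ => F q.1 q.2 := hF.2.1
    refine ⟨fun p x => (hd p x).differentiableAt, ?_, ?_⟩
    · have h1 : Continuous fun q : P × E => (q.1, a q.2 + b) :=
        continuous_fst.prodMk ((a.continuous.comp continuous_snd).add continuous_const)
      exact l.continuous.comp (h0.comp h1)
    · refine a3_congr k ?_ (ih (a3_op l a) a b hF.2.2)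
      funext p x
      rw [a3_op_apply, (hd p x).fderiv]

end

section

variable {G E : Type} [Group G] [TopologicalSpace G]
  [NormedAddCommGroup E] [NormedSpace ℝ E] {A : G → E → E}

/-- the tangent action -/
noncomputable def a3_TA (A : G → E → E) (g : G) (p : E × E) : E × E :=
  (A g p.1, fderiv ℝ (A g) p.1 p.2)

theorem a3_act (hA : SAct G E A) (hc : Continuous fun q : G × E => fderiv ℝ (A q.1) q.2) :
    SAct G (E × E) (a3_TA A) := by
  have hdiff : ∀ g, Differentiable ℝ (A g) := fun g =>
    (hA.smooth g).differentiable (by simp)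
  refine ⟨?_, ?_, ?_, ?_⟩
  · rintro ⟨x, v⟩
    have h1 : A 1 = id := by
      funext y
      exact hA.one y
    unfold a3_TA
    simp only [h1, fderiv_id]
    rfl
  · rintro g h ⟨x, v⟩
    have h1 : A (g * h) = A g ∘ A h := by
      funext y
      exact hA.mul g h y
    unfold a3_TA
    simp only [h1]
    rw [fderiv_comp x (hdiff g _) (hdiff h _)]
    rfl
  · unfold a3_TA
    have h1 : Continuous fun q : G × (E × E) => (q.1, q.2.1) :=
      continuous_fst.prodMk (continuous_fst.comp continuous_snd)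
    exact (hA.cont.comp h1).prodMk
      ((hc.comp h1).clm_apply (continuous_snd.comp continuous_snd))
  · intro g
    unfold a3_TA
    refine ((hA.smooth g).comp contDiff_fst).prodMk ?_
    have h1 : ContDiff ℝ ∞ (fderiv ℝ (A g)) := (hA.smooth g).fderiv_right (by simp)
    exact (h1.comp contDiff_fst).clm_apply contDiff_snd

end

theorem p_A3 (hA2 : S_A2) : S_A3 := by
  intro G E _ _ _ _ _ _ _ A hA k
  induction k generalizing E with
  | zero => exact hA.cont
  | succ k ih =>
    rename_i i1 i2 i3
    have hc := hA2 G E A hA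
    have hT := a3_act hA hc
    have hJ : JC k (a3_TA A) := ih (E × E) (a3_TA A) hT
    refine ⟨fun g => (hA.smooth g).differentiable (by simp), hA.cont, ?_⟩
    let b := Module.finBasis ℝ E
    have h1 : ∀ i : Fin (Module.finrank ℝ E), JC k (fun (g : G) (x : E) =>
        (((ContinuousLinearMap.smulRightL ℝ E E (LinearMap.toContinuousLinearMap (b.coord i))).comp
          (ContinuousLinearMap.snd ℝ E E)) (a3_TA A g
            ((ContinuousLinearMap.inl ℝ E E) x + ((0 : E), b i))))) := fun i =>
      a3_sub k _ _ _ hJ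
    refine a3_congr k ?_ (a3_sum k Finset.univ _ fun i _ => h1 i)
    funext g x
    ext v
    simp only [_root_.sum_apply, ContinuousLinearMap.comp_apply,
      ContinuousLinearMap.smulRightL_apply_apply, ContinuousLinearMap.smulRight_apply,
      ContinuousLinearMap.inl_apply, ContinuousLinearMap.coe_snd', Prod.mk_add_mk, add_zero,
      zero_add, a3_TA, LinearMap.coe_toContinuousLinearMap', Module.Basis.coord_apply]
    conv_rhs => rw [← b.sum_repr v, map_sum]
    exact Finset.sum_congr rfl fun i _ => (map_smul _ _ _).symm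

end Pool.Agent.Lib.MP_4f3c81_gt.Inf
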