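import Pool.Agent.Lib.MP_4f3c81_gt.Inf.Stmts

/-!
# Smoothness of parameter integrals
-/

open Filter Topology Set Matrix MeasureTheory
open scoped ContDiff

namespace Pool.Agent.Lib.MP_4f3c81_gt.Inf

private theorem a4_cont {P : Type} [TopologicalSpace P] {E : Type} [NormedAddCommGroup E]
    [NormedSpace ℝ E] (k : ℕ) {E' : Type} [NormedAddCommGroup E'] [NormedSpace ℝ E']
    {F : P → E → E'} (h : JC k F) : Continuous fun q : P × E => F q.1 q.2 := by
  cases k with
  | zero => exact h
  | succ k => exact h.2.1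

private theorem a4_int {P : Type} [TopologicalSpace P] [CompactSpace P]
    [SecondCountableTopology P] [MeasurableSpace P] [BorelSpace P] (μ : Measure P)
    [IsFiniteMeasure μ] {E' : Type} [NormedAddCommGroup E'] {f : P → E'} (hf : Continuous f) :
    Integrable f μ :=
  hf.integrable_of_hasCompactSupport (HasCompactSupport.of_compactSpace f)

private theorem a4_continuous {P : Type} [TopologicalSpace P] [CompactSpace P]
    [SecondCountableTopology P] [MeasurableSpace P] [BorelSpace P] (μ : Measure P)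
    [IsFiniteMeasure μ] {E : Type} [NormedAddCommGroup E] [NormedSpace ℝ E]
    [FiniteDimensional ℝ E] {E' : Type} [NormedAddCommGroup E'] [NormedSpace ℝ E']
    {F : P → E → E'} (hF : Continuous fun q : P × E => F q.1 q.2) :
    Continuous fun x => ∫ p, F p x ∂μ := by
  have hf : Continuous (Function.uncurry fun (x : E) (p : P) => F p x) :=
    hF.comp (continuous_snd.prodMk continuous_fst)
  have h1 := continuous_parametric_integral_of_continuous (μ := μ) hf isCompact_univ
  simpa only [Measure.restrict_univ] using h1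

private theorem a4_fderiv {P : Type} [TopologicalSpace P] [CompactSpace P]
    [SecondCountableTopology P] [MeasurableSpace P] [BorelSpace P] (μ : Measure P)
    [IsFiniteMeasure μ] {E : Type} [NormedAddCommGroup E] [NormedSpace ℝ E]
    [FiniteDimensional ℝ E] {E' : Type} [NormedAddCommGroup E'] [NormedSpace ℝ E']
    {F : P → E → E'} (hF : Continuous fun q : P × E => F q.1 q.2)
    (hd : ∀ p, Differentiable ℝ (F p))
    (hF' : Continuous fun q : P × E => fderiv ℝ (F q.1) q.2) (x : E) :
    HasFDerivAt (fun x => ∫ p, F p x ∂μ) (∫ p, fderiv ℝ (F p) x ∂μ) x := by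
  have hcomp : IsCompact ((Set.univ : Set P) ×ˢ Metric.closedBall x 1) :=
    isCompact_univ.prod (isCompact_closedBall x 1)
  obtain ⟨C, hC⟩ := (hcomp.image hF'.norm).bddAbove
  have hC' : ∀ p : P, ∀ y ∈ Metric.closedBall x 1, ‖fderiv ℝ (F p) y‖ ≤ C := by
    intro p y hy
    exact hC ⟨(p, y), ⟨Set.mem_univ _, hy⟩, rfl⟩
  have hc1 : ∀ y, Continuous fun p => F p y := fun y =>
    hF.comp (continuous_id.prodMk continuous_const)
  have hc2 : Continuous fun p => fderiv ℝ (F p) x :=
    hF'.comp (continuous_id.prodMk continuous_const)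
  exact hasFDerivAt_integral_of_dominated_of_fderiv_le (𝕜 := ℝ) (F := fun y p => F p y)
    (F' := fun y p => fderiv ℝ (F p) y) (bound := fun _ => C)
    (Metric.closedBall_mem_nhds x one_pos)
    (Eventually.of_forall fun y => (hc1 y).aestronglyMeasurable)
    (a4_int μ (hc1 x)) hc2.aestronglyMeasurable
    (Eventually.of_forall fun p y hy => hC' p y hy) (integrable_const C)
    (Eventually.of_forall fun p y _ => (hd p y).hasFDerivAt)

private theorem a4_contDiff {P : Type} [TopologicalSpace P] [CompactSpace P]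
    [SecondCountableTopology P] [MeasurableSpace P] [BorelSpace P] (μ : Measure P)
    [IsFiniteMeasure μ] {E : Type} [NormedAddCommGroup E] [NormedSpace ℝ E]
    [FiniteDimensional ℝ E] (k : ℕ) : ∀ {E' : Type} [NormedAddCommGroup E'] [NormedSpace ℝ E']
    {F : P → E → E'}, JC k F → ContDiff ℝ k (fun x => ∫ p, F p x ∂μ) := by
  induction k with
  | zero =>
    intro E' _ _ F hF
    have h1 := a4_continuous μ (a4_cont 0 hF)
    exact_mod_cast contDiff_zero.2 h1
  | succ k ih =>
    intro E' _ _ F hF
    obtain ⟨hd, hc, hF'⟩ := hF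
    have hder := a4_fderiv μ hc hd (a4_cont k hF')
    have h2 : fderiv ℝ (fun x => ∫ p, F p x ∂μ) = fun x => ∫ p, fderiv ℝ (F p) x ∂μ :=
      funext fun x => (hder x).fderiv
    have h3 : ContDiff ℝ ((k : ℕ∞ω) + 1) (fun x => ∫ p, F p x ∂μ) := by
      rw [contDiff_succ_iff_fderiv]
      refine ⟨fun x => (hder x).differentiableAt, fun h => absurd h (by simp), ?_⟩
      rw [h2]
      exact ih hF'
    exact_mod_cast h3

theorem p_A4 : S_A4 := by
  intro P E E' _ _ _ _ _ μ _ _ _ _ _ _ _ k F hF
  refine ⟨a4_contDiff μ k hF, ?_⟩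
  intro hk x
  obtain ⟨k, rfl⟩ : ∃ m, k = m + 1 := ⟨k - 1, by omega⟩
  obtain ⟨hd, hc, hF'⟩ := hF
  exact a4_fderiv μ hc hd (a4_cont k hF') x

end Pool.Agent.Lib.MP_4f3c81_gt.Inf
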