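import Pool.Agent.Lib.MP_4f3c81_gt.Inf.Stmts

/-!
# Averaging over a compact group
-/

open Filter Topology Set Matrix MeasureTheory
open scoped ContDiff

namespace Pool.Agent.Lib.MP_4f3c81_gt.Inf

/-- continuous change of the parameter -/
private theorem b1_reparam {P P' : Type} [TopologicalSpace P] [TopologicalSpace P'] {E : Type}
    [NormedAddCommGroup E] [NormedSpace ℝ E] (f : P' → P) (hf : Continuous f) :
    ∀ (k : ℕ) {E' : Type} [NormedAddCommGroup E'] [NormedSpace ℝ E'] (F : P → E → E'),
      JC k F → JC k (fun p x => F (f p) x)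
  | 0, _, _, _, F, h => by
    have h' : Continuous fun q : P × E => F q.1 q.2 := h
    exact h'.comp ((hf.comp continuous_fst).prodMk continuous_snd)
  | k + 1, _, _, _, F, h => by
    obtain ⟨h1, h2, h3⟩ := h
    exact ⟨fun p => h1 (f p), h2.comp ((hf.comp continuous_fst).prodMk continuous_snd),
      b1_reparam f hf k _ h3⟩

/-- parameter dependent linear maps -/
private theorem b1_clm {P : Type} [TopologicalSpace P] {E : Type}
    [NormedAddCommGroup E] [NormedSpace ℝ E] :
    ∀ (k : ℕ) {E' E'' : Type} [NormedAddCommGroup E'] [NormedSpace ℝ E']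
      [NormedAddCommGroup E''] [NormedSpace ℝ E''] (F : P → E → E') (L : P → E' →L[ℝ] E''),
      Continuous L → JC k F → JC k (fun p x => L p (F p x))
  | 0, _, _, _, _, _, _, F, L, hL, h => by
    have h' : Continuous fun q : P × E => F q.1 q.2 := h
    exact (hL.comp continuous_fst).clm_apply h'
  | k + 1, E', E'', _, _, _, _, F, L, hL, h => by
    obtain ⟨h1, h2, h3⟩ := h
    refine ⟨fun p => (L p).differentiable.comp (h1 p), (hL.comp continuous_fst).clm_apply h2, ?_⟩
    have h4 : (fun (p : P) (x : E) => fderiv ℝ (fun y => L p (F p y)) x) =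
        fun p x => (ContinuousLinearMap.compL ℝ E E' E'' (L p)) (fderiv ℝ (F p) x) := by
      funext p x
      exact ((L p).hasFDerivAt.comp x (h1 p x).hasFDerivAt).fderiv
    rw [h4]
    exact b1_clm k _ _ ((ContinuousLinearMap.compL ℝ E E' E'').continuous.comp hL) h3

theorem p_B1 (hA2 : S_A2) (hA3 : S_A3) (hA4 : S_A4) : S_B1 := by
  intro K E _ _ _ _ _ _ _ _ _ A hA h0
  -- Haar probability
  let _ : MeasurableSpace K := borel K
  have hB : BorelSpace K := ⟨rfl⟩
  let K₀ : TopologicalSpace.PositiveCompacts K := ⊤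
  let μ : Measure K := Measure.haarMeasure K₀
  have hμ1 : μ univ = 1 := by
    have h := Measure.haarMeasure_self (K₀ := K₀)
    have h' : ((K₀ : TopologicalSpace.PositiveCompacts K) : Set K) = univ := rfl
    rw [h'] at h
    exact h
  have hμp : IsProbabilityMeasure μ := ⟨hμ1⟩
  have hμi : μ.IsMulLeftInvariant := Measure.isMulLeftInvariant_haarMeasure K₀
  -- linear parts
  set ρ : K → E →L[ℝ] E := fun k => fderiv ℝ (A k) 0 with hρ
  have hdiff : ∀ k, Differentiable ℝ (A k) := fun k =>
    (hA.smooth k).differentiable (by simp)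
  have hρc : Continuous ρ := (hA2 K E A hA).comp (continuous_id.prodMk continuous_const)
  have hρmul : ∀ k l, ρ (k * l) = (ρ k).comp (ρ l) := by
    intro k l
    have h1 : A (k * l) = A k ∘ A l := by
      funext x
      exact hA.mul k l x
    change fderiv ℝ (A (k * l)) 0 = (fderiv ℝ (A k) 0).comp (fderiv ℝ (A l) 0)
    rw [h1, fderiv_comp 0 (by rw [h0 l]; exact hdiff k 0) (hdiff l 0), h0 l]
  have hρ1 : ρ 1 = ContinuousLinearMap.id ℝ E := by
    have h1 : A 1 = id := by
      funext x
      exact hA.one x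
    change fderiv ℝ (A 1) 0 = _
    rw [h1]
    exact fderiv_id
  -- the integrand
  set F : K → E → E := fun k x => ρ k (A k⁻¹ x) with hF
  have hFJ : ∀ n : ℕ, JC n F := by
    intro n
    exact b1_clm n (fun (k : K) (x : E) => A k⁻¹ x) ρ hρc
      (b1_reparam (fun k : K => k⁻¹) continuous_inv n A (hA3 K E A hA n))
  have hFc : Continuous fun q : K × E => F q.1 q.2 := hFJ 0
  have hFi : ∀ x, Integrable (fun k => F k x) μ := by
    intro x
    have h1 : Continuous fun k => F k x := hFc.comp (continuous_id.prodMk continuous_const)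
    exact h1.integrable_of_hasCompactSupport (HasCompactSupport.of_compactSpace _)
  refine ⟨fun x => ∫ k, F k x ∂μ, ?_, ?_, ?_, ?_⟩
  · rw [contDiff_infty]
    intro n
    exact (hA4 K E E μ n F (hFJ n)).1
  · beta_reduce
    have h1 : ∀ k, F k 0 = 0 := by
      intro k
      change ρ k (A k⁻¹ 0) = 0
      rw [h0, map_zero]
    simp only [h1]
    exact integral_zero _ _
  · have h1 := ((hA4 K E E μ 1 F (hFJ 1)).2 le_rfl 0).fderiv
    rw [h1]
    have h2 : ∀ k, fderiv ℝ (F k) 0 = ContinuousLinearMap.id ℝ E := by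
      intro k
      have h3 : fderiv ℝ (F k) 0 = (ρ k).comp (ρ k⁻¹) :=
        ((ρ k).hasFDerivAt.comp (0 : E) (hdiff k⁻¹ 0).hasFDerivAt).fderiv
      rw [h3, ← hρmul, mul_inv_cancel, hρ1]
    simp only [h2]
    rw [integral_const]
    simp [measureReal_def, hμ1]
  · intro l x
    beta_reduce
    have h1 : ∀ k, F k (A l x) = ρ k (A (k⁻¹ * l) x) := by
      intro k
      change ρ k (A k⁻¹ (A l x)) = _
      rw [← hA.mul]
    simp only [h1]
    have h2 := integral_mul_left_eq_self (μ := μ) (fun k => ρ k (A (k⁻¹ * l) x)) l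
    rw [← h2]
    have h3 : ∀ k, ρ (l * k) (A ((l * k)⁻¹ * l) x) = ρ l (F k x) := by
      intro k
      rw [hρmul]
      change ρ l (ρ k (A ((l * k)⁻¹ * l) x)) = ρ l (ρ k (A k⁻¹ x))
      have h4 : (l * k)⁻¹ * l = k⁻¹ := by group
      rw [h4]
    simp only [h3]
    exact ContinuousLinearMap.integral_comp_comm (ρ l) (hFi x)

end Pool.Agent.Lib.MP_4f3c81_gt.Inf
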