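import Pool.Agent.Lib.MP_4f3c81_gt.Inf.Stmts

open Filter Topology Set Matrix
open scoped ContDiff

namespace Pool.Agent.Lib.MP_4f3c81_gt.Inf

private theorem c1_inv {E : Type} [NormedAddCommGroup E] [NormedSpace ℝ E] [CompleteSpace E]
    (φ : E → E) (hφ : ContDiff ℝ ∞ φ) (h0 : φ 0 = 0)
    (hd : fderiv ℝ φ 0 = ContinuousLinearMap.id ℝ E) :
    ∃ Φ : OpenPartialHomeomorph E E, (Φ : E → E) = φ ∧ (0 : E) ∈ Φ.source ∧ Φ.symm 0 = 0 ∧
      ∃ δ > 0, Metric.ball (0 : E) δ ⊆ Φ.target ∧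
        ContDiffOn ℝ ∞ Φ.symm (Metric.ball 0 δ) := by
  have hdiff : Differentiable ℝ φ := hφ.differentiable (by simp)
  have hf' : HasFDerivAt φ ((ContinuousLinearEquiv.refl ℝ E : E ≃L[ℝ] E) : E →L[ℝ] E) 0 := by
    have h1 := (hdiff 0).hasFDerivAt
    rw [hd] at h1
    exact h1
  have hat : ContDiffAt ℝ ∞ φ 0 := hφ.contDiffAt
  obtain ⟨Φ, hΦ, hsrc⟩ : ∃ Φ : OpenPartialHomeomorph E E, (Φ : E → E) = φ ∧
      (0 : E) ∈ Φ.source :=
    ⟨hat.toOpenPartialHomeomorph φ hf' (by simp), rfl,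
      hat.mem_toOpenPartialHomeomorph_source hf' (by simp)⟩
  have hs0 : Φ.symm 0 = 0 := by
    have h1 := Φ.left_inv hsrc
    rw [hΦ, h0] at h1
    exact h1
  have ht0 : (0 : E) ∈ Φ.target := by
    have h1 := Φ.map_source hsrc
    rw [hΦ, h0] at h1
    exact h1
  have hopen : IsOpen (fderiv ℝ φ ⁻¹' range ((↑) : (E ≃L[ℝ] E) → E →L[ℝ] E)) :=
    ContinuousLinearEquiv.isOpen.preimage (hφ.continuous_fderiv (by simp))
  have hV : IsOpen (Φ.target ∩ Φ.symm ⁻¹'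
      (fderiv ℝ φ ⁻¹' range ((↑) : (E ≃L[ℝ] E) → E →L[ℝ] E))) :=
    Φ.isOpen_inter_preimage_symm hopen
  have h0V : (0 : E) ∈ Φ.target ∩ Φ.symm ⁻¹'
      (fderiv ℝ φ ⁻¹' range ((↑) : (E ≃L[ℝ] E) → E →L[ℝ] E)) := by
    refine ⟨ht0, ?_⟩
    change fderiv ℝ φ (Φ.symm 0) ∈ range ((↑) : (E ≃L[ℝ] E) → E →L[ℝ] E)
    rw [hs0, hd]
    exact ⟨ContinuousLinearEquiv.refl ℝ E, rfl⟩
  obtain ⟨δ, hδ, hball⟩ := Metric.isOpen_iff.1 hV 0 h0V
  refine ⟨Φ, hΦ, hsrc, hs0, δ, hδ, fun y hy => (hball hy).1, fun y hy => ?_⟩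
  obtain ⟨hy1, e, he⟩ := hball hy
  refine ContDiffAt.contDiffWithinAt ?_
  refine Φ.contDiffAt_symm (f₀' := e) hy1 ?_ ?_
  · rw [hΦ, he]
    exact (hdiff _).hasFDerivAt
  · rw [hΦ]
    exact hφ.contDiffAt

theorem p_C1 (hB1 : S_B1) (hK1 : S_K1) (hK3 : S_K3) : S_C1 := by
  intro n q A hA hA0 hAd
  have : CompactSpace (KK n) := isCompact_iff_compactSpace.1 (hK1 n)
  have hKA : SAct (KK n) (FF n q) (fun k => A k.1) := by
    refine ⟨fun x => hA.one x, fun g h x => hA.mul g.1 h.1 x, ?_, fun g => hA.smooth g.1⟩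
    exact hA.cont.comp ((continuous_subtype_val.comp continuous_fst).prodMk continuous_snd)
  obtain ⟨φ, hφ, hφ0, hφd, hφk⟩ := hB1 (KK n) (FF n q) (fun k => A k.1) hKA
    (fun k => hA0 k.1)
  have hφk' : ∀ k ∈ KK n, ∀ x, φ (A k x) = st k (φ x) := by
    intro k hk x
    have h1 := hφk ⟨k, hk⟩ x
    rw [hAd] at h1
    exact h1
  obtain ⟨Φ, hΦ, hsrc, hs0, δ₁, hδ₁, hball, hsm⟩ := c1_inv φ hφ hφ0 hφd
  have hψ0 : ContinuousAt Φ.symm (0 : FF n q) :=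
    (hsm.continuousOn).continuousAt (Metric.ball_mem_nhds _ hδ₁)
  have hev : ∀ᶠ y in 𝓝 (0 : FF n q), ∀ k ∈ (KK n : Set (SLn n)),
      A k (Φ.symm y) ∈ Φ.source := by
    refine (hK1 n).eventually_forall_of_forall_eventually fun k _ => ?_
    have hc : ContinuousAt (fun z : FF n q × SLn n => A z.2 (Φ.symm z.1)) (0, k) := by
      have h2 : ContinuousAt (fun z : FF n q × SLn n => (z.2, Φ.symm z.1)) (0, k) :=
        continuousAt_snd.prodMk (ContinuousAt.comp (f := Prod.fst) hψ0 continuousAt_fst)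
      exact ContinuousAt.comp (f := fun z : FF n q × SLn n => (z.2, Φ.symm z.1))
        (g := fun p : SLn n × FF n q => A p.1 p.2) hA.cont.continuousAt h2
    have hmem : Φ.source ∈ 𝓝 ((fun z : FF n q × SLn n => A z.2 (Φ.symm z.1)) (0, k)) := by
      have h3 : (fun z : FF n q × SLn n => A z.2 (Φ.symm z.1)) (0, k) = 0 := by
        change A k (Φ.symm 0) = 0
        rw [hs0, hA0]
      rw [h3]
      exact Φ.open_source.mem_nhds hsrc
    exact hc.eventually hmem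
  obtain ⟨δ₂, hδ₂, h₂⟩ := Metric.eventually_nhds_iff_ball.1 hev
  refine ⟨φ, Φ.symm, min δ₁ δ₂, hA, hA0, hAd, hφ, hφ0, hφd, hφk', lt_min hδ₁ hδ₂,
    hsm.mono (Metric.ball_subset_ball (min_le_left _ _)), hs0, fun y hy => ?_, ?_,
    fun k hk y hy => ?_⟩
  · have h1 := Φ.right_inv (hball (Metric.ball_subset_ball (min_le_left _ _) hy))
    rw [hΦ] at h1
    exact h1
  · filter_upwards [Φ.open_source.mem_nhds hsrc] with x hx
    have h1 := Φ.left_inv hx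
    rw [hΦ] at h1
    exact h1
  · have hy1 := hball (Metric.ball_subset_ball (min_le_left _ _) hy)
    have hy2 := h₂ y (Metric.ball_subset_ball (min_le_right _ _) hy) k hk
    have h1 : φ (Φ.symm y) = y := by
      have h4 := Φ.right_inv hy1
      rw [hΦ] at h4
      exact h4
    have h5 := Φ.left_inv hy2
    rw [hΦ, hφk' k hk, h1] at h5
    exact h5

end Pool.Agent.Lib.MP_4f3c81_gt.Inf
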