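import Pool.Agent.Lib.MP_4f3c81_gt.Inf.Stmts

/-!
# The points `(0, z)` are fixed
-/

open Filter Topology Set Matrix MeasureTheory
open scoped ContDiff

namespace Pool.Agent.Lib.MP_4f3c81_gt.Inf

/-- the stabiliser of a point -/
private def c2_stab {n q : ℕ} {A : SLn n → FF n q → FF n q} (hA : SAct (SLn n) (FF n q) A)
    (P : FF n q) : Subgroup (SLn n) where
  carrier := {g | A g P = P}
  one_mem' := hA.one P
  mul_mem' := by
    intro g h hg hh
    change A (g * h) P = P
    rw [hA.mul, hh, hg]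
  inv_mem' := by
    intro g hg
    change A g⁻¹ P = P
    have hg' : A g P = P := hg
    conv_lhs => rw [← hg']
    rw [← hA.mul, inv_mul_cancel, hA.one]

private theorem c2_mem {n q : ℕ} {A : SLn n → FF n q → FF n q} (hA : SAct (SLn n) (FF n q) A)
    (P : FF n q) (g : SLn n) : g ∈ c2_stab hA P ↔ A g P = P := Iff.rfl

private theorem c2_st_zero {n q : ℕ} (g : SLn n) (z : VV q) :
    st g ((0 : VV n), z) = ((0 : VV n), z) := by
  rw [st_apply, map_zero]

/-- a vector fixed by all sign matrices has first component zero -/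
private theorem c2_fixed {n q : ℕ} (hn : 4 ≤ n) (y : FF n q)
    (h : ∀ k l : Fin n, st (sg k l) y = y) : y.1 = 0 := by
  ext m
  obtain ⟨l, hl⟩ : ∃ l : Fin n, l ≠ m := by
    by_cases hm : m = ⟨0, by omega⟩
    · refine ⟨⟨1, by omega⟩, ?_⟩
      rw [hm]
      intro h
      have := congrArg Fin.val h
      simp at this
    · exact ⟨⟨0, by omega⟩, fun h => hm h.symm⟩
  have h1 := congrArg (fun p : FF n q => p.1 m) (h m l)
  beta_reduce at h1
  rw [st_apply'] at h1
  have h2 : (TM (sg m l).1 y.1) m = -(y.1 m) := by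
    rw [TM_sg_apply]
    unfold sgn
    rw [if_pos rfl, if_neg (fun h => hl h.symm)]
    ring
  have h3 : (TM (sg m l).1 y.1) m = y.1 m := h1
  rw [h2] at h3
  have : y.1 m = 0 := by linarith
  rw [this]
  rfl

theorem p_C2 (hG2 : S_G2) (hK3 : S_K3) : S_C2 := by
  intro n q hn A φ ψ δ hC
  -- the ball on which `ψ ∘ φ` is the identity
  obtain ⟨r, hr, hrb⟩ := Metric.eventually_nhds_iff_ball.1 hC.psi_phi
  -- continuity
  have hψc : ContinuousAt ψ 0 :=
    (hC.psi_smooth.continuousOn).continuousAt (Metric.ball_mem_nhds _ hC.pos)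
  have hin : ContinuousAt (fun z : VV q => ψ ((0 : VV n), z)) 0 := by
    have h1 : ContinuousAt (fun z : VV q => ((0 : VV n), z)) 0 :=
      (continuous_const.prodMk continuous_id).continuousAt
    exact ContinuousAt.comp (f := fun z : VV q => ((0 : VV n), z)) (g := ψ) (x := 0) hψc h1
  have hcA : ContinuousAt (fun p : SLn n × VV q => A p.1 (ψ ((0 : VV n), p.2))) (1, 0) := by
    have h1 : ContinuousAt (fun p : SLn n × VV q => (p.1, ψ ((0 : VV n), p.2))) (1, 0) := by
      refine ContinuousAt.prodMk continuous_fst.continuousAt ?_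
      exact ContinuousAt.comp (f := fun p : SLn n × VV q => p.2)
        (g := fun z : VV q => ψ ((0 : VV n), z)) (x := ((1 : SLn n), (0 : VV q)))
        hin continuous_snd.continuousAt
    exact ContinuousAt.comp (f := fun p : SLn n × VV q => (p.1, ψ ((0 : VV n), p.2)))
      (g := fun p : SLn n × FF n q => A p.1 p.2) (x := ((1 : SLn n), (0 : VV q)))
      hC.act.cont.continuousAt h1
  have hval : A 1 (ψ ((0 : VV n), (0 : VV q))) = 0 := by
    rw [hC.act.one]
    exact hC.psi0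
  have hev1 : ∀ᶠ p in 𝓝 ((1 : SLn n), (0 : VV q)),
      A p.1 (ψ ((0 : VV n), p.2)) ∈ Metric.ball (0 : FF n q) r := by
    apply hcA
    change Metric.ball (0 : FF n q) r ∈ 𝓝 (A 1 (ψ ((0 : VV n), (0 : VV q))))
    rw [hval]
    exact Metric.ball_mem_nhds _ hr
  have hev2 : ∀ᶠ p in 𝓝 ((1 : SLn n), (0 : VV q)),
      φ (A p.1 (ψ ((0 : VV n), p.2))) ∈ Metric.ball (0 : FF n q) δ := by
    have h1 : ContinuousAt (fun p : SLn n × VV q => φ (A p.1 (ψ ((0 : VV n), p.2)))) (1, 0) :=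
      ContinuousAt.comp (f := fun p : SLn n × VV q => A p.1 (ψ ((0 : VV n), p.2)))
        (g := φ) (x := ((1 : SLn n), (0 : VV q))) hC.phi_smooth.continuous.continuousAt hcA
    apply h1
    change Metric.ball (0 : FF n q) δ ∈ 𝓝 (φ (A 1 (ψ ((0 : VV n), (0 : VV q)))))
    rw [hval, hC.phi0]
    exact Metric.ball_mem_nhds _ hC.pos
  obtain ⟨N, hN, Z, hZ, hNZ⟩ := mem_nhds_prod_iff.1 (hev1.and hev2)
  obtain ⟨δ₁, hδ₁, hδZ⟩ := Metric.mem_nhds_iff.1 hZ
  refine ⟨min δ δ₁, lt_min hC.pos hδ₁, fun z hz g => ?_⟩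
  have hzδ : ‖z‖ < δ := lt_of_lt_of_le hz (min_le_left _ _)
  have hzZ : z ∈ Z := hδZ (by
    rw [mem_ball_zero_iff]
    exact lt_of_lt_of_le hz (min_le_right _ _))
  have hball : ((0 : VV n), z) ∈ Metric.ball (0 : FF n q) δ := by
    rw [mem_ball_zero_iff, Prod.norm_mk, norm_zero, max_eq_right (norm_nonneg z)]
    exact hzδ
  -- points `ψ (0, z')` are fixed by `KK`
  have hK : ∀ z' : VV q, ((0 : VV n), z') ∈ Metric.ball (0 : FF n q) δ → ∀ k ∈ KK n,
      A k (ψ ((0 : VV n), z')) = ψ ((0 : VV n), z') := by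
    intro z' hz' k hk
    rw [← hC.psi_k k hk _ hz', c2_st_zero]
  have hle : KK n ≤ c2_stab hC.act (ψ ((0 : VV n), z)) := fun k hk => hK z hball k hk
  have htop : c2_stab hC.act (ψ ((0 : VV n), z)) = ⊤ := by
    apply hG2 n _ N hN hle
    intro i j h t ht hd k hk
    set d := dg i j h t ht with hdd
    obtain ⟨hb1, hb2⟩ := hNZ (mk_mem_prod hd hzZ)
    have hb1' : A d (ψ ((0 : VV n), z)) ∈ Metric.ball (0 : FF n q) r := hb1
    have hb2' : φ (A d (ψ ((0 : VV n), z))) ∈ Metric.ball (0 : FF n q) δ := hb2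
    set y := φ (A d (ψ ((0 : VV n), z))) with hy
    have hψy : ψ y = A d (ψ ((0 : VV n), z)) := hrb _ hb1'
    have hfix : ∀ k l : Fin n, st (sg k l) y = y := by
      intro k l
      have hs : sg k l ∈ KK n := (hK3 n).2.1 k l
      rw [hy, ← hC.phi_k _ hs, ← hC.act.mul, sg_mul_dg, hC.act.mul, hK z hball _ hs]
    have hy1 : y.1 = 0 := c2_fixed hn y hfix
    have hy2 : y = ((0 : VV n), y.2) := Prod.ext hy1 rfl
    have hkd : A k (A d (ψ ((0 : VV n), z))) = A d (ψ ((0 : VV n), z)) := by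
      rw [← hψy, hy2]
      exact hK y.2 (by rw [← hy2]; exact hb2') k hk
    rw [c2_mem, hC.act.mul, hC.act.mul, hkd, ← hC.act.mul, inv_mul_cancel, hC.act.one]
  have hg : g ∈ c2_stab hC.act (ψ ((0 : VV n), z)) := by
    rw [htop]
    exact Subgroup.mem_top g
  exact hg

end Pool.Agent.Lib.MP_4f3c81_gt.Inf
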