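import Pool.Agent.Lib.MP_4f3c81_gt.Inf.Stmts

/-!
# The derivative at the points `(0, z)`
-/

open Filter Topology Set Matrix
open scoped ContDiff

namespace Pool.Agent.Lib.MP_4f3c81_gt.Inf

private theorem c3_comm {E : Type} [NormedAddCommGroup E] [NormedSpace ℝ E]
    [FiniteDimensional ℝ E] {a b : E →L[ℝ] E}
    (h : a.comp b = ContinuousLinearMap.id ℝ E) : b.comp a = ContinuousLinearMap.id ℝ E := by
  have h1 : (a : E →ₗ[ℝ] E) * (b : E →ₗ[ℝ] E) = 1 := by
    apply LinearMap.ext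
    intro x
    exact congrArg (fun f : E →L[ℝ] E => f x) h
  have h2 : (b : E →ₗ[ℝ] E) * (a : E →ₗ[ℝ] E) = 1 := mul_eq_one_comm.mp h1
  apply ContinuousLinearMap.ext
  intro x
  exact congrArg (fun f : E →ₗ[ℝ] E => f x) h2

private theorem c3_norm {n q : ℕ} (z : VV q) : ‖((0, z) : FF n q)‖ = ‖z‖ := by
  rw [Prod.norm_def]
  simp

private theorem c3_ne {n q : ℕ} (i j : Fin n) (h : i ≠ j) :
    (st (tv i j h 1) : FF n q →L[ℝ] FF n q) ≠ st (invT (tv i j h 1)) := by
  intro h1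
  have h2 := congrArg (fun f : FF n q →L[ℝ] FF n q => (f (EuclideanSpace.single j 1, 0)).1 i) h1
  simp only [st_apply, TM_single] at h2
  have h3 : (tv i j h 1).1 i j = 1 := by
    rw [tv_val]
    simp [h]
  have h4 : (invT (tv i j h 1)).1 i j = 0 := by
    have h5 : (invT (tv i j h 1)).1 = ((tv i j h (-1)).1)ᵀ := by
      unfold invT
      rw [← tv_neg]
      rfl
    rw [h5, Matrix.transpose_apply, tv_val]
    simp [h, h.symm]
  rw [h3, h4] at h2
  norm_num at h2

theorem p_C3 (hA2 : S_A2) (hC2 : S_C2) (hR2 : S_R2) (hK3 : S_K3) : S_C3 := by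
  intro n q hn A φ ψ δ h
  obtain ⟨δ₁, hδ₁, hfix⟩ := hC2 n q hn A φ ψ δ h
  have hact := h.act
  have hlc : LocallyCompactSpace (SLn n) := isClosedEmbedding_SLn.locallyCompactSpace
  have hcD : Continuous fun p : SLn n × FF n q => fderiv ℝ (A p.1) p.2 :=
    hA2 (SLn n) (FF n q) A hact
  have hball : ∀ z : VV q, ‖z‖ < δ → ((0, z) : FF n q) ∈ Metric.ball (0 : FF n q) δ := by
    intro z hz
    rw [mem_ball_zero_iff, c3_norm]
    exact hz
  have hψ : ∀ z : VV q, ‖z‖ < δ → ContDiffAt ℝ ∞ ψ ((0, z) : FF n q) := fun z hz =>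
    h.psi_smooth.contDiffAt (Metric.isOpen_ball.mem_nhds (hball z hz))
  have hψd : ∀ z : VV q, ‖z‖ < δ → DifferentiableAt ℝ ψ ((0, z) : FF n q) := fun z hz =>
    (hψ z hz).differentiableAt (by simp)
  have hφd : ∀ x, DifferentiableAt ℝ φ x := fun x =>
    (h.phi_smooth.differentiable (by simp)) x
  have hAd : ∀ g x, DifferentiableAt ℝ (A g) x := fun g x =>
    ((hact.smooth g).differentiable (by simp)) x
  -- the two derivatives are inverse to each other
  have hab : ∀ z : VV q, ‖z‖ < δ → (fderiv ℝ φ (ψ (0, z))).comp (fderiv ℝ ψ (0, z)) =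
      ContinuousLinearMap.id ℝ (FF n q) := by
    intro z hz
    have h1 : HasFDerivAt (φ ∘ ψ) ((fderiv ℝ φ (ψ (0, z))).comp (fderiv ℝ ψ (0, z)))
        ((0, z) : FF n q) :=
      ((hφd (ψ (0, z))).hasFDerivAt).comp _ (hψd z hz).hasFDerivAt
    have h2 : (φ ∘ ψ) =ᶠ[𝓝 ((0, z) : FF n q)] id := by
      filter_upwards [Metric.isOpen_ball.mem_nhds (hball z hz)] with y hy
      exact h.phi_psi y hy
    exact (h1.congr_of_eventuallyEq h2.symm).unique (hasFDerivAt_id _)
  have hba : ∀ z : VV q, ‖z‖ < δ → (fderiv ℝ ψ (0, z)).comp (fderiv ℝ φ (ψ (0, z))) =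
      ContinuousLinearMap.id ℝ (FF n q) := fun z hz => c3_comm (hab z hz)
  -- the formula for the derivative
  have hR : ∀ z : VV q, ‖z‖ < δ → ‖z‖ < δ₁ → ∀ g, fderiv ℝ (fun y => φ (A g (ψ y))) (0, z) =
      (fderiv ℝ φ (ψ (0, z))).comp ((fderiv ℝ (A g) (ψ (0, z))).comp (fderiv ℝ ψ (0, z))) := by
    intro z hz hz1 g
    have h1 : HasFDerivAt (fun y => A g (ψ y))
        ((fderiv ℝ (A g) (ψ (0, z))).comp (fderiv ℝ ψ (0, z))) ((0, z) : FF n q) :=
      ((hAd g (ψ (0, z))).hasFDerivAt).comp _ (hψd z hz).hasFDerivAt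
    have h2 : HasFDerivAt φ (fderiv ℝ φ (ψ (0, z))) (A g (ψ (0, z))) := by
      rw [hfix z hz1 g]
      exact (hφd _).hasFDerivAt
    exact (HasFDerivAt.comp (g := φ) (f := fun y => A g (ψ y)) ((0, z) : FF n q) h2 h1).fderiv
  -- the representation
  let R : ∀ z : VV q, ‖z‖ < δ → ‖z‖ < δ₁ → (SLn n →* (FF n q →L[ℝ] FF n q)) :=
    fun z hz hz1 =>
    { toFun := fun g =>
        (fderiv ℝ φ (ψ (0, z))).comp ((fderiv ℝ (A g) (ψ (0, z))).comp (fderiv ℝ ψ (0, z)))
      map_one' := by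
        have h1 : A 1 = id := funext fun x => hact.one x
        show (fderiv ℝ φ (ψ (0, z))).comp
          ((fderiv ℝ (A 1) (ψ (0, z))).comp (fderiv ℝ ψ (0, z))) = 1
        rw [h1, fderiv_id, ContinuousLinearMap.id_comp, hab z hz]
        rfl
      map_mul' := by
        intro g g'
        have h1 : A (g * g') = A g ∘ A g' := funext fun x => hact.mul g g' x
        have h2 : fderiv ℝ (A (g * g')) (ψ (0, z)) =
            (fderiv ℝ (A g) (ψ (0, z))).comp (fderiv ℝ (A g') (ψ (0, z))) := by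
          rw [h1, fderiv_comp _ (hAd g _) (hAd g' _), hfix z hz1 g']
        show (fderiv ℝ φ (ψ (0, z))).comp
          ((fderiv ℝ (A (g * g')) (ψ (0, z))).comp (fderiv ℝ ψ (0, z))) =
          ((fderiv ℝ φ (ψ (0, z))).comp ((fderiv ℝ (A g) (ψ (0, z))).comp
            (fderiv ℝ ψ (0, z)))).comp ((fderiv ℝ φ (ψ (0, z))).comp
              ((fderiv ℝ (A g') (ψ (0, z))).comp (fderiv ℝ ψ (0, z))))
        rw [h2]
        apply ContinuousLinearMap.ext
        intro x
        have h3 : ∀ y, (fderiv ℝ ψ (0, z)) ((fderiv ℝ φ (ψ (0, z))) y) = y := fun y =>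
          congrArg (fun f : FF n q →L[ℝ] FF n q => f y) (hba z hz)
        simp only [ContinuousLinearMap.comp_apply, h3] }
  have hRapp : ∀ z hz hz1 g, R z hz hz1 g =
      (fderiv ℝ φ (ψ (0, z))).comp ((fderiv ℝ (A g) (ψ (0, z))).comp (fderiv ℝ ψ (0, z))) :=
    fun _ _ _ _ => rfl
  have hRc : ∀ z hz hz1, Continuous (R z hz hz1) := by
    intro z hz hz1
    have h1 : Continuous fun g : SLn n => fderiv ℝ (A g) (ψ (0, z)) :=
      hcD.comp (continuous_id.prodMk continuous_const)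
    exact continuous_const.clm_comp (h1.clm_comp continuous_const)
  have hRk : ∀ z hz hz1, ∀ k ∈ KK n, R z hz hz1 k = st k := by
    intro z hz hz1 k hk
    rw [hRapp z hz hz1 k, ← hR z hz hz1 k]
    have h1 : (fun y => φ (A k (ψ y))) =ᶠ[𝓝 ((0, z) : FF n q)] fun y => st k y := by
      filter_upwards [Metric.isOpen_ball.mem_nhds (hball z hz)] with y hy
      rw [h.phi_k k hk, h.phi_psi y hy]
    rw [h1.fderiv_eq]
    exact (st k : FF n q →L[ℝ] FF n q).fderiv
  -- the element which distinguishes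
  let i0 : Fin n := ⟨0, by omega⟩
  let i1 : Fin n := ⟨1, by omega⟩
  have hi : i0 ≠ i1 := by
    intro h0
    have := congrArg Fin.val h0
    simp [i0, i1] at this
  let g₀ : SLn n := tv i0 i1 hi 1
  have hlim : Tendsto (fun z : VV q => (fderiv ℝ φ (ψ ((0, z) : FF n q))).comp
      ((fderiv ℝ (A g₀) (ψ (0, z))).comp (fderiv ℝ ψ (0, z)))) (𝓝 0) (𝓝 (st g₀)) := by
    have hp : Continuous fun z : VV q => ((0, z) : FF n q) :=
      continuous_const.prodMk continuous_id
    have h0 : ‖(0 : VV q)‖ < δ := by rw [norm_zero]; exact h.pos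
    have hψc : ContinuousAt (fun z : VV q => ψ ((0, z) : FF n q)) 0 :=
      ContinuousAt.comp (f := fun z : VV q => ((0, z) : FF n q)) (g := ψ) (x := (0 : VV q))
        (hψ 0 h0).continuousAt hp.continuousAt
    have hψ' : ContinuousAt (fun z : VV q => fderiv ℝ ψ ((0, z) : FF n q)) 0 := by
      have h1 : ContinuousAt (fderiv ℝ ψ) ((0, (0 : VV q)) : FF n q) :=
        ((hψ 0 h0).fderiv_right (m := 0) (by simp)).continuousAt
      exact ContinuousAt.comp (f := fun z : VV q => ((0, z) : FF n q)) (g := fderiv ℝ ψ)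
        (x := (0 : VV q)) h1 hp.continuousAt
    have hφ' : ContinuousAt (fun z : VV q => fderiv ℝ φ (ψ ((0, z) : FF n q))) 0 := by
      have h1 : Continuous (fderiv ℝ φ) := h.phi_smooth.continuous_fderiv (by simp)
      exact ContinuousAt.comp (f := fun z : VV q => ψ ((0, z) : FF n q)) (g := fderiv ℝ φ)
        (x := (0 : VV q)) h1.continuousAt hψc
    have hA' : ContinuousAt (fun z : VV q => fderiv ℝ (A g₀) (ψ ((0, z) : FF n q))) 0 := by
      have h1 : Continuous (fderiv ℝ (A g₀)) := (hact.smooth g₀).continuous_fderiv (by simp)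
      exact ContinuousAt.comp (f := fun z : VV q => ψ ((0, z) : FF n q)) (g := fderiv ℝ (A g₀))
        (x := (0 : VV q)) h1.continuousAt hψc
    have h2 := (hφ'.clm_comp (hA'.clm_comp hψ')).tendsto
    have h3 : (fderiv ℝ φ (ψ ((0, (0 : VV q)) : FF n q))).comp
      ((fderiv ℝ (A g₀) (ψ (0, 0))).comp (fderiv ℝ ψ (0, 0))) = st g₀ := by
      have e1 : ψ ((0, (0 : VV q)) : FF n q) = 0 := h.psi0
      have e2 := hab 0 h0
      rw [e1, h.dphi, ContinuousLinearMap.id_comp] at e2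
      rw [e1, h.dphi, ContinuousLinearMap.id_comp, h.lin, e2, ContinuousLinearMap.comp_id]
    rw [h3] at h2
    exact h2
  have hne : ∀ᶠ z : VV q in 𝓝 0, (fderiv ℝ φ (ψ ((0, z) : FF n q))).comp
      ((fderiv ℝ (A g₀) (ψ (0, z))).comp (fderiv ℝ ψ (0, z))) ≠ st (invT g₀) :=
    hlim.eventually_ne (c3_ne i0 i1 hi)
  obtain ⟨δ₂, hδ₂, hne'⟩ := Metric.eventually_nhds_iff_ball.mp hne
  refine ⟨min (min δ δ₁) δ₂, lt_min (lt_min h.pos hδ₁) hδ₂, ?_⟩
  intro z hz g
  have hz0 : ‖z‖ < δ := lt_of_lt_of_le hz ((min_le_left _ _).trans (min_le_left _ _))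
  have hz1 : ‖z‖ < δ₁ := lt_of_lt_of_le hz ((min_le_left _ _).trans (min_le_right _ _))
  have hz2 : ‖z‖ < δ₂ := lt_of_lt_of_le hz (min_le_right _ _)
  rw [hR z hz0 hz1 g]
  rcases hR2 n q hn (R z hz0 hz1) (hRc z hz0 hz1) (hRk z hz0 hz1) with h1 | h1
  · exact h1 g
  · exfalso
    exact hne' z (by rw [mem_ball_zero_iff]; exact hz2) (h1 g₀)

end Pool.Agent.Lib.MP_4f3c81_gt.Inf
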