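import Pool.Agent.Lib.MP_4f3c81_gt.Inf.Stmts

open Filter Topology Set Matrix
open scoped ContDiff

namespace Pool.Agent.Lib.MP_4f3c81_gt.Inf

private theorem e1_local (Y W : Type) [NormedAddCommGroup Y] [NormedSpace ℝ Y]
    [NormedAddCommGroup W] [NormedSpace ℝ W] (T : Y × W → Y × W) (r : ℝ) (hT : Good T r) :
    ∃ ρ μ M : ℝ, 0 < ρ ∧ 0 < μ ∧ μ < 1 ∧ 0 ≤ M ∧ ∀ y : Y, ∀ w : W, ‖y‖ < ρ → ‖w‖ < ρ →
      ‖(T (y, w)).1‖ ≤ μ * ‖y‖ ∧ ‖(T (y, w)).2 - w‖ ≤ M * ‖y‖ := by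
  have hb : IsOpen (Metric.ball (0 : Y × W) r) := Metric.isOpen_ball
  have hcf : ContinuousOn (fderiv ℝ T) (Metric.ball 0 r) :=
    hT.smooth.continuousOn_fderiv_of_isOpen hb (by simp)
  have h0 : (0 : Y × W) ∈ Metric.ball (0 : Y × W) r := Metric.mem_ball_self hT.pos
  have hc0 : ContinuousAt (fderiv ℝ T) 0 := hcf.continuousAt (hb.mem_nhds h0)
  have hcd : ContinuousAt (dYY T) 0 := by
    unfold dYY
    exact (continuous_const.continuousAt).clm_comp (hc0.clm_comp continuous_const.continuousAt)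
  have hn1 : ‖dYY T 0‖ < 1 := hT.con 0 (by simpa using hT.pos)
  have hn0 : 0 ≤ ‖dYY T 0‖ := norm_nonneg _
  have e1 : ∀ᶠ p in 𝓝 (0 : Y × W), ‖dYY T p‖ < (‖dYY T 0‖ + 1) / 2 :=
    (hcd.norm).eventually (gt_mem_nhds (by linarith))
  have e2 : ∀ᶠ p in 𝓝 (0 : Y × W), ‖fderiv ℝ T p‖ < ‖fderiv ℝ T 0‖ + 1 :=
    (hc0.norm).eventually (gt_mem_nhds (by linarith))
  have e3 : ∀ᶠ p in 𝓝 (0 : Y × W), p ∈ Metric.ball (0 : Y × W) r := hb.mem_nhds h0
  obtain ⟨ρ, hρ, hball⟩ := Metric.eventually_nhds_iff_ball.1 (e1.and (e2.and e3))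
  refine ⟨ρ, (‖dYY T 0‖ + 1) / 2, ‖fderiv ℝ T 0‖ + 1, hρ, by linarith, by linarith,
    by positivity, ?_⟩
  intro y w hy hw
  have hmem : ∀ x : Y, x ∈ Metric.ball (0 : Y) ρ → (x, w) ∈ Metric.ball (0 : Y × W) ρ := by
    intro x hx
    rw [mem_ball_zero_iff] at hx ⊢
    exact max_lt hx hw
  have hd : ∀ x : Y, x ∈ Metric.ball (0 : Y) ρ → HasFDerivAt (fun x' : Y => T (x', w))
      ((fderiv ℝ T (x, w)).comp (ContinuousLinearMap.inl ℝ Y W)) x := by
    intro x hx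
    have h1 : DifferentiableAt ℝ T (x, w) :=
      (hT.smooth.contDiffAt (hb.mem_nhds (hball _ (hmem x hx)).2.2)).differentiableAt (by simp)
    have h2 : HasFDerivAt (fun x' : Y => (x', w)) (ContinuousLinearMap.inl ℝ Y W) x :=
      hasFDerivAt_prodMk_left x w
    exact HasFDerivAt.comp x h1.hasFDerivAt h2
  have hw0 : (0 : Y) ∈ Metric.ball (0 : Y) ρ := Metric.mem_ball_self hρ
  have hyb : y ∈ Metric.ball (0 : Y) ρ := by rwa [mem_ball_zero_iff]
  have hfix : T (0, w) = (0, w) := by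
    apply hT.fix
    have h3 := (hball _ (hmem 0 hw0)).2.2
    rw [mem_ball_zero_iff] at h3
    exact lt_of_le_of_lt (le_max_right _ _) h3
  constructor
  · have h4 := (convex_ball (0 : Y) ρ).norm_image_sub_le_of_norm_hasFDerivWithin_le
      (f := fun x' : Y => (T (x', w)).1) (f' := fun x => dYY T (x, w))
      (C := (‖dYY T 0‖ + 1) / 2)
      (fun x hx => ((ContinuousLinearMap.fst ℝ Y W).hasFDerivAt.comp x (hd x hx)).hasFDerivWithinAt)
      (fun x hx => (hball _ (hmem x hx)).1.le) hw0 hyb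
    simpa [hfix] using h4
  · have h4 := (convex_ball (0 : Y) ρ).norm_image_sub_le_of_norm_hasFDerivWithin_le
      (f := fun x' : Y => (T (x', w)).2)
      (f' := fun x => (ContinuousLinearMap.snd ℝ Y W).comp
        ((fderiv ℝ T (x, w)).comp (ContinuousLinearMap.inl ℝ Y W)))
      (C := ‖fderiv ℝ T 0‖ + 1)
      (fun x hx => ((ContinuousLinearMap.snd ℝ Y W).hasFDerivAt.comp x (hd x hx)).hasFDerivWithinAt)
      (fun x hx => by
        refine ContinuousLinearMap.opNorm_le_bound _ (by positivity) fun v => ?_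
        have h5 := (hball _ (hmem x hx)).2.1.le
        calc ‖((ContinuousLinearMap.snd ℝ Y W).comp
              ((fderiv ℝ T (x, w)).comp (ContinuousLinearMap.inl ℝ Y W))) v‖
            = ‖(fderiv ℝ T (x, w) (v, 0)).2‖ := rfl
          _ ≤ ‖fderiv ℝ T (x, w) (v, 0)‖ := norm_snd_le _
          _ ≤ ‖fderiv ℝ T (x, w)‖ * ‖((v, 0) : Y × W)‖ := ContinuousLinearMap.le_opNorm _ _
          _ = ‖fderiv ℝ T (x, w)‖ * ‖v‖ := by rw [Prod.norm_mk, norm_zero, max_eq_left (norm_nonneg v)]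
          _ ≤ (‖fderiv ℝ T 0‖ + 1) * ‖v‖ := mul_le_mul_of_nonneg_right h5 (norm_nonneg v))
      hw0 hyb
    simpa [hfix] using h4

theorem p_E1 : S_E1 := by
  intro Y W _ _ _ _ T r hT ε hε
  obtain ⟨ρ, μ, M, hρ, hμ0, hμ1, hM, H⟩ := e1_local Y W T r hT
  have h1μ : 0 < 1 - μ := by linarith
  set K : ℝ := 1 + M / (1 - μ) with hK
  have hK1 : 1 ≤ K := by
    have : 0 ≤ M / (1 - μ) := by positivity
    linarith
  have hm : 0 < min ρ ε := lt_min hρ hε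
  set δ : ℝ := min ρ ε / (2 * K) with hδd
  have hδ : 0 < δ := by positivity
  have hδK : δ * K < min ρ ε := by
    have : δ * K = min ρ ε / 2 := by
      rw [hδd]; field_simp
    linarith
  refine ⟨δ, hδ, μ, M * δ, hμ0, hμ1, by positivity, ?_⟩
  intro p hp
  have hp1 : ‖p.1‖ < δ := lt_of_le_of_lt (norm_fst_le p) hp
  have hp2 : ‖p.2‖ < δ := lt_of_le_of_lt (norm_snd_le p) hp
  -- geometric sums
  have hgeo : ∀ N : ℕ, ∑ i ∈ Finset.range N, μ ^ i ≤ 1 / (1 - μ) := by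
    intro N
    rw [geom_sum_eq hμ1.ne, ← neg_div_neg_eq]
    have h2 : 0 ≤ μ ^ N := by positivity
    apply div_le_div₀ (by norm_num) (by linarith) h1μ (by linarith)
  have key : ∀ N : ℕ, ‖(T^[N] p).1‖ ≤ μ ^ N * ‖p.1‖ ∧
      ‖(T^[N] p).2‖ ≤ ‖p.2‖ + M * ‖p.1‖ * ∑ i ∈ Finset.range N, μ ^ i := by
    intro N
    induction N with
    | zero => simp
    | succ N ih =>
      obtain ⟨i1, i2⟩ := ih
      have hμN : μ ^ N ≤ 1 := pow_le_one₀ hμ0.le hμ1.le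
      have hx1 : ‖(T^[N] p).1‖ < ρ := by
        have : μ ^ N * ‖p.1‖ ≤ ‖p.1‖ := mul_le_of_le_one_left (norm_nonneg _) hμN
        have h3 : δ ≤ δ * K := le_mul_of_one_le_right hδ.le hK1
        have h4 := min_le_left ρ ε
        linarith
      have hx2 : ‖(T^[N] p).2‖ < ρ := by
        have h3 : M * ‖p.1‖ * ∑ i ∈ Finset.range N, μ ^ i ≤ M * δ * (1 / (1 - μ)) := by
          apply mul_le_mul _ (hgeo N) (Finset.sum_nonneg fun i _ => by positivity) (by positivity)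
          exact mul_le_mul_of_nonneg_left hp1.le hM
        have h4 : δ + M * δ * (1 / (1 - μ)) = δ * K := by rw [hK]; ring
        have h5 := min_le_left ρ ε
        linarith
      obtain ⟨a1, a2⟩ := H (T^[N] p).1 (T^[N] p).2 hx1 hx2
      rw [Function.iterate_succ_apply']
      have hpe : T^[N] p = ((T^[N] p).1, (T^[N] p).2) := rfl
      rw [← hpe] at a1 a2
      constructor
      · calc ‖(T (T^[N] p)).1‖ ≤ μ * ‖(T^[N] p).1‖ := a1
          _ ≤ μ * (μ ^ N * ‖p.1‖) := mul_le_mul_of_nonneg_left i1 hμ0.le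
          _ = μ ^ (N + 1) * ‖p.1‖ := by ring
      · have h6 : ‖(T (T^[N] p)).2‖ ≤ ‖(T (T^[N] p)).2 - (T^[N] p).2‖ + ‖(T^[N] p).2‖ := by
          simpa using norm_add_le ((T (T^[N] p)).2 - (T^[N] p).2) (T^[N] p).2
        have h7 : M * ‖(T^[N] p).1‖ ≤ M * (μ ^ N * ‖p.1‖) := mul_le_mul_of_nonneg_left i1 hM
        rw [Finset.sum_range_succ]
        nlinarith
  intro N
  obtain ⟨k1, k2⟩ := key N
  have hμN : μ ^ N ≤ 1 := pow_le_one₀ hμ0.le hμ1.le
  have hx1 : ‖(T^[N] p).1‖ < min ρ ε := by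
    have : μ ^ N * ‖p.1‖ ≤ ‖p.1‖ := mul_le_of_le_one_left (norm_nonneg _) hμN
    have h3 : δ ≤ δ * K := le_mul_of_one_le_right hδ.le hK1
    linarith
  have hx2 : ‖(T^[N] p).2‖ < min ρ ε := by
    have h3 : M * ‖p.1‖ * ∑ i ∈ Finset.range N, μ ^ i ≤ M * δ * (1 / (1 - μ)) := by
      apply mul_le_mul _ (hgeo N) (Finset.sum_nonneg fun i _ => by positivity) (by positivity)
      exact mul_le_mul_of_nonneg_left hp1.le hM
    have h4 : δ + M * δ * (1 / (1 - μ)) = δ * K := by rw [hK]; ring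
    linarith
  refine ⟨?_, k1, ?_⟩
  · have : ‖T^[N] p‖ = max ‖(T^[N] p).1‖ ‖(T^[N] p).2‖ := rfl
    rw [this]
    exact lt_of_lt_of_le (max_lt hx1 hx2) (min_le_right _ _)
  · obtain ⟨_, a2⟩ := H (T^[N] p).1 (T^[N] p).2 (lt_of_lt_of_le hx1 (min_le_left _ _))
      (lt_of_lt_of_le hx2 (min_le_left _ _))
    have hpe : T^[N] p = ((T^[N] p).1, (T^[N] p).2) := rfl
    rw [← hpe] at a2
    rw [Function.iterate_succ_apply']
    calc ‖(T (T^[N] p)).2 - (T^[N] p).2‖ ≤ M * ‖(T^[N] p).1‖ := a2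
      _ ≤ M * (μ ^ N * ‖p.1‖) := mul_le_mul_of_nonneg_left k1 hM
      _ ≤ M * (μ ^ N * δ) := by gcongr
      _ = M * δ * μ ^ N := by ring

end Pool.Agent.Lib.MP_4f3c81_gt.Inf
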