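import Pool.Agent.Lib.MP_4f3c81_gt.Inf.Stmts

open Filter Topology Set
open scoped ContDiff

namespace Pool.Agent.Lib.MP_4f3c81_gt.Inf

section

variable {Y W : Type} [NormedAddCommGroup Y] [NormedSpace ℝ Y]
  [NormedAddCommGroup W] [NormedSpace ℝ W]

/-- the base point -/
private noncomputable def e2_e : (Y × Y) × (W × W) →L[ℝ] Y × W :=
  ((ContinuousLinearMap.fst ℝ Y Y).comp (ContinuousLinearMap.fst ℝ (Y × Y) (W × W))).prod
    ((ContinuousLinearMap.fst ℝ W W).comp (ContinuousLinearMap.snd ℝ (Y × Y) (W × W)))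

/-- the tangent vector -/
private noncomputable def e2_f : (Y × Y) × (W × W) →L[ℝ] Y × W :=
  ((ContinuousLinearMap.snd ℝ Y Y).comp (ContinuousLinearMap.fst ℝ (Y × Y) (W × W))).prod
    ((ContinuousLinearMap.snd ℝ W W).comp (ContinuousLinearMap.snd ℝ (Y × Y) (W × W)))

/-- the exchange of the coordinates -/
private noncomputable def e2_J : (Y × W) × (Y × W) →L[ℝ] (Y × Y) × (W × W) :=
  (((ContinuousLinearMap.fst ℝ Y W).comp (ContinuousLinearMap.fst ℝ (Y × W) (Y × W))).prod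
    ((ContinuousLinearMap.fst ℝ Y W).comp (ContinuousLinearMap.snd ℝ (Y × W) (Y × W)))).prod
  (((ContinuousLinearMap.snd ℝ Y W).comp (ContinuousLinearMap.fst ℝ (Y × W) (Y × W))).prod
    ((ContinuousLinearMap.snd ℝ Y W).comp (ContinuousLinearMap.snd ℝ (Y × W) (Y × W))))

private theorem e2_tl (T : Y × W → Y × W) : tl T = fun p =>
    e2_J (T (e2_e p), fderiv ℝ T (e2_e p) (e2_f p)) := rfl

private theorem e2_norm_e (p : (Y × Y) × (W × W)) : ‖(e2_e p : Y × W)‖ ≤ ‖p‖ := by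
  change ‖(p.1.1, p.2.1)‖ ≤ ‖p‖
  rw [Prod.norm_def, Prod.norm_def, Prod.norm_def, Prod.norm_def]
  exact max_le_max (le_max_left _ _) (le_max_left _ _)

private theorem e2_at {T : Y × W → Y × W} {r : ℝ} (hT : Good T r) {p : Y × W} (hp : ‖p‖ < r) :
    ContDiffAt ℝ ∞ T p :=
  hT.smooth.contDiffAt (Metric.isOpen_ball.mem_nhds (by simpa using hp))

private theorem e2_smooth {T : Y × W → Y × W} {r : ℝ} (hT : Good T r)
    {p : (Y × Y) × (W × W)} (hp : ‖p‖ < r) : ContDiffAt ℝ ∞ (tl T) p := by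
  have h1 := e2_at hT (lt_of_le_of_lt (e2_norm_e p) hp)
  have h2 : ContDiffAt ℝ ∞ (fun p : (Y × Y) × (W × W) => T (e2_e p)) p :=
    h1.comp p (e2_e (Y := Y) (W := W)).contDiff.contDiffAt
  have h3 : ContDiffAt ℝ ∞ (fderiv ℝ T) (e2_e p) := h1.fderiv_right (by simp)
  have h4 : ContDiffAt ℝ ∞ (fun p : (Y × Y) × (W × W) => fderiv ℝ T (e2_e p)) p :=
    h3.comp p (e2_e (Y := Y) (W := W)).contDiff.contDiffAt
  have h5 : ContDiffAt ℝ ∞ (fun p : (Y × Y) × (W × W) => fderiv ℝ T (e2_e p) (e2_f p)) p :=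
    h4.clm_apply (e2_f (Y := Y) (W := W)).contDiff.contDiffAt
  rw [e2_tl]
  exact (e2_J (Y := Y) (W := W)).contDiff.contDiffAt.comp p (h2.prodMk h5)

private theorem e2_fix {T : Y × W → Y × W} {r : ℝ} (hT : Good T r) {w : W} (hw : ‖w‖ < r)
    (u : W) : fderiv ℝ T (0, w) (0, u) = (0, u) := by
  have hn : ‖((0, w) : Y × W)‖ < r := by
    rw [Prod.norm_def]
    exact max_lt (by simpa using hT.pos) hw
  have h1 : HasFDerivAt T (fderiv ℝ T (0, w)) ((ContinuousLinearMap.inr ℝ Y W) w) :=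
    ((e2_at hT hn).differentiableAt (by simp)).hasFDerivAt
  have h2 := h1.comp w (ContinuousLinearMap.inr ℝ Y W).hasFDerivAt
  have h3 : (T ∘ (ContinuousLinearMap.inr ℝ Y W)) =ᶠ[𝓝 w] (ContinuousLinearMap.inr ℝ Y W) := by
    have : ∀ᶠ w' in 𝓝 w, ‖w'‖ < r := continuous_norm.continuousAt.eventually_lt_const hw
    filter_upwards [this] with w' hw'
    exact hT.fix w' hw'
  have h4 := (h2.congr_of_eventuallyEq h3.symm).unique
    (ContinuousLinearMap.inr ℝ Y W).hasFDerivAt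
  exact congrArg (fun L : W →L[ℝ] Y × W => L u) h4

private theorem e2_deriv0 {T : Y × W → Y × W} {r : ℝ} (hT : Good T r) :
    fderiv ℝ (tl T) 0 = e2_J.comp (((fderiv ℝ T 0).comp e2_e).prod ((fderiv ℝ T 0).comp e2_f)) := by
  have h1 : ContDiffAt ℝ ∞ T 0 := e2_at hT (by simpa using hT.pos)
  have h0 : (e2_e : (Y × Y) × (W × W) →L[ℝ] Y × W) 0 = 0 := map_zero _
  have h0' : (e2_f : (Y × Y) × (W × W) →L[ℝ] Y × W) 0 = 0 := map_zero _
  have h2 : HasFDerivAt T (fderiv ℝ T 0) (e2_e (0 : (Y × Y) × (W × W))) := by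
    rw [h0]
    exact (h1.differentiableAt (by simp)).hasFDerivAt
  have h3 : ContDiffAt ℝ ∞ (fderiv ℝ T) 0 := h1.fderiv_right (by simp)
  have h4 : HasFDerivAt (fderiv ℝ T) (fderiv ℝ (fderiv ℝ T) 0)
      (e2_e (0 : (Y × Y) × (W × W))) := by
    rw [h0]
    exact (h3.differentiableAt (by simp)).hasFDerivAt
  have h5 := h2.comp (0 : (Y × Y) × (W × W)) (e2_e (Y := Y) (W := W)).hasFDerivAt
  have h6 := h4.comp (0 : (Y × Y) × (W × W)) (e2_e (Y := Y) (W := W)).hasFDerivAt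
  have h7 := h6.clm_apply ((e2_f (Y := Y) (W := W)).hasFDerivAt (x := (0 : (Y × Y) × (W × W))))
  have h8 := (e2_J (Y := Y) (W := W)).hasFDerivAt.comp (0 : (Y × Y) × (W × W)) (h5.prodMk h7)
  have h9 : fderiv ℝ (tl T) 0 = _ := HasFDerivAt.fderiv (f := tl T) h8
  rw [h9]
  congr 2
  rw [h0', map_zero, add_zero]
  change (fderiv ℝ T (e2_e (0 : (Y × Y) × (W × W)))).comp e2_f = _
  rw [h0]

private theorem e2_con0 {T : Y × W → Y × W} {r : ℝ} (hT : Good T r) :
    ‖dYY (tl T) 0‖ < 1 := by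
  have hc := hT.con 0 (by simpa using hT.pos)
  have h00 : ((0, 0) : Y × W) = 0 := rfl
  rw [h00] at hc
  refine lt_of_le_of_lt ?_ hc
  refine ContinuousLinearMap.opNorm_le_bound _ (norm_nonneg _) fun y => ?_
  have h1 : dYY (tl T) 0 y = (dYY T 0 y.1, dYY T 0 y.2) := by
    unfold dYY
    rw [e2_deriv0 hT]
    rfl
  rw [h1, Prod.norm_def, Prod.norm_def]
  refine max_le ?_ ?_
  · exact ((dYY T 0).le_opNorm y.1).trans
      (mul_le_mul_of_nonneg_left (le_max_left _ _) (norm_nonneg _))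
  · exact ((dYY T 0).le_opNorm y.2).trans
      (mul_le_mul_of_nonneg_left (le_max_right _ _) (norm_nonneg _))

end

theorem p_E2 : S_E2 := by
  intro Y W _ _ _ _ T r hT
  have h1 : ContDiffAt ℝ ∞ (tl T) 0 := e2_smooth hT (by simpa using hT.pos)
  have h2 : ContinuousAt (fderiv ℝ (tl T)) 0 := (h1.fderiv_right (m := ∞) (by simp)).continuousAt
  have h3 : ContinuousAt (fun p => ‖dYY (tl T) p‖) 0 := by
    unfold dYY
    exact (continuousAt_const.clm_comp (h2.clm_comp continuousAt_const)).norm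
  have h4 := h3.eventually_lt_const (e2_con0 hT)
  obtain ⟨δ, hδ, h5⟩ := Metric.eventually_nhds_iff_ball.1 h4
  refine ⟨min r δ, lt_min hT.pos hδ, ?_, ?_, ?_⟩
  · intro p hp
    rw [Metric.mem_ball, dist_zero_right] at hp
    exact (e2_smooth hT (lt_of_lt_of_le hp (min_le_left _ _))).contDiffWithinAt
  · rintro ⟨w, u⟩ hw
    have hw' : ‖w‖ < r := by
      have : ‖w‖ ≤ ‖((w, u) : W × W)‖ := by rw [Prod.norm_def]; exact le_max_left _ _
      exact lt_of_le_of_lt this (lt_of_lt_of_le hw (min_le_left _ _))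
    have e1 := hT.fix w hw'
    have e2 := e2_fix hT hw' u
    change (((T (0, w)).1, (fderiv ℝ T (0, w) (0, u)).1),
      ((T (0, w)).2, (fderiv ℝ T (0, w) (0, u)).2)) = _
    rw [e1, e2]
    rfl
  · intro w hw
    apply h5
    rw [Metric.mem_ball, dist_zero_right, Prod.norm_def]
    have : ‖w‖ < δ := lt_of_lt_of_le hw (min_le_right _ _)
    exact max_lt (by simpa using hδ) this

end Pool.Agent.Lib.MP_4f3c81_gt.Inf
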