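import Pool.Agent.Lib.MP_4f3c81_gt.Inf.Stmts

open Filter Topology Set Matrix
open scoped ContDiff

namespace Pool.Agent.Lib.MP_4f3c81_gt.Inf

theorem p_E3 : S_E3 := by
  intro Y W _ _ _ _ T r hT N
  induction N with
  | zero =>
    intro y v w u _
    refine ⟨?_, ?_⟩
    · rw [Function.iterate_zero]; exact contDiffAt_id
    · simp
  | succ N ih =>
    intro y v w u h
    obtain ⟨h1, h2⟩ := ih y v w u fun j hj => h j (by omega)
    have h3 : ‖T^[N] (y, w)‖ < r := h N (by omega)
    have hTs : ContDiffAt ℝ ∞ T (T^[N] (y, w)) :=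
      hT.smooth.contDiffAt (Metric.isOpen_ball.mem_nhds (by simpa using h3))
    have h4 : ContDiffAt ℝ ∞ (T^[N + 1]) (y, w) := by
      rw [Function.iterate_succ']
      exact hTs.comp _ h1
    refine ⟨h4, ?_⟩
    have h5 : fderiv ℝ (T^[N + 1]) (y, w) =
        (fderiv ℝ T (T^[N] (y, w))).comp (fderiv ℝ (T^[N]) (y, w)) := by
      rw [Function.iterate_succ']
      exact fderiv_comp _ (hTs.differentiableAt (by simp)) (h1.differentiableAt (by simp))
    rw [Function.iterate_succ_apply', h2, h5, Function.iterate_succ_apply']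
    rfl

end Pool.Agent.Lib.MP_4f3c81_gt.Inf
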