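import Pool.Agent.Lib.MP_4f3c81_gt.Inf.Stmts

/-!
# Asymptotic phase: differentiability of the limit (E4)   (helper21)
-/

open Filter Topology Set Matrix MeasureTheory
open scoped ContDiff

namespace Pool.Agent.Lib.MP_4f3c81_gt.Inf

private theorem e4_op_bound {E W : Type} [NormedAddCommGroup E] [NormedSpace ℝ E]
    [NormedAddCommGroup W] [NormedSpace ℝ W] (f : E →L[ℝ] W) {δ B : ℝ} (hδ : 0 < δ) (hB : 0 ≤ B)
    (h : ∀ v : E, ‖v‖ < δ → ‖f v‖ ≤ B) : ‖f‖ ≤ 2 / δ * B := by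
  refine ContinuousLinearMap.opNorm_le_bound f (by positivity) fun v => ?_
  by_cases hv : v = 0
  · subst hv
    simp
  · have hn : 0 < ‖v‖ := norm_pos_iff.2 hv
    have hc : 0 < δ / (2 * ‖v‖) := by positivity
    have h1 : ‖(δ / (2 * ‖v‖)) • v‖ < δ := by
      rw [norm_smul, Real.norm_of_nonneg hc.le]
      have : δ / (2 * ‖v‖) * ‖v‖ = δ / 2 := by field_simp
      rw [this]; linarith
    have h2 := h _ h1
    rw [map_smul, norm_smul, Real.norm_of_nonneg hc.le] at h2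
    have h3 : ‖f v‖ = (2 * ‖v‖ / δ) * (δ / (2 * ‖v‖) * ‖f v‖) := by field_simp
    rw [h3]
    have h4 : (2 * ‖v‖ / δ) * (δ / (2 * ‖v‖) * ‖f v‖) ≤ (2 * ‖v‖ / δ) * B :=
      mul_le_mul_of_nonneg_left h2 (by positivity)
    refine h4.trans (le_of_eq ?_)
    ring

theorem p_E4 (hE1 : S_E1) (hE2 : S_E2) (hE3 : S_E3) : S_E4 := by
  intro Y W _ _ _ _ _ _ T r hG
  obtain ⟨δ1, hδ1, μ, C, hμ0, hμ1, hC, hT⟩ := hE1 Y W T r hG r hG.pos
  obtain ⟨r', hG'⟩ := hE2 Y W T r hG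
  obtain ⟨δ2, hδ2, μ2, C2, hμ20, hμ21, hC2, hT2⟩ :=
    hE1 (Y × Y) (W × W) (tl T) r' hG' 1 one_pos
  set δ := min δ1 δ2 with hδ
  have hδ0 : 0 < δ := lt_min hδ1 hδ2
  -- the functions and their derivatives
  set f : ℕ → Y × W → W := fun N p => (T^[N] p).2 with hf
  set f' : ℕ → Y × W → (Y × W →L[ℝ] W) := fun N p =>
    (ContinuousLinearMap.snd ℝ Y W).comp (fderiv ℝ (T^[N]) p) with hf'
  have hder : ∀ N, ∀ p ∈ Metric.ball (0 : Y × W) δ, HasFDerivAt (f N) (f' N p) p := by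
    intro N p hp
    have hp' : ‖p‖ < δ1 := (mem_ball_zero_iff.1 hp).trans_le (min_le_left _ _)
    have h1 := (hE3 Y W T r hG N p.1 0 p.2 0 (fun j _ => (hT p hp' j).1)).1
    have h2 : HasFDerivAt (T^[N]) (fderiv ℝ (T^[N]) p) p :=
      (h1.differentiableAt (by simp)).hasFDerivAt
    exact (ContinuousLinearMap.snd ℝ Y W).hasFDerivAt.comp p h2
  have htl : ∀ N, ∀ p v : Y × W, ‖p‖ < δ →
      ((tl T)^[N] ((p.1, v.1), (p.2, v.2))).2 = (f N p, f' N p v) := by
    intro N p v hp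
    have hp' : ‖p‖ < δ1 := hp.trans_le (min_le_left _ _)
    have h1 := (hE3 Y W T r hG N p.1 v.1 p.2 v.2 (fun j _ => (hT p hp' j).1)).2
    rw [h1]
    rfl
  have hnorm : ∀ p v : Y × W, ‖p‖ < δ → ‖v‖ < δ →
      ‖(((p.1, v.1), (p.2, v.2)) : (Y × Y) × (W × W))‖ < δ2 := by
    intro p v hp hv
    have a1 : ‖p.1‖ ≤ ‖p‖ := norm_fst_le p
    have a2 : ‖p.2‖ ≤ ‖p‖ := norm_snd_le p
    have a3 : ‖v.1‖ ≤ ‖v‖ := norm_fst_le v
    have a4 : ‖v.2‖ ≤ ‖v‖ := norm_snd_le v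
    have a5 : δ ≤ δ2 := min_le_right _ _
    rw [Prod.norm_def, Prod.norm_def, Prod.norm_def]
    simp only [max_lt_iff]
    refine ⟨⟨?_, ?_⟩, ?_, ?_⟩ <;> linarith
  -- Cauchy estimate for the derivatives
  have hcau : ∀ N, ∀ p : Y × W, ‖p‖ < δ → dist (f' N p) (f' (N + 1) p) ≤ (2 / δ * C2) * μ2 ^ N := by
    intro N p hp
    have h1 : ‖f' (N + 1) p - f' N p‖ ≤ 2 / δ * (C2 * μ2 ^ N) := by
      refine e4_op_bound _ hδ0 (by positivity) fun v hv => ?_
      have h2 := (hT2 _ (hnorm p v hp hv) N).2.2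
      rw [htl (N + 1) p v hp, htl N p v hp] at h2
      have h3 := (norm_snd_le ((f (N + 1) p, f' (N + 1) p v) - (f N p, f' N p v) : W × W)).trans h2
      simpa using h3
    rw [dist_comm, dist_eq_norm]
    refine h1.trans (le_of_eq ?_)
    ring
  have hlim : ∀ p : Y × W, ∃ L : Y × W →L[ℝ] W, ‖p‖ < δ →
      Tendsto (fun N => f' N p) atTop (𝓝 L) := by
    intro p
    by_cases hp : ‖p‖ < δ
    · have h1 : CauchySeq fun N => f' N p :=
        cauchySeq_of_le_geometric μ2 (2 / δ * C2) hμ21 (fun N => hcau N p hp)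
      obtain ⟨L, hL⟩ := cauchySeq_tendsto_of_complete h1
      exact ⟨L, fun _ => hL⟩
    · exact ⟨0, fun h => absurd h hp⟩
  choose L hL using hlim
  have hfl : ∀ p : Y × W, ‖p‖ < δ → Tendsto (fun N => f N p) atTop (𝓝 (winf T p)) := by
    intro p hp
    have hp' : ‖p‖ < δ1 := hp.trans_le (min_le_left _ _)
    have h1 : CauchySeq fun N => f N p := by
      refine cauchySeq_of_le_geometric μ C hμ1 fun N => ?_
      rw [dist_comm, dist_eq_norm]
      exact (hT p hp' N).2.2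
    obtain ⟨l, hl⟩ := cauchySeq_tendsto_of_complete h1
    have h2 : winf T p = l := hl.limUnder_eq
    rw [h2]
    exact hl
  have hunif : TendstoUniformlyOn f' L atTop (Metric.ball (0 : Y × W) δ) := by
    rw [Metric.tendstoUniformlyOn_iff]
    intro ε hε
    have h1 : Tendsto (fun N : ℕ => (2 / δ * C2) * μ2 ^ N / (1 - μ2)) atTop (𝓝 0) := by
      have h2 := (tendsto_pow_atTop_nhds_zero_of_lt_one hμ20.le hμ21).const_mul (2 / δ * C2)
      have h3 := h2.div_const (1 - μ2)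
      simpa using h3
    filter_upwards [h1.eventually (gt_mem_nhds hε)] with N hN p hp
    have hp' := mem_ball_zero_iff.1 hp
    have h4 := dist_le_of_le_geometric_of_tendsto μ2 (2 / δ * C2) hμ21
      (fun N => hcau N p hp') (hL p hp') N
    rw [dist_comm]
    exact h4.trans_lt hN
  refine ⟨δ, hδ0, L, fun p hp => ⟨?_, fun v hv => ?_⟩⟩
  · exact hasFDerivAt_of_tendstoUniformlyOn Metric.isOpen_ball hunif hder
      (fun x hx => hfl x (mem_ball_zero_iff.1 hx)) (mem_ball_zero_iff.2 hp)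
  · have h1 : Tendsto (fun N => ((tl T)^[N] ((p.1, v.1), (p.2, v.2))).2) atTop
        (𝓝 (winf T p, L p v)) := by
      have h2 : (fun N => ((tl T)^[N] ((p.1, v.1), (p.2, v.2))).2) =
          fun N => (f N p, f' N p v) := by
        funext N
        exact htl N p v hp
      rw [h2]
      refine (hfl p hp).prodMk_nhds ?_
      exact ((ContinuousLinearMap.apply ℝ W v).continuous.tendsto _).comp (hL p hp)
    exact h1.limUnder_eq

end Pool.Agent.Lib.MP_4f3c81_gt.Inf
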