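import Pool.Agent.Lib.MP_4f3c81_gt.Inf.Stmts

/-!
# Smoothness of the asymptotic phase (helper30)
-/

open Filter Topology Set Matrix MeasureTheory
open scoped ContDiff

namespace Pool.Agent.Lib.MP_4f3c81_gt.Inf

theorem e5_clm {D E F : Type} [NormedAddCommGroup D] [NormedSpace ℝ D] [NormedAddCommGroup E]
    [NormedSpace ℝ E] [FiniteDimensional ℝ E] [NormedAddCommGroup F] [NormedSpace ℝ F]
    {n : WithTop ℕ∞} {f : D → E →L[ℝ] F} {x : D} (h : ∀ y, ContDiffAt ℝ n (fun p => f p y) x) :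
    ContDiffAt ℝ n f x := by
  let d := Module.finrank ℝ E
  have hd : d = Module.finrank ℝ (Fin d → ℝ) := (Module.finrank_fin_fun ℝ).symm
  let e₁ := ContinuousLinearEquiv.ofFinrankEq hd
  let e₂ := (e₁.arrowCongr (1 : F ≃L[ℝ] F)).trans (ContinuousLinearEquiv.piRing (Fin d))
  rw [← Function.id_comp f, ← e₂.symm_comp_self]
  exact e₂.symm.contDiff.comp_contDiffAt x (contDiffAt_pi.mpr fun i => h _)

theorem p_E5 (hE2 : S_E2) (hE4 : S_E4) : S_E5 := by
  intro k
  induction k with
  | zero =>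
    intro Y W _ _ _ _ _ _ T r hT
    obtain ⟨δ, hδ, L, hL⟩ := hE4 Y W T r hT
    rw [Nat.cast_zero, contDiffAt_zero]
    refine ⟨Metric.ball 0 δ, Metric.ball_mem_nhds _ hδ, ?_⟩
    intro p hp
    rw [mem_ball_zero_iff] at hp
    exact (hL p hp).1.continuousAt.continuousWithinAt
  | succ k ih =>
    intro Y W _ _ _ _ _ _ T r hT
    obtain ⟨δ, hδ, L, hL⟩ := hE4 Y W T r hT
    obtain ⟨r', hr'⟩ := hE2 Y W T r hT
    have h1 := ih (Y × Y) (W × W) (tl T) r' hr'
    have h2 := h1.eventually (by simp)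
    rw [Nat.cast_succ, contDiffAt_succ_iff_hasFDerivAt]
    refine ⟨L, ⟨Metric.ball 0 δ, Metric.ball_mem_nhds _ hδ, fun p hp => ?_⟩, ?_⟩
    · rw [mem_ball_zero_iff] at hp
      exact (hL p hp).1
    · refine e5_clm fun v => ?_
      -- the scaling
      have hc : Continuous fun c : ℝ => (((0 : Y), c • v.1), ((0 : W), c • v.2)) := by fun_prop
      have hc' : Continuous fun c : ℝ => ‖c • v‖ := by fun_prop
      have e1 : ∀ᶠ c : ℝ in 𝓝 0, ContDiffAt ℝ k (winf (tl T))
          (((0 : Y), c • v.1), ((0 : W), c • v.2)) := by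
        have h3 := hc.tendsto 0
        simp only [zero_smul] at h3
        exact h3.eventually h2
      have e2 : ∀ᶠ c : ℝ in 𝓝 0, ‖c • v‖ < δ := by
        have h3 := hc'.tendsto 0
        simp only [zero_smul, norm_zero] at h3
        exact h3.eventually_lt_const hδ
      obtain ⟨c, ⟨hc1, hc2⟩, hc3⟩ :=
        (((e1.and e2).filter_mono (nhdsWithin_le_nhds (s := Ioi (0 : ℝ)))).and
          self_mem_nhdsWithin).exists
      have hc0 : c ≠ 0 := ne_of_gt hc3
      have h4 : ContDiffAt ℝ k (fun p : Y × W => c⁻¹ •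
          (winf (tl T) ((p.1, c • v.1), (p.2, c • v.2))).2) 0 := by
        have h5 : ContDiffAt ℝ k (fun p : Y × W =>
            (((p.1, c • v.1), (p.2, c • v.2)) : (Y × Y) × (W × W))) 0 := by
          fun_prop
        have h6 : ContDiffAt ℝ k (fun p : Y × W =>
            winf (tl T) ((p.1, c • v.1), (p.2, c • v.2))) 0 :=
          ContDiffAt.comp (0 : Y × W) (g := winf (tl T)) hc1 h5
        exact contDiffAt_const.smul (contDiffAt_snd.comp (0 : Y × W) h6)
      refine h4.congr_of_eventuallyEq ?_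
      filter_upwards [Metric.ball_mem_nhds (0 : Y × W) hδ] with p hp
      rw [mem_ball_zero_iff] at hp
      have h7 := (hL p hp).2 (c • v) hc2
      have h8 : (winf (tl T) ((p.1, c • v.1), (p.2, c • v.2))).2 = L p (c • v) :=
        congrArg Prod.snd h7
      rw [h8, map_smul, smul_smul, inv_mul_cancel₀ hc0, one_smul]

end Pool.Agent.Lib.MP_4f3c81_gt.Inf
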