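import Pool.Agent.Lib.MP_4f3c81_gt.Inf.Stmts

/-!
# Asymptotic phase: smoothness of the limit (E6)   (helper21)
-/

open Filter Topology Set Matrix MeasureTheory
open scoped ContDiff

namespace Pool.Agent.Lib.MP_4f3c81_gt.Inf

section

variable {Y W : Type} [NormedAddCommGroup Y] [NormedSpace ℝ Y]
  [NormedAddCommGroup W] [NormedSpace ℝ W]

/-- the translated map -/
private noncomputable def e6_tr (T : Y × W → Y × W) (w₀ : W) (p : Y × W) : Y × W :=
  T (p + (0, w₀)) - (0, w₀)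

omit [NormedSpace ℝ Y] [NormedSpace ℝ W] in
private theorem e6_iter (T : Y × W → Y × W) (w₀ : W) (N : ℕ) (p : Y × W) :
    (e6_tr T w₀)^[N] p = T^[N] (p + (0, w₀)) - (0, w₀) := by
  induction N generalizing p with
  | zero => simp
  | succ N ih =>
    rw [Function.iterate_succ_apply, ih, Function.iterate_succ_apply]
    unfold e6_tr
    rw [sub_add_cancel]

private theorem e6_good (T : Y × W → Y × W) (r : ℝ) (hG : Good T r) (w₀ : W) (hw : ‖w₀‖ < r) :
    Good (e6_tr T w₀) (r - ‖w₀‖) := by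
  have hn0 : ‖((0 : Y), w₀)‖ = ‖w₀‖ := by
    rw [Prod.norm_def]
    simp
  have hball : ∀ p : Y × W, ‖p‖ < r - ‖w₀‖ → ‖p + (0, w₀)‖ < r := by
    intro p hp
    have h1 := norm_add_le p ((0 : Y), w₀)
    rw [hn0] at h1
    linarith
  refine ⟨by linarith, ?_, ?_, ?_⟩
  · unfold e6_tr
    refine ContDiffOn.sub ?_ contDiffOn_const
    refine hG.smooth.comp (contDiff_id.add contDiff_const).contDiffOn ?_
    intro p hp
    exact mem_ball_zero_iff.2 (hball p (mem_ball_zero_iff.1 hp))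
  · intro w h1
    have h2 : ‖w + w₀‖ < r := by
      have := norm_add_le w w₀
      linarith
    have h3 := hG.fix (w + w₀) h2
    unfold e6_tr
    have h4 : ((0 : Y), w) + (0, w₀) = (0, w + w₀) := by
      ext <;> simp
    rw [h4, h3]
    ext <;> simp
  · intro w h1
    have h2 : ‖w + w₀‖ < r := by
      have := norm_add_le w w₀
      linarith
    have h3 := hG.con (w + w₀) h2
    have h4 : ((0 : Y), w) + (0, w₀) = (0, w + w₀) := by
      ext <;> simp
    have h5 : fderiv ℝ (e6_tr T w₀) (0, w) = fderiv ℝ T (0, w + w₀) := by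
      unfold e6_tr
      rw [fderiv_sub_const, fderiv_comp_add_right, h4]
    unfold dYY at h3 ⊢
    rw [h5]
    exact h3

end

theorem p_E6 (hE1 : S_E1) (hE3 : S_E3) (hE5 : S_E5) : S_E6 := by
  intro Y W _ _ _ _ _ _ T r hG
  -- convergence
  have hconv : ∀ (T : Y × W → Y × W) (r : ℝ), Good T r → ∀ ε > 0, ∃ δ > 0, ∀ p : Y × W, ‖p‖ < δ →
      (∀ N, ‖T^[N] p‖ < ε) ∧ Tendsto (fun N : ℕ => (T^[N] p).2) atTop (𝓝 (winf T p)) ∧
      Tendsto (fun N : ℕ => (T^[N] p).1) atTop (𝓝 0) := by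
    intro T r hG ε hε
    obtain ⟨δ, hδ, μ, C, hμ0, hμ1, hC, hT⟩ := hE1 Y W T r hG ε hε
    refine ⟨δ, hδ, fun p hp => ⟨fun N => (hT p hp N).1, ?_, ?_⟩⟩
    · have h1 : CauchySeq fun N => (T^[N] p).2 := by
        refine cauchySeq_of_le_geometric μ C hμ1 fun N => ?_
        rw [dist_comm, dist_eq_norm]
        exact (hT p hp N).2.2
      obtain ⟨l, hl⟩ := cauchySeq_tendsto_of_complete h1
      have h2 : winf T p = l := hl.limUnder_eq
      rw [h2]
      exact hl
    · have h1 : Tendsto (fun N : ℕ => μ ^ N * ‖p.1‖) atTop (𝓝 0) := by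
        have := (tendsto_pow_atTop_nhds_zero_of_lt_one hμ0.le hμ1).mul_const ‖p.1‖
        simpa using this
      exact squeeze_zero_norm (fun N => (hT p hp N).2.1) h1
  -- the limit is smooth at the fixed points
  have hfix : ∀ (k : ℕ) (w₀ : W), ‖w₀‖ < r → ContDiffAt ℝ k (winf T) (0, w₀) := by
    intro k w₀ hw
    have hG' := e6_good T r hG w₀ hw
    have h1 := hE5 k Y W (e6_tr T w₀) (r - ‖w₀‖) hG'
    obtain ⟨δ, hδ, hT⟩ := hconv (e6_tr T w₀) (r - ‖w₀‖) hG' 1 one_pos
    -- winf T = winf (e6_tr T w₀) (· - (0, w₀)) + w₀ near (0, w₀)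
    have h2 : ∀ p : Y × W, ‖p‖ < δ → winf T (p + (0, w₀)) = winf (e6_tr T w₀) p + w₀ := by
      intro p hp
      have h3 := (hT p hp).2.1
      have h4 : Tendsto (fun N : ℕ => (T^[N] (p + (0, w₀))).2) atTop
          (𝓝 (winf (e6_tr T w₀) p + w₀)) := by
        have h5 : (fun N : ℕ => (T^[N] (p + (0, w₀))).2) =
            fun N : ℕ => ((e6_tr T w₀)^[N] p).2 + w₀ := by
          funext N
          rw [e6_iter]
          simp
        rw [h5]
        exact h3.add_const w₀
      exact h4.limUnder_eq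
    have h3 : ContDiffAt ℝ k (fun p : Y × W => winf (e6_tr T w₀) (p - (0, w₀)) + w₀) (0, w₀) := by
      refine ContDiffAt.add ?_ contDiffAt_const
      have h6 : ContDiffAt ℝ k (fun p : Y × W => p - ((0 : Y), w₀)) ((0 : Y), w₀) :=
        ContDiff.contDiffAt (contDiff_id.sub contDiff_const)
      have h7 : ContDiffAt ℝ k (winf (e6_tr T w₀)) ((fun p : Y × W => p - ((0 : Y), w₀)) (0, w₀)) := by
        simpa using h1
      have h8 := ContDiffAt.comp (g := winf (e6_tr T w₀))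
        (f := fun p : Y × W => p - ((0 : Y), w₀)) ((0 : Y), w₀) h7 h6
      exact h8
    refine h3.congr_of_eventuallyEq ?_
    have h4 : ∀ᶠ p : Y × W in 𝓝 ((0 : Y), w₀), ‖p - (0, w₀)‖ < δ := by
      have h5 : Tendsto (fun p : Y × W => ‖p - (0, w₀)‖) (𝓝 ((0 : Y), w₀)) (𝓝 0) := by
        have h6 : Continuous fun p : Y × W => ‖p - (0, w₀)‖ := by fun_prop
        have h7 := h6.tendsto ((0 : Y), w₀)
        simpa using h7
      exact h5.eventually (gt_mem_nhds hδ)
    filter_upwards [h4] with p hp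
    have h5 := h2 (p - (0, w₀)) hp
    rwa [sub_add_cancel] at h5
  -- the whole ball
  obtain ⟨δ, hδ, hT⟩ := hconv T r hG (r / 2) (half_pos hG.pos)
  refine ⟨δ, hδ, ?_, fun p hp => (hT p hp).2.1⟩
  intro p hp
  have hp' := mem_ball_zero_iff.1 hp
  refine ContDiffAt.contDiffWithinAt ?_
  refine contDiffAt_infty.2 fun k => ?_
  obtain ⟨hb, hl2, hl1⟩ := hT p hp'
  have hw : ‖winf T p‖ < r := by
    have h1 : ∀ N, ‖(T^[N] p).2‖ ≤ r / 2 := fun N => (norm_snd_le _).trans (hb N).le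
    have h2 : ‖winf T p‖ ≤ r / 2 := le_of_tendsto hl2.norm (Eventually.of_forall h1)
    have := hG.pos
    linarith
  have hk := hfix k (winf T p) hw
  have hev : ∀ᶠ q in 𝓝 ((0 : Y), winf T p), ContDiffAt ℝ (k : WithTop ℕ∞) (winf T) q :=
    hk.eventually (by simp)
  have hlim : Tendsto (fun N : ℕ => T^[N] p) atTop (𝓝 ((0 : Y), winf T p)) := hl1.prodMk_nhds hl2
  obtain ⟨N, hN⟩ := (hlim.eventually hev).exists
  have hTN : ContDiffAt ℝ k (T^[N]) p := by
    have h1 := (hE3 Y W T r hG N p.1 0 p.2 0 (fun j _ => by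
      have h2 := hb j
      have h3 := hG.pos
      change ‖T^[j] p‖ < r
      linarith)).1
    exact h1.of_le (by exact_mod_cast le_top)
  have hcomp : ContDiffAt ℝ k (winf T ∘ T^[N]) p := ContDiffAt.comp p hN hTN
  refine hcomp.congr_of_eventuallyEq ?_
  filter_upwards [Metric.isOpen_ball.mem_nhds hp] with q hq
  have hq' := mem_ball_zero_iff.1 hq
  have h1 := (hT q hq').2.1
  have h2 : Tendsto (fun M : ℕ => (T^[M] (T^[N] q)).2) atTop (𝓝 (winf T q)) := by
    have h3 : (fun M : ℕ => (T^[M] (T^[N] q)).2) = fun M : ℕ => (T^[M + N] q).2 := by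
      funext M
      rw [Function.iterate_add_apply]
    rw [h3]
    exact (tendsto_add_atTop_iff_nat (f := fun M : ℕ => (T^[M] q).2) N).2 h1
  exact h2.limUnder_eq.symm

end Pool.Agent.Lib.MP_4f3c81_gt.Inf
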