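import Pool.Agent.Lib.MP_4f3c81_gt.Inf.Stmts

/-!
# Cutting off
-/

open Filter Topology Set Matrix MeasureTheory
open scoped ContDiff

namespace Pool.Agent.Lib.MP_4f3c81_gt.Inf

theorem p_F0 : S_F0 := by
  intro E E' _ _ _ _ _ r hr f hf
  let β : ContDiffBump (0 : ℝ) := ⟨r / 2, 3 * r / 4, by linarith, by linarith⟩
  let γ : ContDiffBump (0 : E) := ⟨r / 2, 3 * r / 4, by linarith, by linarith⟩
  have hβs : ContDiff ℝ ∞ (β : ℝ → ℝ) := β.contDiff
  have hγs : ContDiff ℝ ∞ (γ : E → ℝ) := γ.contDiff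
  have hχs : ContDiff ℝ ∞ (fun x : ℝ × E => β x.1 * γ x.2) :=
    (hβs.comp contDiff_fst).mul (hγs.comp contDiff_snd)
  have hzero : ∀ x : ℝ × E, 3 * r / 4 ≤ ‖x‖ → β x.1 * γ x.2 = 0 := by
    intro x hx
    rw [Prod.norm_def, le_max_iff] at hx
    rcases hx with h | h
    · have h1 : β x.1 = 0 := by
        apply β.zero_of_le_dist
        rw [dist_zero_right]
        exact h
      rw [h1, zero_mul]
    · have h1 : γ x.2 = 0 := by
        apply γ.zero_of_le_dist
        rw [dist_zero_right]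
        exact h
      rw [h1, mul_zero]
  refine ⟨fun x => (β x.1 * γ x.2) • f x, fun x => β x.1 * γ x.2, ?_, fun x => rfl, ?_, ?_, ?_, hχs⟩
  · rw [contDiff_iff_contDiffAt]
    intro x
    by_cases hx : ‖x‖ < r
    · have h1 : ContDiffAt ℝ ∞ f x :=
        hf.contDiffAt (Metric.isOpen_ball.mem_nhds (by rw [mem_ball_zero_iff]; exact hx))
      exact hχs.contDiffAt.smul h1
    · have hx' : 3 * r / 4 < ‖x‖ := by linarith [not_lt.mp hx]
      have h1 : (fun x : ℝ × E => (β x.1 * γ x.2) • f x) =ᶠ[𝓝 x] fun _ => 0 := by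
        have h2 : ∀ᶠ y in 𝓝 x, 3 * r / 4 < ‖y‖ := continuous_norm.continuousAt.eventually (lt_mem_nhds hx')
        filter_upwards [h2] with y hy
        rw [hzero y hy.le, zero_smul]
      exact contDiffAt_const.congr_of_eventuallyEq h1
  · intro x hx
    rw [Prod.norm_def, max_lt_iff] at hx
    have h1 : β x.1 = 1 := by
      apply β.one_of_mem_closedBall
      rw [mem_closedBall_zero_iff]
      exact hx.1.le
    have h2 : γ x.2 = 1 := by
      apply γ.one_of_mem_closedBall
      rw [mem_closedBall_zero_iff]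
      exact hx.2.le
    show β x.1 * γ x.2 = 1
    rw [h1, h2, mul_one]
  · intro x hx
    exact hzero x (by linarith)
  · intro s z
    show β (-s) * γ z = β s * γ z
    rw [β.neg]

end Pool.Agent.Lib.MP_4f3c81_gt.Inf
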