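import Pool.Agent.Lib.MP_4f3c81_gt.Inf.Stmts

open Filter Topology Set Matrix MeasureTheory
open scoped ContDiff

namespace Pool.Agent.Lib.MP_4f3c81_gt.Inf

private theorem f1_jc {E : Type} [NormedAddCommGroup E] [NormedSpace ℝ E] :
    ∀ (k : ℕ) (E' : Type) [NormedAddCommGroup E'] [NormedSpace ℝ E'] (H : ℝ × E → E'),
      ContDiff ℝ ∞ H → JC k (fun (t : unitInterval) (x : E) => H ((t : ℝ), x)) := by
  intro k
  induction k with
  | zero =>
    intro E' _ _ H hH
    change Continuous fun q : unitInterval × E => H ((q.1 : ℝ), q.2)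
    exact hH.continuous.comp
      ((continuous_subtype_val.comp continuous_fst).prodMk continuous_snd)
  | succ k ih =>
    intro E' _ _ H hH
    have hd : Differentiable ℝ H := hH.differentiable (by simp)
    have hfd : ∀ (t : ℝ) (x : E), HasFDerivAt (fun x => H (t, x))
        ((fderiv ℝ H (t, x)).comp (ContinuousLinearMap.inr ℝ ℝ E)) x := by
      intro t x
      exact (hd (t, x)).hasFDerivAt.comp x (hasFDerivAt_prodMk_right t x)
    refine ⟨fun p x => (hfd p x).differentiableAt, ?_, ?_⟩
    · exact hH.continuous.comp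
        ((continuous_subtype_val.comp continuous_fst).prodMk continuous_snd)
    · have h1 := ih (E →L[ℝ] E')
        (fun y => (fderiv ℝ H y).comp (ContinuousLinearMap.inr ℝ ℝ E))
        ((hH.fderiv_right (m := ∞) (by simp)).clm_comp contDiff_const)
      have h2 : (fun (p : unitInterval) (x : E) => fderiv ℝ (fun x => H ((p : ℝ), x)) x) =
          fun (t : unitInterval) (x : E) =>
            (fderiv ℝ H ((t : ℝ), x)).comp (ContinuousLinearMap.inr ℝ ℝ E) := by
        funext p x
        exact (hfd p x).fderiv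
      change JC k (fun (p : unitInterval) (x : E) => fderiv ℝ (fun x => H ((p : ℝ), x)) x)
      rw [h2]
      exact h1

theorem p_F1 (hA4 : S_A4) : S_F1 := by
  intro Z E' _ _ _ _ _ _ f hf hf0
  obtain ⟨H, hHdef⟩ : ∃ H : ℝ × (ℝ × Z) → E', ∀ p, H p =
      fderiv ℝ f (p.1 * p.2.1, p.2.2) ((1 : ℝ), (0 : Z)) := ⟨_, fun _ => rfl⟩
  have hH : ContDiff ℝ ∞ H := by
    have h1 : H = fun p => fderiv ℝ f (p.1 * p.2.1, p.2.2) ((1 : ℝ), (0 : Z)) := funext hHdef
    rw [h1]
    have h2 : ContDiff ℝ ∞ (fderiv ℝ f) := hf.fderiv_right (m := ∞) (by simp)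
    have h3 : ContDiff ℝ ∞ fun p : ℝ × (ℝ × Z) => (p.1 * p.2.1, p.2.2) :=
      (contDiff_fst.mul (contDiff_fst.comp contDiff_snd)).prodMk
        (contDiff_snd.comp contDiff_snd)
    exact (h2.comp h3).clm_apply contDiff_const
  refine ⟨fun x => ∫ t : unitInterval, H ((t : ℝ), x), ?_, ?_⟩
  · rw [contDiff_infty]
    intro k
    exact (hA4 unitInterval (ℝ × Z) E' volume k (fun (t : unitInterval) x => H ((t : ℝ), x))
      (f1_jc k E' H hH)).1
  · intro r z
    have e1 : ∫ t : unitInterval, H ((t : ℝ), (r, z)) = ∫ t in (0 : ℝ)..1, H (t, (r, z)) := by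
      rw [unitInterval.volume_def, intervalIntegral.integral_of_le zero_le_one,
        ← integral_Icc_eq_integral_Ioc]
      exact integral_subtype_comap measurableSet_Icc (fun t : ℝ => H (t, (r, z)))
    have hd : Differentiable ℝ f := hf.differentiable (by simp)
    have e2 : ∀ t : ℝ, HasDerivAt (fun t : ℝ => f (t * r, z)) (r • H (t, (r, z))) t := by
      intro t
      have h1 : HasDerivAt (fun t : ℝ => (t * r, z)) (1 * r, (0 : Z)) t :=
        ((hasDerivAt_id t).mul_const r).prodMk (hasDerivAt_const t z)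
      have h2 := (hd (t * r, z)).hasFDerivAt.comp_hasDerivAt t h1
      have h3 : (fderiv ℝ f (t * r, z)) (1 * r, (0 : Z)) = r • H (t, (r, z)) := by
        rw [hHdef, ← map_smul]
        congr 1
        simp
      rw [h3] at h2
      exact h2
    have e3 := intervalIntegral.integral_eq_sub_of_hasDerivAt (a := (0 : ℝ)) (b := 1)
      (f := fun t : ℝ => f (t * r, z)) (f' := fun t => r • H (t, (r, z)))
      (fun t _ => e2 t) (by
        apply Continuous.intervalIntegrable
        exact (hH.continuous.comp (continuous_id.prodMk continuous_const)).const_smul r)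
    rw [intervalIntegral.integral_smul, one_mul, zero_mul, hf0, sub_zero] at e3
    rw [← e3]
    change r • ∫ t in (0 : ℝ)..1, H (t, (r, z)) = r • ∫ t : unitInterval, H ((t : ℝ), (r, z))
    rw [e1]

end Pool.Agent.Lib.MP_4f3c81_gt.Inf
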