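import Pool.Agent.Lib.MP_4f3c81_gt.Inf.Stmts

open Filter Topology Set Matrix MeasureTheory
open scoped ContDiff

namespace Pool.Agent.Lib.MP_4f3c81_gt.Inf

section

variable {V Z : Type} [NormedAddCommGroup V] [InnerProductSpace ℝ V]
  [NormedAddCommGroup Z] [NormedSpace ℝ Z]

private theorem f2_sym {E' : Type} [NormedAddCommGroup E'] [NormedSpace ℝ E']
    (f : ℝ × Z → E') (hf : Differentiable ℝ f) (he : ∀ r z, f (-r, z) = f (r, z)) (r : ℝ) (z : Z)
    (a : ℝ) (b : Z) : fderiv ℝ f (r, z) (a, b) = fderiv ℝ f (-r, z) (-a, b) := by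
  obtain ⟨σ, hσ⟩ : ∃ σ : ℝ × Z →L[ℝ] ℝ × Z, ∀ p, σ p = (-p.1, p.2) :=
    ⟨(-(ContinuousLinearMap.id ℝ ℝ)).prodMap (ContinuousLinearMap.id ℝ Z), fun p => rfl⟩
  have h1 : HasFDerivAt (fun p => f (σ p)) ((fderiv ℝ f (σ (r, z))).comp σ) (r, z) :=
    (hf _).hasFDerivAt.comp (r, z) σ.hasFDerivAt
  have h2 : (fun p => f (σ p)) = f := by
    funext p
    rw [hσ]
    exact he p.1 p.2
  rw [h2] at h1
  rw [h1.fderiv, ContinuousLinearMap.comp_apply, hσ, hσ]

private theorem f2_norm {x : V} (hx : x ≠ 0) :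
    HasFDerivAt (fun x : V => ‖x‖) ((‖x‖)⁻¹ • innerSL ℝ x) x := by
  have h1 := (hasStrictFDerivAt_norm_sq x).hasFDerivAt.sqrt
    (pow_ne_zero 2 (norm_ne_zero_iff.2 hx))
  have h2 : (fun x : V => √(‖x‖ ^ 2)) = fun x : V => ‖x‖ := by
    funext x
    exact Real.sqrt_sq (norm_nonneg x)
  rw [h2] at h1
  have h3 : (1 / (2 * √(‖x‖ ^ 2))) • (2 • innerSL ℝ x) = (‖x‖)⁻¹ • innerSL ℝ x := by
    rw [Real.sqrt_sq (norm_nonneg x), ← Nat.cast_smul_eq_nsmul ℝ, smul_smul]
    congr 1
    have : ‖x‖ ≠ 0 := norm_ne_zero_iff.2 hx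
    push_cast
    field_simp
  rw [h3] at h1
  exact h1

private theorem f2_deriv {E' : Type} [NormedAddCommGroup E'] [NormedSpace ℝ E']
    (f g : ℝ × Z → E') (hf : Differentiable ℝ f)
    (hg : ∀ r z, fderiv ℝ f (r, z) ((1 : ℝ), (0 : Z)) = r • g (r, z)) (p : V × Z) :
    HasFDerivAt (fun p : V × Z => f (‖p.1‖, p.2))
      (((innerSL ℝ p.1).comp (ContinuousLinearMap.fst ℝ V Z)).smulRight (g (‖p.1‖, p.2)) +
        ((fderiv ℝ f (‖p.1‖, p.2)).comp (ContinuousLinearMap.inr ℝ ℝ Z)).comp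
          (ContinuousLinearMap.snd ℝ V Z)) p := by
  have hsplit : ∀ (r : ℝ) (z : Z) (a : ℝ) (b : Z), fderiv ℝ f (r, z) (a, b) =
      a • (r • g (r, z)) + fderiv ℝ f (r, z) (0, b) := by
    intro r z a b
    have h1 : ((a, b) : ℝ × Z) = a • ((1 : ℝ), (0 : Z)) + (0, b) := by
      ext <;> simp
    rw [h1, map_add, map_smul, hg]
  obtain ⟨x, z⟩ := p
  by_cases hx : x = 0
  · subst hx
    have h1 := (hf (0, z)).hasFDerivAt
    rw [hasFDerivAt_iff_isLittleO] at h1 ⊢
    have hc : Tendsto (fun p : V × Z => ((‖p.1‖, p.2) : ℝ × Z)) (𝓝 (0, z)) (𝓝 (0, z)) := by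
      have h2 : Continuous fun p : V × Z => ((‖p.1‖, p.2) : ℝ × Z) :=
        (continuous_norm.comp continuous_fst).prodMk continuous_snd
      have h3 := h2.tendsto (0, z)
      simpa using h3
    have h4 := h1.comp_tendsto hc
    have h5 : ((fun y : ℝ × Z => y - (0, z)) ∘ fun p : V × Z => ((‖p.1‖, p.2) : ℝ × Z))
        =O[𝓝 ((0 : V), z)] fun p : V × Z => p - (0, z) := by
      refine Asymptotics.IsBigO.of_bound 1 (Eventually.of_forall fun p => ?_)
      rw [one_mul, Function.comp_apply, Prod.norm_def, Prod.norm_def]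
      simp
    refine (h4.trans_isBigO h5).congr_left fun p => ?_
    simp only [Function.comp_apply]
    obtain ⟨x', z'⟩ := p
    simp only [Prod.mk_sub_mk, sub_zero, norm_zero, ContinuousLinearMap.add_apply,
      ContinuousLinearMap.smulRight_apply, ContinuousLinearMap.comp_apply,
      ContinuousLinearMap.coe_fst', ContinuousLinearMap.coe_snd', ContinuousLinearMap.inr_apply,
      map_zero, ContinuousLinearMap.zero_apply, zero_smul, zero_add]
    rw [hsplit 0 z ‖x'‖ (z' - z), zero_smul, smul_zero, zero_add]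
  · have h1 : HasFDerivAt (fun p : V × Z => ((‖p.1‖, p.2) : ℝ × Z))
        ((((‖x‖)⁻¹ • innerSL ℝ x).comp (ContinuousLinearMap.fst ℝ V Z)).prod
          (ContinuousLinearMap.snd ℝ V Z)) (x, z) :=
      ((f2_norm hx).comp (x, z) hasFDerivAt_fst).prodMk hasFDerivAt_snd
    have h2 := (hf (‖x‖, z)).hasFDerivAt.comp (x, z) h1
    refine h2.congr_fderiv ?_
    ext q
    · obtain ⟨hn⟩ : ‖x‖ ≠ 0 ∧ True := ⟨norm_ne_zero_iff.2 hx, trivial⟩
      simp only [ContinuousLinearMap.comp_apply, ContinuousLinearMap.prod_apply,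
        ContinuousLinearMap.coe_fst', ContinuousLinearMap.coe_snd',
        ContinuousLinearMap.inl_apply, ContinuousLinearMap.add_apply,
        ContinuousLinearMap.smulRight_apply, ContinuousLinearMap.inr_apply,
        ContinuousLinearMap.smul_apply, smul_eq_mul]
      rw [hsplit, smul_smul]
      congr 2
      field_simp
    · simp only [ContinuousLinearMap.comp_apply, ContinuousLinearMap.prod_apply,
        ContinuousLinearMap.coe_fst', ContinuousLinearMap.coe_snd',
        ContinuousLinearMap.inr_apply, ContinuousLinearMap.add_apply,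
        ContinuousLinearMap.smulRight_apply,
        ContinuousLinearMap.smul_apply, smul_eq_mul, map_zero, mul_zero, zero_smul, zero_add]

end

theorem p_F2 (hF1 : S_F1) : S_F2 := by
  intro V Z E' _ _ _ _ _ _ _ _ _ f hf he
  -- existence of `g`
  have hex : ∀ (E' : Type) [NormedAddCommGroup E'] [NormedSpace ℝ E'] [FiniteDimensional ℝ E']
      (f : ℝ × Z → E'), ContDiff ℝ ∞ f → (∀ r z, f (-r, z) = f (r, z)) →
      ∃ g : ℝ × Z → E', ContDiff ℝ ∞ g ∧ (∀ r z, g (-r, z) = g (r, z)) ∧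
        ∀ r z, fderiv ℝ f (r, z) ((1 : ℝ), (0 : Z)) = r • g (r, z) := by
    intro E' _ _ _ f hf he
    have hd : Differentiable ℝ f := hf.differentiable (by simp)
    have hodd : ∀ r z, fderiv ℝ f (-r, z) ((1 : ℝ), (0 : Z)) =
        -fderiv ℝ f (r, z) ((1 : ℝ), (0 : Z)) := by
      intro r z
      have h1 := f2_sym f hd he r z (-1) 0
      rw [neg_neg] at h1
      rw [← h1]
      have h2 : ((-1 : ℝ), (0 : Z)) = -((1 : ℝ), (0 : Z)) := by simp
      rw [h2, map_neg]
    have h0 : ∀ z, fderiv ℝ f (0, z) ((1 : ℝ), (0 : Z)) = 0 := by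
      intro z
      have h1 := hodd 0 z
      rw [neg_zero] at h1
      have h2 : (2 : ℝ) • fderiv ℝ f (0, z) ((1 : ℝ), (0 : Z)) = 0 := by
        rw [two_smul]
        nth_rewrite 1 [h1]
        exact neg_add_cancel _
      exact (smul_eq_zero.1 h2).resolve_left two_ne_zero
    obtain ⟨g, hg, hfg⟩ := hF1 Z E' (fun p => fderiv ℝ f p ((1 : ℝ), (0 : Z)))
      ((hf.fderiv_right (m := ∞) (by simp)).clm_apply contDiff_const) h0
    refine ⟨g, hg, fun r z => ?_, hfg⟩
    by_cases hr : r = 0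
    · rw [hr, neg_zero]
    · have h1 := hodd r z
      have h2 : fderiv ℝ f (-r, z) ((1 : ℝ), (0 : Z)) = (-r) • g (-r, z) := hfg (-r) z
      have h3 : fderiv ℝ f (r, z) ((1 : ℝ), (0 : Z)) = r • g (r, z) := hfg r z
      rw [h2, h3, neg_smul, neg_inj] at h1
      exact smul_right_injective E' hr h1
  have key : ∀ (k : ℕ) (E' : Type) [NormedAddCommGroup E'] [NormedSpace ℝ E']
      [FiniteDimensional ℝ E'] (f : ℝ × Z → E'), ContDiff ℝ ∞ f →
      (∀ r z, f (-r, z) = f (r, z)) → ContDiff ℝ k (fun p : V × Z => f (‖p.1‖, p.2)) := by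
    intro k
    induction k with
    | zero =>
      intro E' _ _ _ f hf _
      rw [Nat.cast_zero, contDiff_zero]
      exact hf.continuous.comp ((continuous_norm.comp continuous_fst).prodMk continuous_snd)
    | succ k ih =>
      intro E' _ _ _ f hf he
      have hd : Differentiable ℝ f := hf.differentiable (by simp)
      obtain ⟨g, hg, hge, hfg⟩ := hex E' f hf he
      rw [Nat.cast_succ, contDiff_succ_iff_hasFDerivAt]
      refine ⟨_, ?_, fun p => f2_deriv f g hd hfg p⟩
      have h1 := ih E' g hg hge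
      have h2 := ih (Z →L[ℝ] E')
        (fun q => (fderiv ℝ f q).comp (ContinuousLinearMap.inr ℝ ℝ Z))
        ((hf.fderiv_right (m := ∞) (by simp)).clm_comp contDiff_const) (by
          intro r z
          ext b
          simp only [ContinuousLinearMap.comp_apply, ContinuousLinearMap.inr_apply]
          have h3 := f2_sym f hd he r z 0 b
          rw [neg_zero] at h3
          exact h3.symm)
      refine ContDiff.add ?_ ?_
      · refine ContDiff.smulRight ?_ h1
        exact ((innerSL ℝ).contDiff.comp contDiff_fst).clm_comp contDiff_const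
      · exact h2.clm_comp contDiff_const
  refine ⟨?_, fun z => ?_⟩
  · rw [contDiff_infty]
    exact fun k => key k E' f hf he
  · have hd : Differentiable ℝ f := hf.differentiable (by simp)
    obtain ⟨g, hg, hge, hfg⟩ := hex E' f hf he
    have h1 := f2_deriv (V := V) f g hd hfg (0, z)
    refine h1.congr_fderiv ?_
    have h2 : HasFDerivAt (fun z => f (0, z))
        ((fderiv ℝ f (0, z)).comp (ContinuousLinearMap.inr ℝ ℝ Z)) z :=
      (hd (0, z)).hasFDerivAt.comp z (hasFDerivAt_prodMk_right (0 : ℝ) z)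
    rw [h2.fderiv]
    simp

end Pool.Agent.Lib.MP_4f3c81_gt.Inf
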