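import Pool.Agent.Lib.MP_4f3c81_gt.Inf.Stmts

/-!
# Rotations and slightly conjugated rotations generate `SL(n, ℝ)`
-/

open Filter Topology Set Matrix
open scoped ContDiff

namespace Pool.Agent.Lib.MP_4f3c81_gt.Inf

/-- the inclusion of the coordinate plane -/
private def g2_E {n : ℕ} (i j : Fin n) : Matrix (Fin n) (Fin 2) ℝ :=
  Matrix.of fun a b => if b = 0 then (if a = i then 1 else 0) else (if a = j then 1 else 0)

private theorem g2_EE {n : ℕ} (i j : Fin n) (h : i ≠ j) : (g2_E i j)ᵀ * g2_E i j = 1 := by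
  ext a b
  rw [Matrix.mul_apply]
  simp only [Matrix.transpose_apply, g2_E, Matrix.of_apply]
  fin_cases a <;> fin_cases b <;> simp [h, h.symm]

/-- the block embedding of two by two matrices -/
private def g2_B {n : ℕ} (i j : Fin n) (M : Matrix (Fin 2) (Fin 2) ℝ) :
    Matrix (Fin n) (Fin n) ℝ :=
  1 + g2_E i j * (M - 1) * (g2_E i j)ᵀ

private theorem g2_B_one {n : ℕ} (i j : Fin n) : g2_B i j 1 = 1 := by
  unfold g2_B
  simp

private theorem g2_B_transpose {n : ℕ} (i j : Fin n) (M : Matrix (Fin 2) (Fin 2) ℝ) :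
    (g2_B i j M)ᵀ = g2_B i j Mᵀ := by
  unfold g2_B
  rw [Matrix.transpose_add, Matrix.transpose_mul, Matrix.transpose_mul,
    Matrix.transpose_transpose, Matrix.transpose_one, Matrix.transpose_sub,
    Matrix.transpose_one, Matrix.mul_assoc]

private theorem g2_B_mul {n : ℕ} (i j : Fin n) (h : i ≠ j) (M M' : Matrix (Fin 2) (Fin 2) ℝ) :
    g2_B i j (M * M') = g2_B i j M * g2_B i j M' := by
  unfold g2_B
  set E := g2_E i j
  have hE : Eᵀ * E = 1 := g2_EE i j h
  have h1 : E * (M - 1) * Eᵀ * (E * (M' - 1) * Eᵀ) = E * ((M - 1) * (M' - 1)) * Eᵀ := by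
    calc E * (M - 1) * Eᵀ * (E * (M' - 1) * Eᵀ)
        = E * (M - 1) * (Eᵀ * E) * (M' - 1) * Eᵀ := by simp only [Matrix.mul_assoc]
      _ = E * ((M - 1) * (M' - 1)) * Eᵀ := by rw [hE, Matrix.mul_one]; simp only [Matrix.mul_assoc]
  rw [Matrix.mul_add, Matrix.add_mul, Matrix.add_mul, Matrix.mul_one, Matrix.one_mul, h1,
    Matrix.mul_one]
  have h2 : M * M' - 1 = (M - 1) + (M' - 1) + (M - 1) * (M' - 1) := by
    rw [Matrix.mul_sub, Matrix.sub_mul, Matrix.mul_one, Matrix.one_mul]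
    abel
  rw [h2, Matrix.mul_add, Matrix.mul_add, Matrix.add_mul, Matrix.add_mul]
  abel

private theorem g2_B_tv {n : ℕ} (i j : Fin n) (h : i ≠ j) (c : ℝ) :
    g2_B i j !![1, c; 0, 1] = (tv i j h c).1 := by
  rw [tv_val]
  unfold g2_B
  congr 1
  ext a b
  simp only [Matrix.mul_apply, Fin.sum_univ_two, g2_E, Matrix.of_apply, Matrix.transpose_apply,
    Matrix.sub_apply, Matrix.single_apply]
  have e1 : (i = a ∧ j = b) ↔ (a = i ∧ b = j) := ⟨fun h => ⟨h.1.symm, h.2.symm⟩,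
    fun h => ⟨h.1.symm, h.2.symm⟩⟩
  rw [if_congr e1 rfl rfl]
  by_cases ha : a = i
  · have ha' : a ≠ j := fun e => h (ha.symm.trans e)
    by_cases hb : b = j
    · have hb' : b ≠ i := fun e => h (e.symm.trans hb)
      simp [ha, hb, h, h.symm]
    · by_cases hb' : b = i <;> simp [ha, hb, hb', h, h.symm]
  · by_cases hb : b = j
    · have hb' : b ≠ i := fun e => h (e.symm.trans hb)
      by_cases ha' : a = j <;> simp [ha, hb, ha', h, h.symm]
    · by_cases ha' : a = j <;> by_cases hb' : b = i <;> simp [ha, hb, ha', hb', h, h.symm]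

private theorem g2_B_tv' {n : ℕ} (i j : Fin n) (h : i ≠ j) (c : ℝ) :
    g2_B i j !![1, 0; c, 1] = (tv j i h.symm c).1 := by
  rw [tv_val]
  unfold g2_B
  congr 1
  ext a b
  simp only [Matrix.mul_apply, Fin.sum_univ_two, g2_E, Matrix.of_apply, Matrix.transpose_apply,
    Matrix.sub_apply, Matrix.single_apply]
  have e1 : (j = a ∧ i = b) ↔ (a = j ∧ b = i) := ⟨fun h => ⟨h.1.symm, h.2.symm⟩,
    fun h => ⟨h.1.symm, h.2.symm⟩⟩
  rw [if_congr e1 rfl rfl]
  by_cases ha : a = i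
  · by_cases hb : b = j
    · simp [ha, hb, h, h.symm]
    · by_cases hb' : b = i <;> simp [ha, hb, hb', h, h.symm]
  · by_cases hb : b = j
    · by_cases ha' : a = j <;> simp [ha, hb, ha', h, h.symm]
    · by_cases ha' : a = j <;> by_cases hb' : b = i <;> simp [ha, hb, ha', hb', h, h.symm]

private theorem g2_B_dg {n : ℕ} (i j : Fin n) (h : i ≠ j) (t : ℝ) (ht : t ≠ 0) :
    g2_B i j !![t, 0; 0, t⁻¹] = (dg i j h t ht).1 := by
  rw [dg_val]
  unfold g2_B
  ext a b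
  simp only [Matrix.add_apply, Matrix.mul_apply, Fin.sum_univ_two, g2_E, Matrix.of_apply,
    Matrix.transpose_apply, Matrix.sub_apply, Matrix.diagonal_apply, Matrix.one_apply]
  by_cases hab : a = b
  · subst hab
    by_cases ha : a = i
    · have ha' : a ≠ j := fun e => h (ha.symm.trans e)
      simp [ha, h]
    · by_cases ha' : a = j <;> simp [ha, ha', h, h.symm]
  · rw [if_neg hab, if_neg hab]
    by_cases ha : a = i
    · have hb : b ≠ i := fun e => hab (ha.trans e.symm)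
      by_cases hb' : b = j <;> simp [ha, hb, hb', h, h.symm]
    · by_cases ha' : a = j
      · have hb : b ≠ j := fun e => hab (ha'.trans e.symm)
        by_cases hb' : b = i <;> simp [ha', hb, hb', h, h.symm]
      · by_cases hb : b = i <;> by_cases hb' : b = j <;> simp [ha, ha', hb, hb', h, h.symm]

/-- the rotation with cosine `p` and sine `q`, as a product of three transvections -/
private noncomputable def g2_rot {n : ℕ} (i j : Fin n) (h : i ≠ j) (p q : ℝ) : SLn n :=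
  tv i j h (-(q / (1 + p))) * tv j i h.symm q * tv i j h (-(q / (1 + p)))

private theorem g2_rot_val {n : ℕ} (i j : Fin n) (h : i ≠ j) (p q : ℝ) (hp : 0 ≤ p)
    (hpq : p ^ 2 + q ^ 2 = 1) : (g2_rot i j h p q).1 = g2_B i j !![p, -q; q, p] := by
  unfold g2_rot
  rw [val_mul, val_mul, ← g2_B_tv, ← g2_B_tv' i j h, ← g2_B_mul i j h, ← g2_B_mul i j h]
  congr 1
  have h1 : (1 + p) ≠ 0 := by positivity
  have h2 : q / (1 + p) * q = 1 - p := by
    field_simp
    linarith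
  have h3 : q / (1 + p) * (1 + p) = q := by field_simp
  generalize q / (1 + p) = t at h2 h3 ⊢
  ext a b
  fin_cases a <;> fin_cases b <;> simp [Matrix.mul_apply, Fin.sum_univ_two]
  · linear_combination (-1 : ℝ) * h2
  · linear_combination t * h2 - h3
  · linear_combination (-1 : ℝ) * h2

private theorem g2_rot_mem {n : ℕ} (i j : Fin n) (h : i ≠ j) (p q : ℝ) (hp : 0 ≤ p)
    (hpq : p ^ 2 + q ^ 2 = 1) : g2_rot i j h p q ∈ KK n := by
  rw [mem_KK, g2_rot_val i j h p q hp hpq, g2_B_transpose, ← g2_B_mul i j h, ← g2_B_one i j]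
  congr 1
  ext a b
  fin_cases a <;> fin_cases b <;> simp [Matrix.mul_apply, Fin.sum_univ_two]
  · linear_combination hpq
  · ring
  · ring
  · linear_combination hpq

/-- half angles -/
private theorem g2_half (a b : ℝ) (h : a ^ 2 + b ^ 2 = 1) :
    ∃ p q : ℝ, 0 ≤ p ∧ p ^ 2 + q ^ 2 = 1 ∧ p ^ 2 - q ^ 2 = a ∧ 2 * p * q = b := by
  by_cases ha : a = -1
  · subst ha
    have hb : b = 0 := by nlinarith
    exact ⟨0, 1, le_refl _, by norm_num, by norm_num, by rw [hb]; ring⟩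
  · have h1 : -1 ≤ a := by nlinarith [sq_nonneg b, sq_nonneg (a - 1), sq_nonneg (a + 1)]
    have h2 : 0 < 1 + a := by
      rcases lt_or_eq_of_le h1 with h3 | h3
      · linarith
      · exact absurd h3.symm ha
    have hp : 0 < Real.sqrt ((1 + a) / 2) := Real.sqrt_pos.2 (by linarith)
    have hp2 : Real.sqrt ((1 + a) / 2) ^ 2 = (1 + a) / 2 := Real.sq_sqrt (by linarith)
    set p := Real.sqrt ((1 + a) / 2)
    have hq2 : (b / (2 * p)) ^ 2 = (1 - a) / 2 := by
      rw [div_pow, mul_pow, hp2]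
      field_simp
      nlinarith
    refine ⟨p, b / (2 * p), hp.le, ?_, ?_, ?_⟩
    · rw [hp2, hq2]; ring
    · rw [hp2, hq2]; ring
    · field_simp

/-- the algebra of the half angles -/
private theorem g2_alg (C Y m c : ℝ) (hm : 0 < m) (hmd : m = 1 + c ^ 2 / 4)
    (hCY : C ^ 2 + Y ^ 2 = m) :
    ∃ p q : ℝ, 0 ≤ p ∧ p ^ 2 + q ^ 2 = 1 ∧ (p ^ 2 - q ^ 2) * C - 2 * p * q * Y = 1 ∧
      (p ^ 2 - q ^ 2) * Y + 2 * p * q * C = -c / 2 := by
  have h0 : ((C - c * Y / 2) / m) ^ 2 + (-(Y + c * C / 2) / m) ^ 2 = 1 := by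
    rw [div_pow, div_pow, ← add_div, div_eq_one_iff_eq (by positivity)]
    have e : (C - c * Y / 2) ^ 2 + (-(Y + c * C / 2)) ^ 2 = (1 + c ^ 2 / 4) * (C ^ 2 + Y ^ 2) := by
      ring
    rw [e, hCY, ← hmd]
    ring
  obtain ⟨p, q, hp, hpq, hpa, hpb⟩ := g2_half _ _ h0
  refine ⟨p, q, hp, hpq, ?_, ?_⟩
  · rw [hpa, hpb]
    have e : (C - c * Y / 2) / m * C - -(Y + c * C / 2) / m * Y = (C ^ 2 + Y ^ 2) / m := by ring
    rw [e, hCY, div_self hm.ne']
  · rw [hpa, hpb]
    have e : (C - c * Y / 2) / m * Y + -(Y + c * C / 2) / m * C = -c / 2 * ((C ^ 2 + Y ^ 2) / m) := by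
      ring
    rw [e, hCY, div_self hm.ne', mul_one]

private theorem g2_mat (s u C S c p q : ℝ) (hus : u * s = 1) (hpq : p ^ 2 + q ^ 2 = 1)
    (hc : S * (s ^ 2 - u ^ 2) = c)
    (r1 : (p ^ 2 - q ^ 2) * C - 2 * p * q * ((s ^ 2 + u ^ 2) * S / 2) = 1)
    (r2 : (p ^ 2 - q ^ 2) * ((s ^ 2 + u ^ 2) * S / 2) + 2 * p * q * C = -c / 2) :
    !![1, c; 0, 1] = !![p, -q; q, p] * (!![u, 0; 0, s] * !![C, -S; S, C] * !![s, 0; 0, u]) *
      !![p, -q; q, p] := by
  have e1 : !![u, 0; 0, s] * !![C, -S; S, C] * !![s, 0; 0, u] =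
      !![C, -(u ^ 2 * S); s ^ 2 * S, C] := by
    ext a b
    fin_cases a <;> fin_cases b <;> simp [Matrix.mul_apply, Fin.sum_univ_two]
    · linear_combination C * hus
    · ring
    · ring
    · linear_combination C * hus
  rw [e1]
  ext a b
  fin_cases a <;> fin_cases b <;> simp [Matrix.mul_apply, Fin.sum_univ_two]
  · linear_combination -r1
  · linear_combination r2 - (p ^ 2 + q ^ 2) / 2 * hc - c / 2 * hpq
  · linear_combination -r2 - (p ^ 2 + q ^ 2) / 2 * hc - c / 2 * hpq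
  · linear_combination -r1

/-- a small transvection is a product of rotations and a conjugated rotation -/
private theorem g2_small {n : ℕ} (i j : Fin n) (h : i ≠ j) (s : ℝ) (hs : 1 < s) (c : ℝ)
    (hc : |c| ≤ s ^ 2 - (s⁻¹) ^ 2) :
    ∃ k ∈ KK n, ∃ l ∈ KK n,
      tv i j h c = k * ((dg i j h s (by positivity))⁻¹ * l * dg i j h s (by positivity)) * k := by
  have hs0 : s ≠ 0 := by positivity
  have hss : s⁻¹ * s = 1 := inv_mul_cancel₀ hs0
  have hD : 0 < s ^ 2 - (s⁻¹) ^ 2 := by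
    have h1 : s⁻¹ < 1 := inv_lt_one_of_one_lt₀ hs
    have h2 : 0 < s⁻¹ := by positivity
    nlinarith
  obtain ⟨S, hSD⟩ : ∃ S : ℝ, S * (s ^ 2 - (s⁻¹) ^ 2) = c := ⟨c / (s ^ 2 - (s⁻¹) ^ 2),
    div_mul_cancel₀ _ hD.ne'⟩
  have hS : |S| ≤ 1 := by
    rw [← hSD, abs_mul, abs_of_pos hD] at hc
    by_contra hh
    push Not at hh
    nlinarith
  have hS2 : S ^ 2 ≤ 1 := by
    rw [← sq_abs]
    nlinarith [abs_nonneg S]
  have hC2 : Real.sqrt (1 - S ^ 2) ^ 2 = 1 - S ^ 2 := Real.sq_sqrt (by linarith)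
  have hC0 : 0 ≤ Real.sqrt (1 - S ^ 2) := Real.sqrt_nonneg _
  generalize Real.sqrt (1 - S ^ 2) = C at hC2 hC0
  have hCS : C ^ 2 + S ^ 2 = 1 := by linarith
  have hCY : C ^ 2 + ((s ^ 2 + (s⁻¹) ^ 2) * S / 2) ^ 2 = 1 + c ^ 2 / 4 := by
    rw [← hSD, hC2]
    linear_combination (S ^ 2) * (s⁻¹ * s + 1) * hss
  obtain ⟨p, q, hp, hpq, r1, r2⟩ := g2_alg C _ _ c (by positivity) rfl hCY
  refine ⟨g2_rot i j h p q, g2_rot_mem i j h p q hp hpq, g2_rot i j h C S,
    g2_rot_mem i j h C S hC0 hCS, ?_⟩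
  apply SLn_ext
  rw [dg_inv]
  rw [val_mul, val_mul, val_mul, val_mul, g2_rot_val i j h p q hp hpq,
    g2_rot_val i j h C S hC0 hCS, ← g2_B_dg, ← g2_B_dg, ← g2_B_mul i j h, ← g2_B_mul i j h,
    ← g2_B_mul i j h, ← g2_B_mul i j h, ← g2_B_tv]
  congr 1
  rw [inv_inv]
  exact g2_mat s s⁻¹ C S c p q hss hpq hSD r1 r2

theorem p_G2 (hG1 : S_G1) (_hK3 : S_K3) : S_G2 := by
  intro n H N hN hK hH
  rw [← top_le_iff, ← hG1 n, Subgroup.closure_le]
  rintro g ⟨i, j, h, c, rfl⟩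
  -- a small diagonal element
  have hf : Continuous fun r : ℝ => dg i j h (Real.exp r) (Real.exp_ne_zero r) := by
    refine Continuous.subtype_mk ?_ _
    refine Continuous.matrix_diagonal ?_
    refine continuous_pi fun k => ?_
    have h1 : Continuous fun r : ℝ => if k = i then Real.exp r else 1 := by
      split_ifs <;> fun_prop
    have h2 : Continuous fun r : ℝ => if k = j then (Real.exp r)⁻¹ else 1 := by
      split_ifs
      · exact Real.continuous_exp.inv₀ fun r => Real.exp_ne_zero r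
      · fun_prop
    exact h1.mul h2
  have hf0 : dg i j h (Real.exp 0) (Real.exp_ne_zero 0) = 1 := by
    have e : ∀ (t : ℝ) (ht : t ≠ 0), t = 1 → dg i j h t ht = 1 := by
      intro t ht e
      subst e
      exact dg_one i j h
    exact e _ _ Real.exp_zero
  have hev : ∀ᶠ r : ℝ in 𝓝 0, dg i j h (Real.exp r) (Real.exp_ne_zero r) ∈ N := by
    have := hf.tendsto 0
    rw [hf0] at this
    exact this.eventually hN
  obtain ⟨r, hr, hr0⟩ := ((hev.filter_mono nhdsWithin_le_nhds).and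
    (self_mem_nhdsWithin : Ioi (0 : ℝ) ∈ 𝓝[>] (0 : ℝ))).exists
  have hs : 1 < Real.exp r := Real.one_lt_exp_iff.2 hr0
  generalize hse : Real.exp r = s at hs
  have hs0 : s ≠ 0 := by positivity
  have hsN : dg i j h s hs0 ∈ N := by
    subst hse
    exact hr
  -- small transvections
  have hD : 0 < s ^ 2 - (s⁻¹) ^ 2 := by
    have h1 : s⁻¹ < 1 := inv_lt_one_of_one_lt₀ hs
    have h2 : 0 < s⁻¹ := by positivity
    nlinarith
  have hsmall : ∀ d : ℝ, |d| ≤ s ^ 2 - (s⁻¹) ^ 2 → tv i j h d ∈ H := by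
    intro d hd
    obtain ⟨k, hk, l, hl, e⟩ := g2_small i j h s hs d hd
    rw [e]
    exact H.mul_mem (H.mul_mem (hK hk) (hH i j h s hs0 hsN l hl)) (hK hk)
  obtain ⟨m, hm⟩ := exists_nat_gt (|c| / (s ^ 2 - (s⁻¹) ^ 2))
  have hm0 : (0 : ℝ) < m := lt_of_le_of_lt (by positivity) hm
  have hcm : |c / m| ≤ s ^ 2 - (s⁻¹) ^ 2 := by
    rw [abs_div, abs_of_pos hm0, div_le_iff₀ hm0]
    rw [div_lt_iff₀ hD] at hm
    linarith
  have hpow : ∀ (d : ℝ) (a : ℕ), tv i j h (a * d) = tv i j h d ^ a := by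
    intro d a
    induction a with
    | zero => rw [Nat.cast_zero, zero_mul, tv_zero, pow_zero]
    | succ a ih => rw [pow_succ, ← ih, ← tv_add]; congr 1; push_cast; ring
  have e : c = m * (c / m) := by field_simp
  rw [SetLike.mem_coe, e, hpow]
  exact H.pow_mem (hsmall _ hcm) m

end Pool.Agent.Lib.MP_4f3c81_gt.Inf
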