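import Pool.Agent.Lib.MP_4f3c81_gt.Inf.Stmts

/-!
# Monomial matrices permute the sign matrices
-/

open Matrix

namespace Pool.Agent.Lib.MP_4f3c81_gt.Inf

private theorem g3_aux (n : ℕ) (σ : Equiv.Perm (Fin n)) :
    ∃ s : Fin n → ℝ, (Matrix.diagonal s * (1 : Matrix (Fin n) (Fin n) ℝ).submatrix id σ).det = 1 := by
  rcases Nat.eq_zero_or_pos n with h0 | hpos
  · subst h0
    exact ⟨fun _ => 1, Matrix.det_isEmpty⟩
  · let o : Fin n := ⟨0, hpos⟩
    refine ⟨fun k => if k = o then ((Equiv.Perm.sign σ : ℤ) : ℝ) else 1, ?_⟩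
    rw [Matrix.det_mul, Matrix.det_permute', Matrix.det_one, mul_one, Matrix.det_diagonal,
      Finset.prod_ite_eq' Finset.univ o, if_pos (Finset.mem_univ o)]
    rcases Int.units_eq_one_or (Equiv.Perm.sign σ) with h | h <;> rw [h] <;> norm_num

theorem p_G3 : S_G3 := by
  intro n σ
  obtain ⟨s, hs⟩ := g3_aux n σ
  let w : SLn n := ⟨Matrix.diagonal s * (1 : Matrix (Fin n) (Fin n) ℝ).submatrix id σ, hs⟩
  refine ⟨w, ?_⟩
  intro i j
  refine mul_inv_eq_iff_eq_mul.2 ?_
  apply Subtype.ext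
  rw [val_mul, val_mul]
  change (Matrix.diagonal s * (1 : Matrix (Fin n) (Fin n) ℝ).submatrix id σ) *
      Matrix.diagonal (fun k => (if k = i then (-1 : ℝ) else 1) * (if k = j then -1 else 1)) =
    Matrix.diagonal (fun k => (if k = σ i then (-1 : ℝ) else 1) * (if k = σ j then -1 else 1)) *
      (Matrix.diagonal s * (1 : Matrix (Fin n) (Fin n) ℝ).submatrix id σ)
  ext k l
  have hw : (Matrix.diagonal s * (1 : Matrix (Fin n) (Fin n) ℝ).submatrix id σ) k l =
      s k * (if k = σ l then 1 else 0) := by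
    rw [Matrix.diagonal_mul, Matrix.submatrix_apply, id, Matrix.one_apply]
  refine (Matrix.mul_diagonal _ _ _ _).trans (Eq.trans ?_ (Matrix.diagonal_mul _ _ _ _).symm)
  rw [hw]
  by_cases h : k = σ l
  · subst h
    simp only [σ.injective.eq_iff]
    ring
  · rw [if_neg h]
    ring

end Pool.Agent.Lib.MP_4f3c81_gt.Inf
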