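import Pool.Agent.Lib.MP_4f3c81_gt.Inf.Stmts

/-!
# The joint eigenspaces of the sign matrices span (helper30)
-/

open Filter Topology Set Matrix MeasureTheory
open scoped ContDiff

namespace Pool.Agent.Lib.MP_4f3c81_gt.Inf

section

variable {n : ℕ} {E : Type} [NormedAddCommGroup E] [NormedSpace ℝ E]
  (R : SLn n →* (E →L[ℝ] E))

theorem h1_mul (g h : SLn n) (x : E) : R (g * h) x = R g (R h x) := by
  rw [map_mul]
  rfl

theorem h1_one (x : E) : R 1 x = x := by
  rw [map_one]
  rfl

theorem h1_invol (a o : Fin n) (x : E) : R (sg a o) (R (sg a o) x) = x := by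
  rw [← h1_mul, sg_mul_self, h1_one]

theorem h1_swap (a i o : Fin n) (x : E) :
    R (sg i o) (R (sg a o) x) = R (sg a o) (R (sg i o) x) := by
  rw [← h1_mul, ← h1_mul, sg_commute]

theorem h1_eps_not {I : Finset (Fin n)} {i : Fin n} (h : i ∉ I) : eps I i = 1 := by
  unfold eps
  rw [if_neg h]

theorem h1_mem (o : Fin n) (I : Finset (Fin n)) (x : E)
    (h : ∀ i, R (sg i o) x = eps I i • x) : x ∈ EI R I := by
  intro i j
  rw [← sg_mul_sg i o j, h1_mul, sg_comm o j, h j, map_smul, h i, smul_smul, mul_comm]

theorem h1_ind (o : Fin n) (S : Finset (Fin n)) : o ∉ S → ∀ (I : Finset (Fin n)) (x : E),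
    o ∉ I → Disjoint I S → (∀ i, i ∉ S → R (sg i o) x = eps I i • x) →
    x ∈ ⨆ I : {I : Finset (Fin n) // o ∉ I}, EI R I.1 := by
  classical
  induction S using Finset.induction_on with
  | empty =>
    intro _ I x hI _ h
    exact Submodule.mem_iSup_of_mem (⟨I, hI⟩ : {I : Finset (Fin n) // o ∉ I})
      (h1_mem R o I x fun i => h i (Finset.notMem_empty i))
  | insert a S haS ih =>
    intro hoS I x hI hd h
    have hoS' : o ∉ S := fun h' => hoS (Finset.mem_insert_of_mem h')
    have hao : o ≠ a := fun h' => hoS (h' ▸ Finset.mem_insert_self _ _)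
    have haI : a ∉ I := fun h' => Finset.disjoint_left.1 hd h' (Finset.mem_insert_self _ _)
    have hdS : Disjoint I S := hd.mono_right (Finset.subset_insert _ _)
    have hx : x = (1 / 2 : ℝ) • (x + R (sg a o) x) + (1 / 2 : ℝ) • (x - R (sg a o) x) := by
      rw [← smul_add]
      have : x + R (sg a o) x + (x - R (sg a o) x) = (2 : ℝ) • x := by
        rw [two_smul]; abel
      rw [this, smul_smul]
      norm_num
    rw [hx]
    refine Submodule.add_mem _ ?_ ?_
    · refine ih hoS' I _ hI hdS ?_
      intro i hi
      by_cases hia : i = a
      · subst hia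
        rw [h1_eps_not haI, one_smul, map_smul, map_add, h1_invol, add_comm]
      · have hi' : i ∉ insert a S := fun h' => by
          rcases Finset.mem_insert.1 h' with h'' | h''
          · exact hia h''
          · exact hi h''
        rw [map_smul, map_add, h1_swap, h i hi', map_smul, ← smul_add, smul_comm]
    · refine ih hoS' (insert a I) _ ?_ ?_ ?_
      · intro h'
        rcases Finset.mem_insert.1 h' with h'' | h''
        · exact hao h''
        · exact hI h''
      · rw [Finset.disjoint_insert_left]
        exact ⟨haS, hdS⟩
      · intro i hi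
        by_cases hia : i = a
        · subst hia
          have he : eps (insert i I) i = -1 := by
            unfold eps
            rw [if_pos (Finset.mem_insert_self _ _)]
          rw [he, map_smul, map_sub, h1_invol, smul_comm (-1 : ℝ), neg_one_smul, neg_sub]
        · have hi' : i ∉ insert a S := fun h' => by
            rcases Finset.mem_insert.1 h' with h'' | h''
            · exact hia h''
            · exact hi h''
          have he : eps (insert a I) i = eps I i := by
            unfold eps
            by_cases hiI : i ∈ I
            · rw [if_pos hiI, if_pos (Finset.mem_insert_of_mem hiI)]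
            · rw [if_neg hiI, if_neg]
              intro h'
              rcases Finset.mem_insert.1 h' with h'' | h''
              · exact hia h''
              · exact hiI h''
          rw [he, map_smul, map_sub, h1_swap, h i hi', map_smul, ← smul_sub, smul_comm]

end

theorem p_H1 : S_H1 := by
  intro n o E _ _ R
  rw [eq_top_iff]
  intro x _
  refine h1_ind R o (Finset.univ.erase o) (Finset.notMem_erase _ _) ∅ x
    (Finset.notMem_empty _) (Finset.disjoint_empty_left _) ?_
  intro i hi
  have hio : i = o := by
    by_contra h
    exact hi (Finset.mem_erase.2 ⟨h, Finset.mem_univ _⟩)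
  subst hio
  rw [sg_self, h1_one, h1_eps_not (Finset.notMem_empty _), one_smul]

end Pool.Agent.Lib.MP_4f3c81_gt.Inf
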