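import Pool.Agent.Lib.MP_4f3c81_gt.Inf.Stmts

/-!
# The joint eigenspaces of the sign matrices are independent (helper30)
-/

open Filter Topology Set Matrix MeasureTheory
open scoped ContDiff

namespace Pool.Agent.Lib.MP_4f3c81_gt.Inf

section

variable {n : ℕ} {E : Type} [NormedAddCommGroup E] [NormedSpace ℝ E]

/-- the projection to `EI R I` -/
noncomputable def h2_P (R : SLn n →* (E →L[ℝ] E)) (o : Fin n) (I : Finset (Fin n)) :
    List (Fin n) → (E →ₗ[ℝ] E)
  | [] => LinearMap.id
  | i :: l => ((1 / 2 : ℝ) • (LinearMap.id + eps I i • ((R (sg i o)) : E →ₗ[ℝ] E))) ∘ₗ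
      h2_P R o I l

theorem h2_eps_not {I : Finset (Fin n)} {i : Fin n} (h : i ∉ I) : eps I i = 1 := by
  unfold eps
  rw [if_neg h]

theorem h2_eps_sq (I : Finset (Fin n)) (i : Fin n) : eps I i * eps I i = 1 := by
  unfold eps
  split_ifs <;> norm_num

theorem h2_apply (R : SLn n →* (E →L[ℝ] E)) (o : Fin n) (I J : Finset (Fin n)) (hJ : o ∉ J)
    (x : E) (hx : x ∈ EI R J) (l : List (Fin n)) :
    h2_P R o I l x = (l.map fun i => (1 + eps I i * eps J i) / 2).prod • x := by
  induction l with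
  | nil =>
    rw [List.map_nil, List.prod_nil, one_smul]
    rfl
  | cons i l ih =>
    have h1 : h2_P R o I (i :: l) x = (1 / 2 : ℝ) • (h2_P R o I l x +
        eps I i • R (sg i o) (h2_P R o I l x)) := rfl
    have h2 : R (sg i o) x = (eps J i * eps J o) • x := hx i o
    rw [h1, ih, map_smul, h2, h2_eps_not hJ, mul_one, List.map_cons, List.prod_cons, smul_smul,
      smul_smul, ← add_smul, smul_smul]
    congr 1
    ring

theorem h2_self (R : SLn n →* (E →L[ℝ] E)) (o : Fin n) (I : Finset (Fin n)) (hI : o ∉ I)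
    (x : E) (hx : x ∈ EI R I) : h2_P R o I (List.finRange n) x = x := by
  rw [h2_apply R o I I hI x hx]
  have h1 : (List.finRange n).map (fun i => (1 + eps I i * eps I i) / 2) =
      (List.finRange n).map (fun _ => (1 : ℝ)) := by
    refine List.map_congr_left fun i _ => ?_
    rw [h2_eps_sq]
    norm_num
  rw [h1]
  simp

theorem h2_other (R : SLn n →* (E →L[ℝ] E)) (o : Fin n) (I J : Finset (Fin n)) (hJ : o ∉ J)
    (hIJ : J ≠ I) (x : E) (hx : x ∈ EI R J) : h2_P R o I (List.finRange n) x = 0 := by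
  rw [h2_apply R o I J hJ x hx]
  have h1 : ∃ i, ¬ (i ∈ I ↔ i ∈ J) := by
    by_contra h
    push Not at h
    exact hIJ (Finset.ext fun i => (h i).symm)
  obtain ⟨i, hi⟩ := h1
  have h2 : (1 + eps I i * eps J i) / 2 = 0 := by
    unfold eps
    by_cases h3 : i ∈ I
    · have h4 : i ∉ J := fun h => hi ⟨fun _ => h, fun _ => h3⟩
      rw [if_pos h3, if_neg h4]
      norm_num
    · have h4 : i ∈ J := by
        by_contra h
        exact hi ⟨fun h' => absurd h' h3, fun h' => absurd h' h⟩
      rw [if_neg h3, if_pos h4]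
      norm_num
  rw [List.prod_eq_zero, zero_smul]
  rw [List.mem_map]
  exact ⟨i, List.mem_finRange i, h2⟩

end

theorem p_H2 : S_H2 := by
  intro n o E _ _ R
  intro I
  rw [Submodule.disjoint_def]
  intro x hx hx'
  have h1 : (⨆ J : {I : Finset (Fin n) // o ∉ I}, ⨆ (_ : J ≠ I), EI R J.1) ≤
      LinearMap.ker (h2_P R o I.1 (List.finRange n)) := by
    refine iSup_le fun J => iSup_le fun hJ => ?_
    intro y hy
    rw [LinearMap.mem_ker]
    exact h2_other R o I.1 J.1 J.2 (fun h => hJ (Subtype.ext h)) y hy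
  have h2 := LinearMap.mem_ker.1 (h1 hx')
  rwa [h2_self R o I.1 I.2 x hx] at h2

end Pool.Agent.Lib.MP_4f3c81_gt.Inf
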