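import Pool.Agent.Lib.MP_4f3c81_gt.Inf.Stmts

/-!
# Counting subsets
-/

open Filter Topology Set Matrix
open scoped ContDiff

namespace Pool.Agent.Lib.MP_4f3c81_gt.Inf

private theorem h4_one : ∀ N j : ℕ, 1 ≤ j → j + 1 ≤ N → N ≤ N.choose j := by
  intro N
  induction N with
  | zero => intro j _ h; omega
  | succ N ih =>
    intro j hj hN
    obtain ⟨i, rfl⟩ : ∃ i, j = i + 1 := ⟨j - 1, by omega⟩
    rw [Nat.choose_succ_succ']
    rcases Nat.eq_zero_or_pos i with h0 | h0
    · rw [h0, Nat.choose_zero_right]
      have : N.choose (0 + 1) = N := by simp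
      rw [this]
      omega
    · have h1 := ih i h0 (by omega)
      have h2 : 0 < N.choose (i + 1) := Nat.choose_pos (by omega)
      omega

private theorem h4_two : ∀ N j : ℕ, 5 ≤ N → 2 ≤ j → j + 2 ≤ N → 2 * N ≤ N.choose j := by
  intro N j hN
  induction N, hN using Nat.le_induction generalizing j with
  | base =>
    intro h1 h2
    have : j = 2 ∨ j = 3 := by omega
    rcases this with rfl | rfl <;> decide
  | succ N hN ih =>
    intro h1 h2
    obtain ⟨i, rfl⟩ : ∃ i, j = i + 1 := ⟨j - 1, by omega⟩
    rw [Nat.choose_succ_succ']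
    have hc : 2 ≤ i → 2 * N ≤ N.choose i := fun h3 => ih i h3 (by omega)
    rcases Nat.lt_or_ge i 2 with h3 | h3
    · have h4 : i = 1 := by omega
      subst h4
      have h5 := ih 2 le_rfl (by omega)
      rw [Nat.choose_one_right]
      have : N.choose (1 + 1) = N.choose 2 := rfl
      omega
    · have h5 := hc h3
      have h6 : N ≤ N.choose (i + 1) ∨ 2 * N ≤ N.choose (i + 1) := by
        rcases Nat.lt_or_ge (i + 1 + 1) N with h7 | h7
        · exact Or.inr (ih (i + 1) (by omega) (by omega))
        · exact Or.inl (h4_one N (i + 1) (by omega) (by omega))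
      omega

private theorem h4_card {n : ℕ} (o : Fin n) (k : ℕ) :
    ((Finset.univ : Finset (Finset (Fin n))).filter fun I => o ∉ I ∧ I.card = k).card =
      (n - 1).choose k := by
  have h1 : ((Finset.univ : Finset (Finset (Fin n))).filter fun I => o ∉ I ∧ I.card = k) =
      Finset.powersetCard k (Finset.univ.erase o) := by
    ext I
    rw [Finset.mem_filter, Finset.mem_powersetCard]
    constructor
    · rintro ⟨-, h2, h3⟩
      refine ⟨fun x hx => Finset.mem_erase.mpr ⟨fun h => h2 (h ▸ hx), Finset.mem_univ _⟩, h3⟩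
    · rintro ⟨h2, h3⟩
      exact ⟨Finset.mem_univ _, fun h => (Finset.mem_erase.mp (h2 h)).1 rfl, h3⟩
  rw [h1, Finset.card_powersetCard, Finset.card_erase_of_mem (Finset.mem_univ _),
    Finset.card_univ, Fintype.card_fin]

theorem p_H4 : S_H4 := by
  intro n hn o k hk hkn
  by_cases h : k = n - k
  · have h1 : ((Finset.univ : Finset (Finset (Fin n))).filter
        fun I => o ∉ I ∧ (I.card = k ∨ I.card = n - k)) =
        ((Finset.univ : Finset (Finset (Fin n))).filter fun I => o ∉ I ∧ I.card = k) := by
      refine Finset.filter_congr fun I _ => ?_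
      rw [← h, or_self]
    rw [h1, h4_card]
    have := h4_two (n - 1) k (by omega) hk (by omega)
    omega
  · have h1 : ((Finset.univ : Finset (Finset (Fin n))).filter
        fun I => o ∉ I ∧ (I.card = k ∨ I.card = n - k)) =
        ((Finset.univ : Finset (Finset (Fin n))).filter fun I => o ∉ I ∧ I.card = k) ∪
        ((Finset.univ : Finset (Finset (Fin n))).filter fun I => o ∉ I ∧ I.card = n - k) := by
      rw [← Finset.filter_or]
      refine Finset.filter_congr fun I _ => ?_
      rw [and_or_left]
    have h2 : Disjoint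
        ((Finset.univ : Finset (Finset (Fin n))).filter fun I => o ∉ I ∧ I.card = k)
        ((Finset.univ : Finset (Finset (Fin n))).filter fun I => o ∉ I ∧ I.card = n - k) := by
      rw [Finset.disjoint_filter]
      rintro I - ⟨-, h3⟩ ⟨-, h4⟩
      exact h (h3.symm.trans h4)
    rw [h1, Finset.card_union_of_disjoint h2, h4_card, h4_card]
    have h3 := h4_one (n - 1) k (by omega) (by omega)
    have h4 := h4_one (n - 1) (n - k) (by omega) (by omega)
    omega

end Pool.Agent.Lib.MP_4f3c81_gt.Inf
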