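import Pool.Agent.Lib.MP_4f3c81_gt.Inf.Stmts

/-!
# The exceptional case `n = 4`, `m = 5`
-/

open Filter Topology Set Matrix
open scoped ContDiff

namespace Pool.Agent.Lib.MP_4f3c81_gt.Inf

section

variable {E : Type} [NormedAddCommGroup E] [NormedSpace ℝ E] (R : SLn 4 →* (E →L[ℝ] E))

private theorem h5_mul (g h : SLn 4) (x : E) : R (g * h) x = R g (R h x) := by
  rw [map_mul]; rfl

private theorem h5_one (x : E) : R 1 x = x := by rw [map_one]; rfl

private theorem h5_mem (I : Finset (Fin 4)) (x : E)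
    (hx : ∀ i, R (sg 0 i) x = (eps I 0 * eps I i) • x) : x ∈ EI R I := by
  intro i j
  rw [← sg_mul_sg i 0 j, h5_mul, hx j, map_smul, sg_comm i 0, hx i, smul_smul]
  congr 1
  have h0 : eps I 0 * eps I 0 = 1 := by
    unfold eps
    split_ifs <;> norm_num
  linear_combination (eps I i * eps I j) * h0

private theorem h5_map (w : SLn 4) (σ : Equiv.Perm (Fin 4))
    (hw : ∀ i j, w * sg i j * w⁻¹ = sg (σ i) (σ j)) (I J : Finset (Fin 4))
    (hIJ : ∀ i, σ i ∈ J ↔ i ∈ I) (x : E) (hx : x ∈ EI R I) : R w x ∈ EI R J := by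
  intro i j
  have h1 : sg i j * w = w * sg (σ.symm i) (σ.symm j) := by
    have h := hw (σ.symm i) (σ.symm j)
    rw [Equiv.apply_symm_apply, Equiv.apply_symm_apply, mul_inv_eq_iff_eq_mul] at h
    exact h.symm
  have h2 : ∀ k, eps J k = eps I (σ.symm k) := by
    intro k
    have h := hIJ (σ.symm k)
    rw [Equiv.apply_symm_apply] at h
    unfold eps
    simp only [h]
  rw [← h5_mul, h1, h5_mul, hx, map_smul, h2, h2]

private theorem h5_inj (w : SLn 4) : Function.Injective (R w) := by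
  intro x y h
  have h' := congrArg (R w⁻¹) h
  rwa [← h5_mul, ← h5_mul, inv_mul_cancel, h5_one, h5_one] at h'

private theorem h5_rank [FiniteDimensional ℝ E] (w : SLn 4) (σ : Equiv.Perm (Fin 4))
    (hw : ∀ i j, w * sg i j * w⁻¹ = sg (σ i) (σ j)) (I J : Finset (Fin 4))
    (hIJ : ∀ i, σ i ∈ J ↔ i ∈ I) :
    Module.finrank ℝ (EI R I) ≤ Module.finrank ℝ (EI R J) := by
  refine LinearMap.finrank_le_finrank_of_injective
    (f := ((R w : E →ₗ[ℝ] E).restrict (fun x hx => h5_map R w σ hw I J hIJ x hx))) ?_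
  intro x y h
  apply Subtype.ext
  apply h5_inj R w
  exact congrArg Subtype.val h

private theorem h5_perm (I J : Finset (Fin 4)) (h : I.card = J.card) :
    ∃ σ : Equiv.Perm (Fin 4), ∀ i, σ i ∈ J ↔ i ∈ I := by
  have e : {x // x ∈ I} ≃ {x // x ∈ J} := Fintype.equivOfCardEq (by simpa using h)
  refine ⟨e.extendSubtype, fun i => ⟨fun hi => ?_, fun hi => e.extendSubtype_mem i hi⟩⟩
  by_contra hn
  exact e.extendSubtype_not_mem i hn hi

private theorem h5_line [FiniteDimensional ℝ E] (hG3 : S_G3) (hH2 : S_H2)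
    (hE : Module.finrank ℝ E = 5) (I : Finset (Fin 4)) (hI : I.card = 2) (hne : EI R I ≠ ⊥)
    (J : Finset (Fin 4)) (hJ : J.card = 2) : Module.finrank ℝ (EI R J) = 1 := by
  have hle : ∀ J J' : Finset (Fin 4), J.card = 2 → J'.card = 2 →
      Module.finrank ℝ (EI R J) ≤ Module.finrank ℝ (EI R J') := by
    intro J J' h h'
    obtain ⟨σ, hσ⟩ := h5_perm J J' (h.trans h'.symm)
    obtain ⟨w, hw⟩ := hG3 4 σ
    exact h5_rank R w σ hw J J' hσ
  have hpos : 0 < Module.finrank ℝ (EI R I) := by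
    rcases Nat.eq_zero_or_pos (Module.finrank ℝ (EI R I)) with h0 | h0
    · exact absurd (Submodule.finrank_eq_zero.1 h0) hne
    · exact h0
  have ind := hH2 4 0 E R
  let a : {I : Finset (Fin 4) // (0 : Fin 4) ∉ I} := ⟨{1, 2}, by decide⟩
  let b : {I : Finset (Fin 4) // (0 : Fin 4) ∉ I} := ⟨{1, 3}, by decide⟩
  let c : {I : Finset (Fin 4) // (0 : Fin 4) ∉ I} := ⟨{2, 3}, by decide⟩
  have hab : a ≠ b := by decide
  have hac : a ≠ c := by decide
  have hbc : b ≠ c := by decide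
  have d1 : Disjoint (EI R a.1) (EI R b.1) := ind.pairwiseDisjoint hab
  have d2 : Disjoint (EI R a.1 ⊔ EI R b.1) (EI R c.1) := by
    refine (ind c).symm.mono_left ?_
    refine sup_le ?_ ?_
    · exact le_iSup₂_of_le (f := fun (j : {I : Finset (Fin 4) // (0 : Fin 4) ∉ I}) (_ : j ≠ c) =>
        EI R j.1) a hac le_rfl
    · exact le_iSup₂_of_le (f := fun (j : {I : Finset (Fin 4) // (0 : Fin 4) ∉ I}) (_ : j ≠ c) =>
        EI R j.1) b hbc le_rfl
  have e1 := Submodule.finrank_sup_add_finrank_inf_eq (EI R a.1) (EI R b.1)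
  have e2 := Submodule.finrank_sup_add_finrank_inf_eq (EI R a.1 ⊔ EI R b.1) (EI R c.1)
  rw [d1.eq_bot, finrank_bot] at e1
  rw [d2.eq_bot, finrank_bot] at e2
  have e3 := Submodule.finrank_le ((EI R a.1 ⊔ EI R b.1) ⊔ EI R c.1)
  have ha : a.1.card = 2 := by decide
  have hb : b.1.card = 2 := by decide
  have hc : c.1.card = 2 := by decide
  have f1 := hle J a.1 hJ ha
  have f2 := hle J b.1 hJ hb
  have f3 := hle J c.1 hJ hc
  have f4 := hle I J hI hJ
  omega

end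

private theorem h5_ne : (0 : Fin 4) ≠ 1 := by decide

private theorem h5_ne' : (2 : Fin 4) ≠ 3 := by decide

private theorem h5_key {E : Type} [NormedAddCommGroup E] [NormedSpace ℝ E]
    (R : SLn 4 →* (E →L[ℝ] E)) (J : Finset (Fin 4)) (hJ : Module.finrank ℝ (EI R J) = 1)
    (hτ : ∀ i : Fin 4, Equiv.swap (0 : Fin 4) 1 (Equiv.swap (2 : Fin 4) 3 i) ∈ J ↔ i ∉ J)
    (x : E) (hx : x ∈ EI R J) (t : ℝ) (ht : 0 < t) : R (dg 0 1 h5_ne t ht.ne') x = x := by
  obtain ⟨v, hv0, hv⟩ := finrank_eq_one_iff'.1 hJ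
  have hv0' : (v : E) ≠ 0 := fun h => hv0 (Subtype.ext h)
  have hv' : ∀ y ∈ EI R J, ∃ c : ℝ, c • (v : E) = y := by
    intro y hy
    obtain ⟨c, hc⟩ := hv ⟨y, hy⟩
    exact ⟨c, congrArg Subtype.val hc⟩
  -- the action of the diagonal matrices
  have hdg : ∀ (s : ℝ) (hs : s ≠ 0) (y : E), y ∈ EI R J → R (dg 0 1 h5_ne s hs) y ∈ EI R J := by
    intro s hs y hy i j
    rw [← h5_mul, sg_mul_dg, h5_mul, hy, map_smul]
  -- the element `w`
  set w : SLn 4 := wy 0 1 h5_ne * wy 2 3 h5_ne' with hwdef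
  have hw : ∀ i j, w * sg i j * w⁻¹ =
      sg ((Equiv.swap (2 : Fin 4) 3).trans (Equiv.swap (0 : Fin 4) 1) i)
        ((Equiv.swap (2 : Fin 4) 3).trans (Equiv.swap (0 : Fin 4) 1) j) := by
    intro i j
    have h1 := wy_conj_sg (2 : Fin 4) 3 h5_ne' i j
    have h2 := wy_conj_sg (0 : Fin 4) 1 h5_ne (Equiv.swap (2 : Fin 4) 3 i)
      (Equiv.swap (2 : Fin 4) 3 j)
    rw [← h1] at h2
    rw [Equiv.trans_apply, Equiv.trans_apply, ← h2, hwdef, _root_.mul_inv_rev]
    simp only [mul_assoc]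
  have hwJ : ∀ y ∈ EI R J, R w y ∈ EI R J := by
    intro y hy
    have h1 : R w y ∈ EI R Jᶜ := by
      refine h5_map R w _ hw J Jᶜ ?_ y hy
      intro i
      rw [Equiv.trans_apply, Finset.mem_compl, hτ, not_not]
    intro i j
    have h2 := h1 i j
    have h3 : ∀ k, eps Jᶜ k = - eps J k := by
      intro k
      unfold eps
      by_cases hk : k ∈ J
      · simp [hk]
      · simp [hk]
    rw [h3, h3, neg_mul_neg] at h2
    exact h2
  have hwa : ∀ (s : ℝ) (hs : s ≠ 0), w * dg 0 1 h5_ne s hs =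
      dg 0 1 h5_ne s⁻¹ (inv_ne_zero hs) * w := by
    intro s hs
    have h1 := wy_conj_dg (0 : Fin 4) 1 h5_ne s hs
    have h2 := wy_commute_dg (0 : Fin 4) 1 2 3 h5_ne h5_ne' (by decide) (by decide) (by decide)
      (by decide) s hs
    rw [mul_inv_eq_iff_eq_mul] at h1 h2
    rw [hwdef, mul_assoc, h2, ← mul_assoc, h1, mul_assoc]
  -- scalars
  obtain ⟨c, hc⟩ := hv' x hx
  have hs0 : Real.sqrt t ≠ 0 := (Real.sqrt_pos.2 ht).ne'
  obtain ⟨p, hp⟩ := hv' _ (hdg (Real.sqrt t) hs0 v v.2)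
  obtain ⟨p', hp'⟩ := hv' _ (hdg (Real.sqrt t)⁻¹ (inv_ne_zero hs0) v v.2)
  obtain ⟨d, hd⟩ := hv' _ (hwJ v v.2)
  have hd0 : d ≠ 0 := by
    intro h
    rw [h, zero_smul] at hd
    apply hv0'
    apply h5_inj R w
    rw [← hd, map_zero]
  have hpp : p = p' := by
    have h1 : R w (R (dg 0 1 h5_ne (Real.sqrt t) hs0) v) =
        R (dg 0 1 h5_ne (Real.sqrt t)⁻¹ (inv_ne_zero hs0)) (R w v) := by
      rw [← h5_mul, hwa, h5_mul]
    rw [← hp, ← hd, map_smul, map_smul, ← hp', ← hd, smul_smul, smul_smul] at h1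
    have h2 := smul_left_injective ℝ hv0' h1
    have h3 : p * d = p' * d := by rw [h2]; ring
    exact mul_right_cancel₀ hd0 h3
  have hp1 : p * p = 1 := by
    have h1 : R (dg 0 1 h5_ne (Real.sqrt t) hs0)
        (R (dg 0 1 h5_ne (Real.sqrt t)⁻¹ (inv_ne_zero hs0)) v) = v := by
      rw [← dg_inv 0 1 h5_ne (Real.sqrt t) hs0, ← h5_mul, mul_inv_cancel, h5_one]
    rw [← hp', map_smul, ← hp, smul_smul, ← hpp] at h1
    have h2 : (p * p) • (v : E) = (1 : ℝ) • (v : E) := by rw [h1, one_smul]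
    exact smul_left_injective ℝ hv0' h2
  have ht2 : dg 0 1 h5_ne t ht.ne' =
      dg 0 1 h5_ne (Real.sqrt t) hs0 * dg 0 1 h5_ne (Real.sqrt t) hs0 := by
    rw [← dg_mul]
    apply SLn_ext
    rw [dg_val, dg_val, Real.mul_self_sqrt ht.le]
  rw [← hc, map_smul, ht2, h5_mul, ← hp, map_smul, ← hp, smul_smul p p, hp1, one_smul]

private theorem h5_tv {E : Type} [NormedAddCommGroup E] [NormedSpace ℝ E]
    (R : SLn 4 →* (E →L[ℝ] E)) (i j : Fin 4) (h : i ≠ j) (P : E → Prop)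
    (hdg : ∀ x, P x → ∀ (t : ℝ) (ht : 0 < t), R (dg i j h t ht.ne') x = x)
    (hP : ∀ x c, P x → P (R (tv i j h c) x)) (x : E) (hx : P x) (c : ℝ) :
    R (tv i j h c) x = x := by
  have h2 : 0 < Real.sqrt 2 := Real.sqrt_pos.2 two_pos
  have e1 := dg_conj_tv i j h (Real.sqrt 2) h2.ne' c
  rw [Real.sq_sqrt two_pos.le, two_mul, tv_add] at e1
  have e2 : R (dg i j h (Real.sqrt 2) h2.ne')⁻¹ x = x := by
    have e3 := congrArg (R (dg i j h (Real.sqrt 2) h2.ne')⁻¹) (hdg x hx _ h2)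
    rw [← h5_mul, inv_mul_cancel, h5_one] at e3
    exact e3.symm
  have e4 : R (tv i j h c) (R (tv i j h c) x) = R (tv i j h c) x := by
    rw [← h5_mul, ← e1, h5_mul, h5_mul, e2, hdg _ (hP x c hx) _ h2]
  exact h5_inj R _ e4

theorem p_H5 (hG3 : S_G3) (hH2 : S_H2) : S_H5 := by
  intro E _ _ _ R hE I hI
  by_contra hne
  have hl2 := h5_line R hG3 hH2 hE I hI hne {0, 2} (by decide)
  have hl3 := h5_line R hG3 hH2 hE I hI hne {0, 3} (by decide)
  have k2 := h5_key R {0, 2} hl2 (by decide)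
  have k3 := h5_key R {0, 3} hl3 (by decide)
  -- the space `P`
  have hP : ∀ x : E, R (sg 0 1) x = -x → R (sg 2 3) x = -x →
      ∀ (t : ℝ) (ht : 0 < t), R (dg 0 1 h5_ne t ht.ne') x = x := by
    intro x h1 h2 t ht
    set y := R (sg 0 2) x with hy
    have y1 : R (sg 0 1) y = -y := by
      rw [hy, ← h5_mul, sg_commute, h5_mul, h1, map_neg]
    have y2 : R (sg 0 2) y = x := by
      rw [hy, ← h5_mul, sg_mul_self, h5_one]
    have x3 : R (sg 0 3) x = -y := by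
      rw [← sg_mul_sg 0 2 3, h5_mul, h2, map_neg, hy]
    have y3 : R (sg 0 3) y = -x := by
      rw [hy, ← h5_mul, sg_commute, h5_mul, x3, map_neg, y2]
    have m2 : x + y ∈ EI R {0, 2} := by
      apply h5_mem
      intro i
      fin_cases i
      · change R (sg 0 0) (x + y) = (eps {0, 2} (0 : Fin 4) * eps {0, 2} (0 : Fin 4)) • (x + y)
        rw [sg_self, h5_one]
        simp [eps]
      · change R (sg 0 1) (x + y) = (eps {0, 2} (0 : Fin 4) * eps {0, 2} (1 : Fin 4)) • (x + y)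
        rw [map_add, h1, y1]
        simp [eps]
      · change R (sg 0 2) (x + y) = (eps {0, 2} (0 : Fin 4) * eps {0, 2} (2 : Fin 4)) • (x + y)
        rw [map_add, ← hy, y2, add_comm y x]
        simp [eps]
      · change R (sg 0 3) (x + y) = (eps {0, 2} (0 : Fin 4) * eps {0, 2} (3 : Fin 4)) • (x + y)
        rw [map_add, x3, y3, add_comm (-y) (-x)]
        simp [eps]
    have m3 : x - y ∈ EI R {0, 3} := by
      apply h5_mem
      intro i
      fin_cases i
      · change R (sg 0 0) (x - y) = (eps {0, 3} (0 : Fin 4) * eps {0, 3} (0 : Fin 4)) • (x - y)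
        rw [sg_self, h5_one]
        simp [eps]
      · change R (sg 0 1) (x - y) = (eps {0, 3} (0 : Fin 4) * eps {0, 3} (1 : Fin 4)) • (x - y)
        rw [map_sub, h1, y1]
        simp [eps]
        abel
      · change R (sg 0 2) (x - y) = (eps {0, 3} (0 : Fin 4) * eps {0, 3} (2 : Fin 4)) • (x - y)
        rw [map_sub, ← hy, y2]
        simp [eps]
      · change R (sg 0 3) (x - y) = (eps {0, 3} (0 : Fin 4) * eps {0, 3} (3 : Fin 4)) • (x - y)
        rw [map_sub, x3, y3]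
        simp [eps]
        abel
    have e2 := k2 _ m2 t ht
    have e3 := k3 _ m3 t ht
    rw [map_add] at e2
    rw [map_sub] at e3
    have e4 : (2 : ℝ) • R (dg 0 1 h5_ne t ht.ne') x = (2 : ℝ) • x := by
      rw [two_smul, two_smul]
      calc R (dg 0 1 h5_ne t ht.ne') x + R (dg 0 1 h5_ne t ht.ne') x
          = (R (dg 0 1 h5_ne t ht.ne') x + R (dg 0 1 h5_ne t ht.ne') y) +
            (R (dg 0 1 h5_ne t ht.ne') x - R (dg 0 1 h5_ne t ht.ne') y) := by abel
        _ = x + x := by rw [e2, e3]; abel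
    exact smul_right_injective E (two_ne_zero) e4
  -- the transvections act trivially on `P`
  have hP' : ∀ x : E, R (sg 0 1) x = -x → R (sg 2 3) x = -x →
      ∀ (t : ℝ) (ht : 0 < t), R (dg 1 0 h5_ne.symm t ht.ne') x = x := by
    intro x h1 h2 t ht
    have e : dg 1 0 h5_ne.symm t ht.ne' = dg 0 1 h5_ne t⁻¹ (inv_pos.2 ht).ne' := by
      apply SLn_ext
      rw [dg_val, dg_val]
      congr 1
      funext k
      rw [inv_inv, mul_comm]
    rw [e]
    exact hP x h1 h2 t⁻¹ (inv_pos.2 ht)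
  have c01 : ∀ c, sg 0 1 * tv 0 1 h5_ne c = tv 0 1 h5_ne c * sg 0 1 := by
    intro c
    have h := sg_conj_tv (0 : Fin 4) 1 0 1 h5_ne c
    rw [mul_inv_eq_iff_eq_mul] at h
    rw [h]
    simp [sgn]
  have c23 : ∀ c, sg 2 3 * tv 0 1 h5_ne c = tv 0 1 h5_ne c * sg 2 3 := by
    intro c
    have h := sg_conj_tv (2 : Fin 4) 3 0 1 h5_ne c
    rw [mul_inv_eq_iff_eq_mul] at h
    rw [h]
    simp [sgn]
  have c01' : ∀ c, sg 0 1 * tv 1 0 h5_ne.symm c = tv 1 0 h5_ne.symm c * sg 0 1 := by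
    intro c
    have h := sg_conj_tv (0 : Fin 4) 1 1 0 h5_ne.symm c
    rw [mul_inv_eq_iff_eq_mul] at h
    rw [h]
    simp [sgn]
  have c23' : ∀ c, sg 2 3 * tv 1 0 h5_ne.symm c = tv 1 0 h5_ne.symm c * sg 2 3 := by
    intro c
    have h := sg_conj_tv (2 : Fin 4) 3 1 0 h5_ne.symm c
    rw [mul_inv_eq_iff_eq_mul] at h
    rw [h]
    simp [sgn]
  have ht01 := h5_tv R 0 1 h5_ne (fun x => R (sg 0 1) x = -x ∧ R (sg 2 3) x = -x)
    (fun x hx => hP x hx.1 hx.2) (fun x c hx => ⟨by rw [← h5_mul, c01, h5_mul, hx.1, map_neg],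
      by rw [← h5_mul, c23, h5_mul, hx.2, map_neg]⟩)
  have ht10 := h5_tv R 1 0 h5_ne.symm (fun x => R (sg 0 1) x = -x ∧ R (sg 2 3) x = -x)
    (fun x hx => hP' x hx.1 hx.2) (fun x c hx => ⟨by rw [← h5_mul, c01', h5_mul, hx.1, map_neg],
      by rw [← h5_mul, c23', h5_mul, hx.2, map_neg]⟩)
  obtain ⟨v, hv0, -⟩ := finrank_eq_one_iff'.1 hl2
  have hv0' : (v : E) ≠ 0 := fun h => hv0 (Subtype.ext h)
  have v1 : R (sg 0 1) (v : E) = -v := by
    rw [v.2 0 1]
    simp [eps]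
  have v2 : R (sg 2 3) (v : E) = -v := by
    rw [v.2 2 3]
    simp [eps]
  have hw : R (wy 0 1 h5_ne) (v : E) = v := by
    unfold wy
    rw [h5_mul, h5_mul, ht10 v ⟨v1, v2⟩, ht01 v ⟨v1, v2⟩, ht10 v ⟨v1, v2⟩]
  have hs : R (sg 0 1) (v : E) = v := by
    rw [← wy_sq 0 1 h5_ne, h5_mul, hw, hw]
  rw [v1] at hs
  have h3 : (2 : ℝ) • (v : E) = 0 := by
    rw [two_smul]
    nth_rewrite 1 [← hs]
    exact neg_add_cancel _
  exact hv0' ((smul_eq_zero.1 h3).resolve_left two_ne_zero)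

end Pool.Agent.Lib.MP_4f3c81_gt.Inf
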