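import Pool.Agent.Lib.MP_4f3c81_gt.Inf.Stmts

/-!
# A representation which is trivial on the sign matrices is trivial (helper30)
-/

open Filter Topology Set Matrix MeasureTheory
open scoped ContDiff

namespace Pool.Agent.Lib.MP_4f3c81_gt.Inf

theorem h6_tv {n : ℕ} (hn : 3 ≤ n) {E : Type} [NormedAddCommGroup E] [NormedSpace ℝ E]
    (R : SLn n →* (E →L[ℝ] E)) (hR : ∀ i j, R (sg i j) = 1) (i j : Fin n) (h : i ≠ j) (c : ℝ) :
    R (tv i j h c) = 1 := by
  obtain ⟨k, hk⟩ : ∃ k : Fin n, k ∉ ({i, j} : Finset (Fin n)) := by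
    by_contra hcon
    push Not at hcon
    have h1 : (Finset.univ : Finset (Fin n)) ⊆ {i, j} := fun k _ => hcon k
    have h2 := Finset.card_le_card h1
    have h3 : ({i, j} : Finset (Fin n)).card ≤ 2 := Finset.card_le_two
    rw [Finset.card_univ, Fintype.card_fin] at h2
    omega
  rw [Finset.mem_insert, Finset.mem_singleton] at hk
  push Not at hk
  obtain ⟨hki, hkj⟩ := hk
  have key : ∀ d : ℝ, R (tv i j h d) * R (tv i j h d) = 1 := by
    intro d
    have h1 := sg_conj_tv i k i j h d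
    have h2 : sgn i k i * sgn i k j * d = -d := by
      unfold sgn
      rw [if_pos rfl, if_neg hki.symm, if_neg h.symm, if_neg hkj.symm]
      ring
    rw [h2] at h1
    have h3 : R (tv i j h d) = R (tv i j h (-d)) := by
      rw [← h1, map_mul, map_mul, sg_inv, hR, one_mul, mul_one]
    calc R (tv i j h d) * R (tv i j h d) = R (tv i j h (-d)) * R (tv i j h d) := by rw [← h3]
      _ = R (tv i j h (-d) * tv i j h d) := by rw [map_mul]
      _ = 1 := by rw [← tv_add, neg_add_cancel, tv_zero, map_one]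
  have h4 : tv i j h c = tv i j h (c / 2) * tv i j h (c / 2) := by
    rw [← tv_add, add_halves]
  rw [h4, map_mul, key]

theorem p_H6 (hG1 : S_G1) : S_H6 := by
  intro n hn E _ _ R hR g
  have h1 : Subgroup.closure {g : SLn n | ∃ (i j : Fin n) (h : i ≠ j) (c : ℝ), g = tv i j h c} ≤
      R.ker := by
    rw [Subgroup.closure_le]
    rintro _ ⟨i, j, h, c, rfl⟩
    exact MonoidHom.mem_ker.2 (h6_tv hn R hR i j h c)
  rw [hG1 n] at h1
  exact MonoidHom.mem_ker.1 (h1 (Subgroup.mem_top g))

end Pool.Agent.Lib.MP_4f3c81_gt.Inf
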