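import Pool.Agent.Lib.MP_4f3c81_gt.Inf.Stmts

/-!
# The dichotomy for small representations
-/

open Filter Topology Set Matrix
open scoped ContDiff

namespace Pool.Agent.Lib.MP_4f3c81_gt.Inf

private theorem h7_eps_compl {n : ℕ} (I : Finset (Fin n)) (i : Fin n) : eps Iᶜ i = - eps I i := by
  unfold eps
  by_cases h : i ∈ I
  · rw [if_neg (by simpa using h), if_pos h, neg_neg]
  · rw [if_pos (by simpa using h), if_neg h]

private theorem h7_compl {n : ℕ} {E : Type} [NormedAddCommGroup E] [NormedSpace ℝ E]
    (R : SLn n →* (E →L[ℝ] E)) (I : Finset (Fin n)) : EI R Iᶜ = EI R I := by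
  ext x
  change (∀ i j, R (sg i j) x = (eps Iᶜ i * eps Iᶜ j) • x) ↔
    (∀ i j, R (sg i j) x = (eps I i * eps I j) • x)
  simp only [h7_eps_compl, neg_mul_neg]

/-- a permutation carrying `I` to `J` -/
private theorem h7_perm {n : ℕ} (I J : Finset (Fin n)) (h : I.card = J.card) :
    ∃ σ : Equiv.Perm (Fin n), ∀ i, eps J (σ i) = eps I i := by
  let e : {x // x ∈ I} ≃ {x // x ∈ J} := Finset.equivOfCardEq h
  refine ⟨e.extendSubtype, fun i => ?_⟩
  unfold eps
  by_cases hi : i ∈ I
  · rw [if_pos hi, if_pos (e.extendSubtype_mem i hi)]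
  · rw [if_neg hi, if_neg (e.extendSubtype_not_mem i hi)]

private theorem h7_move (hG3 : S_G3) {n : ℕ} {E : Type} [NormedAddCommGroup E] [NormedSpace ℝ E]
    (R : SLn n →* (E →L[ℝ] E)) (I J : Finset (Fin n)) (h : I.card = J.card) :
    ∃ w : SLn n, ∀ x ∈ EI R I, R w x ∈ EI R J := by
  obtain ⟨σ, hσ⟩ := h7_perm I J h
  obtain ⟨w, hw⟩ := hG3 n σ
  refine ⟨w, fun x hx => ?_⟩
  have hx' : ∀ i j, R (sg i j) x = (eps I i * eps I j) • x := hx
  change ∀ i j, R (sg i j) (R w x) = (eps J i * eps J j) • (R w x)
  intro i j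
  obtain ⟨i', rfl⟩ := σ.surjective i
  obtain ⟨j', rfl⟩ := σ.surjective j
  have h1 : sg (σ i') (σ j') * w = w * sg i' j' := by
    rw [← hw i' j', inv_mul_cancel_right]
  have h2 : R (sg (σ i') (σ j')) (R w x) = R w (R (sg i' j') x) := by
    have h3 : R (sg (σ i') (σ j') * w) x = R (w * sg i' j') x := by rw [h1]
    rw [map_mul, map_mul] at h3
    exact h3
  rw [h2, hx' i' j', map_smul, hσ, hσ]

private theorem h7_inj {n : ℕ} {E : Type} [NormedAddCommGroup E] [NormedSpace ℝ E]
    (R : SLn n →* (E →L[ℝ] E)) (w : SLn n) : Function.Injective (R w) := by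
  intro x y hxy
  have h : ∀ z, R w⁻¹ (R w z) = z := by
    intro z
    have h1 : R (w⁻¹ * w) z = z := by
      rw [inv_mul_cancel, map_one]
      rfl
    rw [map_mul] at h1
    exact h1
  rw [← h x, ← h y, hxy]

private theorem h7_finrank_le (hG3 : S_G3) {n : ℕ} {E : Type} [NormedAddCommGroup E]
    [NormedSpace ℝ E] [FiniteDimensional ℝ E]
    (R : SLn n →* (E →L[ℝ] E)) (I J : Finset (Fin n)) (h : I.card = J.card) :
    Module.finrank ℝ (EI R I) ≤ Module.finrank ℝ (EI R J) := by
  obtain ⟨w, hw⟩ := h7_move hG3 R I J h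
  refine LinearMap.finrank_le_finrank_of_injective
    (f := (R w : E →ₗ[ℝ] E).restrict (p := EI R I) (q := EI R J) hw) ?_
  intro x y hxy
  apply Subtype.ext
  apply h7_inj R w
  exact congrArg Subtype.val hxy

private theorem h7_finrank_eq (hG3 : S_G3) {n : ℕ} {E : Type} [NormedAddCommGroup E]
    [NormedSpace ℝ E] [FiniteDimensional ℝ E]
    (R : SLn n →* (E →L[ℝ] E)) (I J : Finset (Fin n)) (h : I.card = J.card) :
    Module.finrank ℝ (EI R I) = Module.finrank ℝ (EI R J) :=
  le_antisymm (h7_finrank_le hG3 R I J h) (h7_finrank_le hG3 R J I h.symm)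

private theorem h7_bot (hG3 : S_G3) {n : ℕ} {E : Type} [NormedAddCommGroup E]
    [NormedSpace ℝ E] [FiniteDimensional ℝ E]
    (R : SLn n →* (E →L[ℝ] E)) (I J : Finset (Fin n)) (h : I.card = J.card)
    (hI : EI R I = ⊥) : EI R J = ⊥ := by
  rw [← Submodule.finrank_eq_zero (R := ℝ), ← h7_finrank_eq hG3 R I J h, hI, finrank_bot]

/-- the middle joint eigenspaces vanish -/
private theorem h7_middle (hG3 : S_G3) (hH2 : S_H2) (hH4 : S_H4) (hH5 : S_H5)
    {n m : ℕ} (h4 : 4 ≤ n) (hnm : n < m) (hm : m < 2 * n - 2)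
    {E : Type} [NormedAddCommGroup E] [NormedSpace ℝ E] [FiniteDimensional ℝ E]
    (R : SLn n →* (E →L[ℝ] E)) (hE : Module.finrank ℝ E = m) (I : Finset (Fin n))
    (h2 : 2 ≤ I.card) (h2' : I.card + 2 ≤ n) : EI R I = ⊥ := by
  rcases Nat.lt_or_ge 4 n with h5 | h5
  · by_contra hne
    let o : Fin n := ⟨0, by omega⟩
    have hind := hH2 n o E R
    have : Fintype {I : {I : Finset (Fin n) // o ∉ I} // EI R I.1 ≠ ⊥} :=
      hind.fintypeNeBotOfFiniteDimensional
    have h6 := hind.subtype_ne_bot_le_finrank
    have h7 := hH4 n (by omega) o I.card h2 h2'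
    have h8 : ((Finset.univ : Finset (Finset (Fin n))).filter
        fun J => o ∉ J ∧ (J.card = I.card ∨ J.card = n - I.card)).card ≤
        Fintype.card {I : {I : Finset (Fin n) // o ∉ I} // EI R I.1 ≠ ⊥} := by
      rw [← Fintype.card_coe]
      refine Fintype.card_le_of_injective (fun J => ⟨⟨J.1, ((Finset.mem_filter.1 J.2).2).1⟩, ?_⟩) ?_
      · have hJ := ((Finset.mem_filter.1 J.2).2).2
        intro hbot
        apply hne
        rcases hJ with hJ | hJ
        · exact h7_bot hG3 R J.1 I hJ hbot
        · have h9 : (J.1)ᶜ.card = I.card := by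
            rw [Finset.card_compl, Fintype.card_fin, hJ]
            omega
          exact h7_bot hG3 R (J.1)ᶜ I h9 (by rw [h7_compl]; exact hbot)
      · intro J K hJK
        apply Subtype.ext
        exact congrArg (fun x => x.1.1) hJK
    omega
  · obtain rfl : n = 4 := by omega
    exact hH5 E R (by omega) I (by omega)

/-- the indexing of the remaining joint eigenspaces -/
private def h7_F {n : ℕ} {E : Type} [NormedAddCommGroup E] [NormedSpace ℝ E]
    (R : SLn n →* (E →L[ℝ] E)) : Option (Fin n) → Submodule ℝ E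
  | none => EI R ∅
  | some i => EI R {i}

private theorem h7_indep (hH2 : S_H2) {n : ℕ} (h4 : 4 ≤ n)
    {E : Type} [NormedAddCommGroup E] [NormedSpace ℝ E] (R : SLn n →* (E →L[ℝ] E)) :
    iSupIndep (h7_F R) := by
  let o : Fin n := ⟨0, by omega⟩
  let φ : Option (Fin n) → {I : Finset (Fin n) // o ∉ I} := fun a =>
    match a with
    | none => ⟨∅, Finset.notMem_empty o⟩
    | some i => if h : i = o then ⟨{o}ᶜ, by simp⟩ else ⟨{i}, by simpa using Ne.symm h⟩
  have hφn : (φ none).1 = ∅ := rfl
  have hφo : (φ (some o)).1 = {o}ᶜ := by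
    change (if h : o = o then (⟨{o}ᶜ, by simp⟩ : {I : Finset (Fin n) // o ∉ I})
      else ⟨{o}, by simpa using Ne.symm h⟩).1 = {o}ᶜ
    rw [dif_pos rfl]
  have hφi : ∀ i, i ≠ o → (φ (some i)).1 = {i} := by
    intro i hi
    change (if h : i = o then (⟨{o}ᶜ, by simp⟩ : {I : Finset (Fin n) // o ∉ I})
      else ⟨{i}, by simpa using Ne.symm h⟩).1 = {i}
    rw [dif_neg hi]
  have hco : ({o}ᶜ : Finset (Fin n)).card = n - 1 := by
    rw [Finset.card_compl, Fintype.card_fin, Finset.card_singleton]
  have hinj : Function.Injective φ := by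
    intro a b hab
    have hab' : (φ a).1 = (φ b).1 := congrArg Subtype.val hab
    cases a with
    | none =>
      cases b with
      | none => rfl
      | some j =>
        exfalso
        rw [hφn] at hab'
        by_cases hj : j = o
        · subst hj
          rw [hφo] at hab'
          have := congrArg Finset.card hab'
          rw [hco, Finset.card_empty] at this
          omega
        · rw [hφi j hj] at hab'
          exact (Finset.singleton_ne_empty j) hab'.symm
    | some i =>
      cases b with
      | none =>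
        exfalso
        rw [hφn] at hab'
        by_cases hi : i = o
        · subst hi
          rw [hφo] at hab'
          have := congrArg Finset.card hab'
          rw [hco, Finset.card_empty] at this
          omega
        · rw [hφi i hi] at hab'
          exact (Finset.singleton_ne_empty i) hab'
      | some j =>
        by_cases hi : i = o
        · by_cases hj : j = o
          · rw [hi, hj]
          · exfalso
            rw [hi, hφo, hφi j hj] at hab'
            have := congrArg Finset.card hab'
            rw [hco, Finset.card_singleton] at this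
            omega
        · by_cases hj : j = o
          · exfalso
            rw [hj, hφo, hφi i hi] at hab'
            have := congrArg Finset.card hab'
            rw [hco, Finset.card_singleton] at this
            omega
          · rw [hφi i hi, hφi j hj] at hab'
            rw [Finset.singleton_injective hab']
  have h1 := (hH2 n o E R).comp hinj
  have h2 : (fun I : {I : Finset (Fin n) // o ∉ I} => EI R I.1) ∘ φ = h7_F R := by
    funext a
    change EI R (φ a).1 = h7_F R a
    cases a with
    | none => rfl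
    | some i =>
      change EI R (φ (some i)).1 = EI R {i}
      by_cases hi : i = o
      · rw [hi, hφo, h7_compl]
      · rw [hφi i hi]
  rw [h2] at h1
  exact h1

private theorem h7_top (hG3 : S_G3) (hH1 : S_H1) (hH2 : S_H2) (hH4 : S_H4) (hH5 : S_H5)
    {n m : ℕ} (h4 : 4 ≤ n) (hnm : n < m) (hm : m < 2 * n - 2)
    {E : Type} [NormedAddCommGroup E] [NormedSpace ℝ E] [FiniteDimensional ℝ E]
    (R : SLn n →* (E →L[ℝ] E)) (hE : Module.finrank ℝ E = m) :
    ⨆ a, h7_F R a = ⊤ := by
  let o : Fin n := ⟨0, by omega⟩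
  rw [eq_top_iff, ← hH1 n o E R]
  refine iSup_le fun I => ?_
  obtain ⟨I, hI⟩ := I
  change EI R I ≤ _
  have hcard : I.card ≤ n := by
    simpa using Finset.card_le_univ I
  have hcn : I.card ≠ n := by
    intro h
    have h1 : I = Finset.univ := Finset.eq_univ_of_card I (by rw [h, Fintype.card_fin])
    exact hI (h1 ▸ Finset.mem_univ o)
  rcases Nat.lt_or_ge I.card 2 with h2 | h2
  · rcases Nat.eq_zero_or_pos I.card with h0 | h0
    · rw [Finset.card_eq_zero.1 h0]
      exact le_iSup (h7_F R) none
    · obtain ⟨i, rfl⟩ := Finset.card_eq_one.1 (by omega : I.card = 1)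
      exact le_iSup (h7_F R) (some i)
  · rcases Nat.lt_or_ge n (I.card + 2) with h3 | h3
    · have h5 : Iᶜ.card = 1 := by
        rw [Finset.card_compl, Fintype.card_fin]
        omega
      obtain ⟨i, hi⟩ := Finset.card_eq_one.1 h5
      rw [← h7_compl R I, hi]
      exact le_iSup (h7_F R) (some i)
    · rw [h7_middle hG3 hH2 hH4 hH5 h4 hnm hm R hE I h2 h3]
      exact bot_le

private theorem h7_sum {n : ℕ} {E : Type} [NormedAddCommGroup E] [NormedSpace ℝ E]
    [FiniteDimensional ℝ E] (F : Option (Fin n) → Submodule ℝ E) (hi : iSupIndep F)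
    (ht : ⨆ a, F a = ⊤) : Module.finrank ℝ E =
      Module.finrank ℝ (F none) + ∑ i, Module.finrank ℝ (F (some i)) := by
  classical
  have h := DirectSum.isInternal_submodule_of_iSupIndep_of_iSup_eq_top hi ht
  have h1 := Module.finrank_eq_card_basis
    (h.collectedBasis fun i => Module.finBasis ℝ (F i))
  rw [h1, Fintype.card_sigma]
  simp only [Fintype.card_fin]
  rw [Fintype.sum_option]

theorem p_H7 (hG3 : S_G3) (hH1 : S_H1) (hH2 : S_H2) (hH4 : S_H4) (hH5 : S_H5) (hH6 : S_H6) :
    S_H7 := by
  intro n m h4 hnm hm E _ _ _ R hE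
  have hind := h7_indep hH2 h4 R
  have htop := h7_top hG3 hH1 hH2 hH4 hH5 h4 hnm hm R hE
  have hsum := h7_sum (h7_F R) hind htop
  let o : Fin n := ⟨0, by omega⟩
  have hf : ∀ i, Module.finrank ℝ (h7_F R (some i)) = Module.finrank ℝ (EI R {o}) := fun i =>
    h7_finrank_eq hG3 R {i} {o} rfl
  have hconst : ∑ i, Module.finrank ℝ (h7_F R (some i)) = n * Module.finrank ℝ (EI R {o}) := by
    rw [Finset.sum_congr rfl fun i _ => hf i, Finset.sum_const, Finset.card_univ,
      Fintype.card_fin, smul_eq_mul]
  rw [hconst, hE] at hsum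
  have hle : Module.finrank ℝ (EI R {o}) ≤ 1 := by
    by_contra hcon
    have h1 : n * 2 ≤ n * Module.finrank ℝ (EI R {o}) := Nat.mul_le_mul_left n (by omega)
    omega
  rcases Nat.eq_zero_or_pos (Module.finrank ℝ (EI R {o})) with h0 | h0
  · left
    have hbot : ∀ i, h7_F R (some i) = ⊥ := by
      intro i
      rw [← Submodule.finrank_eq_zero (R := ℝ), hf i, h0]
    have hnone : EI R (∅ : Finset (Fin n)) = ⊤ := by
      rw [eq_top_iff, ← htop]
      refine iSup_le fun a => ?_
      cases a with
      | none => exact le_rfl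
      | some i => rw [hbot i]; exact bot_le
    refine hH6 n (by omega) E R fun i j => ?_
    ext x
    have hx : x ∈ EI R (∅ : Finset (Fin n)) := by rw [hnone]; exact Submodule.mem_top
    have hx' : ∀ i j, R (sg i j) x = (eps ∅ i * eps ∅ j) • x := hx
    rw [hx' i j]
    unfold eps
    simp
  · right
    have he : Module.finrank ℝ (EI R {o}) = 1 := by omega
    rw [he, mul_one] at hsum
    have hv : ∀ i, ∃ v : E, v ∈ EI R {i} ∧ ∀ x ∈ EI R {i}, ∃ c : ℝ, c • v = x := by
      intro i
      have h1 : Module.finrank ℝ (EI R {i}) = 1 := by rw [← he]; exact hf i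
      obtain ⟨v, _, hv⟩ := finrank_eq_one_iff'.1 h1
      refine ⟨v.1, v.2, fun x hx => ?_⟩
      obtain ⟨c, hc⟩ := hv ⟨x, hx⟩
      exact ⟨c, congrArg Subtype.val hc⟩
    choose v hvm hvs using hv
    let q : ℕ := Module.finrank ℝ (EI R (∅ : Finset (Fin n)))
    let u : Module.Basis (Fin q) ℝ (EI R (∅ : Finset (Fin n))) := Module.finBasis ℝ _
    have hmq : m = q + n := hsum
    let Φ : FF n q →ₗ[ℝ] E :=
      { toFun := fun y => ∑ i, y.1 i • v i + ∑ k, y.2 k • (u k : E)
        map_add' := by
          intro a b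
          simp only [Prod.fst_add, Prod.snd_add, PiLp.add_apply, add_smul,
            Finset.sum_add_distrib]
          abel
        map_smul' := by
          intro c a
          simp only [Prod.smul_fst, Prod.smul_snd, PiLp.smul_apply, smul_eq_mul, mul_smul,
            RingHom.id_apply, smul_add, Finset.smul_sum] }
    have hΦ : ∀ y, Φ y = ∑ i, y.1 i • v i + ∑ k, y.2 k • (u k : E) := fun _ => rfl
    have hrange : LinearMap.range Φ = ⊤ := by
      rw [eq_top_iff, ← htop]
      refine iSup_le fun a => ?_
      cases a with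
      | none =>
        intro x hx
        refine ⟨(0, WithLp.toLp 2 (u.repr ⟨x, hx⟩)), ?_⟩
        rw [hΦ]
        have h1 := congrArg Subtype.val (u.sum_repr ⟨x, hx⟩)
        rw [Submodule.coe_sum] at h1
        simp only [PiLp.zero_apply, zero_smul, Finset.sum_const_zero, zero_add]
        exact h1
      | some i =>
        intro x hx
        obtain ⟨c, hc⟩ := hvs i x hx
        refine ⟨(EuclideanSpace.single i c, 0), ?_⟩
        rw [hΦ, ← hc]
        simp only [PiLp.zero_apply, zero_smul, Finset.sum_const_zero, add_zero]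
        rw [Finset.sum_eq_single i]
        · simp
        · intro b _ hb
          simp [hb]
        · simp
    have hsurj : Function.Surjective Φ := LinearMap.range_eq_top.1 hrange
    have hdim : Module.finrank ℝ (FF n q) = Module.finrank ℝ E := by
      rw [hE, hmq, Module.finrank_prod, finrank_euclideanSpace_fin, finrank_euclideanSpace_fin,
        add_comm]
    have hinj : Function.Injective Φ :=
      (LinearMap.injective_iff_surjective_of_finrank_eq_finrank hdim).2 hsurj
    let e₀ : FF n q ≃ₗ[ℝ] E := LinearEquiv.ofBijective Φ ⟨hinj, hsurj⟩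
    refine ⟨q, e₀.symm.toContinuousLinearEquiv, ?_⟩
    intro i j x
    obtain ⟨y, rfl⟩ := hsurj x
    have hkey : R (sg i j) (Φ y) = Φ (st (sg i j) y) := by
      rw [hΦ, hΦ, st_apply', map_add, map_sum, map_sum]
      congr 1
      · refine Finset.sum_congr rfl fun k _ => ?_
        have h1 : ∀ i j, R (sg i j) (v k) = (eps {k} i * eps {k} j) • v k := hvm k
        rw [map_smul, h1 i j, smul_smul]
        congr 1
        change _ = TM (sg i j).1 y.1 k
        rw [TM_sg_apply]
        unfold eps sgn
        simp only [Finset.mem_singleton, eq_comm (a := k)]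
        ring
      · refine Finset.sum_congr rfl fun k _ => ?_
        have h1 : ∀ i j, R (sg i j) (u k : E) = (eps ∅ i * eps ∅ j) • (u k : E) := (u k).2
        rw [map_smul, h1 i j]
        unfold eps
        simp
    change e₀.symm (R (sg i j) (Φ y)) = st (sg i j) (e₀.symm (Φ y))
    rw [hkey]
    have h2 : ∀ z, e₀.symm (Φ z) = z := fun z => e₀.symm_apply_apply z
    rw [h2, h2]

end Pool.Agent.Lib.MP_4f3c81_gt.Inf
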