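import Pool.Agent.Lib.MP_4f3c81_gt.Inf.Stmts

/-!
# `SO(n)` is compact
-/

open Filter Topology Set Matrix
open scoped ContDiff

namespace Pool.Agent.Lib.MP_4f3c81_gt.Inf

theorem p_K1 : S_K1 := by
  intro n
  have hemb : Topology.IsClosedEmbedding
      (Subtype.val : SLn n → Matrix (Fin n) (Fin n) ℝ) :=
    Matrix.SpecialLinearGroup.isClosedEmbedding_val
  have hc : IsClosed (KK n : Set (SLn n)) := by
    have h1 : Continuous fun g : SLn n => g.1ᵀ * g.1 :=
      (continuous_subtype_val.matrix_transpose).matrix_mul continuous_subtype_val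
    exact isClosed_singleton.preimage h1
  have hbox : IsCompact (Set.pi Set.univ fun _ : Fin n => Set.pi Set.univ fun _ : Fin n =>
      Set.Icc (-1 : ℝ) 1) :=
    isCompact_univ_pi fun _ => isCompact_univ_pi fun _ => isCompact_Icc
  have hpre := hemb.isCompact_preimage hbox
  refine hpre.of_isClosed_subset hc ?_
  intro g hg
  have hg' : g.1ᵀ * g.1 = 1 := hg
  refine Set.mem_preimage.2 ?_
  intro i _ j _
  have h2 : (g.1ᵀ * g.1) j j = 1 := by rw [hg', Matrix.one_apply_eq]
  rw [Matrix.mul_apply] at h2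
  have h3 : g.1 i j * g.1 i j ≤ 1 :=
    (Finset.single_le_sum (f := fun k => g.1ᵀ j k * g.1 k j)
      (fun k _ => mul_self_nonneg (g.1 k j)) (Finset.mem_univ i)).trans h2.le
  constructor <;> nlinarith

end Pool.Agent.Lib.MP_4f3c81_gt.Inf
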