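import Pool.Agent.Lib.MP_4f3c81_gt.Inf.Stmts

open Filter Topology Set Matrix
open scoped ContDiff

namespace Pool.Agent.Lib.MP_4f3c81_gt.Inf

private theorem k3_norm {n : ℕ} (M : Matrix (Fin n) (Fin n) ℝ) (h : Mᵀ * M = 1) (x : VV n) :
    ‖TM M x‖ = ‖x‖ := by
  have h1 : ‖TM M x‖ ^ 2 = ‖x‖ ^ 2 := by
    rw [EuclideanSpace.real_norm_sq_eq, EuclideanSpace.real_norm_sq_eq]
    have h2 : ∑ i, TM M x i ^ 2 = (M *ᵥ (WithLp.ofLp x)) ⬝ᵥ (M *ᵥ (WithLp.ofLp x)) := by
      refine Finset.sum_congr rfl fun i _ => ?_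
      rw [TM_apply, sq]
    rw [h2, Matrix.dotProduct_mulVec, ← Matrix.mulVec_transpose, Matrix.mulVec_mulVec, h,
      Matrix.one_mulVec]
    exact Finset.sum_congr rfl fun i _ => (sq _).symm
  exact (sq_eq_sq₀ (norm_nonneg _) (norm_nonneg _)).1 h1

private theorem k3_sg {n : ℕ} (i j : Fin n) : sg i j ∈ KK n := by
  rw [mem_KK]
  have h1 : (sg i j).1ᵀ = (sg i j).1 := by
    rw [sg_val, Matrix.diagonal_transpose]
  rw [h1, ← val_mul, sg_mul_self, val_one]

private theorem k3_wy {n : ℕ} (i j : Fin n) (h : i ≠ j) : wy i j h ∈ KK n := by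
  rw [mem_KK]
  ext a b
  rw [Matrix.mul_apply]
  simp only [Matrix.transpose_apply, wy_val]
  by_cases hai : a = i
  · subst hai
    rw [Finset.sum_eq_single j]
    · simp [h.symm, Matrix.one_apply, eq_comm]
    · intro c _ hc
      by_cases hca : c = a
      · subst hca
        simp [h]
      · simp [hc, hca]
    · simp
  · by_cases haj : a = j
    · subst haj
      rw [Finset.sum_eq_single i]
      · simp [Matrix.one_apply, eq_comm]
      · intro c _ hc
        by_cases hca : c = a
        · subst hca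
          simp [h.symm]
        · simp [hc, hca]
      · simp
    · rw [Finset.sum_eq_single a]
      · simp [hai, haj, Matrix.one_apply]
      · intro c _ hc
        by_cases hci : c = i
        · simp [hci, haj]
        · by_cases hcj : c = j
          · subst hcj
            simp [hai, h.symm]
          · simp [hc, hci, hcj]
      · simp

theorem p_K3 : S_K3 := fun _ => ⟨fun k hk x => k3_norm k.1 hk x, k3_sg, k3_wy⟩

end Pool.Agent.Lib.MP_4f3c81_gt.Inf
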