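import Pool.Agent.Lib.MP_4f3c81_gt.Inf.Stmts

/-!
# Step L1: the contracting element on the axis
-/

open Filter Topology Set Matrix MeasureTheory
open scoped ContDiff

namespace Pool.Agent.Lib.MP_4f3c81_gt.Inf

private theorem l1_single {n : ℕ} (o : Fin n) (r : ℝ) :
    (EuclideanSpace.single o r : VV n) = r • EuclideanSpace.single o (1 : ℝ) := by
  ext i
  by_cases h : i = o
  · subst h; simp
  · simp [h]

/-- the axis as a linear map -/
private noncomputable def l1_ax {n q : ℕ} (o : Fin n) : (ℝ × VV q) →L[ℝ] FF n q :=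
  ((ContinuousLinearMap.fst ℝ ℝ (VV q)).smulRight (EuclideanSpace.single o (1 : ℝ))).prod
    (ContinuousLinearMap.snd ℝ ℝ (VV q))

private theorem l1_ax_apply {n q : ℕ} (o : Fin n) (p : ℝ × VV q) :
    (l1_ax o : (ℝ × VV q) →L[ℝ] FF n q) p = ax o p := by
  simp only [ax]
  rw [l1_single]
  rfl

/-- the projection to the axis -/
private noncomputable def l1_pr {n q : ℕ} (o : Fin n) : FF n q →L[ℝ] (ℝ × VV q) :=
  ((EuclideanSpace.proj o : VV n →L[ℝ] ℝ).comp (ContinuousLinearMap.fst ℝ (VV n) (VV q))).prod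
    (ContinuousLinearMap.snd ℝ (VV n) (VV q))

private theorem l1_pr_apply {n q : ℕ} (o : Fin n) (y : FF n q) :
    (l1_pr o : FF n q →L[ℝ] (ℝ × VV q)) y = (y.1 o, y.2) := rfl

private theorem l1_ax_norm {n q : ℕ} (o : Fin n) (p : ℝ × VV q) :
    ‖(ax o p : FF n q)‖ = ‖p‖ := by
  simp only [ax, Prod.norm_def]
  simp

private theorem l1_T0 {n q : ℕ} (B : SLn n → FF n q → FF n q) (o : Fin n) (p : ℝ × VV q) :
    T0 B o p = l1_pr o (B (bb o) (l1_ax o p)) := by
  rw [l1_ax_apply]
  rfl

theorem p_L1 (hK3 : S_K3) : S_L1 := by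
  intro n q hn o B δ hB
  obtain ⟨-, hsgK, -⟩ := hK3 n
  set b : SLn n := bb o with hb
  have hB0 : B b 0 = 0 := hB.fix b 0 (by simpa using hB.pos)
  have hball : ∀ᶠ y : FF n q in 𝓝 0, ‖y‖ < δ := by
    have : Metric.ball (0 : FF n q) δ ∈ 𝓝 (0 : FF n q) := Metric.ball_mem_nhds _ hB.pos
    filter_upwards [this] with y hy
    simpa using hy
  have hcb : ContinuousAt (B b) 0 := by
    have h1 : ContDiffOn ℝ ∞ (B b) (Metric.ball 0 δ) := hB.smooth b
    exact h1.continuousOn.continuousAt (Metric.ball_mem_nhds _ hB.pos)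
  have e1 : ∀ᶠ y : FF n q in 𝓝 0, ‖B b y‖ < δ := by
    have h1 : Tendsto (B b) (𝓝 0) (𝓝 0) := by
      have := hcb.tendsto
      rwa [hB0] at this
    exact h1.eventually hball
  have emul : ∀ g : SLn n, ∀ᶠ y : FF n q in 𝓝 0, ∀ h, B h (B g y) = B (h * g) y := by
    intro g
    have h1 := hB.mul g
    have h2 : Tendsto (fun y : FF n q => (g, y)) (𝓝 0) (𝓝 (g, 0)) :=
      (continuous_const.prodMk continuous_id).tendsto 0
    exact h2.eventually h1
  have e2 : ∀ᶠ y : FF n q in 𝓝 0, ∀ k l : Fin n, ∀ h,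
      B h (B (sg k l) y) = B (h * sg k l) y := by
    rw [eventually_all]
    intro k
    rw [eventually_all]
    intro l
    exact emul (sg k l)
  obtain ⟨δ1, hδ1, H1⟩ := Metric.eventually_nhds_iff_ball.1
    (hball.and (e1.and ((emul b).and e2)))
  have key : ∀ y : FF n q, ‖y‖ < δ1 → ∀ k l : Fin n,
      B b (st (sg k l) y) = st (sg k l) (B b y) := by
    intro y hy k l
    obtain ⟨h1, h2, h3, h4⟩ := H1 y (by simpa using hy)
    rw [← hB.kk (sg k l) (hsgK k l) y (by simpa using h1), h4 k l b, ← sg_mul_bb, ← h3,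
      hB.kk (sg k l) (hsgK k l) (B b y) (by simpa using h2)]
  have hsmooth : ContDiffOn ℝ ∞ (T0 B o) (Metric.ball 0 δ) := by
    have h1 : ContDiffOn ℝ ∞ (fun p : ℝ × VV q => l1_pr o (B b (l1_ax o p)))
        (Metric.ball 0 δ) := by
      refine (l1_pr o).contDiff.comp_contDiffOn ?_
      refine (hB.smooth b).comp (l1_ax o).contDiff.contDiffOn ?_
      intro p hp
      simp only [Metric.mem_ball, dist_zero_right] at hp ⊢
      rw [l1_ax_apply, l1_ax_norm]
      exact hp
    exact h1.congr fun p _ => l1_T0 B o p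
  have hderiv : ∀ z : VV q, ‖z‖ < δ → fderiv ℝ (T0 B o) (0, z) =
      (l1_pr o).comp ((st b).comp (l1_ax o)) := by
    intro z hz
    have h0 : (l1_ax o : (ℝ × VV q) →L[ℝ] FF n q) (0, z) = (0, z) := by
      rw [l1_ax_apply]
      simp [ax]
    have h1 : HasFDerivAt (B b) (st b) (l1_ax o (0, z)) := by
      rw [h0, ← hB.deriv b z hz]
      have h2 : ContDiffAt ℝ ∞ (B b) ((0 : VV n), z) := by
        refine (hB.smooth b).contDiffAt (Metric.isOpen_ball.mem_nhds ?_)
        simp only [Metric.mem_ball, dist_zero_right, Prod.norm_def, norm_zero]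
        exact max_lt hB.pos hz
      exact (h2.differentiableAt (by simp)).hasFDerivAt
    have h3 := ((l1_pr o).hasFDerivAt.comp ((0 : ℝ), z)
      (h1.comp ((0 : ℝ), z) (l1_ax o).hasFDerivAt))
    have h4 : HasFDerivAt (T0 B o) ((l1_pr o).comp ((st b).comp (l1_ax o))) ((0 : ℝ), z) := by
      refine h3.congr_of_eventuallyEq ?_
      exact Eventually.of_forall fun p => l1_T0 B o p
    exact h4.fderiv
  have hboo : b.1 o o = mu n := by
    rw [hb, bb_val, Matrix.diagonal_apply_eq]
    simp [mu]
  have hmu1 : mu n < 1 := by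
    unfold mu
    have h1 : (1 : ℝ) < 2 ^ (n - 1) := one_lt_pow₀ (by norm_num) (by omega)
    exact inv_lt_one_of_one_lt₀ h1
  have hmu0 : 0 ≤ mu n := by unfold mu; positivity
  have hd : ∀ z : VV q, ‖z‖ < δ → ∀ s : ℝ,
      (fderiv ℝ (T0 B o) (0, z) (s, 0)).1 = mu n * s := by
    intro z hz s
    rw [hderiv z hz]
    have h1 : ((l1_pr o).comp ((st b).comp (l1_ax o)) : (ℝ × VV q) →L[ℝ] (ℝ × VV q)) (s, 0) =
        l1_pr o (st b (ax o (s, 0))) := by
      rw [← l1_ax_apply]; rfl
    rw [h1, ax, st_apply, l1_pr_apply]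
    simp only
    rw [TM_single, hboo]
  refine ⟨min δ1 δ, lt_min hδ1 hB.pos, min_le_right _ _, ?_, ?_, ?_, ?_⟩
  · intro p hp
    have hp1 : ‖(ax o p : FF n q)‖ < δ1 := by
      rw [l1_ax_norm]; exact hp.trans_le (min_le_left _ _)
    have h1 : (B b (ax o p)).1 = EuclideanSpace.single o ((B b (ax o p)).1 o) := by
      ext k
      by_cases hk : k = o
      · subst hk; simp
      · rw [PiLp.single_apply, if_neg hk]
        -- choose a third index
        obtain ⟨l, hlo, hlk⟩ : ∃ l : Fin n, l ≠ o ∧ l ≠ k := by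
          have : ∃ l : Fin n, l ∉ ({o, k} : Finset (Fin n)) := by
            by_contra hcon
            push Not at hcon
            have h2 : (Finset.univ : Finset (Fin n)) ⊆ {o, k} := fun l _ => hcon l
            have h3 := Finset.card_le_card h2
            have h4 : ({o, k} : Finset (Fin n)).card ≤ 2 := Finset.card_le_two
            rw [Finset.card_univ, Fintype.card_fin] at h3
            omega
          obtain ⟨l, hl⟩ := this
          simp only [Finset.mem_insert, Finset.mem_singleton, not_or] at hl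
          exact ⟨l, hl.1, hl.2⟩
        have h5 := key (ax o p) hp1 k l
        have h6 : st (sg k l) (ax o p : FF n q) = ax o p := by
          rw [ax, st_apply]
          apply Prod.ext
          · ext m
            simp only
            rw [TM_sg_apply]
            by_cases hm : m = o
            · subst hm
              simp [sgn, Ne.symm hk, Ne.symm hlo]
            · simp [hm]
          · rfl
        rw [h6] at h5
        have h7 : (B b (ax o p)).1 k = (st (sg k l) (B b (ax o p))).1 k := by rw [← h5]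
        rw [st_apply'] at h7
        simp only at h7
        rw [TM_sg_apply] at h7
        have h8 : sgn k l k = -1 := by simp [sgn, Ne.symm hlk]
        rw [h8] at h7
        linarith
    simp only [T0, ax]
    exact Prod.ext h1 rfl
  · intro r z hrz
    obtain ⟨j, hj⟩ : ∃ j : Fin n, j ≠ o := by
      have : ∃ l : Fin n, l ∉ ({o} : Finset (Fin n)) := by
        by_contra hcon
        push Not at hcon
        have h2 : (Finset.univ : Finset (Fin n)) ⊆ {o} := fun l _ => hcon l
        have h3 := Finset.card_le_card h2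
        rw [Finset.card_univ, Fintype.card_fin, Finset.card_singleton] at h3
        omega
      obtain ⟨l, hl⟩ := this
      exact ⟨l, by simpa using hl⟩
    have hp1 : ‖(ax o (r, z) : FF n q)‖ < δ1 := by
      rw [l1_ax_norm]; exact hrz.trans_le (min_le_left _ _)
    have h5 := key (ax o (r, z)) hp1 o j
    have h6 : st (sg o j) (ax o (r, z) : FF n q) = ax o (-r, z) := by
      rw [ax, ax, st_apply]
      apply Prod.ext
      · ext m
        simp only
        rw [TM_sg_apply]
        by_cases hm : m = o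
        · subst hm
          simp [sgn, Ne.symm hj]
        · simp [hm]
      · rfl
    rw [h6] at h5
    simp only [T0]
    rw [← hb, h5, st_apply']
    simp only
    rw [TM_sg_apply]
    have h8 : sgn o j o = -1 := by simp [sgn, Ne.symm hj]
    rw [h8]
    simp
  · refine ⟨lt_min hδ1 hB.pos, hsmooth.mono (Metric.ball_subset_ball (min_le_right _ _)), ?_, ?_⟩
    · intro z hz
      have hz' : ‖z‖ < δ := hz.trans_le (min_le_right _ _)
      have h0 : (ax o ((0 : ℝ), z) : FF n q) = (0, z) := by simp [ax]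
      simp only [T0]
      rw [h0, hB.fix _ z hz']
      rfl
    · intro z hz
      have hz' : ‖z‖ < δ := hz.trans_le (min_le_right _ _)
      refine lt_of_le_of_lt (ContinuousLinearMap.opNorm_le_bound _ hmu0 fun s => ?_) hmu1
      have h1 : dYY (T0 B o) ((0 : ℝ), z) s = mu n * s := hd z hz' s
      rw [h1, norm_mul, Real.norm_of_nonneg hmu0]
  · intro z hz s
    exact hd z (hz.trans_le (min_le_right _ _)) s

end Pool.Agent.Lib.MP_4f3c81_gt.Inf
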