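import Pool.Agent.Lib.MP_4f3c81_gt.Inf.Stmts

/-!
# Smooth actions of `SL(n, ℝ)`: the linearising functions on the axis
-/

open Filter Topology Set Matrix MeasureTheory
open scoped ContDiff

namespace Pool.Agent.Lib.MP_4f3c81_gt.Inf

section

variable {Z : Type} [NormedAddCommGroup Z] [NormedSpace ℝ Z]

/-- the extension of `T` by a multiplicative cocycle -/
noncomputable def l2_ext (T : ℝ × Z → ℝ × Z) (G : ℝ × Z → ℝ) (p : ℝ × (Z × ℝ)) :
    ℝ × (Z × ℝ) :=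
  ((T (p.1, p.2.1)).1, ((T (p.1, p.2.1)).2, p.2.2 * G (p.1, p.2.1)))

theorem l2_iter (T : ℝ × Z → ℝ × Z) (G : ℝ × Z → ℝ) (r : ℝ) (z : Z) (s : ℝ) (N : ℕ) :
    (l2_ext T G)^[N] (r, (z, s)) =
      ((T^[N] (r, z)).1, ((T^[N] (r, z)).2, s * ∏ j ∈ Finset.range N, G (T^[j] (r, z)))) := by
  induction N with
  | zero => simp
  | succ N ih =>
    rw [Function.iterate_succ_apply', ih, Function.iterate_succ_apply', Finset.prod_range_succ]
    unfold l2_ext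
    ext <;> simp [mul_assoc]

theorem l2_norm_le (r : ℝ) (z : Z) (s : ℝ) : ‖(r, z)‖ ≤ ‖(r, (z, s))‖ := by
  rw [Prod.norm_def, Prod.norm_def, Prod.norm_def]
  exact max_le_max le_rfl (le_max_left _ _)

theorem l2_pr : ContDiff ℝ ∞ (fun p : ℝ × (Z × ℝ) => ((p.1, p.2.1) : ℝ × Z)) :=
  contDiff_fst.prodMk (contDiff_fst.comp contDiff_snd)

theorem l2_good (T : ℝ × Z → ℝ × Z) (G : ℝ × Z → ℝ) (δ₁ r' : ℝ) (hT : Good T δ₁)
    (hr' : 0 < r') (hr'δ : r' ≤ δ₁) (hG : ContDiff ℝ ∞ G)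
    (hG0 : ∀ z : Z, ‖z‖ < r' → G (0, z) = 1) : Good (l2_ext T G) r' := by
  have hball : ∀ p ∈ Metric.ball (0 : ℝ × (Z × ℝ)) r', ((p.1, p.2.1) : ℝ × Z) ∈
      Metric.ball (0 : ℝ × Z) δ₁ := by
    intro p hp
    rw [mem_ball_zero_iff] at hp ⊢
    exact lt_of_le_of_lt (l2_norm_le p.1 p.2.1 p.2.2) (lt_of_lt_of_le hp hr'δ)
  have hTc : ContDiffOn ℝ ∞ (fun p : ℝ × (Z × ℝ) => T (p.1, p.2.1))
      (Metric.ball (0 : ℝ × (Z × ℝ)) r') :=
    hT.smooth.comp l2_pr.contDiffOn hball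
  have hsm : ContDiffOn ℝ ∞ (l2_ext T G) (Metric.ball 0 r') := by
    unfold l2_ext
    exact (contDiff_fst.comp_contDiffOn hTc).prodMk
      ((contDiff_snd.comp_contDiffOn hTc).prodMk
        (((contDiff_snd.comp contDiff_snd).mul (hG.comp l2_pr)).contDiffOn))
  refine ⟨hr', hsm, ?_, ?_⟩
  · intro w hw
    obtain ⟨z, s⟩ := w
    have hz : ‖z‖ < r' := by
      refine lt_of_le_of_lt ?_ hw
      rw [Prod.norm_def]
      exact le_max_left _ _
    unfold l2_ext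
    simp only
    rw [hT.fix z (lt_of_lt_of_le hz hr'δ), hG0 z hz, mul_one]
  · intro w hw
    obtain ⟨z, s⟩ := w
    have hz : ‖z‖ < r' := by
      refine lt_of_le_of_lt ?_ hw
      rw [Prod.norm_def]
      exact le_max_left _ _
    have hmem : ((0 : ℝ), (z, s)) ∈ Metric.ball (0 : ℝ × (Z × ℝ)) r' := by
      rw [mem_ball_zero_iff, Prod.norm_def, norm_zero]
      exact max_lt hr' hw
    have hmem1 : ((0 : ℝ), z) ∈ Metric.ball (0 : ℝ × Z) δ₁ := hball _ hmem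
    have hd : DifferentiableAt ℝ (l2_ext T G) (0, (z, s)) :=
      (hsm.contDiffAt (Metric.isOpen_ball.mem_nhds hmem)).differentiableAt (by simp)
    have hdT : DifferentiableAt ℝ T (0, z) :=
      (hT.smooth.contDiffAt (Metric.isOpen_ball.mem_nhds hmem1)).differentiableAt (by simp)
    have hpr : HasFDerivAt (fun p : ℝ × (Z × ℝ) => ((p.1, p.2.1) : ℝ × Z))
        ((ContinuousLinearMap.fst ℝ ℝ (Z × ℝ)).prod
          ((ContinuousLinearMap.fst ℝ Z ℝ).comp (ContinuousLinearMap.snd ℝ ℝ (Z × ℝ))))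
        (0, (z, s)) := by
      exact ((ContinuousLinearMap.fst ℝ ℝ (Z × ℝ)).prod
          ((ContinuousLinearMap.fst ℝ Z ℝ).comp
            (ContinuousLinearMap.snd ℝ ℝ (Z × ℝ)))).hasFDerivAt
    have h1 : HasFDerivAt (fun p : ℝ × (Z × ℝ) => (l2_ext T G p).1)
        ((ContinuousLinearMap.fst ℝ ℝ (Z × ℝ)).comp (fderiv ℝ (l2_ext T G) (0, (z, s))))
        (0, (z, s)) := (ContinuousLinearMap.fst ℝ ℝ (Z × ℝ)).hasFDerivAt.comp _ hd.hasFDerivAt
    have h2 : HasFDerivAt (fun p : ℝ × (Z × ℝ) => (T (p.1, p.2.1)).1)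
        ((ContinuousLinearMap.fst ℝ ℝ Z).comp ((fderiv ℝ T (0, z)).comp
        ((ContinuousLinearMap.fst ℝ ℝ (Z × ℝ)).prod
          ((ContinuousLinearMap.fst ℝ Z ℝ).comp (ContinuousLinearMap.snd ℝ ℝ (Z × ℝ))))))
        (0, (z, s)) := by
      have h3 : HasFDerivAt (fun p : ℝ × (Z × ℝ) => T (p.1, p.2.1)) ((fderiv ℝ T (0, z)).comp
        ((ContinuousLinearMap.fst ℝ ℝ (Z × ℝ)).prod
          ((ContinuousLinearMap.fst ℝ Z ℝ).comp (ContinuousLinearMap.snd ℝ ℝ (Z × ℝ)))))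
          (0, (z, s)) := HasFDerivAt.comp (g := T) (0, (z, s)) hdT.hasFDerivAt hpr
      exact (ContinuousLinearMap.fst ℝ ℝ Z).hasFDerivAt.comp _ h3
    have h4 := HasFDerivAt.unique h1 h2
    have h5 : dYY (l2_ext T G) (0, (z, s)) = dYY T (0, z) := by
      ext
      unfold dYY
      have h6 := congrArg (fun L => L (1, 0)) h4
      simpa using h6
    rw [h5]
    exact hT.con z (lt_of_lt_of_le hz hr'δ)

/-- division of the first coordinate -/
theorem l2_div (hF0 : S_F0) (hF1 : S_F1) [FiniteDimensional ℝ Z] (T : ℝ × Z → ℝ × Z)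
    (δ₁ m : ℝ) (hT : Good T δ₁)
    (hsym : ∀ (r : ℝ) (z : Z), ‖(r, z)‖ < δ₁ → T (-r, z) = (-(T (r, z)).1, (T (r, z)).2))
    (hder : ∀ z : Z, ‖z‖ < δ₁ → ∀ s : ℝ, (fderiv ℝ T (0, z) (s, 0)).1 = m * s) :
    ∃ F : ℝ × Z → ℝ, ContDiff ℝ ∞ F ∧ (∀ p, ‖p‖ < δ₁ / 2 → (T p).1 = p.1 * F p) ∧
      (∀ z : Z, ‖z‖ < δ₁ / 2 → F (0, z) = m) ∧
      (∀ (r : ℝ) (z : Z), ‖(r, z)‖ < δ₁ / 2 → F (-r, z) = F (r, z)) := by
  have hpos := hT.pos
  obtain ⟨g, χ, hg, hgχ, hχ1, hχ0, -, -⟩ := hF0 Z ℝ δ₁ hpos (fun p => (T p).1)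
    (contDiff_fst.comp_contDiffOn hT.smooth)
  have hg0 : ∀ z : Z, g (0, z) = 0 := by
    intro z
    rw [hgχ]
    by_cases hz : ‖z‖ < δ₁
    · simp only [hT.fix z hz, smul_zero]
    · have h1 : δ₁ ≤ ‖((0 : ℝ), z)‖ := by
        rw [Prod.norm_def, norm_zero, max_eq_right (norm_nonneg z)]
        exact not_lt.1 hz
      rw [hχ0 _ h1, zero_smul]
  obtain ⟨F, hF, hgF⟩ := hF1 Z ℝ g hg hg0
  have hTF : ∀ p, ‖p‖ < δ₁ / 2 → (T p).1 = p.1 * F p := by
    intro p hp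
    have h1 := hgF p.1 p.2
    rw [Prod.mk.eta] at h1
    have h2 := hgχ p
    rw [hχ1 p hp, one_smul] at h2
    rw [← h2, h1, smul_eq_mul]
  refine ⟨F, hF, hTF, ?_, ?_⟩
  · intro z hz
    have hn : ∀ᶠ r in 𝓝 (0 : ℝ), ‖(r, z)‖ < δ₁ / 2 := by
      have h1 : Continuous fun r : ℝ => ‖(r, z)‖ := by fun_prop
      have h2 : ‖((0 : ℝ), z)‖ < δ₁ / 2 := by
        rw [Prod.norm_def, norm_zero, max_eq_right (norm_nonneg z)]
        exact hz
      exact h1.continuousAt.eventually (gt_mem_nhds h2)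
    have hmem : ((0 : ℝ), z) ∈ Metric.ball (0 : ℝ × Z) δ₁ := by
      rw [mem_ball_zero_iff, Prod.norm_def, norm_zero, max_eq_right (norm_nonneg z)]
      linarith
    have hdT : DifferentiableAt ℝ T (0, z) :=
      (hT.smooth.contDiffAt (Metric.isOpen_ball.mem_nhds hmem)).differentiableAt (by simp)
    have hin : HasFDerivAt (fun r : ℝ => ((r, z) : ℝ × Z)) (ContinuousLinearMap.inl ℝ ℝ Z) 0 :=
      hasFDerivAt_prodMk_left 0 z
    have h3 : HasFDerivAt (fun r : ℝ => (T (r, z)).1) ((ContinuousLinearMap.fst ℝ ℝ Z).comp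
        ((fderiv ℝ T (0, z)).comp (ContinuousLinearMap.inl ℝ ℝ Z))) 0 := by
      have h4 : HasFDerivAt (fun r : ℝ => T (r, z))
        ((fderiv ℝ T (0, z)).comp (ContinuousLinearMap.inl ℝ ℝ Z)) 0 :=
        HasFDerivAt.comp (g := T) (0 : ℝ) hdT.hasFDerivAt hin
      exact (ContinuousLinearMap.fst ℝ ℝ Z).hasFDerivAt.comp _ h4
    have h5 : HasDerivAt (fun r : ℝ => (T (r, z)).1) m 0 := by
      have h6 := h3.hasDerivAt
      have h7 : ((ContinuousLinearMap.fst ℝ ℝ Z).comp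
        ((fderiv ℝ T (0, z)).comp (ContinuousLinearMap.inl ℝ ℝ Z))) 1 = m := by
        have h8 := hder z (by linarith) 1
        simpa using h8
      rwa [h7] at h6
    have h9 : HasDerivAt (fun r : ℝ => r * F (r, z)) (F (0, z)) 0 := by
      have h10 : DifferentiableAt ℝ (fun r : ℝ => F (r, z)) 0 := by
        have h11 : ContDiff ℝ ∞ (fun r : ℝ => F (r, z)) := hF.comp (contDiff_prodMk_left z)
        exact h11.differentiable (by simp) 0
      have h12 := (hasDerivAt_id' (0 : ℝ)).fun_mul h10.hasDerivAt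
      simpa using h12
    have h13 : (fun r : ℝ => r * F (r, z)) =ᶠ[𝓝 0] fun r : ℝ => (T (r, z)).1 := by
      filter_upwards [hn] with r hr
      rw [hTF (r, z) hr]
    exact (h9.congr_of_eventuallyEq h13.symm).unique h5
  · intro r z hr
    by_cases h0 : r = 0
    · rw [h0, neg_zero]
    · have h1 : ‖(-r, z)‖ < δ₁ / 2 := by
        rw [Prod.norm_def] at hr ⊢
        simpa using hr
      have h2 := hTF (-r, z) h1
      have h3 := hTF (r, z) hr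
      rw [hsym r z (by linarith)] at h2
      simp only at h2 h3
      rw [h3] at h2
      have h4 : r * F (r, z) = r * F (-r, z) := by linarith
      exact (mul_left_cancel₀ h0 h4).symm

/-- the orbit of the reflected point -/
theorem l2_sym (T : ℝ × Z → ℝ × Z) (δ₁ : ℝ)
    (hsym : ∀ (r : ℝ) (z : Z), ‖(r, z)‖ < δ₁ → T (-r, z) = (-(T (r, z)).1, (T (r, z)).2))
    (r : ℝ) (z : Z) (horb : ∀ j : ℕ, ‖T^[j] (r, z)‖ < δ₁) (N : ℕ) :
    T^[N] (-r, z) = (-(T^[N] (r, z)).1, (T^[N] (r, z)).2) := by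
  induction N with
  | zero => simp
  | succ N ih =>
    rw [Function.iterate_succ_apply', ih, Function.iterate_succ_apply']
    have h1 := hsym (T^[N] (r, z)).1 (T^[N] (r, z)).2 (by simpa using horb N)
    simpa using h1

/-- the first coordinate of the orbit -/
theorem l2_first (T : ℝ × Z → ℝ × Z) (F : ℝ × Z → ℝ) (δ m : ℝ) (hm : 0 < m)
    (hTF : ∀ p, ‖p‖ < δ → (T p).1 = p.1 * F p) (p : ℝ × Z)
    (horb : ∀ j : ℕ, ‖T^[j] p‖ < δ) (N : ℕ) :
    (m ^ N)⁻¹ * (T^[N] p).1 = p.1 * ∏ j ∈ Finset.range N, (F (T^[j] p) / m) := by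
  induction N with
  | zero => simp
  | succ N ih =>
    rw [Function.iterate_succ_apply', hTF _ (horb N), Finset.prod_range_succ]
    calc (m ^ (N + 1))⁻¹ * ((T^[N] p).1 * F (T^[N] p))
        = ((m ^ N)⁻¹ * (T^[N] p).1) * (F (T^[N] p) / m) := by
          rw [pow_succ]
          field_simp
      _ = _ := by rw [ih, mul_assoc]

/-- the linearising functions of a map of the half plane -/
theorem l2_core (hE1 : S_E1) (hE6 : S_E6) (hF0 : S_F0) (hF1 : S_F1) [FiniteDimensional ℝ Z]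
    (T : ℝ × Z → ℝ × Z) (δ₁ m : ℝ) (hT : Good T δ₁) (hm : 0 < m)
    (hsym : ∀ (r : ℝ) (z : Z), ‖(r, z)‖ < δ₁ → T (-r, z) = (-(T (r, z)).1, (T (r, z)).2))
    (hder : ∀ z : Z, ‖z‖ < δ₁ → ∀ s : ℝ, (fderiv ℝ T (0, z) (s, 0)).1 = m * s) :
    ∃ (u : ℝ × Z → ℝ) (w : ℝ × Z → Z) (δ : ℝ), 0 < δ ∧ ContDiff ℝ ∞ u ∧ ContDiff ℝ ∞ w ∧
      (∀ r z, u (-r, z) = u (r, z)) ∧ (∀ r z, w (-r, z) = w (r, z)) ∧
      (∀ z, ‖z‖ < δ → u (0, z) = 1) ∧ (∀ z, ‖z‖ < δ → w (0, z) = z) ∧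
      (∀ p : ℝ × Z, ‖p‖ < δ →
        Tendsto (fun N : ℕ => (m ^ N)⁻¹ * (T^[N] p).1) atTop (𝓝 (p.1 * u p))) ∧
      (∀ p : ℝ × Z, ‖p‖ < δ → Tendsto (fun N : ℕ => (T^[N] p).2) atTop (𝓝 (w p))) ∧
      (∀ p : ℝ × Z, ‖p‖ < δ → Tendsto (fun N : ℕ => (T^[N] p).1) atTop (𝓝 0)) := by
  have hpos := hT.pos
  obtain ⟨F, hF, hTF, hF0m, hFeven⟩ := l2_div hF0 hF1 T δ₁ m hT hsym hder
  -- the extended map
  set G : ℝ × Z → ℝ := fun p => F p / m with hGdef
  have hG : ContDiff ℝ ∞ G := hF.div_const m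
  have hG0 : ∀ z : Z, ‖z‖ < δ₁ / 2 → G (0, z) = 1 := by
    intro z hz
    rw [hGdef]
    simp only
    rw [hF0m z hz, div_self hm.ne']
  have hT' : Good (l2_ext T G) (δ₁ / 2) :=
    l2_good T G δ₁ (δ₁ / 2) hT (by linarith) (by linarith) hG hG0
  obtain ⟨δ₂, hδ₂, hwsm, hwlim⟩ := hE6 ℝ (Z × ℝ) (l2_ext T G) (δ₁ / 2) hT'
  obtain ⟨δ₃, hδ₃, μ, C, hμ0, hμ1, -, horb⟩ := hE1 ℝ Z T δ₁ hT (δ₁ / 2) (by linarith)
  set s₀ : ℝ := δ₂ / 2 with hs₀
  have hs₀pos : 0 < s₀ := by rw [hs₀]; linarith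
  set W : ℝ × Z → Z × ℝ := fun p => winf (l2_ext T G) (p.1, (p.2, s₀)) with hW
  set w₀ : ℝ × Z → Z := fun p => (W p).1 with hw₀
  set u₀ : ℝ × Z → ℝ := fun p => (W p).2 / s₀ with hu₀
  set R : ℝ := min δ₂ (min δ₃ (δ₁ / 2)) with hR
  have hRpos : 0 < R := lt_min hδ₂ (lt_min hδ₃ (by linarith))
  have hR2 : R ≤ δ₂ := min_le_left _ _
  have hR3 : R ≤ δ₃ := (min_le_right _ _).trans (min_le_left _ _)
  have hR1 : R ≤ δ₁ / 2 := (min_le_right _ _).trans (min_le_right _ _)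
  have hin : ∀ p : ℝ × Z, ‖p‖ < R → ‖((p.1, (p.2, s₀)) : ℝ × (Z × ℝ))‖ < δ₂ := by
    intro p hp
    rw [Prod.norm_def] at hp
    rw [Prod.norm_def, Prod.norm_def]
    refine max_lt (lt_of_lt_of_le (lt_of_le_of_lt (le_max_left _ _) hp) hR2) (max_lt
      (lt_of_lt_of_le (lt_of_le_of_lt (le_max_right _ _) hp) hR2) ?_)
    simp only
    rw [Real.norm_of_nonneg hs₀pos.le, hs₀]
    linarith
  have hWsm : ContDiffOn ℝ ∞ W (Metric.ball 0 R) := by
    refine hwsm.comp (t := Metric.ball 0 δ₂) (f := fun p : ℝ × Z => ((p.1, (p.2, s₀)) :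
      ℝ × (Z × ℝ))) (contDiff_fst.prodMk (contDiff_snd.prodMk contDiff_const)).contDiffOn ?_
    intro p hp
    rw [mem_ball_zero_iff] at hp ⊢
    exact hin p hp
  have hw₀sm : ContDiffOn ℝ ∞ w₀ (Metric.ball 0 R) := contDiff_fst.comp_contDiffOn hWsm
  have hu₀sm : ContDiffOn ℝ ∞ u₀ (Metric.ball 0 R) :=
    (contDiff_snd.comp_contDiffOn hWsm).div_const s₀
  have hlim : ∀ p : ℝ × Z, ‖p‖ < R →
      Tendsto (fun N : ℕ => ((T^[N] p).2, s₀ * ∏ j ∈ Finset.range N, G (T^[j] p))) atTop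
        (𝓝 (W p)) := by
    intro p hp
    have h1 := hwlim _ (hin p hp)
    simp only [l2_iter] at h1
    exact h1
  have hwl : ∀ p : ℝ × Z, ‖p‖ < R → Tendsto (fun N : ℕ => (T^[N] p).2) atTop (𝓝 (w₀ p)) := by
    intro p hp
    exact (continuous_fst.tendsto _).comp (hlim p hp)
  have hul : ∀ p : ℝ × Z, ‖p‖ < R →
      Tendsto (fun N : ℕ => ∏ j ∈ Finset.range N, G (T^[j] p)) atTop (𝓝 (u₀ p)) := by
    intro p hp
    have h1 : Tendsto (fun N : ℕ => s₀ * ∏ j ∈ Finset.range N, G (T^[j] p)) atTop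
      (𝓝 (W p).2) := (continuous_snd.tendsto _).comp (hlim p hp)
    have h2 := h1.div_const s₀
    refine h2.congr fun N => ?_
    rw [mul_comm, mul_div_assoc, div_self hs₀pos.ne', mul_one]
  have horb' : ∀ p : ℝ × Z, ‖p‖ < R → ∀ j : ℕ, ‖T^[j] p‖ < δ₁ / 2 := fun p hp j =>
    (horb p (lt_of_lt_of_le hp hR3) j).1
  have hneg : ∀ (r : ℝ) (z : Z), ‖(-r, z)‖ = ‖(r, z)‖ := by
    intro r z
    rw [Prod.norm_def, Prod.norm_def]
    simp
  have hsymN : ∀ (r : ℝ) (z : Z), ‖(r, z)‖ < R → ∀ N : ℕ,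
      T^[N] (-r, z) = (-(T^[N] (r, z)).1, (T^[N] (r, z)).2) := by
    intro r z hr N
    refine l2_sym T δ₁ hsym r z (fun j => ?_) N
    have := horb' _ hr j
    linarith
  have hweven : ∀ (r : ℝ) (z : Z), ‖(r, z)‖ < R → w₀ (-r, z) = w₀ (r, z) := by
    intro r z hr
    have h1 := hwl (-r, z) (by rw [hneg]; exact hr)
    have h2 := hwl (r, z) hr
    refine tendsto_nhds_unique h1 (h2.congr fun N => ?_)
    rw [hsymN r z hr N]
  have hueven : ∀ (r : ℝ) (z : Z), ‖(r, z)‖ < R → u₀ (-r, z) = u₀ (r, z) := by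
    intro r z hr
    have h1 := hul (-r, z) (by rw [hneg]; exact hr)
    have h2 := hul (r, z) hr
    refine tendsto_nhds_unique h1 (h2.congr fun N => ?_)
    refine Finset.prod_congr rfl fun j _ => ?_
    rw [hsymN r z hr j, hGdef]
    simp only
    rw [hFeven _ _ (by simpa using horb' _ hr j)]
  -- cutting off
  obtain ⟨gu, χu, hgu, hguχ, hχu1, hχu0, hχue, hχus⟩ := hF0 Z ℝ R hRpos u₀ hu₀sm
  obtain ⟨gw, χw, hgw, hgwχ, hχw1, hχw0, hχwe, hχws⟩ := hF0 Z Z R hRpos w₀ hw₀sm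
  have hu1 : ∀ p : ℝ × Z, ‖p‖ < R / 2 → gu p + (1 - χu p) = u₀ p := by
    intro p hp
    rw [hguχ, hχu1 p hp, one_smul, sub_self, add_zero]
  have hw1 : ∀ p : ℝ × Z, ‖p‖ < R / 2 → gw p = w₀ p := by
    intro p hp
    rw [hgwχ, hχw1 p hp, one_smul]
  have hax : ∀ z : Z, ‖((0 : ℝ), z)‖ = ‖z‖ := by
    intro z
    rw [Prod.norm_def, norm_zero, max_eq_right (norm_nonneg z)]
  have hfix : ∀ z : Z, ‖z‖ < R → ∀ N : ℕ, T^[N] (0, z) = (0, z) := by
    intro z hz N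
    exact Function.iterate_fixed (hT.fix z (by linarith)) N
  refine ⟨fun p => gu p + (1 - χu p), gw, R / 2, by linarith,
    hgu.add (contDiff_const.sub hχus), hgw, ?_, ?_, ?_, ?_, ?_, ?_, ?_⟩
  · intro r z
    simp only
    rw [hχue r z, hguχ, hguχ, hχue r z]
    by_cases hr : ‖(r, z)‖ < R
    · rw [hueven r z hr]
    · rw [hχu0 _ (not_lt.1 hr), zero_smul, zero_smul]
  · intro r z
    rw [hgwχ, hgwχ, hχwe r z]
    by_cases hr : ‖(r, z)‖ < R
    · rw [hweven r z hr]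
    · rw [hχw0 _ (not_lt.1 hr), zero_smul, zero_smul]
  · intro z hz
    simp only
    rw [hu1 _ (by rw [hax]; exact hz)]
    have h1 := hul (0, z) (by rw [hax]; linarith)
    refine tendsto_nhds_unique h1 (tendsto_const_nhds.congr fun N => ?_)
    symm
    refine Finset.prod_eq_one fun j _ => ?_
    rw [hfix z (by linarith) j]
    exact hG0 z (by linarith)
  · intro z hz
    rw [hw1 _ (by rw [hax]; exact hz)]
    have h1 := hwl (0, z) (by rw [hax]; linarith)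
    refine tendsto_nhds_unique h1 (tendsto_const_nhds.congr fun N => ?_)
    rw [hfix z (by linarith) N]
  · intro p hp
    simp only
    rw [hu1 p hp]
    have h1 := (hul p (by linarith)).const_mul p.1
    refine h1.congr fun N => ?_
    rw [l2_first T F (δ₁ / 2) m hm hTF p (horb' p (by linarith)) N]
  · intro p hp
    rw [hw1 p hp]
    exact hwl p (by linarith)
  · intro p hp
    have h1 : Tendsto (fun N : ℕ => μ ^ N * ‖p.1‖) atTop (𝓝 0) := by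
      have h2 := (tendsto_pow_atTop_nhds_zero_of_lt_one hμ0.le hμ1).mul_const ‖p.1‖
      rwa [zero_mul] at h2
    exact squeeze_zero_norm (fun N => (horb p (by linarith) N).2.1) h1

end

theorem p_L2 (hE1 : S_E1) (hE6 : S_E6) (hF0 : S_F0) (hF1 : S_F1) (hL1 : S_L1) : S_L2 := by
  intro n q hn o B δ hB
  obtain ⟨δ₁, hδ₁, -, -, hsym, hgood, hder⟩ := hL1 n q hn o B δ hB
  have hm : 0 < mu n := by
    unfold mu
    positivity
  obtain ⟨u, w, δ', h1, h2, h3, h4, h5, h6, h7, h8, h9, h10⟩ :=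
    l2_core hE1 hE6 hF0 hF1 (T0 B o) δ₁ (mu n) hgood hm hsym hder
  exact ⟨u, w, δ', h1, h2, h3, h4, h5, h6, h7, h8, h9, h10⟩

end Pool.Agent.Lib.MP_4f3c81_gt.Inf
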