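import Pool.Agent.Lib.MP_4f3c81_gt.Inf.Stmts

/-!
# Step M1: expansion transversal to the axis
-/

open Filter Topology Set Matrix MeasureTheory
open scoped ContDiff

namespace Pool.Agent.Lib.MP_4f3c81_gt.Inf

private theorem m1_single {n : ℕ} (o : Fin n) (r : ℝ) :
    (EuclideanSpace.single o r : VV n) = r • EuclideanSpace.single o (1 : ℝ) := by
  ext i
  by_cases h : i = o
  · subst h; simp
  · simp [h]

/-- the orthogonal component as a linear map -/
private noncomputable def m1_eta {n q : ℕ} (o : Fin n) : FF n q →L[ℝ] VV n :=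
  ContinuousLinearMap.fst ℝ (VV n) (VV q) -
    ((EuclideanSpace.proj o : VV n →L[ℝ] ℝ).comp
      (ContinuousLinearMap.fst ℝ (VV n) (VV q))).smulRight (EuclideanSpace.single o (1 : ℝ))

private theorem m1_eta_apply {n q : ℕ} (o : Fin n) (y : FF n q) :
    (m1_eta o : FF n q →L[ℝ] VV n) y = eta o y := by
  simp only [eta]
  rw [m1_single]
  rfl

private theorem m1_ax_norm {n q : ℕ} (o : Fin n) (p : ℝ × VV q) :
    ‖(ax o p : FF n q)‖ = ‖p‖ := by
  simp only [ax, Prod.norm_def]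
  simp

private theorem m1_eta_ax {n q : ℕ} (o : Fin n) (p : ℝ × VV q) :
    eta o (ax o p : FF n q) = 0 := by
  simp [eta, ax]

theorem p_M1 (hL1 : S_L1) : S_M1 := by
  intro n q hn o B δ hB
  obtain ⟨δL, hδL, hδLδ, hLa, -, -, -⟩ := hL1 n q hn o B δ hB
  set b : SLn n := bb o with hb
  have hdc : ContinuousAt (fderiv ℝ (B b)) 0 := by
    have h1 : ContDiffAt ℝ ∞ (B b) 0 :=
      (hB.smooth b).contDiffAt (Metric.isOpen_ball.mem_nhds (by simpa using hB.pos))
    exact (h1.fderiv_right (m := 0) (by simp)).continuousAt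
  have hd0 : fderiv ℝ (B b) 0 = st b := by
    exact hB.deriv b 0 (by simpa using hB.pos)
  -- the derivative of the difference
  have hL0 : (m1_eta o : FF n q →L[ℝ] VV n).comp (st b) - (2 : ℝ) • m1_eta o = 0 := by
    ext y k
    · have h1 : (m1_eta o : FF n q →L[ℝ] VV n) (st b (y, (0 : VV q))) = (2 : ℝ) • (m1_eta o : FF n q →L[ℝ] VV n) (y, (0 : VV q)) := by
        rw [m1_eta_apply, m1_eta_apply, eta, eta, st_apply]
        ext m
        simp only [PiLp.sub_apply, PiLp.smul_apply, PiLp.single_apply, smul_eq_mul]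
        rw [hb, bb_val, TM_diagonal_apply]
        by_cases hm : m = o
        · subst hm; simp [TM_diagonal_apply]
        · simp [hm]
      have h2 : (((m1_eta o : FF n q →L[ℝ] VV n).comp (st b) - (2 : ℝ) • m1_eta o).comp
          (ContinuousLinearMap.inl ℝ (VV n) (VV q))) y =
          (m1_eta o : FF n q →L[ℝ] VV n) (st b (y, (0 : VV q))) -
            (2 : ℝ) • (m1_eta o : FF n q →L[ℝ] VV n) (y, (0 : VV q)) := rfl
      rw [h2, h1, sub_self]
      rfl
    · have h1 : (m1_eta o : FF n q →L[ℝ] VV n) (st b ((0 : VV n), y)) = (2 : ℝ) • (m1_eta o : FF n q →L[ℝ] VV n) ((0 : VV n), y) := by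
        rw [m1_eta_apply, m1_eta_apply, eta, eta, st_apply, map_zero]
        have h3 : (EuclideanSpace.single o (0 : ℝ) : VV n) = 0 := by
          ext i; simp
        simp [h3]
      have h2 : (((m1_eta o : FF n q →L[ℝ] VV n).comp (st b) - (2 : ℝ) • m1_eta o).comp
          (ContinuousLinearMap.inr ℝ (VV n) (VV q))) y =
          (m1_eta o : FF n q →L[ℝ] VV n) (st b ((0 : VV n), y)) -
            (2 : ℝ) • (m1_eta o : FF n q →L[ℝ] VV n) ((0 : VV n), y) := rfl
      rw [h2, h1, sub_self]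
      rfl
  have hc2 : ContinuousAt (fun y : FF n q =>
      ‖(m1_eta o : FF n q →L[ℝ] VV n).comp (fderiv ℝ (B b) y) - (2 : ℝ) • m1_eta o‖) 0 := by
    have h1 : Continuous fun L : FF n q →L[ℝ] FF n q =>
        ‖(m1_eta o : FF n q →L[ℝ] VV n).comp L - (2 : ℝ) • m1_eta o‖ := by
      have h2 : Continuous fun L : FF n q →L[ℝ] FF n q =>
          (m1_eta o : FF n q →L[ℝ] VV n).comp L := by fun_prop
      exact (h2.sub continuous_const).norm
    exact h1.continuousAt.comp hdc
  have hev : ∀ᶠ y : FF n q in 𝓝 0,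
      ‖(m1_eta o : FF n q →L[ℝ] VV n).comp (fderiv ℝ (B b) y) - (2 : ℝ) • m1_eta o‖ < 1 / 2 := by
    refine hc2.eventually (gt_mem_nhds ?_)
    change ‖(m1_eta o : FF n q →L[ℝ] VV n).comp (fderiv ℝ (B b) 0) - (2 : ℝ) • m1_eta o‖ < 1 / 2
    rw [hd0, hL0]
    simp
  obtain ⟨δ2, hδ2, H2⟩ := Metric.eventually_nhds_iff_ball.1 hev
  refine ⟨min (min δL δ2) δ, lt_min (lt_min hδL hδ2) hB.pos, min_le_right _ _, fun y hy => ?_⟩
  have hyL : ‖y‖ < δL := hy.trans_le ((min_le_left _ _).trans (min_le_left _ _))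
  have hy2 : ‖y‖ < δ2 := hy.trans_le ((min_le_left _ _).trans (min_le_right _ _))
  have hyδ : ‖y‖ < δ := hy.trans_le (min_le_right _ _)
  set y0 : FF n q := ax o (y.1 o, y.2) with hy0
  have hp : ‖((y.1 o, y.2) : ℝ × VV q)‖ ≤ ‖y‖ := by
    rw [Prod.norm_def, Prod.norm_def]
    exact max_le_max (PiLp.norm_apply_le _ o) le_rfl
  have hy0n : ‖y0‖ ≤ ‖y‖ := by rw [hy0, m1_ax_norm]; exact hp
  have hdist : ‖y - y0‖ = ‖eta o y‖ := by
    have : y - y0 = (eta o y, 0) := by
      rw [hy0, ax, eta]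
      exact Prod.ext rfl (sub_self y.2)
    rw [this, Prod.norm_def]
    simp
  set f : FF n q → VV n := fun x => m1_eta o (B b x) - (2 : ℝ) • m1_eta o x with hf
  have hfd : ∀ x ∈ Metric.ball (0 : FF n q) (min (min δL δ2) δ), HasFDerivWithinAt f
      ((m1_eta o : FF n q →L[ℝ] VV n).comp (fderiv ℝ (B b) x) - (2 : ℝ) • m1_eta o)
      (Metric.ball (0 : FF n q) (min (min δL δ2) δ)) x := by
    intro x hx
    simp only [Metric.mem_ball, dist_zero_right] at hx
    have h1 : ContDiffAt ℝ ∞ (B b) x :=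
      (hB.smooth b).contDiffAt (Metric.isOpen_ball.mem_nhds
        (by simpa using hx.trans_le (min_le_right _ _)))
    have h2 := (h1.differentiableAt (by simp)).hasFDerivAt
    have h3 := ((m1_eta o : FF n q →L[ℝ] VV n).hasFDerivAt.comp x h2).sub
      ((m1_eta o : FF n q →L[ℝ] VV n).hasFDerivAt.const_smul (2 : ℝ))
    exact h3.hasFDerivWithinAt
  have hmv := (convex_ball (0 : FF n q) (min (min δL δ2) δ)).norm_image_sub_le_of_norm_hasFDerivWithin_le
    (f := f) (C := 1 / 2) hfd (fun x hx => by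
      simp only [Metric.mem_ball, dist_zero_right] at hx
      exact (H2 x (by simpa using hx.trans_le ((min_le_left _ _).trans (min_le_right _ _)))).le)
    (x := y0) (y := y) (by simpa using lt_of_le_of_lt hy0n hy) (by simpa using hy)
  have hf0 : f y0 = 0 := by
    simp only [hf]
    have h1 : B b y0 = ax o (T0 B o (y.1 o, y.2)) := hLa _ (lt_of_le_of_lt hp hyL)
    rw [h1, m1_eta_apply, m1_eta_apply, m1_eta_ax, hy0, m1_eta_ax]
    simp
  rw [hf0, sub_zero, hdist] at hmv
  simp only [hf] at hmv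
  rw [m1_eta_apply, m1_eta_apply] at hmv
  have h5 : ‖(2 : ℝ) • eta o y‖ ≤ ‖eta o (B b y)‖ + ‖eta o (B b y) - (2 : ℝ) • eta o y‖ := by
    have : (2 : ℝ) • eta o y = eta o (B b y) - (eta o (B b y) - (2 : ℝ) • eta o y) := by abel
    calc ‖(2 : ℝ) • eta o y‖ = ‖eta o (B b y) - (eta o (B b y) - (2 : ℝ) • eta o y)‖ := by
          rw [← this]
      _ ≤ _ := norm_sub_le _ _
  rw [norm_smul] at h5
  have h6 : ‖(2 : ℝ)‖ = 2 := by norm_num
  rw [h6] at h5
  linarith

end Pool.Agent.Lib.MP_4f3c81_gt.Inf
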