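import Pool.Agent.Lib.MP_4f3c81_gt.Inf.Stmts

/-!
# The compact sets in the parabolic subgroup
-/

open Filter Topology Set Matrix MeasureTheory
open scoped ContDiff

namespace Pool.Agent.Lib.MP_4f3c81_gt.Inf

/-- the inverse diagonal -/
noncomputable def m2_d (n : ℕ) (o k : Fin n) : ℝ := if k = o then (2 : ℝ) ^ (n - 1) else 2⁻¹

theorem m2_inv {n : ℕ} (o : Fin n) : ((bb o)⁻¹).1 = Matrix.diagonal (m2_d n o) := by
  have h1 : (bb o).1 * Matrix.diagonal (m2_d n o) = 1 := by
    rw [bb_val, Matrix.diagonal_mul_diagonal, ← Matrix.diagonal_one]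
    congr 1
    funext k
    unfold m2_d
    split_ifs
    · exact inv_mul_cancel₀ (by positivity)
    · norm_num
  calc ((bb o)⁻¹).1 = ((bb o)⁻¹).1 * ((bb o).1 * Matrix.diagonal (m2_d n o)) := by
        rw [h1, Matrix.mul_one]
    _ = (((bb o)⁻¹).1 * (bb o).1) * Matrix.diagonal (m2_d n o) := by rw [Matrix.mul_assoc]
    _ = Matrix.diagonal (m2_d n o) := by rw [val_inv_mul, Matrix.one_mul]

theorem m2_conj {n : ℕ} (o : Fin n) (g : SLn n) (i j : Fin n) :
    (bb o * g * (bb o)⁻¹).1 i j =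
      (if i = o then ((2 : ℝ) ^ (n - 1))⁻¹ else 2) * g.1 i j * m2_d n o j := by
  rw [val_mul, val_mul, m2_inv, bb_val, Matrix.mul_diagonal, Matrix.diagonal_mul]

theorem m2_step {n : ℕ} (o : Fin n) (c : ℝ) (g : SLn n) (hg : g ∈ CC o c) :
    bb o * g * (bb o)⁻¹ ∈ CC o c ∧ (bb o * g * (bb o)⁻¹).1 o o = g.1 o o := by
  obtain ⟨h1, h2, h3⟩ := hg
  have hp : (1 : ℝ) ≤ 2 ^ (n - 1) := one_le_pow₀ (by norm_num)
  have hp0 : (0 : ℝ) < 2 ^ (n - 1) := by positivity
  have hi : ((2 : ℝ) ^ (n - 1))⁻¹ ≤ 1 := inv_le_one_of_one_le₀ hp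
  have hi0 : 0 < ((2 : ℝ) ^ (n - 1))⁻¹ := by positivity
  have hoo : (bb o * g * (bb o)⁻¹).1 o o = g.1 o o := by
    rw [m2_conj, m2_d, if_pos rfl, if_pos rfl, mul_right_comm, inv_mul_cancel₀ hp0.ne', one_mul]
  refine ⟨⟨?_, ?_, ?_⟩, hoo⟩
  · intro i j
    by_cases hio : i = o
    · by_cases hjo : j = o
      · rw [hio, hjo, hoo]
        exact h1 o o
      · rw [m2_conj, m2_d, if_pos hio, if_neg hjo, abs_mul, abs_mul, abs_of_pos hi0,
          abs_of_pos (by norm_num : (0 : ℝ) < 2⁻¹)]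
        have h4 := h1 i j
        have h5 := abs_nonneg (g.1 i j)
        calc ((2 : ℝ) ^ (n - 1))⁻¹ * |g.1 i j| * 2⁻¹ ≤ 1 * |g.1 i j| * 1 := by
              apply mul_le_mul _ (by norm_num) (by norm_num) (by positivity)
              exact mul_le_mul_of_nonneg_right hi h5
          _ ≤ c := by rw [one_mul, mul_one]; exact h4
    · by_cases hjo : j = o
      · rw [m2_conj, hjo, h2 i hio, mul_zero, zero_mul, abs_zero]
        exact (abs_nonneg _).trans (h1 i j)
      · rw [m2_conj, m2_d, if_neg hio, if_neg hjo]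
        have h6 : (2 : ℝ) * g.1 i j * 2⁻¹ = g.1 i j := by ring
        rw [h6]
        exact h1 i j
  · intro i hio
    rw [m2_conj, h2 i hio, mul_zero, zero_mul]
  · rw [hoo]
    exact h3

theorem m2_iter {n : ℕ} (o : Fin n) (c : ℝ) (g : SLn n) (hg : g ∈ CC o c) (N : ℕ) :
    (bb o) ^ N * g * ((bb o) ^ N)⁻¹ ∈ CC o c ∧
      ((bb o) ^ N * g * ((bb o) ^ N)⁻¹).1 o o = g.1 o o := by
  induction N with
  | zero =>
    rw [pow_zero, one_mul, inv_one, mul_one]
    exact ⟨hg, rfl⟩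
  | succ N ih =>
    have h1 : (bb o) ^ (N + 1) * g * ((bb o) ^ (N + 1))⁻¹ =
        bb o * ((bb o) ^ N * g * ((bb o) ^ N)⁻¹) * (bb o)⁻¹ := by
      rw [pow_succ', _root_.mul_inv_rev]
      simp only [mul_assoc]
    rw [h1]
    have h2 := m2_step o c _ ih.1
    exact ⟨h2.1, h2.2.trans ih.2⟩

theorem m2_compact {n : ℕ} (o : Fin n) (c : ℝ) : IsCompact (CC o c) := by
  have hK : IsCompact {M : Matrix (Fin n) (Fin n) ℝ |
      (∀ i j, |M i j| ≤ c) ∧ (∀ i, i ≠ o → M i o = 0) ∧ c⁻¹ ≤ M o o} := by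
    have h1 : IsCompact (Set.pi univ fun _ : Fin n => Set.pi univ fun _ : Fin n => Icc (-c) c) :=
      isCompact_univ_pi fun _ => isCompact_univ_pi fun _ => isCompact_Icc
    have hev : ∀ i j : Fin n, Continuous fun M : Matrix (Fin n) (Fin n) ℝ => M i j := fun i j =>
      (continuous_apply j).comp (continuous_apply i)
    refine IsCompact.of_isClosed_subset h1 ?_ ?_
    · rw [ofPred_and, ofPred_and]
      refine IsClosed.inter ?_ (IsClosed.inter ?_ ?_)
      · simp only [ofPred_forall]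
        exact isClosed_iInter fun i => isClosed_iInter fun j =>
          isClosed_le (hev i j).abs continuous_const
      · simp only [ofPred_forall]
        exact isClosed_iInter fun i => isClosed_iInter fun _ =>
          isClosed_eq (hev i o) continuous_const
      · exact isClosed_le continuous_const (hev o o)
    · intro M hM
      exact fun i _ j _ => abs_le.1 (hM.1 i j)
  exact Matrix.SpecialLinearGroup.isClosedEmbedding_val.isCompact_preimage hK

theorem p_M2 : S_M2 := by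
  intro n o c _
  exact ⟨m2_compact o c, fun g hg N => m2_iter o c g hg N⟩

end Pool.Agent.Lib.MP_4f3c81_gt.Inf
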