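import Pool.Agent.Lib.MP_4f3c81_gt.Inf.Stmts

open Filter Topology Set Matrix
open scoped ContDiff

namespace Pool.Agent.Lib.MP_4f3c81_gt.Inf

private theorem m3_fix0 {n q : ℕ} {B : SLn n → FF n q → FF n q} {δ : ℝ} (hB : LAct n q B δ)
    (g : SLn n) : B g 0 = 0 := by
  have h := hB.fix g (0 : VV q) (by rw [norm_zero]; exact hB.pos)
  exact h

private theorem m3_first {n q : ℕ} {B : SLn n → FF n q → FF n q} {δ : ℝ} (hB : LAct n q B δ)
    {C : Set (SLn n)} (hC : IsCompact C) {ρ : ℝ} (hρ : 0 < ρ) :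
    ∃ ε > 0, ∀ y : FF n q, ‖y‖ < ε → ∀ g ∈ C,
      ‖B g y‖ < ρ ∧ ∀ h, B h (B g y) = B (h * g) y := by
  have hev : ∀ᶠ y in 𝓝 (0 : FF n q), ∀ g ∈ C,
      ‖B g y‖ < ρ ∧ ∀ h, B h (B g y) = B (h * g) y := by
    refine hC.eventually_forall_of_forall_eventually fun g₀ _ => ?_
    have hsw : Tendsto (fun p : FF n q × SLn n => (p.2, p.1)) (𝓝 ((0 : FF n q), g₀))
        (𝓝 (g₀, (0 : FF n q))) := continuous_swap.tendsto ((0 : FF n q), g₀)
    have hat : Tendsto (fun p : SLn n × FF n q => B p.1 p.2) (𝓝 (g₀, (0 : FF n q)))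
        (𝓝 0) := by
      have h4 : univ ×ˢ Metric.ball (0 : FF n q) δ ∈ 𝓝 (g₀, (0 : FF n q)) :=
        prod_mem_nhds univ_mem (Metric.ball_mem_nhds _ hB.pos)
      have h5 := (hB.cont.continuousAt h4).tendsto
      have h6 : B g₀ 0 = 0 := m3_fix0 hB g₀
      rw [h6] at h5
      exact h5
    have h1 : ∀ᶠ p in 𝓝 (g₀, (0 : FF n q)), ‖B p.1 p.2‖ < ρ := by
      have h2 := hat.eventually (Metric.ball_mem_nhds (0 : FF n q) hρ)
      filter_upwards [h2] with p hp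
      exact mem_ball_zero_iff.1 hp
    exact hsw.eventually (h1.and (hB.mul g₀))
  obtain ⟨ε, hε, h⟩ := Metric.eventually_nhds_iff.1 hev
  exact ⟨ε, hε, fun y hy => h (by rwa [dist_zero_right])⟩

private theorem m3_second {n q : ℕ} {B : SLn n → FF n q → FF n q} {δ : ℝ} (hB : LAct n q B δ)
    {C : Set (SLn n)} (hC : IsCompact C) {ε : ℝ} (hεδ : ε < δ) {κ : ℝ}
    (hκ : 0 < κ) :
    ∃ r₀ > 0, ∀ x : VV n, ‖x‖ < r₀ → ∀ g ∈ C, ∀ z : VV q, ‖z‖ ≤ ε →
      ‖fderiv ℝ (B g) (x, z) - st g‖ ≤ κ := by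
  have hK : IsCompact (C ×ˢ Metric.closedBall (0 : VV q) ε) :=
    hC.prod (isCompact_closedBall 0 ε)
  have hev : ∀ᶠ x in 𝓝 (0 : VV n), ∀ p ∈ C ×ˢ Metric.closedBall (0 : VV q) ε,
      ‖fderiv ℝ (B p.1) (x, p.2) - st p.1‖ ≤ κ := by
    refine hK.eventually_forall_of_forall_eventually fun p₀ hp₀ => ?_
    obtain ⟨g₀, z₀⟩ := p₀
    have hz₀ : ‖z₀‖ < δ := by
      have h := hp₀.2
      rw [mem_closedBall_zero_iff] at h
      exact h.trans_lt hεδ
    have hmem : ((0 : VV n), z₀) ∈ Metric.ball (0 : FF n q) δ := by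
      rw [mem_ball_zero_iff, Prod.norm_def, norm_zero]
      exact max_lt hB.pos hz₀
    have h4 : univ ×ˢ Metric.ball (0 : FF n q) δ ∈ 𝓝 (g₀, ((0 : VV n), z₀)) :=
      prod_mem_nhds univ_mem (Metric.isOpen_ball.mem_nhds hmem)
    have h5 := (hB.dcont.continuousAt h4).tendsto
    have h6 : Tendsto (fun p : VV n × SLn n × VV q => (p.2.1, ((p.1, p.2.2) : FF n q)))
        (𝓝 ((0 : VV n), (g₀, z₀))) (𝓝 (g₀, ((0 : VV n), z₀))) := by
      have hc : Continuous fun p : VV n × SLn n × VV q => (p.2.1, ((p.1, p.2.2) : FF n q)) := by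
        fun_prop
      exact hc.tendsto ((0 : VV n), (g₀, z₀))
    have h7 := h5.comp h6
    have h8 : Tendsto (fun p : VV n × SLn n × VV q => (st p.2.1 : FF n q →L[ℝ] FF n q))
        (𝓝 ((0 : VV n), (g₀, z₀))) (𝓝 (st g₀)) := by
      have hc : Continuous fun p : VV n × SLn n × VV q =>
          (st p.2.1 : FF n q →L[ℝ] FF n q) :=
        continuous_st.comp (continuous_fst.comp continuous_snd)
      exact hc.tendsto ((0 : VV n), (g₀, z₀))
    have h9 := (h7.sub h8).norm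
    have h10 : fderiv ℝ (B g₀) ((0 : VV n), z₀) = st g₀ := hB.deriv g₀ z₀ hz₀
    have h11 : ‖fderiv ℝ (B g₀) ((0 : VV n), z₀) - st g₀‖ < κ := by
      rw [h10, sub_self, norm_zero]; exact hκ
    filter_upwards [h9.eventually (gt_mem_nhds h11)] with p hp
    exact hp.le
  obtain ⟨r, hr, h⟩ := Metric.eventually_nhds_iff.1 hev
  refine ⟨r, hr, fun x hx g hg z hz => ?_⟩
  exact h (by rwa [dist_zero_right]) (g, z) ⟨hg, mem_closedBall_zero_iff.2 hz⟩

private theorem m3_mean {n q : ℕ} {B : SLn n → FF n q → FF n q} {δ : ℝ} (hB : LAct n q B δ)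
    (g : SLn n) {r κ : ℝ} (hr : 0 < r) (hrδ : r ≤ δ) (z : VV q) (hz : ‖z‖ < δ)
    (h : ∀ x : VV n, ‖x‖ < r → ‖fderiv ℝ (B g) (x, z) - st g‖ ≤ κ) (x : VV n) (hx : ‖x‖ < r) :
    ‖B g (x, z) - st g (x, z)‖ ≤ κ * ‖x‖ := by
  have hd : ∀ u ∈ Metric.ball (0 : VV n) r,
      HasFDerivWithinAt (fun u : VV n => B g (u, z) - st g (u, z))
        ((fderiv ℝ (B g) (u, z) - st g).comp (ContinuousLinearMap.inl ℝ (VV n) (VV q)))
        (Metric.ball 0 r) u := by
    intro u hu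
    have hmem : (u, z) ∈ Metric.ball (0 : FF n q) δ := by
      rw [mem_ball_zero_iff] at hu
      rw [mem_ball_zero_iff, Prod.norm_def]
      exact max_lt (hu.trans_le hrδ) hz
    have h1 : HasFDerivAt (B g) (fderiv ℝ (B g) (u, z)) (u, z) :=
      (((hB.smooth g).differentiableOn (by simp)).differentiableAt
        (Metric.isOpen_ball.mem_nhds hmem)).hasFDerivAt
    have h2 : HasFDerivAt (fun y : FF n q => B g y - st g y)
        (fderiv ℝ (B g) (u, z) - st g) (u, z) := h1.sub (st g).hasFDerivAt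
    have h3 : HasFDerivAt (fun u : VV n => ((u, z) : FF n q))
        (ContinuousLinearMap.inl ℝ (VV n) (VV q)) u := hasFDerivAt_prodMk_left u z
    exact (h2.comp u h3).hasFDerivWithinAt
  have hbd : ∀ u ∈ Metric.ball (0 : VV n) r,
      ‖(fderiv ℝ (B g) (u, z) - st g).comp (ContinuousLinearMap.inl ℝ (VV n) (VV q))‖ ≤ κ := by
    intro u hu
    rw [mem_ball_zero_iff] at hu
    have h1 := h u hu
    calc ‖(fderiv ℝ (B g) (u, z) - st g).comp (ContinuousLinearMap.inl ℝ (VV n) (VV q))‖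
        ≤ ‖fderiv ℝ (B g) (u, z) - st g‖ * ‖ContinuousLinearMap.inl ℝ (VV n) (VV q)‖ :=
          ContinuousLinearMap.opNorm_comp_le _ _
      _ ≤ ‖fderiv ℝ (B g) (u, z) - st g‖ * 1 :=
          mul_le_mul_of_nonneg_left (ContinuousLinearMap.norm_inl_le_one ℝ _ _) (norm_nonneg _)
      _ ≤ κ := by rw [mul_one]; exact h1
  have hmv := (convex_ball (0 : VV n) r).norm_image_sub_le_of_norm_hasFDerivWithin_le hd hbd
    (Metric.mem_ball_self hr) (mem_ball_zero_iff.2 hx)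
  have h0 : B g ((0 : VV n), z) - st g ((0 : VV n), z) = 0 := by
    rw [hB.fix g z hz, st_apply, map_zero, sub_self]
  rw [h0, sub_zero, sub_zero] at hmv
  exact hmv

theorem p_M3 : S_M3 := by
  intro n q B δ hB C hC ρ hρ
  obtain ⟨ε₁, hε₁, h₁⟩ := m3_first hB hC hρ
  have hδ : 0 < δ := hB.pos
  have hε : 0 < min ε₁ (δ / 2) := lt_min hε₁ (by linarith)
  have hεδ : min ε₁ (δ / 2) < δ := (min_le_right _ _).trans_lt (by linarith)
  refine ⟨min ε₁ (δ / 2), hε, hεδ.le, fun g hg y hy => ?_, fun κ hκ => ?_⟩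
  · exact h₁ y (hy.trans_le (min_le_left _ _)) g hg
  · obtain ⟨r, hr, h₂⟩ := m3_second hB hC hεδ hκ
    refine ⟨min r δ, lt_min hr hδ, fun g hg x z hx hz => ?_⟩
    refine m3_mean hB g (lt_min hr hδ) (min_le_right _ _) z (hz.trans hεδ) (fun u hu => ?_) x hx
    exact h₂ u (hu.trans_le (min_le_left _ _)) g hg z hz.le

end Pool.Agent.Lib.MP_4f3c81_gt.Inf
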