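import Pool.Agent.Lib.MP_4f3c81_gt.Inf.Stmts

/-!
# Step M4: the main dynamical statement
-/

open Filter Topology Set Matrix MeasureTheory
open scoped ContDiff

namespace Pool.Agent.Lib.MP_4f3c81_gt.Inf

private theorem m4_ax_norm {n q : ℕ} (o : Fin n) (p : ℝ × VV q) :
    ‖(ax o p : FF n q)‖ = ‖p‖ := by
  simp only [ax, Prod.norm_def]
  simp

private theorem m4_ax_o {n q : ℕ} (o : Fin n) (p : ℝ × VV q) :
    (ax o p : FF n q).1 o = p.1 := by
  simp [ax]

theorem p_M4 (hE1 : S_E1) (hL1 : S_L1) (hM1 : S_M1) (hM2 : S_M2) (hM3 : S_M3) : S_M4 := by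
  intro n q hn o B δ hB u w δ' hU c hc
  obtain ⟨hCC, hconj⟩ := hM2 n o c hc
  obtain ⟨δL, hδL, hδLδ, hLa, -, hLgood, -⟩ := hL1 n q hn o B δ hB
  obtain ⟨ρ1, hρ1, -, hexp⟩ := hM1 n q hn o B δ hB
  obtain ⟨εb, hεb, -, Hb, -⟩ := hM3 n q B δ hB {bb o} isCompact_singleton δ hB.pos
  set ρs := min (min ρ1 δ') (min δL εb) with hρs
  have hρspos : 0 < ρs := by
    simp only [hρs, lt_min_iff]
    exact ⟨⟨hρ1, hU.pos⟩, hδL, hεb⟩
  obtain ⟨εC, hεC, -, HCa, HCb⟩ := hM3 n q B δ hB (CC o c) hCC ρs hρspos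
  set εE := min (min εC εb) (min δL δ') with hεE
  have hεEpos : 0 < εE := by
    simp only [hεE, lt_min_iff]
    exact ⟨⟨hεC, hεb⟩, hδL, hU.pos⟩
  obtain ⟨ε, hε, μ, C, hμ0, hμ1, hC0, HE⟩ := hE1 ℝ (VV q) (T0 B o) δL hLgood εE hεEpos
  refine ⟨min ε δ', lt_min hε hU.pos, fun g hg p hp => ?_⟩
  have hpε : ‖p‖ < ε := lt_of_lt_of_le hp (min_le_left _ _)
  have hpδ' : ‖p‖ < δ' := lt_of_lt_of_le hp (min_le_right _ _)
  -- notation
  set b : SLn n := bb o with hb
  set P : ℕ → ℝ × VV q := fun N => (T0 B o)^[N] p with hP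
  set G : ℕ → SLn n := fun N => b ^ N * g * (b ^ N)⁻¹ with hG
  have hPn : ∀ N, ‖P N‖ < εE := fun N => (HE p hpε N).1
  have hPC : ∀ N, ‖P N‖ < εC := fun N =>
    (hPn N).trans_le ((min_le_left _ _).trans (min_le_left _ _))
  have hPb : ∀ N, ‖P N‖ < εb := fun N =>
    (hPn N).trans_le ((min_le_left _ _).trans (min_le_right _ _))
  have hPL : ∀ N, ‖P N‖ < δL := fun N =>
    (hPn N).trans_le ((min_le_right _ _).trans (min_le_left _ _))
  have hGC : ∀ N, G N ∈ CC o c := fun N => (hconj g hg N).1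
  have hGoo : ∀ N, (G N).1 o o = g.1 o o := fun N => (hconj g hg N).2
  have hGb : ∀ N, b * G N = G (N + 1) * b := by
    intro N
    simp only [hG]
    rw [pow_succ' b N]
    group
  have hPsucc : ∀ N, P (N + 1) = T0 B o (P N) := by
    intro N
    simp only [hP]
    exact Function.iterate_succ_apply' _ _ _
  set Y : ℕ → FF n q := fun N => B (G N) (ax o (P N)) with hY
  have hYn : ∀ N, ‖Y N‖ < ρs := fun N =>
    (HCa (G N) (hGC N) (ax o (P N)) (by rw [m4_ax_norm]; exact hPC N)).1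
  have hYsucc : ∀ N, B b (Y N) = Y (N + 1) := by
    intro N
    have h1 := (HCa (G N) (hGC N) (ax o (P N)) (by rw [m4_ax_norm]; exact hPC N)).2 b
    have h2 := (Hb b rfl (ax o (P N)) (by rw [m4_ax_norm]; exact hPb N)).2 (G (N + 1))
    have h3 := hLa (P N) (hPL N)
    simp only [hY]
    rw [h1, hGb N, ← h2, h3, ← hPsucc N]
  have hYρ1 : ∀ N, ‖Y N‖ < ρ1 := fun N =>
    (hYn N).trans_le ((min_le_left _ _).trans (min_le_left _ _))
  have hYδ' : ∀ N, ‖Y N‖ < δ' := fun N =>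
    (hYn N).trans_le ((min_le_left _ _).trans (min_le_right _ _))
  have hYL : ∀ N, ‖Y N‖ < δL := fun N =>
    (hYn N).trans_le ((min_le_right _ _).trans (min_le_left _ _))
  -- eta
  have heta_le : ∀ y : FF n q, ‖eta o y‖ ≤ 2 * ‖y‖ := by
    intro y
    have h1 : ‖y.1‖ ≤ ‖y‖ := by rw [Prod.norm_def]; exact le_max_left _ _
    have h2 : ‖(EuclideanSpace.single o (y.1 o) : VV n)‖ ≤ ‖y.1‖ := by
      have h3 : ‖y.1 o‖ ≤ ‖y.1‖ := PiLp.norm_apply_le _ o
      simpa using h3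
    calc ‖eta o y‖ ≤ ‖y.1‖ + ‖(EuclideanSpace.single o (y.1 o) : VV n)‖ := norm_sub_le _ _
      _ ≤ 2 * ‖y‖ := by linarith
  have hgrow : ∀ N, (3 / 2 : ℝ) ^ N * ‖eta o (Y 0)‖ ≤ ‖eta o (Y N)‖ := by
    intro N
    induction N with
    | zero => simp
    | succ N ih =>
      have h1 := hexp (Y N) (hYρ1 N)
      rw [hYsucc N] at h1
      calc (3 / 2 : ℝ) ^ (N + 1) * ‖eta o (Y 0)‖ = (3 / 2) * ((3 / 2) ^ N * ‖eta o (Y 0)‖) := by
            ring
        _ ≤ (3 / 2) * ‖eta o (Y N)‖ := by linarith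
        _ ≤ _ := h1
  have heta0 : eta o (Y 0) = 0 := by
    by_contra hne
    have hpos : 0 < ‖eta o (Y 0)‖ := norm_pos_iff.2 hne
    have ht : Tendsto (fun N : ℕ => (3 / 2 : ℝ) ^ N) atTop atTop :=
      tendsto_pow_atTop_atTop_of_one_lt (by norm_num)
    obtain ⟨N, hN⟩ := (ht.eventually (eventually_gt_atTop (2 * ρs / ‖eta o (Y 0)‖))).exists
    have h1 := hgrow N
    have h2 := heta_le (Y N)
    have h3 := hYn N
    rw [div_lt_iff₀ hpos] at hN
    linarith
  set p' : ℝ × VV q := ((Y 0).1 o, (Y 0).2) with hp'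
  have hax0 : Y 0 = ax o p' := by
    have h1 : (Y 0).1 = EuclideanSpace.single o ((Y 0).1 o) := sub_eq_zero.1 heta0
    simp only [ax, hp']
    exact Prod.ext h1 rfl
  have hp'n : ‖p'‖ = ‖Y 0‖ := by rw [hax0, m4_ax_norm]
  have hYax : ∀ N, Y N = ax o ((T0 B o)^[N] p') := by
    intro N
    induction N with
    | zero => simpa using hax0
    | succ N ih =>
      rw [← hYsucc N, ih, hLa]
      · rw [Function.iterate_succ_apply']
      · have h1 := hYL N
        rw [ih, m4_ax_norm] at h1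
        exact h1
  have hY0 : Y 0 = B g (ax o p) := by
    simp [hY, hG, hP]
  refine ⟨p', by rw [hp'n]; exact hYδ' 0, by rw [← hY0, hax0], ?_, ?_⟩
  all_goals
    have hclose : ∀ κ > 0, ∀ᶠ N in atTop,
        ‖((T0 B o)^[N] p').1 - g.1 o o * (P N).1‖ ≤ κ * ‖(P N).1‖ ∧
        ‖((T0 B o)^[N] p').2 - (P N).2‖ ≤ κ * ‖(P N).1‖ := by
      intro κ hκ
      obtain ⟨r0, hr0, Hr⟩ := HCb κ hκ
      have h1 : ∀ᶠ N in atTop, ‖(P N).1‖ < r0 := by
        have h2 : Tendsto (fun N => ‖(P N).1‖) atTop (𝓝 0) := by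
          have := (hU.r_lim p hpδ').norm
          simpa using this
        exact h2.eventually (gt_mem_nhds hr0)
      filter_upwards [h1] with N hN
      have h3 := Hr (G N) (hGC N) (EuclideanSpace.single o (P N).1) (P N).2
        (by simpa using hN)
        (lt_of_le_of_lt (by rw [Prod.norm_def]; exact le_max_right _ _) (hPC N))
      have h4 : B (G N) (EuclideanSpace.single o (P N).1, (P N).2) = Y N := rfl
      rw [h4, hYax N, st_apply] at h3
      have h5 : ‖(EuclideanSpace.single o (P N).1 : VV n)‖ = ‖(P N).1‖ := by simp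
      rw [h5] at h3
      constructor
      · refine le_trans ?_ h3
        have h6 : ‖((ax o ((T0 B o)^[N] p') : FF n q) -
            (TM (G N).1 (EuclideanSpace.single o (P N).1), (P N).2)).1‖ ≤
            ‖(ax o ((T0 B o)^[N] p') : FF n q) -
            (TM (G N).1 (EuclideanSpace.single o (P N).1), (P N).2)‖ := by
          rw [Prod.norm_def]; exact le_max_left _ _
        refine le_trans ?_ h6
        have h7 := PiLp.norm_apply_le ((ax o ((T0 B o)^[N] p') : FF n q) -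
            (TM (G N).1 (EuclideanSpace.single o (P N).1), (P N).2)).1 o
        refine le_trans (le_of_eq ?_) h7
        congr 1
        change _ = (ax o ((T0 B o)^[N] p') : FF n q).1 o -
          TM (G N).1 (EuclideanSpace.single o (P N).1) o
        rw [m4_ax_o, TM_single, hGoo]
      · refine le_trans ?_ h3
        rw [Prod.norm_def]
        exact le_max_right _ _
  · -- the first coordinate
    have hμpos : 0 < mu n := by unfold mu; positivity
    have hlim1 := hU.u_lim p' (by rw [hp'n]; exact hYδ' 0)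
    have hlim2 := hU.u_lim p hpδ'
    have hlim3 : Tendsto (fun N : ℕ => (mu n ^ N)⁻¹ * ((T0 B o)^[N] p').1 -
        g.1 o o * ((mu n ^ N)⁻¹ * ((T0 B o)^[N] p).1)) atTop (𝓝 0) := by
      rw [Metric.tendsto_atTop]
      intro κ hκ
      -- boundedness of the second sequence
      obtain ⟨K, hK⟩ := (hlim2.norm.bddAbove_range)
      have hK0 : 0 ≤ K := le_trans (norm_nonneg _) (hK ⟨0, rfl⟩)
      obtain ⟨N0, hN0⟩ := eventually_atTop.1 (hclose (κ / (2 * (K + 1))) (by positivity))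
      refine ⟨N0, fun N hN => ?_⟩
      rw [dist_zero_right]
      have h1 := (hN0 N hN).1
      have h2 : (mu n ^ N)⁻¹ * ((T0 B o)^[N] p').1 -
          g.1 o o * ((mu n ^ N)⁻¹ * ((T0 B o)^[N] p).1) =
          (mu n ^ N)⁻¹ * (((T0 B o)^[N] p').1 - g.1 o o * (P N).1) := by
        simp only [hP]; ring
      have h3 : ‖(mu n ^ N)⁻¹ * ((T0 B o)^[N] p).1‖ ≤ K := hK ⟨N, rfl⟩
      have h4 : 0 ≤ (mu n ^ N)⁻¹ := by positivity
      rw [h2, norm_mul, Real.norm_of_nonneg h4]
      rw [norm_mul, Real.norm_of_nonneg h4] at h3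
      calc (mu n ^ N)⁻¹ * ‖((T0 B o)^[N] p').1 - g.1 o o * (P N).1‖
          ≤ (mu n ^ N)⁻¹ * (κ / (2 * (K + 1)) * ‖(P N).1‖) :=
            mul_le_mul_of_nonneg_left h1 h4
        _ = κ / (2 * (K + 1)) * ((mu n ^ N)⁻¹ * ‖(P N).1‖) := by ring
        _ ≤ κ / (2 * (K + 1)) * K := mul_le_mul_of_nonneg_left h3 (by positivity)
        _ < κ := by
            rw [div_mul_eq_mul_div, div_lt_iff₀ (by positivity)]
            nlinarith
    have hlim4 := (hlim1.sub (hlim2.const_mul (g.1 o o)))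
    have := tendsto_nhds_unique hlim3 hlim4
    linarith
  · -- the second coordinate
    have hlim1 := hU.w_lim p' (by rw [hp'n]; exact hYδ' 0)
    have hlim2 := hU.w_lim p hpδ'
    have hlim3 : Tendsto (fun N : ℕ => ((T0 B o)^[N] p').2 - ((T0 B o)^[N] p).2) atTop
        (𝓝 0) := by
      have hr : Tendsto (fun N => ‖(P N).1‖) atTop (𝓝 0) := by
        have := (hU.r_lim p hpδ').norm
        simpa using this
      rw [tendsto_zero_iff_norm_tendsto_zero]
      refine squeeze_zero' (Eventually.of_forall fun _ => norm_nonneg _) ?_ hr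
      filter_upwards [hclose 1 one_pos] with N hN
      simpa using hN.2
    have := tendsto_nhds_unique hlim3 (hlim1.sub hlim2)
    exact (sub_eq_zero.1 this.symm)

end Pool.Agent.Lib.MP_4f3c81_gt.Inf
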