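import Pool.Agent.Lib.MP_4f3c81_gt.Inf.Stmts

/-!
# Step N1: linearisation of the local action
-/

open Filter Topology Set Matrix MeasureTheory
open scoped ContDiff

namespace Pool.Agent.Lib.MP_4f3c81_gt.Inf

private theorem n1_abs {q : ℕ} {X : Type} (f : ℝ × VV q → X)
    (hf : ∀ r z, f (-r, z) = f (r, z)) (r : ℝ) (z : VV q) : f (|r|, z) = f (r, z) := by
  rcases abs_cases r with ⟨h, _⟩ | ⟨h, _⟩
  · rw [h]
  · rw [h, hf]

private theorem n1_single {n : ℕ} (o : Fin n) (r : ℝ) :
    (EuclideanSpace.single o r : VV n) = r • EuclideanSpace.single o (1 : ℝ) := by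
  ext i
  by_cases h : i = o
  · subst h; simp
  · simp [h]

private theorem n1_TM_inv {n : ℕ} (k : SLn n) (x : VV n) : TM (k⁻¹).1 (TM k.1 x) = x := by
  have h : TM (k⁻¹).1 (TM k.1 x) = ((TM (k⁻¹).1).comp (TM k.1)) x := rfl
  rw [h, ← TM_mul, val_inv_mul, TM_one]
  rfl

private theorem n1_TM_mul {n : ℕ} (g k : SLn n) (x : VV n) :
    TM (g * k).1 x = TM g.1 (TM k.1 x) := by
  rw [val_mul, TM_mul]; rfl

theorem p_N1 (hF2 : S_F2) (hK1 : S_K1) (hK2 : S_K2) (hK3 : S_K3) (hL2 : S_L2) (hM2 : S_M2)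
    (hM3 : S_M3) (hM4 : S_M4) : S_N1 := by
  intro n q hn B δ hB
  set o : Fin n := ⟨0, by omega⟩ with ho
  obtain ⟨u, w, δ', hU⟩ := hL2 n q hn o B δ hB
  obtain ⟨hus, hud⟩ := hF2 (VV n) (VV q) ℝ u hU.u_smooth hU.u_even
  obtain ⟨hws, hwd⟩ := hF2 (VV n) (VV q) (VV q) w hU.w_smooth hU.w_even
  set Φ : FF n q → FF n q := fun p => (u (‖p.1‖, p.2) • p.1, w (‖p.1‖, p.2)) with hΦ
  have hw00 : w (0, (0 : VV q)) = 0 := hU.w_zero 0 (by simpa using hU.pos)
  have hu00 : u (0, (0 : VV q)) = 1 := hU.u_zero 0 (by simpa using hU.pos)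
  refine ⟨Φ, ?_, ?_, ?_, ?_⟩
  · exact (hus.smul contDiff_fst).prodMk hws
  · simp only [hΦ]
    simp [hw00]
  · -- the derivative
    have h1 : HasFDerivAt (fun p : FF n q => u (‖p.1‖, p.2) • p.1)
        (ContinuousLinearMap.fst ℝ (VV n) (VV q)) ((0 : VV n), (0 : VV q)) := by
      have h := (hud 0).smul (hasFDerivAt_fst (𝕜 := ℝ) (p := ((0 : VV n), (0 : VV q))))
      refine h.congr_fderiv ?_
      have h7 : u (‖((0 : VV n), (0 : VV q)).1‖, ((0 : VV n), (0 : VV q)).2) = 1 := by
        simpa using hu00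
      rw [h7]
      simp
    have h2 : HasFDerivAt (fun p : FF n q => w (‖p.1‖, p.2))
        (ContinuousLinearMap.snd ℝ (VV n) (VV q)) ((0 : VV n), (0 : VV q)) := by
      have h := hwd 0
      have h3 : fderiv ℝ (fun z : VV q => w (0, z)) 0 = ContinuousLinearMap.id ℝ (VV q) := by
        have h4 : (fun z : VV q => w (0, z)) =ᶠ[𝓝 0] fun z => z := by
          have : Metric.ball (0 : VV q) δ' ∈ 𝓝 (0 : VV q) := Metric.ball_mem_nhds _ hU.pos
          filter_upwards [this] with z hz
          exact hU.w_zero z (by simpa using hz)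
        rw [h4.fderiv_eq]
        exact fderiv_id'
      rw [h3] at h
      exact h
    have h5 := (h1.prodMk h2).fderiv
    have h6 : fderiv ℝ Φ 0 = (ContinuousLinearMap.fst ℝ (VV n) (VV q)).prod
        (ContinuousLinearMap.snd ℝ (VV n) (VV q)) := h5
    rw [h6]
    rfl
  · -- equivariance
    have hCC := (hM2 n o 2 (by norm_num)).1
    obtain ⟨ε4, hε4, H4⟩ := hM4 n q hn o B δ hB u w δ' hU 2 (by norm_num)
    obtain ⟨ε5, hε5, -, H5, -⟩ := hM3 n q B δ hB (KK n) (hK1 n) δ hB.pos
    obtain ⟨ε6, hε6, -, H6, -⟩ := hM3 n q B δ hB (CC o 2) hCC δ hB.pos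
    obtain ⟨hK3a, -, -⟩ := hK3 n
    set ε := min (min ε4 ε5) (min ε6 (min δ δ')) with hε
    have hεpos : 0 < ε := by
      simp only [hε, lt_min_iff]
      exact ⟨⟨hε4, hε5⟩, hε6, hB.pos, hU.pos⟩
    have hN1 : ∀ᶠ g : SLn n in 𝓝 1, ‖TM g.1 - ContinuousLinearMap.id ℝ (VV n)‖ < 1 / 2 := by
      have hc : Continuous fun g : SLn n => ‖TM g.1 - ContinuousLinearMap.id ℝ (VV n)‖ := by
        have h1 : Continuous fun g : SLn n => TM g.1 :=
          (TMc n).continuous.comp continuous_subtype_val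
        exact (h1.sub continuous_const).norm
      have h0 : ‖TM (1 : SLn n).1 - ContinuousLinearMap.id ℝ (VV n)‖ < 1 / 2 := by
        rw [val_one, TM_one]; simp
      exact hc.tendsto 1 |>.eventually (gt_mem_nhds h0)
    have hN2 : ∀ᶠ y : FF n q in 𝓝 0, ‖y‖ < ε := by
      have : Metric.ball (0 : FF n q) ε ∈ 𝓝 (0 : FF n q) := Metric.ball_mem_nhds _ hεpos
      filter_upwards [this] with y hy
      simpa using hy
    rw [nhds_prod_eq]
    filter_upwards [hN1.prod_mk hN2] with ⟨g, y⟩ ⟨hg, hy⟩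
    obtain ⟨x, z⟩ := y
    simp only at hg hy ⊢
    simp only [hε, lt_min_iff] at hy
    obtain ⟨⟨hy4, hy5⟩, hy6, hyδ, hyδ'⟩ := hy
    have hz : ‖z‖ ≤ ‖((x, z) : FF n q)‖ := by
      rw [Prod.norm_def]; exact le_max_right _ _
    by_cases hx : x = 0
    · subst hx
      rw [hB.fix g z (lt_of_le_of_lt hz hyδ)]
      have h1 : Φ ((0 : VV n), z) = (0, z) := by
        simp only [hΦ, norm_zero, smul_zero]
        rw [hU.w_zero z (lt_of_le_of_lt hz hyδ')]
      rw [h1, st_apply, map_zero]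
    · set e : VV n := EuclideanSpace.single o (1 : ℝ) with he
      have hen : ‖e‖ = 1 := by simp [he]
      have hxn : 0 < ‖x‖ := norm_pos_iff.2 hx
      set v0 : VV n := ‖x‖⁻¹ • x with hv0
      have hv0n : ‖v0‖ = 1 := by
        rw [hv0, norm_smul, norm_inv, norm_norm, inv_mul_cancel₀ hxn.ne']
      have hxv0 : ‖x‖ • v0 = x := by
        rw [hv0, smul_smul, mul_inv_cancel₀ hxn.ne', one_smul]
      obtain ⟨k0, hk0, hk0e⟩ := hK2 n (by omega) e v0 hen hv0n
      set v1 : VV n := TM g.1 v0 with hv1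
      have hgv : ∀ v : VV n, ‖TM g.1 v - v‖ ≤ 1 / 2 * ‖v‖ := by
        intro v
        have h1 : TM g.1 v - v = (TM g.1 - ContinuousLinearMap.id ℝ (VV n)) v := rfl
        rw [h1]
        exact ((TM g.1 - ContinuousLinearMap.id ℝ (VV n)).le_opNorm v).trans
          (mul_le_mul_of_nonneg_right hg.le (norm_nonneg v))
      have hv1low : 1 / 2 ≤ ‖v1‖ := by
        have h1 := hgv v0
        have h2 : ‖v0‖ ≤ ‖v1‖ + ‖TM g.1 v0 - v0‖ := by
          have : v0 = v1 - (TM g.1 v0 - v0) := by rw [hv1]; abel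
          calc ‖v0‖ = ‖v1 - (TM g.1 v0 - v0)‖ := by rw [← this]
            _ ≤ _ := norm_sub_le _ _
        rw [hv0n] at h1 h2
        linarith
      set ρ := ‖v1‖ with hρ
      have hρpos : 0 < ρ := by linarith
      have hv1n : ‖ρ⁻¹ • v1‖ = 1 := by
        rw [norm_smul, norm_inv, Real.norm_of_nonneg hρpos.le, ← hρ, inv_mul_cancel₀ hρpos.ne']
      obtain ⟨k, hk, hke⟩ := hK2 n (by omega) e (ρ⁻¹ • v1) hen hv1n
      set g2 : SLn n := k⁻¹ * g * k0 with hg2
      have hTg2 : ∀ v : VV n, TM g2.1 v = TM (k⁻¹).1 (TM g.1 (TM k0.1 v)) := by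
        intro v
        rw [hg2, n1_TM_mul, n1_TM_mul]
      have hg2e : TM g2.1 e = ρ • e := by
        rw [hTg2, hk0e]
        have h1 : TM g.1 v0 = ρ • TM k.1 e := by
          rw [hke, smul_smul, mul_inv_cancel₀ hρpos.ne', one_smul]
        rw [h1, map_smul, n1_TM_inv]
      have hg2n : ∀ v : VV n, ‖TM g2.1 v‖ ≤ 3 / 2 * ‖v‖ := by
        intro v
        rw [hTg2, hK3a k⁻¹ (inv_mem hk)]
        have h1 := hgv (TM k0.1 v)
        rw [hK3a k0 hk0] at h1
        have h2 : ‖TM g.1 (TM k0.1 v)‖ ≤ ‖TM g.1 (TM k0.1 v) - TM k0.1 v‖ + ‖TM k0.1 v‖ := by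
          have := norm_add_le (TM g.1 (TM k0.1 v) - TM k0.1 v) (TM k0.1 v)
          rwa [sub_add_cancel] at this
        rw [hK3a k0 hk0] at h2
        linarith
      have hentry : ∀ i j, g2.1 i j = TM g2.1 (EuclideanSpace.single j (1 : ℝ)) i := by
        intro i j
        rw [TM_single, mul_one]
      have hg2mem : g2 ∈ CC o (2 : ℝ) := by
        refine ⟨fun i j => ?_, fun i hi => ?_, ?_⟩
        · rw [hentry]
          have h1 := hg2n (EuclideanSpace.single j (1 : ℝ))
          have h2 : ‖(EuclideanSpace.single j (1 : ℝ) : VV n)‖ = 1 := by simp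
          rw [h2] at h1
          have h3 : ‖TM g2.1 (EuclideanSpace.single j (1 : ℝ)) i‖ ≤
              ‖TM g2.1 (EuclideanSpace.single j (1 : ℝ))‖ := PiLp.norm_apply_le _ i
          rw [Real.norm_eq_abs] at h3
          linarith
        · rw [hentry]
          have : TM g2.1 (EuclideanSpace.single o (1 : ℝ)) = ρ • e := hg2e
          rw [this, he]
          simp [hi]
        · rw [hentry]
          have : TM g2.1 (EuclideanSpace.single o (1 : ℝ)) = ρ • e := hg2e
          rw [this, he]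
          simp
          linarith
      have hg2oo : g2.1 o o = ρ := by
        rw [hentry]
        have : TM g2.1 (EuclideanSpace.single o (1 : ℝ)) = ρ • e := hg2e
        rw [this, he]
        simp
      -- the point on the axis
      set p : ℝ × VV q := (‖x‖, z) with hp
      have haxn : ‖(ax o p : FF n q)‖ = ‖((x, z) : FF n q)‖ := by
        simp only [ax, hp, Prod.norm_def]
        simp
      have hpn : ‖p‖ = ‖((x, z) : FF n q)‖ := by
        simp only [hp, Prod.norm_def]
        simp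
      have hst0 : st k0 (ax o p : FF n q) = (x, z) := by
        rw [ax, st_apply, hp]
        simp only
        rw [n1_single, map_smul, hk0e, hxv0]
      have hBk0 : B k0 (ax o p) = (x, z) := by
        rw [hB.kk k0 hk0 (ax o p) (by simpa [haxn] using hyδ), hst0]
      have e1 : B g (x, z) = B (g * k0) (ax o p) := by
        rw [← hBk0]
        exact (H5 k0 hk0 (ax o p) (by rw [haxn]; exact hy5)).2 g
      have e2 : g * k0 = k * g2 := by
        rw [hg2]; group
      obtain ⟨H6a, H6b⟩ := H6 g2 hg2mem (ax o p) (by rw [haxn]; exact hy6)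
      have e3 : B g (x, z) = B k (B g2 (ax o p)) := by
        rw [e1, e2, H6b]
      obtain ⟨p', hp'n, hp'1, hp'2, hp'3⟩ := H4 g2 hg2mem p (by rw [hpn]; exact hy4)
      have e4 : B g (x, z) = st k (ax o p') := by
        rw [e3, hB.kk k hk _ (by simpa using H6a), hp'1]
      rw [e4]
      have e5 : Φ (st k (ax o p')) =
          (TM k.1 (EuclideanSpace.single o (p'.1 * u p')), w p') := by
        simp only [hΦ, ax, st_apply]
        rw [hK3a k hk]
        have h1 : ‖(EuclideanSpace.single o p'.1 : VV n)‖ = |p'.1| := by simp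
        rw [h1, n1_abs u hU.u_even, n1_abs w hU.w_even, ← map_smul]
        congr 2
        rw [n1_single, n1_single o (p'.1 * u p'), smul_smul, mul_comm]
      rw [e5, hp'2, hp'3, hg2oo, st_apply']
      simp only [hΦ]
      apply Prod.ext
      · simp only
        rw [n1_single, map_smul]
        change _ • TM k.1 e = _
        rw [hke, smul_smul, map_smul]
        have h1 : TM g.1 x = ‖x‖ • v1 := by
          rw [hv1, ← map_smul, hxv0]
        rw [h1, smul_smul]
        congr 1
        simp only [hp]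
        field_simp
      · rfl

end Pool.Agent.Lib.MP_4f3c81_gt.Inf
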