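import Pool.Agent.Lib.MP_4f3c81_gt.Inf.Stmts

/-!
# Step N2
-/

open Filter Topology Set Matrix MeasureTheory
open scoped ContDiff

namespace Pool.Agent.Lib.MP_4f3c81_gt.Inf

theorem p_N2 (hC4 : S_C4) (hN1 : S_N1) : S_N2 := by
  intro n q hn A hA h0 hlin
  obtain ⟨φ, B, δ, hB, hφ, hφ0, hdφ, heq⟩ := hC4 n q hn A hA h0 hlin
  obtain ⟨Φ, hΦ, hΦ0, hdΦ, heq'⟩ := hN1 n q hn B δ hB
  refine ⟨Φ ∘ φ, hΦ.comp hφ, by simp [hφ0, hΦ0], ?_, ?_⟩
  · have h1 : HasFDerivAt φ (ContinuousLinearMap.id ℝ (FF n q)) 0 := by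
      rw [← hdφ]
      exact (hφ.differentiable (by simp) 0).hasFDerivAt
    have h2 : HasFDerivAt Φ (ContinuousLinearMap.id ℝ (FF n q)) (φ 0) := by
      rw [hφ0, ← hdΦ]
      exact (hΦ.differentiable (by simp) 0).hasFDerivAt
    have h3 := (h2.comp (0 : FF n q) h1).fderiv
    rw [h3]
    ext <;> rfl
  · have ht : Tendsto (fun p : SLn n × FF n q => (p.1, φ p.2)) (𝓝 ((1 : SLn n), (0 : FF n q)))
        (𝓝 ((1 : SLn n), (0 : FF n q))) := by
      have hc : Continuous fun p : SLn n × FF n q => (p.1, φ p.2) :=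
        continuous_fst.prodMk (hφ.continuous.comp continuous_snd)
      have := hc.tendsto ((1 : SLn n), (0 : FF n q))
      simpa [hφ0] using this
    filter_upwards [heq, ht.eventually heq'] with p h1 h2
    change Φ (φ (A p.1 p.2)) = st p.1 (Φ (φ p.2))
    rw [h1, h2]

end Pool.Agent.Lib.MP_4f3c81_gt.Inf
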