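import Pool.Agent.Lib.MP_4f3c81_gt.Inf.Stmts

open Filter Topology Set Matrix
open scoped ContDiff

namespace Pool.Agent.Lib.MP_4f3c81_gt.Inf

private theorem n4_diff {G E : Type} [Group G] [TopologicalSpace G] [NormedAddCommGroup E]
    [NormedSpace ℝ E] {A : G → E → E} (hA : SAct G E A) (g : G) (x : E) :
    DifferentiableAt ℝ (A g) x :=
  ((hA.smooth g).differentiable (by simp)).differentiableAt

/-- the linear part -/
private noncomputable def n4_R {G E : Type} [Group G] [TopologicalSpace G] [NormedAddCommGroup E]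
    [NormedSpace ℝ E] {A : G → E → E} (hA : SAct G E A) (hA0 : ∀ g, A g 0 = 0) :
    G →* (E →L[ℝ] E) where
  toFun g := fderiv ℝ (A g) 0
  map_one' := by
    have h1 : A 1 = id := funext hA.one
    rw [h1, fderiv_id]
    rfl
  map_mul' g h := by
    have h1 : A (g * h) = A g ∘ A h := funext (hA.mul g h)
    have h2 := fderiv_comp (𝕜 := ℝ) (f := A h) (g := A g) 0 (n4_diff hA _ _) (n4_diff hA _ _)
    rw [h1, h2, hA0]
    rfl

private theorem n4_invT_one {n : ℕ} : invT (1 : SLn n) = 1 := by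
  apply Subtype.ext
  change ((1 : SLn n)⁻¹.1)ᵀ = 1
  rw [inv_one]
  exact Matrix.transpose_one

private theorem n4_invT_mul {n : ℕ} (g h : SLn n) : invT (g * h) = invT g * invT h := by
  apply Subtype.ext
  change ((g * h)⁻¹.1)ᵀ = (g⁻¹.1)ᵀ * (h⁻¹.1)ᵀ
  rw [_root_.mul_inv_rev, val_mul, Matrix.transpose_mul]

private theorem n4_invT_inv {n : ℕ} (g : SLn n) : invT g⁻¹ = (invT g)⁻¹ := by
  rw [eq_inv_iff_mul_eq_one, ← n4_invT_mul, inv_mul_cancel, n4_invT_one]

private theorem n4_invT_invT {n : ℕ} (g : SLn n) : invT (invT g) = g := by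
  apply Subtype.ext
  have h1 : (invT g)⁻¹ = invT g⁻¹ := (n4_invT_inv g).symm
  change ((invT g)⁻¹.1)ᵀ = g.1
  rw [h1]
  change ((g⁻¹⁻¹.1)ᵀ)ᵀ = g.1
  rw [inv_inv, Matrix.transpose_transpose]

private theorem n4_continuous_invT {n : ℕ} : Continuous (invT : SLn n → SLn n) := by
  refine continuous_induced_rng.2 ?_
  have h1 : Continuous fun g : SLn n => (g⁻¹).1 := continuous_subtype_val.comp continuous_inv
  exact h1.matrix_transpose

private theorem n4_key (hN2 : S_N2) (n q : ℕ) (hn : 4 ≤ n)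
    (E : Type) [NormedAddCommGroup E] [NormedSpace ℝ E]
    (A : SLn n → E → E) (hA : SAct (SLn n) E A) (hA0 : ∀ g, A g 0 = 0)
    (e : E ≃L[ℝ] FF n q) (τ : SLn n → SLn n) (hτ1 : τ 1 = 1)
    (hτm : ∀ g h, τ (g * h) = τ g * τ h) (hτc : Continuous τ) (hτi : ∀ g, τ (τ g) = g)
    (hR : ∀ g y, e (fderiv ℝ (A g) 0 (e.symm y)) = st (τ g) y) :
    ∃ Ψ : E → E, ContDiff ℝ ∞ Ψ ∧ Ψ 0 = 0 ∧
      fderiv ℝ Ψ 0 = ContinuousLinearMap.id ℝ E ∧
      ∀ᶠ p in 𝓝 ((1 : SLn n), (0 : E)), Ψ (A p.1 p.2) = fderiv ℝ (A p.1) 0 (Ψ p.2) := by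
  set A' : SLn n → FF n q → FF n q := fun g y => e (A (τ g) (e.symm y)) with hA'
  have hS : SAct (SLn n) (FF n q) A' := by
    refine ⟨fun x => ?_, fun g h x => ?_, ?_, fun g => ?_⟩
    · simp only [hA', hτ1, hA.one, ContinuousLinearEquiv.apply_symm_apply]
    · simp only [hA', hτm, hA.mul, ContinuousLinearEquiv.symm_apply_apply]
    · have h1 : Continuous fun p : SLn n × FF n q => ((τ p.1, e.symm p.2) : SLn n × E) :=
        (hτc.comp continuous_fst).prodMk (e.symm.continuous.comp continuous_snd)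
      exact e.continuous.comp (hA.cont.comp h1)
    · exact e.contDiff.comp ((hA.smooth (τ g)).comp e.symm.contDiff)
  have hS0 : ∀ g, A' g 0 = 0 := by
    intro g
    simp only [hA', map_zero, hA0]
  have hSd : ∀ g, fderiv ℝ (A' g) 0 = st g := by
    intro g
    have h1 : HasFDerivAt (A (τ g)) (fderiv ℝ (A (τ g)) 0) (e.symm 0) := by
      rw [map_zero]
      exact (n4_diff hA _ _).hasFDerivAt
    have h2 : HasFDerivAt (A' g) ((e : E →L[ℝ] FF n q).comp
        ((fderiv ℝ (A (τ g)) 0).comp (e.symm : FF n q →L[ℝ] E))) 0 :=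
      e.hasFDerivAt.comp 0 (h1.comp 0 e.symm.hasFDerivAt)
    rw [h2.fderiv]
    refine ContinuousLinearMap.ext fun y => ?_
    have h3 := hR (τ g) y
    rw [hτi] at h3
    exact h3
  obtain ⟨Φ, hΦ, hΦ0, hΦd, hev⟩ := hN2 n q hn A' hS hS0 hSd
  refine ⟨fun x => e.symm (Φ (e x)), e.symm.contDiff.comp (hΦ.comp e.contDiff), ?_, ?_, ?_⟩
  · simp only [map_zero, hΦ0]
  · have h1 : HasFDerivAt Φ (ContinuousLinearMap.id ℝ (FF n q)) (e 0) := by
      rw [map_zero, ← hΦd]
      exact ((hΦ.differentiable (by simp)).differentiableAt).hasFDerivAt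
    have h2 : HasFDerivAt (fun x => e.symm (Φ (e x))) ((e.symm : FF n q →L[ℝ] E).comp
        ((ContinuousLinearMap.id ℝ (FF n q)).comp (e : E →L[ℝ] FF n q))) 0 :=
      e.symm.hasFDerivAt.comp 0 (h1.comp 0 e.hasFDerivAt)
    rw [h2.fderiv]
    refine ContinuousLinearMap.ext fun y => ?_
    exact e.symm_apply_apply y
  · have ht : Filter.Tendsto (fun p : SLn n × E => (τ p.1, e p.2)) (𝓝 ((1 : SLn n), (0 : E)))
        (𝓝 ((1 : SLn n), (0 : FF n q))) := by
      have h1 : Continuous fun p : SLn n × E => (τ p.1, e p.2) :=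
        (hτc.comp continuous_fst).prodMk (e.continuous.comp continuous_snd)
      have h2 := h1.continuousAt (x := ((1 : SLn n), (0 : E)))
      have h3 : (fun p : SLn n × E => (τ p.1, e p.2)) ((1 : SLn n), (0 : E)) =
          ((1 : SLn n), (0 : FF n q)) := by
        change (τ 1, e 0) = _
        rw [hτ1, map_zero]
      unfold ContinuousAt at h2
      rw [h3] at h2
      exact h2
    filter_upwards [ht.eventually hev] with p hp
    have h1 : A' (τ p.1) (e p.2) = e (A p.1 p.2) := by
      simp only [hA', hτi, ContinuousLinearEquiv.symm_apply_apply]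
    rw [h1] at hp
    change e.symm (Φ (e (A p.1 p.2))) = fderiv ℝ (A p.1) 0 (e.symm (Φ (e p.2)))
    rw [hp]
    apply e.injective
    rw [hR, e.apply_symm_apply]

/-- the diagonal map as an equivalence -/
private noncomputable def n4_D {n q : ℕ} (lam : Fin n → ℝ) (h : ∀ i, lam i ≠ 0) :
    FF n q ≃L[ℝ] FF n q :=
  ContinuousLinearEquiv.equivOfInverse
    ((dl lam).prodMap (ContinuousLinearMap.id ℝ (VV q)))
    ((dl lam⁻¹).prodMap (ContinuousLinearMap.id ℝ (VV q)))
    (by
      rintro ⟨x, z⟩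
      have h1 : dl lam⁻¹ (dl lam x) = x := by
        have h2 : ((TM (Matrix.diagonal lam⁻¹)).comp (TM (Matrix.diagonal lam))) x = x := by
          rw [← TM_mul, Matrix.diagonal_mul_diagonal]
          have h3 : (fun i => lam⁻¹ i * lam i) = fun _ => 1 := by
            funext i
            exact inv_mul_cancel₀ (h i)
          rw [h3, Matrix.diagonal_one, TM_one]
          rfl
        exact h2
      change (dl lam⁻¹ (dl lam x), z) = (x, z)
      rw [h1])
    (by
      rintro ⟨x, z⟩
      have h1 : dl lam (dl lam⁻¹ x) = x := by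
        have h2 : ((TM (Matrix.diagonal lam)).comp (TM (Matrix.diagonal lam⁻¹))) x = x := by
          rw [← TM_mul, Matrix.diagonal_mul_diagonal]
          have h3 : (fun i => lam i * lam⁻¹ i) = fun _ => 1 := by
            funext i
            exact mul_inv_cancel₀ (h i)
          rw [h3, Matrix.diagonal_one, TM_one]
          rfl
        exact h2
      change (dl lam (dl lam⁻¹ x), z) = (x, z)
      rw [h1])

private theorem n4_D_apply {n q : ℕ} (lam : Fin n → ℝ) (h : ∀ i, lam i ≠ 0) (y : FF n q) :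
    n4_D lam h y = (dl lam y.1, y.2) := rfl

theorem p_N4 (hA2 : S_A2) (hH7 : S_H7) (hR1 : S_R1) (hN2 : S_N2) (hN3 : S_N3) : S_N4 := by
  intro n m hn hnm hm E _ _ _ A hfin hA hA0
  set R : SLn n →* (E →L[ℝ] E) := n4_R hA hA0 with hR
  have hRa : ∀ g, R g = fderiv ℝ (A g) 0 := fun _ => rfl
  rcases hH7 n m hn hnm hm E R hfin with h | ⟨q, e, he⟩
  · obtain ⟨ρ, hρ, hfix⟩ := hN3 n E A hA hA0 fun g => by
      rw [← hRa, h g]
      rfl
    refine ⟨id, contDiff_id, rfl, fderiv_id, ?_⟩
    have h1 : ∀ᶠ p in 𝓝 ((1 : SLn n), (0 : E)), ‖p.2‖ < ρ := by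
      have h2 : Filter.Tendsto (fun p : SLn n × E => ‖p.2‖) (𝓝 ((1 : SLn n), (0 : E)))
          (𝓝 ‖(0 : E)‖) := (continuous_norm.comp continuous_snd).continuousAt
      rw [norm_zero] at h2
      exact h2.eventually (gt_mem_nhds hρ)
    filter_upwards [h1] with p hp
    rw [← hRa, h p.1]
    exact hfix p.2 hp p.1
  · have hcR : Continuous fun g => R g := by
      have h1 := hA2 (SLn n) E A hA
      exact h1.comp (continuous_id.prodMk continuous_const)
    set R' : SLn n →* (FF n q →L[ℝ] FF n q) :=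
      { toFun := fun g => (e : E →L[ℝ] FF n q).comp ((R g).comp (e.symm : FF n q →L[ℝ] E))
        map_one' := by
          rw [map_one]
          refine ContinuousLinearMap.ext fun y => ?_
          exact e.apply_symm_apply y
        map_mul' := by
          intro g h
          rw [map_mul]
          refine ContinuousLinearMap.ext fun y => ?_
          change e (R g (R h (e.symm y))) = e (R g (e.symm (e (R h (e.symm y)))))
          rw [e.symm_apply_apply] } with hR'
    have hR'a : ∀ g y, R' g y = e (R g (e.symm y)) := fun _ _ => rfl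
    have hcR' : Continuous R' := by
      have h1 : Continuous fun g =>
          (e : E →L[ℝ] FF n q).comp ((R g).comp (e.symm : FF n q →L[ℝ] E)) :=
        continuous_const.clm_comp (hcR.clm_comp continuous_const)
      exact h1
    have hs : ∀ i j, R' (sg i j) = st (sg i j) := by
      intro i j
      refine ContinuousLinearMap.ext fun y => ?_
      rw [hR'a, he, e.apply_symm_apply]
    obtain ⟨lam, hlam, h | h⟩ := hR1 n q hn R' hcR' hs
    · refine n4_key hN2 n q hn E A hA hA0 (e.trans (n4_D lam hlam).symm) id rfl (fun _ _ => rfl)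
        continuous_id (fun _ => rfl) fun g y => ?_
      have h1 := h g y.1 y.2
      rw [hR'a] at h1
      have h2 : ((e.trans (n4_D lam hlam).symm).symm) y = e.symm (dl lam y.1, y.2) := rfl
      rw [h2, ← hRa]
      change (n4_D lam hlam).symm (e (R g (e.symm (dl lam y.1, y.2)))) = _
      rw [h1, ContinuousLinearEquiv.symm_apply_eq]
      rfl
    · refine n4_key hN2 n q hn E A hA hA0 (e.trans (n4_D lam hlam).symm) invT n4_invT_one
        n4_invT_mul n4_continuous_invT n4_invT_invT fun g y => ?_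
      have h1 := h g y.1 y.2
      rw [hR'a] at h1
      have h2 : ((e.trans (n4_D lam hlam).symm).symm) y = e.symm (dl lam y.1, y.2) := rfl
      rw [h2, ← hRa]
      change (n4_D lam hlam).symm (e (R g (e.symm (dl lam y.1, y.2)))) = _
      rw [h1, ContinuousLinearEquiv.symm_apply_eq]
      rfl

end Pool.Agent.Lib.MP_4f3c81_gt.Inf
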