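import Pool.Agent.Lib.MP_4f3c81_gt.Inf.Stmts

open Filter Topology Set Matrix
open scoped ContDiff

namespace Pool.Agent.Lib.MP_4f3c81_gt.Inf

theorem p_N5 : S_N5 := by
  intro n E _ _ _ A hA hA0 ⟨Ψ, hΨ, hΨ0, hΨ1, hev⟩
  haveI : CompleteSpace E := FiniteDimensional.complete ℝ E
  have hd0 : HasFDerivAt Ψ ((ContinuousLinearEquiv.refl ℝ E : E ≃L[ℝ] E) : E →L[ℝ] E) 0 := by
    have h1 := (hΨ.differentiable (by simp)).differentiableAt (x := (0 : E)) |>.hasFDerivAt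
    rw [hΨ1] at h1
    exact h1
  have hn : (∞ : WithTop ℕ∞) ≠ 0 := by simp
  set e : OpenPartialHomeomorph E E := hΨ.contDiffAt.toOpenPartialHomeomorph Ψ hd0 hn with he
  have hecoe : (e : E → E) = Ψ := hΨ.contDiffAt.toOpenPartialHomeomorph_coe hd0 hn
  have he0 : (0 : E) ∈ e.source := hΨ.contDiffAt.mem_toOpenPartialHomeomorph_source hd0 hn
  set O : Set E := {x | fderiv ℝ Ψ x ∈ range ((↑) : (E ≃L[ℝ] E) → E →L[ℝ] E)} with hO
  have hOo : IsOpen O :=
    (ContinuousLinearEquiv.isOpen (𝕜 := ℝ) (E := E) (F := E)).preimage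
      (hΨ.continuous_fderiv (by simp))
  have hO0 : (0 : E) ∈ O := by
    refine ⟨ContinuousLinearEquiv.refl ℝ E, ?_⟩
    rw [hΨ1]
    rfl
  set φ : OpenPartialHomeomorph E E := e.restrOpen O hOo with hφ
  have hφcoe : (φ : E → E) = Ψ := by
    rw [← hecoe]
    rfl
  set U : Set E := e.source ∩ O with hU
  have hφs : φ.source = U := by rw [hφ, e.restrOpen_source O hOo]
  have hUo : IsOpen U := e.open_source.inter hOo
  have hU0 : (0 : E) ∈ U := ⟨he0, hO0⟩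
  have hcont : ∀ᶠ p in 𝓝 ((1 : SLn n), (0 : E)), A p.1 p.2 ∈ U := by
    have h1 : Filter.Tendsto (fun q : SLn n × E => A q.1 q.2) (𝓝 ((1 : SLn n), (0 : E)))
        (𝓝 (A 1 0)) := hA.cont.continuousAt (x := ((1 : SLn n), (0 : E)))
    rw [hA0] at h1
    exact h1 (hUo.mem_nhds hU0)
  obtain ⟨N, hN, V₀, hV₀, hNV⟩ := mem_nhds_prod_iff.1 (hev.and hcont)
  refine ⟨U, interior V₀ ∩ U, N, φ, hUo, isOpen_interior.inter hUo,
    ⟨mem_interior_iff_mem_nhds.2 hV₀, hU0⟩, inter_subset_right, hN, ?_, hφs, ?_, ?_, ?_, ?_⟩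
  · intro g hg x hx
    exact (hNV (mk_mem_prod hg (interior_subset hx.1))).2
  · rw [hφcoe]
    exact hΨ.contDiffOn
  · intro y hy
    have h1 : φ.symm y ∈ φ.source := φ.map_target hy
    rw [hφs] at h1
    obtain ⟨f, hf⟩ := h1.2
    refine (φ.contDiffAt_symm (f₀' := f) hy ?_ ?_).contDiffWithinAt
    · rw [hφcoe, hf]
      exact ((hΨ.differentiable (by simp)).differentiableAt).hasFDerivAt
    · rw [hφcoe]
      exact hΨ.contDiffAt
  · rw [hφcoe, hΨ0]
  · intro g hg x hx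
    rw [hφcoe]
    exact (hNV (mk_mem_prod hg (interior_subset hx.1))).1

end Pool.Agent.Lib.MP_4f3c81_gt.Inf
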