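import Pool.Agent.Lib.MP_4f3c81_gt.Inf.Stmts

/-!
# The shape of the transvections
-/

open Filter Topology Set Matrix
open scoped ContDiff

namespace Pool.Agent.Lib.MP_4f3c81_gt.Inf

variable {n q : ℕ}

private theorem r0_sgn_out {a b m : Fin n} (h1 : m ≠ a) (h2 : m ≠ b) : sgn a b m = 1 := by
  simp [sgn, h1, h2]

private theorem r0_sgn_left {a b : Fin n} (h : a ≠ b) : sgn a b a = -1 := by
  simp [sgn, h]

private theorem r0_sgn_right {a b : Fin n} (h : a ≠ b) : sgn a b b = -1 := by
  simp [sgn, h.symm]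

/-- the basis vectors of the first factor -/
private noncomputable def r0_e (q : ℕ) {n : ℕ} (k : Fin n) : FF n q :=
  (EuclideanSpace.single k (1 : ℝ), 0)

private theorem r0_e_same (k : Fin n) : (r0_e q k).1 k = 1 := by
  simp [r0_e]

private theorem r0_e_ne {k m : Fin n} (h : m ≠ k) : (r0_e q k).1 m = 0 := by
  simp [r0_e, h]

private theorem r0_e_snd (k : Fin n) : (r0_e q k).2 = 0 := rfl

private theorem r0_st_e (a b k : Fin n) : st (sg a b) (r0_e q k) = sgn a b k • r0_e q k := by
  rw [st_apply']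
  refine Prod.ext ?_ ?_
  · ext m
    change TM (sg a b).1 (r0_e q k).1 m = sgn a b k * (r0_e q k).1 m
    rw [TM_sg_apply]
    by_cases h : m = k
    · rw [h]
    · rw [r0_e_ne h, mul_zero, mul_zero]
  · change (0 : VV q) = sgn a b k • (0 : VV q)
    rw [smul_zero]

private theorem r0_mul (R : SLn n →* (FF n q →L[ℝ] FF n q)) (g h : SLn n) (y : FF n q) :
    R (g * h) y = R g (R h y) := by
  rw [map_mul]; rfl

private theorem r0_one (R : SLn n →* (FF n q →L[ℝ] FF n q)) (y : FF n q) :
    R 1 y = y := by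
  rw [map_one]; rfl

private theorem r0_inv (R : SLn n →* (FF n q →L[ℝ] FF n q)) (g : SLn n) (y : FF n q) :
    R g⁻¹ (R g y) = y := by
  rw [← r0_mul, inv_mul_cancel, r0_one]

private theorem r0_inv' (R : SLn n →* (FF n q →L[ℝ] FF n q)) (g : SLn n) (y : FF n q) :
    R g (R g⁻¹ y) = y := by
  rw [← r0_mul, mul_inv_cancel, r0_one]

private theorem r0_int (R : SLn n →* (FF n q →L[ℝ] FF n q))
    (hs : ∀ i j, R (sg i j) = st (sg i j)) (g : SLn n) (a b a' b' : Fin n)
    (hg : g * sg a b = sg a' b' * g) (y : FF n q) :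
    st (sg a' b') (R g y) = R g (st (sg a b) y) := by
  rw [← hs a' b', ← r0_mul, ← hg, r0_mul, hs a b]

private theorem r0_eig (R : SLn n →* (FF n q →L[ℝ] FF n q))
    (hs : ∀ i j, R (sg i j) = st (sg i j)) (g : SLn n) (a b a' b' : Fin n)
    (hg : g * sg a b = sg a' b' * g) (k : Fin n) :
    (∀ m, sgn a' b' m * (R g (r0_e q k)).1 m = sgn a b k * (R g (r0_e q k)).1 m) ∧
      (R g (r0_e q k)).2 = sgn a b k • (R g (r0_e q k)).2 := by
  have h1 := r0_int R hs g a b a' b' hg (r0_e q k)
  rw [r0_st_e, map_smul] at h1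
  constructor
  · intro m
    have h2 := congrArg (fun y : FF n q => y.1 m) h1
    rw [st_apply'] at h2
    change TM (sg a' b').1 (R g (r0_e q k)).1 m = sgn a b k * (R g (r0_e q k)).1 m at h2
    rw [TM_sg_apply] at h2
    exact h2
  · exact congrArg Prod.snd h1

/-- vanishing of a coordinate -/
private theorem r0_van (R : SLn n →* (FF n q →L[ℝ] FF n q))
    (hs : ∀ i j, R (sg i j) = st (sg i j)) (g : SLn n) (a b a' b' : Fin n)
    (hg : g * sg a b = sg a' b' * g) (k m : Fin n) (h : sgn a' b' m = - sgn a b k) :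
    (R g (r0_e q k)).1 m = 0 := by
  have h1 := (r0_eig R hs g a b a' b' hg k).1 m
  rw [h] at h1
  have h2 := sgn_mul_self a b k
  have h3 : sgn a b k * (sgn a b k * (R g (r0_e q k)).1 m) = 0 := by
    have : sgn a b k * (R g (r0_e q k)).1 m = 0 := by linarith
    rw [this, mul_zero]
  rw [← mul_assoc, h2, one_mul] at h3
  exact h3

private theorem r0_van2 (R : SLn n →* (FF n q →L[ℝ] FF n q))
    (hs : ∀ i j, R (sg i j) = st (sg i j)) (g : SLn n) (a b a' b' : Fin n)
    (hg : g * sg a b = sg a' b' * g) (k : Fin n) (h : sgn a b k = -1) :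
    (R g (r0_e q k)).2 = 0 := by
  have h1 := (r0_eig R hs g a b a' b' hg k).2
  rw [h, neg_smul, one_smul] at h1
  ext m
  have h2 : (R g (r0_e q k)).2 m = - (R g (r0_e q k)).2 m := congrArg (fun v : VV q => v m) h1
  change _ = (0 : ℝ)
  linarith

private theorem r0_dec (x : VV n) (z : VV q) :
    ((x, z) : FF n q) = ∑ k, x k • r0_e q k + (0, z) := by
  refine Prod.ext ?_ ?_
  · rw [Prod.fst_add, Prod.fst_sum]
    ext m
    simp only [r0_e, Prod.smul_fst, add_zero]
    rw [WithLp.ofLp_sum, Finset.sum_apply, Finset.sum_eq_single m]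
    · simp
    · intro b _ hb
      simp [hb.symm]
    · simp
  · rw [Prod.snd_add, Prod.snd_sum]
    simp [r0_e]

/-- a vector with one component -/
private theorem r0_single (y : FF n q) (k : Fin n) (h1 : ∀ m, m ≠ k → y.1 m = 0)
    (h2 : y.2 = 0) : y = y.1 k • r0_e q k := by
  refine Prod.ext ?_ ?_
  · ext m
    change y.1 m = y.1 k * (r0_e q k).1 m
    by_cases h : m = k
    · rw [h, r0_e_same, mul_one]
    · rw [h1 m h, r0_e_ne h, mul_zero]
  · change y.2 = y.1 k • (0 : VV q)
    rw [h2, smul_zero]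

/-- a vector with two components -/
private theorem r0_double (y : FF n q) (i j : Fin n) (hij : i ≠ j)
    (h1 : ∀ m, m ≠ i → m ≠ j → y.1 m = 0)
    (h2 : y.2 = 0) : y = y.1 i • r0_e q i + y.1 j • r0_e q j := by
  refine Prod.ext ?_ ?_
  · ext m
    change y.1 m = y.1 i * (r0_e q i).1 m + y.1 j * (r0_e q j).1 m
    by_cases h : m = i
    · rw [h, r0_e_same, mul_one, r0_e_ne hij, mul_zero, add_zero]
    · by_cases h' : m = j
      · rw [h', r0_e_same, mul_one, r0_e_ne hij.symm, mul_zero, zero_add]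
      · rw [h1 m h h', r0_e_ne h, r0_e_ne h', mul_zero, mul_zero, add_zero]
  · change y.2 = y.1 i • (0 : VV q) + y.1 j • (0 : VV q)
    rw [h2, smul_zero, smul_zero, add_zero]

private theorem r0_tv_comm (i j : Fin n) (h : i ≠ j) (c : ℝ) (a b : Fin n)
    (hab : sgn a b i * sgn a b j = 1) : tv i j h c * sg a b = sg a b * tv i j h c := by
  have h1 := sg_conj_tv a b i j h c
  rw [hab, one_mul, mul_inv_eq_iff_eq_mul] at h1
  exact h1.symm

private theorem r0_tv_comm_ij (i j : Fin n) (h : i ≠ j) (c : ℝ) :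
    tv i j h c * sg i j = sg i j * tv i j h c := by
  refine r0_tv_comm i j h c i j ?_
  rw [r0_sgn_left h, r0_sgn_right h]; norm_num

private theorem r0_tv_comm_out (i j : Fin n) (h : i ≠ j) (c : ℝ) (a b : Fin n)
    (h1 : a ≠ i) (h2 : a ≠ j) (h3 : b ≠ i) (h4 : b ≠ j) :
    tv i j h c * sg a b = sg a b * tv i j h c := by
  refine r0_tv_comm i j h c a b ?_
  rw [r0_sgn_out h1.symm h3.symm, r0_sgn_out h2.symm h4.symm]; norm_num

/-- four different indices -/
private theorem r0_other (hn : 4 ≤ n) (i j k : Fin n) : ∃ l : Fin n, l ≠ i ∧ l ≠ j ∧ l ≠ k := by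
  have h1 : ({i, j, k} : Finset (Fin n)).card < (Finset.univ : Finset (Fin n)).card := by
    have h2 := Finset.card_le_three (a := i) (b := j) (c := k)
    rw [Finset.card_univ, Fintype.card_fin]
    omega
  obtain ⟨l, -, hl⟩ := Finset.exists_mem_notMem_of_card_lt_card h1
  refine ⟨l, ?_, ?_, ?_⟩
  · rintro rfl; exact hl (by simp)
  · rintro rfl; exact hl (by simp)
  · rintro rfl; exact hl (by simp)

/-- step 1: the transvections fix the second factor -/
private theorem r0_step1 (hn : 4 ≤ n) (R : SLn n →* (FF n q →L[ℝ] FF n q))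
    (hs : ∀ i j, R (sg i j) = st (sg i j)) (i j : Fin n) (h : i ≠ j) (c : ℝ) (z : VV q) :
    R (tv i j h c) (0, z) = (0, z) := by
  have hst : ∀ a b (z : VV q), st (sg a b) ((0, z) : FF n q) = (0, z) := by
    intro a b z
    rw [st_apply, map_zero]
  have hcoord : ∀ c z, (R (tv i j h c) (0, z)).1 = 0 := by
    intro c z
    have key : ∀ a b m, (tv i j h c * sg a b = sg a b * tv i j h c) → sgn a b m = -1 →
        (R (tv i j h c) (0, z)).1 m = 0 := by
      intro a b m hg hm
      have h1 := r0_int R hs (tv i j h c) a b a b hg (0, z)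
      rw [hst] at h1
      have h2 := congrArg (fun y : FF n q => y.1 m) h1
      rw [st_apply'] at h2
      change TM (sg a b).1 (R (tv i j h c) (0, z)).1 m = (R (tv i j h c) (0, z)).1 m at h2
      rw [TM_sg_apply, hm] at h2
      linarith
    ext m
    change _ = (0 : ℝ)
    by_cases hmi : m = i
    · subst hmi
      exact key _ _ _ (r0_tv_comm_ij m j h c) (r0_sgn_left h)
    · by_cases hmj : m = j
      · subst hmj
        exact key _ _ _ (r0_tv_comm_ij i m h c) (r0_sgn_right h)
      · obtain ⟨l, hl1, hl2, hl3⟩ := r0_other hn i j m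
        exact key _ _ _ (r0_tv_comm_out i j h c m l hmi hmj hl1 hl2) (r0_sgn_left hl3.symm)
  -- the sign
  obtain ⟨k, hk1, hk2, -⟩ := r0_other hn i j i
  have hsign : ∀ c, R (tv i j h (-c)) (0, z) = R (tv i j h c) (0, z) := by
    intro c
    have h1 := sg_conj_tv i k i j h c
    rw [r0_sgn_left hk1.symm, r0_sgn_out h.symm hk2.symm, mul_one, neg_one_mul,
      mul_inv_eq_iff_eq_mul] at h1
    have h2 : R (sg i k * tv i j h c) (0, z) = R (tv i j h (-c) * sg i k) (0, z) := by rw [h1]
    rw [r0_mul, r0_mul, hs, hst] at h2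
    rw [← h2]
    have h3 : R (tv i j h c) (0, z) = (0, (R (tv i j h c) (0, z)).2) :=
      Prod.ext (hcoord c z) rfl
    rw [h3, hst]
  have h5 : R (tv i j h c) (0, z) = R (tv i j h (c / 2)) (R (tv i j h (c / 2)) (0, z)) := by
    rw [← r0_mul, ← tv_add, add_halves]
  have h6 : R (tv i j h (c / 2)) (0, z) = R (tv i j h (c / 2))⁻¹ (0, z) := by
    rw [← tv_neg, hsign]
  rw [h5, h6, r0_inv']

private theorem r0_e_ne_zero (k : Fin n) : r0_e q k ≠ 0 := by
  intro h
  have h1 : (r0_e q k).1 k = 0 := by rw [h]; rfl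
  rw [r0_e_same] at h1
  exact one_ne_zero h1

private theorem r0_smul_fst (a : ℝ) (y : FF n q) (k : Fin n) : (a • y).1 k = a * y.1 k := rfl

private theorem r0_add_fst (x y : FF n q) (k : Fin n) : (x + y).1 k = x.1 k + y.1 k := rfl

/-- the diagonal elements fix the vectors outside of the plane -/
private theorem r0_dg_out (R : SLn n →* (FF n q →L[ℝ] FF n q))
    (hs : ∀ i j, R (sg i j) = st (sg i j)) (i j : Fin n) (h : i ≠ j) (k : Fin n)
    (hk1 : k ≠ i) (hk2 : k ≠ j) (t : ℝ) (ht : 0 < t) :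
    R (dg i j h t ht.ne') (r0_e q k) = r0_e q k := by
  have ha : ∀ (t : ℝ) (ht : t ≠ 0),
      R (dg i j h t ht) (r0_e q k) = (R (dg i j h t ht) (r0_e q k)).1 k • r0_e q k := by
    intro t ht
    refine r0_single _ k ?_ ?_
    · intro m hm
      by_cases hmi : m = i
      · refine r0_van R hs _ i j i j (sg_mul_dg i j i j h t ht).symm k m ?_
        rw [hmi, r0_sgn_left h, r0_sgn_out hk1 hk2]
      · by_cases hmj : m = j
        · refine r0_van R hs _ i j i j (sg_mul_dg i j i j h t ht).symm k m ?_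
          rw [hmj, r0_sgn_right h, r0_sgn_out hk1 hk2]
        · refine r0_van R hs _ k i k i (sg_mul_dg k i i j h t ht).symm k m ?_
          rw [r0_sgn_out hm hmi, r0_sgn_left hk1, neg_neg]
    · exact r0_van2 R hs _ k i k i (sg_mul_dg k i i j h t ht).symm k (r0_sgn_left hk1)
  have hw : R (wy i j h) (r0_e q k) = (R (wy i j h) (r0_e q k)).1 k • r0_e q k := by
    have hg1 : wy i j h * sg i j = sg j i * wy i j h := by
      rw [← mul_inv_eq_iff_eq_mul, wy_conj_sg, Equiv.swap_apply_left, Equiv.swap_apply_right]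
    have hg2 : wy i j h * sg k i = sg k j * wy i j h := by
      rw [← mul_inv_eq_iff_eq_mul, wy_conj_sg, Equiv.swap_apply_left,
        Equiv.swap_apply_of_ne_of_ne hk1 hk2]
    refine r0_single _ k ?_ ?_
    · intro m hm
      by_cases hmi : m = i
      · refine r0_van R hs _ i j j i hg1 k m ?_
        rw [hmi, r0_sgn_right h.symm, r0_sgn_out hk1 hk2]
      · by_cases hmj : m = j
        · refine r0_van R hs _ i j j i hg1 k m ?_
          rw [hmj, r0_sgn_left h.symm, r0_sgn_out hk1 hk2]
        · refine r0_van R hs _ k i k j hg2 k m ?_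
          rw [r0_sgn_out hm hmj, r0_sgn_left hk1, neg_neg]
    · exact r0_van2 R hs _ k i k j hg2 k (r0_sgn_left hk1)
  set d := (R (wy i j h) (r0_e q k)).1 k with hd
  have hd0 : d ≠ 0 := by
    intro h0
    rw [h0, zero_smul] at hw
    have h1 := r0_inv R (wy i j h) (r0_e q k)
    rw [hw, map_zero] at h1
    exact r0_e_ne_zero k h1.symm
  have hsq : ∀ (t : ℝ) (ht : t ≠ 0),
      (R (dg i j h t ht) (r0_e q k)).1 k * (R (dg i j h t ht) (r0_e q k)).1 k = 1 := by
    intro t ht
    have h1 : (R (dg i j h t ht) (r0_e q k)).1 k =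
        (R (dg i j h t⁻¹ (inv_ne_zero ht)) (r0_e q k)).1 k := by
      have h2 := wy_conj_dg i j h t ht
      rw [mul_inv_eq_iff_eq_mul] at h2
      have h3 : R (wy i j h * dg i j h t ht) (r0_e q k) =
          R (dg i j h t⁻¹ (inv_ne_zero ht) * wy i j h) (r0_e q k) := by rw [h2]
      rw [r0_mul, r0_mul, ha t ht, hw, map_smul, map_smul, hw] at h3
      have h4 := congrArg (fun y : FF n q => y.1 k) h3
      simp only [r0_smul_fst, r0_e_same, mul_one] at h4
      rw [mul_comm] at h4
      exact mul_left_cancel₀ hd0 h4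
    have h5 : R (dg i j h t ht * dg i j h t⁻¹ (inv_ne_zero ht)) (r0_e q k) = r0_e q k := by
      rw [← dg_inv i j h t ht, mul_inv_cancel, r0_one]
    rw [r0_mul, ha t⁻¹ (inv_ne_zero ht), map_smul] at h5
    have h6 := congrArg (fun y : FF n q => y.1 k) h5
    simp only [r0_smul_fst, r0_e_same] at h6
    rw [← h1] at h6
    exact h6
  have hs0 : Real.sqrt t ≠ 0 := (Real.sqrt_pos.2 ht).ne'
  have h7 : dg i j h t ht.ne' = dg i j h (Real.sqrt t) hs0 * dg i j h (Real.sqrt t) hs0 := by
    rw [← dg_mul]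
    congr 1
    exact (Real.mul_self_sqrt ht.le).symm
  have h8 := ha _ hs0
  have h9 := hsq _ hs0
  generalize (R (dg i j h (Real.sqrt t) hs0) (r0_e q k)).1 k = c at h8 h9
  rw [h7, r0_mul, h8, map_smul, h8, smul_smul, h9, one_smul]

private theorem r0_dg_fix (R : SLn n →* (FF n q →L[ℝ] FF n q))
    (hs : ∀ i j, R (sg i j) = st (sg i j)) (i j : Fin n) (h : i ≠ j) (t : ℝ) (ht : 0 < t)
    (y : FF n q) (h1 : y.1 i = 0) (h2 : y.1 j = 0) (h3 : y.2 = 0) :
    R (dg i j h t ht.ne') y = y := by
  have hy : y = ∑ k, y.1 k • r0_e q k := by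
    have h4 := r0_dec y.1 y.2
    rw [h3] at h4
    rw [← h3] at h4
    calc y = (y.1, y.2) := rfl
      _ = ∑ k, y.1 k • r0_e q k + (0, y.2) := h4
      _ = ∑ k, y.1 k • r0_e q k := by
        rw [h3]
        exact add_zero _
  conv_lhs => rw [hy]
  conv_rhs => rw [hy]
  rw [map_sum]
  refine Finset.sum_congr rfl fun k _ => ?_
  rw [map_smul]
  by_cases hki : k = i
  · rw [hki, h1, zero_smul, zero_smul]
  · by_cases hkj : k = j
    · rw [hkj, h2, zero_smul, zero_smul]
    · rw [r0_dg_out R hs i j h k hki hkj t ht]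

/-- step 2: vectors outside of the plane are fixed -/
private theorem r0_step2 (hn : 4 ≤ n) (R : SLn n →* (FF n q →L[ℝ] FF n q))
    (hs : ∀ i j, R (sg i j) = st (sg i j)) (i j : Fin n) (h : i ≠ j) (c : ℝ) (k : Fin n)
    (hk1 : k ≠ i) (hk2 : k ≠ j) :
    R (tv i j h c) (r0_e q k) = r0_e q k := by
  obtain ⟨l, hl1, hl2, hl3⟩ := r0_other hn i j k
  have h1 : (R (tv i j h c) (r0_e q k)).1 i = 0 := by
    refine r0_van R hs _ i j i j (r0_tv_comm_ij i j h c) k i ?_
    rw [r0_sgn_left h, r0_sgn_out hk1 hk2]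
  have h2 : (R (tv i j h c) (r0_e q k)).1 j = 0 := by
    refine r0_van R hs _ i j i j (r0_tv_comm_ij i j h c) k j ?_
    rw [r0_sgn_right h, r0_sgn_out hk1 hk2]
  have h3 : (R (tv i j h c) (r0_e q k)).2 = 0 :=
    r0_van2 R hs _ k l k l (r0_tv_comm_out i j h c k l hk1 hk2 hl1 hl2) k
      (r0_sgn_left hl3.symm)
  have ht : 0 < Real.sqrt 2 := Real.sqrt_pos.2 (by norm_num)
  have h4 := dg_conj_tv i j h (Real.sqrt 2) ht.ne' c
  rw [mul_inv_eq_iff_eq_mul, Real.sq_sqrt (by norm_num : (0 : ℝ) ≤ 2)] at h4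
  have h5 : R (dg i j h (Real.sqrt 2) ht.ne' * tv i j h c) (r0_e q k) =
      R (tv i j h (2 * c) * dg i j h (Real.sqrt 2) ht.ne') (r0_e q k) := by rw [h4]
  rw [r0_mul, r0_mul, r0_dg_fix R hs i j h _ ht _ h1 h2 h3,
    r0_dg_out R hs i j h k hk1 hk2 _ ht, two_mul, tv_add, r0_mul] at h5
  have h6 := congrArg (R (tv i j h c)⁻¹) h5
  rw [r0_inv, r0_inv] at h6
  exact h6.symm

private theorem r0_continuous_tv (i j : Fin n) (h : i ≠ j) : Continuous fun c => tv i j h c := by
  refine Continuous.subtype_mk ?_ _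
  refine continuous_matrix fun a b => ?_
  have : (fun c : ℝ => Matrix.transvection i j c a b) =
      fun c : ℝ => (1 : Matrix (Fin n) (Fin n) ℝ) a b + (if i = a ∧ j = b then c else 0) := by
    funext c
    simp only [Matrix.transvection, Matrix.add_apply, Matrix.single_apply]
  rw [this]
  split_ifs
  · fun_prop
  · fun_prop

/-- the transvections are not trivial -/
private theorem r0_nontriv (R : SLn n →* (FF n q →L[ℝ] FF n q))
    (hs : ∀ i j, R (sg i j) = st (sg i j)) (i j : Fin n) (h : i ≠ j)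
    (H : ∀ c, R (tv i j h c) = 1) : False := by
  have h1 : R (wy i j h) = R (tv j i h.symm 2) := by
    unfold wy
    rw [map_mul, map_mul, H, mul_one, ← map_mul, ← tv_add]
    norm_num
  have h2 : R (sg i j) = R (tv j i h.symm 4) := by
    rw [← wy_sq i j h, map_mul, h1, ← map_mul, ← tv_add]
    norm_num
  have h3 : R (tv j i h.symm 8) = 1 := by
    have h4 : R (sg i j * sg i j) = 1 := by rw [sg_mul_self, map_one]
    rw [map_mul, h2, ← map_mul, ← tv_add] at h4
    norm_num at h4
    exact h4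
  have ht : 0 < Real.sqrt (1 / 2) := Real.sqrt_pos.2 (by norm_num)
  have h5 := dg_conj_tv j i h.symm (Real.sqrt (1 / 2)) ht.ne' 8
  rw [Real.sq_sqrt (by norm_num : (0 : ℝ) ≤ 1 / 2)] at h5
  have h6 : R (tv j i h.symm (1 / 2 * 8)) = 1 := by
    rw [← h5, map_mul, map_mul, h3, mul_one, ← map_mul, mul_inv_cancel, map_one]
  have h7 : (1 / 2 * 8 : ℝ) = 4 := by norm_num
  rw [h7, ← h2, hs] at h6
  have h8 : st (sg i j) (r0_e q i) = r0_e q i := by rw [h6]; rfl
  rw [r0_st_e, r0_sgn_left h] at h8
  have h9 := congrArg (fun y : FF n q => y.1 i) h8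
  simp only [r0_smul_fst, r0_e_same] at h9
  norm_num at h9

/-- an additive continuous function is linear -/
private theorem r0_additive (f : ℝ → ℝ) (hf : Continuous f) (ha : ∀ c d, f (c + d) = f c + f d)
    (c : ℝ) : f c = f 1 * c := by
  have h0 : f 0 = 0 := by
    have := ha 0 0
    rw [add_zero] at this
    linarith
  let F : ℝ →+ ℝ := ⟨⟨f, h0⟩, ha⟩
  have h1 := map_real_smul F hf c 1
  change f (c • 1) = c • f 1 at h1
  rw [smul_eq_mul, mul_one, smul_eq_mul] at h1
  rw [h1, mul_comm]

theorem p_R0 : S_R0 := by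
  intro n q hn R hR hs i j h
  obtain ⟨k, hk1, hk2, -⟩ := r0_other hn i j i
  -- the action on the plane
  have hei : ∀ c, R (tv i j h c) (r0_e q i) = (R (tv i j h c) (r0_e q i)).1 i • r0_e q i +
      (R (tv i j h c) (r0_e q i)).1 j • r0_e q j := by
    intro c
    refine r0_double _ i j h ?_ ?_
    · intro m hm1 hm2
      refine r0_van R hs _ i j i j (r0_tv_comm_ij i j h c) i m ?_
      rw [r0_sgn_left h, r0_sgn_out hm1 hm2, neg_neg]
    · exact r0_van2 R hs _ i j i j (r0_tv_comm_ij i j h c) i (r0_sgn_left h)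
  have hej : ∀ c, R (tv i j h c) (r0_e q j) = (R (tv i j h c) (r0_e q j)).1 i • r0_e q i +
      (R (tv i j h c) (r0_e q j)).1 j • r0_e q j := by
    intro c
    refine r0_double _ i j h ?_ ?_
    · intro m hm1 hm2
      refine r0_van R hs _ i j i j (r0_tv_comm_ij i j h c) j m ?_
      rw [r0_sgn_right h, r0_sgn_out hm1 hm2, neg_neg]
    · exact r0_van2 R hs _ i j i j (r0_tv_comm_ij i j h c) j (r0_sgn_right h)
  set p : ℝ → ℝ := fun c => (R (tv i j h c) (r0_e q i)).1 i with hp
  set r : ℝ → ℝ := fun c => (R (tv i j h c) (r0_e q i)).1 j with hr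
  set qq : ℝ → ℝ := fun c => (R (tv i j h c) (r0_e q j)).1 i with hqq
  set s : ℝ → ℝ := fun c => (R (tv i j h c) (r0_e q j)).1 j with hss
  have hei' : ∀ c, R (tv i j h c) (r0_e q i) = p c • r0_e q i + r c • r0_e q j := hei
  have hej' : ∀ c, R (tv i j h c) (r0_e q j) = qq c • r0_e q i + s c • r0_e q j := hej
  -- the diagonal elements on the plane
  have hdi : ∀ (t : ℝ) (ht : t ≠ 0),
      R (dg i j h t ht) (r0_e q i) = (R (dg i j h t ht) (r0_e q i)).1 i • r0_e q i := by
    intro t ht
    refine r0_single _ i ?_ ?_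
    · intro m hm
      by_cases hmj : m = j
      · refine r0_van R hs _ i k i k (sg_mul_dg i k i j h t ht).symm i m ?_
        rw [hmj, r0_sgn_left hk1.symm, r0_sgn_out h.symm hk2.symm, neg_neg]
      · refine r0_van R hs _ i j i j (sg_mul_dg i j i j h t ht).symm i m ?_
        rw [r0_sgn_left h, r0_sgn_out hm hmj, neg_neg]
    · exact r0_van2 R hs _ i j i j (sg_mul_dg i j i j h t ht).symm i (r0_sgn_left h)
  have hdj : ∀ (t : ℝ) (ht : t ≠ 0),
      R (dg i j h t ht) (r0_e q j) = (R (dg i j h t ht) (r0_e q j)).1 j • r0_e q j := by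
    intro t ht
    refine r0_single _ j ?_ ?_
    · intro m hm
      by_cases hmi : m = i
      · refine r0_van R hs _ j k j k (sg_mul_dg j k i j h t ht).symm j m ?_
        rw [hmi, r0_sgn_left hk2.symm, r0_sgn_out h hk1.symm, neg_neg]
      · refine r0_van R hs _ i j i j (sg_mul_dg i j i j h t ht).symm j m ?_
        rw [r0_sgn_right h, r0_sgn_out hmi hm, neg_neg]
    · exact r0_van2 R hs _ i j i j (sg_mul_dg i j i j h t ht).symm j (r0_sgn_right h)
  have hdi0 : ∀ (t : ℝ) (ht : t ≠ 0), (R (dg i j h t ht) (r0_e q i)).1 i ≠ 0 := by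
    intro t ht h0
    have h1 := hdi t ht
    rw [h0, zero_smul] at h1
    have h2 := r0_inv R (dg i j h t ht) (r0_e q i)
    rw [h1, map_zero] at h2
    exact r0_e_ne_zero i h2.symm
  have hdj0 : ∀ (t : ℝ) (ht : t ≠ 0), (R (dg i j h t ht) (r0_e q j)).1 j ≠ 0 := by
    intro t ht h0
    have h1 := hdj t ht
    rw [h0, zero_smul] at h1
    have h2 := r0_inv R (dg i j h t ht) (r0_e q j)
    rw [h1, map_zero] at h2
    exact r0_e_ne_zero j h2.symm
  have hcontR : ∀ y : FF n q, Continuous fun c => R (tv i j h c) y := fun y =>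
    (hR.comp (r0_continuous_tv i j h)).clm_apply continuous_const
  have hcont1 : ∀ (y : FF n q) (m : Fin n), Continuous fun c => (R (tv i j h c) y).1 m := by
    intro y m
    exact ((EuclideanSpace.proj m : VV n →L[ℝ] ℝ).continuous.comp continuous_fst).comp (hcontR y)
  have hlim : ∀ (f : ℝ → ℝ), Continuous f → (∀ t : ℝ, 0 < t → ∀ c, f (t ^ 2 * c) = f c) →
      ∀ c, f c = f 0 := by
    intro f hf H c
    have h1 : Tendsto (fun t : ℝ => f (t ^ 2 * c)) (𝓝[>] 0) (𝓝 (f 0)) := by
      have h2 : Continuous fun t : ℝ => f (t ^ 2 * c) := hf.comp (by fun_prop)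
      have h3 := (h2.tendsto 0).mono_left (nhdsWithin_le_nhds (s := Set.Ioi (0 : ℝ)))
      simpa using h3
    have h4 : Tendsto (fun t : ℝ => f (t ^ 2 * c)) (𝓝[>] 0) (𝓝 (f c)) := by
      refine tendsto_const_nhds.congr' ?_
      filter_upwards [self_mem_nhdsWithin] with t ht
      exact (H t ht c).symm
    exact tendsto_nhds_unique h4 h1
  have hp1 : ∀ c, p c = 1 := by
    intro c
    have h1 : p 0 = 1 := by
      simp only [hp]
      rw [tv_zero, r0_one, r0_e_same]
    rw [← h1]
    refine hlim p (hcont1 _ _) ?_ c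
    intro t ht c
    have h2 := dg_conj_tv i j h t ht.ne' c
    rw [mul_inv_eq_iff_eq_mul] at h2
    have h3 : R (dg i j h t ht.ne' * tv i j h c) (r0_e q i) =
      R (tv i j h (t ^ 2 * c) * dg i j h t ht.ne') (r0_e q i) := by rw [h2]
    rw [r0_mul, r0_mul, hei', map_add, map_smul, map_smul, hdi t ht.ne', hdj t ht.ne',
      map_smul, hei' (t ^ 2 * c)] at h3
    have h4 := congrArg (fun y : FF n q => y.1 i) h3
    simp only [r0_smul_fst, r0_add_fst, r0_e_same, r0_e_ne h, mul_one, mul_zero, add_zero] at h4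
    rw [mul_comm] at h4
    exact (mul_left_cancel₀ (hdi0 t ht.ne') h4).symm
  have hs1 : ∀ c, s c = 1 := by
    intro c
    have h1 : s 0 = 1 := by
      simp only [hss]
      rw [tv_zero, r0_one, r0_e_same]
    rw [← h1]
    refine hlim s (hcont1 _ _) ?_ c
    intro t ht c
    have h2 := dg_conj_tv i j h t ht.ne' c
    rw [mul_inv_eq_iff_eq_mul] at h2
    have h3 : R (dg i j h t ht.ne' * tv i j h c) (r0_e q j) =
      R (tv i j h (t ^ 2 * c) * dg i j h t ht.ne') (r0_e q j) := by rw [h2]
    rw [r0_mul, r0_mul, hej', map_add, map_smul, map_smul, hdi t ht.ne', hdj t ht.ne',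
      map_smul, hej' (t ^ 2 * c)] at h3
    have h4 := congrArg (fun y : FF n q => y.1 j) h3
    simp only [r0_smul_fst, r0_add_fst, r0_e_same, r0_e_ne h.symm, mul_one, mul_zero,
      zero_add] at h4
    rw [mul_comm] at h4
    exact (mul_left_cancel₀ (hdj0 t ht.ne') h4).symm
  -- additivity
  have hadd1 : ∀ c d, r d * qq c = 0 ∧ r (c + d) = r c + r d := by
    intro c d
    have h1 : R (tv i j h (c + d)) (r0_e q i) = R (tv i j h c) (R (tv i j h d) (r0_e q i)) := by
      rw [tv_add, r0_mul]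
    rw [hei', hei' d, map_add, map_smul, map_smul, hei' c, hej' c, hp1, hp1, hp1, hs1] at h1
    constructor
    · have h2 := congrArg (fun y : FF n q => y.1 i) h1
      simp only [r0_smul_fst, r0_add_fst, r0_e_same, r0_e_ne h, mul_one, mul_zero, add_zero] at h2
      linarith
    · have h2 := congrArg (fun y : FF n q => y.1 j) h1
      simp only [r0_smul_fst, r0_add_fst, r0_e_same, r0_e_ne h.symm, mul_one, mul_zero,
        zero_add] at h2
      linarith
  have hadd2 : ∀ c d, qq (c + d) = qq c + qq d := by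
    intro c d
    have h1 : R (tv i j h (c + d)) (r0_e q j) = R (tv i j h c) (R (tv i j h d) (r0_e q j)) := by
      rw [tv_add, r0_mul]
    rw [hej', hej' d, map_add, map_smul, map_smul, hei' c, hej' c, hp1, hs1, hs1, hs1] at h1
    have h2 := congrArg (fun y : FF n q => y.1 i) h1
    simp only [r0_smul_fst, r0_add_fst, r0_e_same, r0_e_ne h, mul_one, mul_zero, add_zero] at h2
    linarith
  have hrl : ∀ c, r c = r 1 * c := r0_additive r (hcont1 _ _) (fun c d => (hadd1 c d).2)
  have hql : ∀ c, qq c = qq 1 * c := r0_additive qq (hcont1 _ _) hadd2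
  -- the general form
  have hform : ∀ (c : ℝ) (x : VV n) (z : VV q), R (tv i j h c) (x, z) =
      (x, z) + (x i * r c) • r0_e q j + (x j * qq c) • r0_e q i := by
    intro c x z
    have h1 : ∀ k, R (tv i j h c) (x k • r0_e q k) = x k • r0_e q k +
        ((if k = i then (x k * r c) • r0_e q j else 0) +
          (if k = j then (x k * qq c) • r0_e q i else 0)) := by
      intro k
      rw [map_smul]
      by_cases hki : k = i
      · subst hki
        rw [if_pos rfl, if_neg h, hei', hp1, one_smul, smul_add, smul_smul, add_zero]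
      · by_cases hkj : k = j
        · subst hkj
          rw [if_neg hki, if_pos rfl, hej', hs1, one_smul, smul_add, smul_smul, zero_add,
            add_comm]
        · rw [if_neg hki, if_neg hkj, r0_step2 hn R hs i j h c k hki hkj, add_zero, add_zero]
    conv_lhs => rw [r0_dec x z]
    rw [map_add, map_sum, Finset.sum_congr rfl (fun k _ => h1 k), Finset.sum_add_distrib,
      Finset.sum_add_distrib, Finset.sum_ite_eq' Finset.univ i, Finset.sum_ite_eq' Finset.univ j,
      if_pos (Finset.mem_univ _), if_pos (Finset.mem_univ _), r0_step1 hn R hs i j h c z]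
    conv_rhs => rw [r0_dec x z]
    abel
  have hone : (∀ c, r c = 0) → (∀ c, qq c = 0) → False := by
    intro h1 h2
    refine r0_nontriv R hs i j h ?_
    intro c
    refine ContinuousLinearMap.ext fun y => ?_
    have h3 := hform c y.1 y.2
    rw [h1, h2, mul_zero, mul_zero, zero_smul, zero_smul, add_zero, add_zero] at h3
    exact h3
  by_cases hr0 : ∀ d, r d = 0
  · refine ⟨qq 1, ?_, Or.inl ?_⟩
    · intro h0
      exact hone hr0 (fun c => by rw [hql, h0, zero_mul])
    · intro c x z
      rw [hform, hr0, mul_zero, zero_smul, add_zero, hql c]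
      refine Prod.ext ?_ ?_
      · ext m
        change x m + (x j * (qq 1 * c)) * (r0_e q i).1 m =
          x m + (EuclideanSpace.single i (qq 1 * c * x j) : VV n) m
        by_cases hm : m = i
        · subst hm
          rw [r0_e_same]
          simp
          ring
        · rw [r0_e_ne hm]
          simp [hm]
      · change z + (x j * (qq 1 * c)) • (0 : VV q) = z
        rw [smul_zero, add_zero]
  · obtain ⟨d, hd⟩ := not_forall.1 hr0
    have hq0 : ∀ c, qq c = 0 := by
      intro c
      have := (hadd1 c d).1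
      exact (mul_eq_zero.1 this).resolve_left hd
    refine ⟨r 1, ?_, Or.inr ?_⟩
    · intro h0
      exact hd (by rw [hrl, h0, zero_mul])
    · intro c x z
      rw [hform, hq0, mul_zero, zero_smul, add_zero, hrl c]
      refine Prod.ext ?_ ?_
      · ext m
        change x m + (x i * (r 1 * c)) * (r0_e q j).1 m =
          x m + (EuclideanSpace.single j (r 1 * c * x i) : VV n) m
        by_cases hm : m = j
        · subst hm
          rw [r0_e_same]
          simp
          ring
        · rw [r0_e_ne hm]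
          simp [hm]
      · change z + (x i * (r 1 * c)) • (0 : VV q) = z
        rw [smul_zero, add_zero]

end Pool.Agent.Lib.MP_4f3c81_gt.Inf
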