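import Pool.Agent.Lib.MP_4f3c81_gt.Inf.Stmts

/-!
# Representations with all transvections of type A
-/

open Filter Topology Set Matrix
open scoped ContDiff

namespace Pool.Agent.Lib.MP_4f3c81_gt.Inf

private theorem r01_rel {n q : ℕ} (R : SLn n →* (FF n q →L[ℝ] FF n q))
    (κ : ∀ i j : Fin n, i ≠ j → ℝ) (hκ : ∀ i j h, TypeA R i j h (κ i j h))
    (i j k : Fin n) (hij : i ≠ j) (hjk : j ≠ k) (hik : i ≠ k) :
    κ i j hij * κ j k hjk = κ i k hik := by
  have h1 : tv i j hij 1 * tv j k hjk 1 = tv i k hik 1 * (tv j k hjk 1 * tv i j hij 1) := by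
    have h := tv_commutator i j k hij hjk hik 1 1
    rw [mul_one (1 : ℝ)] at h
    rw [← h]
    group
  have h2 : R (tv i j hij 1) (R (tv j k hjk 1) (EuclideanSpace.single k 1, 0)) =
      R (tv i k hik 1) (R (tv j k hjk 1) (R (tv i j hij 1) (EuclideanSpace.single k 1, 0))) := by
    have h3 := congrArg (fun g => R g ((EuclideanSpace.single k 1, 0) : FF n q)) h1
    simp only [map_mul] at h3
    exact h3
  rw [hκ j k hjk, hκ i j hij, hκ i j hij, hκ j k hjk, hκ i k hik] at h2
  have h4 := congrArg (fun p : FF n q => p.1 i) h2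
  have ejk : j ≠ k := hjk
  simp [hij, hjk, hjk.symm, hik, hik.symm] at h4
  exact h4

private theorem r01_dl {n : ℕ} (lam : Fin n → ℝ) (x : VV n) (k : Fin n) :
    dl lam x k = lam k * x k := TM_diagonal_apply lam x k

theorem p_R01 (hG1 : S_G1) : S_R01 := by
  intro n q hn R hA
  choose κ hκ0 hκ using hA
  let o : Fin n := ⟨0, by omega⟩
  let lam : Fin n → ℝ := fun i => if h : i = o then 1 else κ i o h
  have hlo : lam o = 1 := by simp [lam]
  have hli : ∀ i (h : i ≠ o), lam i = κ i o h := fun i h => by simp [lam, h]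
  have hlam0 : ∀ i, lam i ≠ 0 := by
    intro i
    by_cases h : i = o
    · rw [h, hlo]
      exact one_ne_zero
    · rw [hli i h]
      exact hκ0 i o h
  have key : ∀ i j (h : i ≠ j), κ i j h * lam j = lam i := by
    intro i j h
    by_cases hj : j = o
    · subst hj
      rw [hlo, mul_one, hli i h]
    · by_cases hi : i = o
      · subst hi
        rw [hlo, hli j hj]
        -- a third index
        obtain ⟨k, hk⟩ : ∃ k : Fin n, k ≠ o ∧ k ≠ j := by
          by_contra hcon
          push Not at hcon
          have h5 : (Finset.univ : Finset (Fin n)) ⊆ {o, j} := by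
            intro k _
            by_cases h6 : k = o
            · simp [h6]
            · simp [hcon k h6]
          have h6 := Finset.card_le_card h5
          rw [Finset.card_univ, Fintype.card_fin] at h6
          have h7 := Finset.card_le_two (a := o) (b := j)
          omega
        have e1 := r01_rel R κ hκ o j k h hk.2.symm hk.1.symm
        have e2 := r01_rel R κ hκ j o k hj hk.1.symm hk.2.symm
        have e3 := hκ0 o k hk.1.symm
        have e4 : (κ o j h * κ j o hj) * κ o k hk.1.symm = 1 * κ o k hk.1.symm := by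
          rw [mul_assoc, e2, e1, one_mul]
        exact mul_right_cancel₀ e3 e4
      · rw [hli i hi, hli j hj]
        exact r01_rel R κ hκ i j o h hj hi
  refine ⟨lam, hlam0, ?_⟩
  intro g
  have hg : g ∈ Subgroup.closure
      {g : SLn n | ∃ (i j : Fin n) (h : i ≠ j) (c : ℝ), g = tv i j h c} := by
    rw [hG1 n]
    exact Subgroup.mem_top g
  induction hg using Subgroup.closure_induction with
  | mem g hg =>
    obtain ⟨i, j, h, c, rfl⟩ := hg
    intro x z
    rw [hκ i j h c (dl lam x) z, TM_tv_apply, map_add]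
    congr 2
    ext k
    rw [r01_dl, r01_dl, PiLp.single_apply, PiLp.single_apply]
    split_ifs with hk
    · rw [hk, ← key i j h]
      ring
    · rw [mul_zero]
  | one =>
    intro x z
    rw [map_one, val_one, TM_one]
    rfl
  | mul g g' _ _ h h' =>
    intro x z
    rw [map_mul, val_mul, TM_mul]
    show R g (R g' (dl lam x, z)) = _
    rw [h', h]
    rfl
  | inv g _ h =>
    intro x z
    have h1 : TM g.1 (TM (g⁻¹).1 x) = x := by
      have : ((TM g.1).comp (TM (g⁻¹).1)) x = x := by
        rw [← TM_mul, val_mul_inv, TM_one]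
        rfl
      exact this
    have h2 := h (TM (g⁻¹).1 x) z
    rw [h1] at h2
    have h3 : R g⁻¹ (R g (dl lam (TM (g⁻¹).1 x), z)) = (dl lam (TM (g⁻¹).1 x), z) := by
      have : (R g⁻¹ * R g) (dl lam (TM (g⁻¹).1 x), z) = (dl lam (TM (g⁻¹).1 x), z) := by
        rw [← map_mul, inv_mul_cancel, map_one]
        rfl
      exact this
    rw [h2] at h3
    exact h3

end Pool.Agent.Lib.MP_4f3c81_gt.Inf
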