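import Pool.Agent.Lib.MP_4f3c81_gt.Inf.Stmts

/-!
# Representations with standard sign matrices (helper30)
-/

open Filter Topology Set Matrix MeasureTheory
open scoped ContDiff

namespace Pool.Agent.Lib.MP_4f3c81_gt.Inf

section

variable {n : ℕ}

theorem r1_invT_val (g : SLn n) : (invT g).1 = ((g⁻¹).1)ᵀ := rfl

theorem r1_invT_mul (g h : SLn n) : invT (g * h) = invT g * invT h := by
  apply SLn_ext
  rw [val_mul, r1_invT_val, r1_invT_val, r1_invT_val, _root_.mul_inv_rev, val_mul,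
    Matrix.transpose_mul]

theorem r1_invT_one : invT (1 : SLn n) = 1 := by
  apply SLn_ext
  rw [r1_invT_val, inv_one, val_one, Matrix.transpose_one]

theorem r1_invT_inv (g : SLn n) : (invT g)⁻¹ = invT g⁻¹ := by
  apply inv_eq_of_mul_eq_one_right
  rw [← r1_invT_mul, mul_inv_cancel, r1_invT_one]

theorem r1_invT_invT (g : SLn n) : invT (invT g) = g := by
  apply SLn_ext
  rw [r1_invT_val, r1_invT_inv, r1_invT_val, inv_inv, Matrix.transpose_transpose]

theorem r1_invT_tv (i j : Fin n) (h : i ≠ j) (c : ℝ) :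
    invT (tv i j h c) = tv j i h.symm (-c) := by
  apply SLn_ext
  rw [r1_invT_val, ← tv_neg, tv_val, tv_val, Matrix.transpose_add, Matrix.transpose_one,
    Matrix.transpose_single]

/-- the inverse transpose as a homomorphism -/
def r1_hom (n : ℕ) : SLn n →* SLn n where
  toFun := invT
  map_one' := r1_invT_one
  map_mul' := r1_invT_mul

variable {q : ℕ} (R : SLn n →* (FF n q →L[ℝ] FF n q))

theorem r1_mul (g h : SLn n) (x : FF n q) : R (g * h) x = R g (R h x) := by
  rw [map_mul]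
  rfl

/-- a transvection of type A or B is not mapped to one -/
theorem r1_ne (i j : Fin n) (h : i ≠ j) (κ : ℝ) (hκ : κ ≠ 0)
    (hT : TypeA R i j h κ ∨ TypeB R i j h κ) (c : ℝ) (hc : c ≠ 0) : R (tv i j h c) ≠ 1 := by
  intro h1
  rcases hT with hT | hT
  · have h2 := hT c (EuclideanSpace.single j 1) 0
    rw [h1] at h2
    have h3 := congrArg (fun y : FF n q => y.1 i) h2
    simp [h] at h3
    rcases h3 with h3 | h3
    · exact hκ h3
    · exact hc h3
  · have h2 := hT c (EuclideanSpace.single i 1) 0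
    rw [h1] at h2
    have h3 := congrArg (fun y : FF n q => y.1 j) h2
    simp [h.symm] at h3
    rcases h3 with h3 | h3
    · exact hκ h3
    · exact hc h3

/-- commuting transvections -/
theorem r1_comm (i j k : Fin n) (hij : i ≠ j) (hjk : j ≠ k) (hik : i ≠ k)
    (hc : R (tv i j hij 1) * R (tv j k hjk 1) = R (tv j k hjk 1) * R (tv i j hij 1)) :
    R (tv i k hik 1) = 1 := by
  have h1 := tv_commutator i j k hij hjk hik 1 1
  rw [mul_one] at h1
  rw [← h1]
  have h2 : tv i j hij 1 * tv j k hjk 1 * (tv i j hij 1)⁻¹ * (tv j k hjk 1)⁻¹ =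
      tv i j hij 1 * tv j k hjk 1 * (tv j k hjk 1 * tv i j hij 1)⁻¹ := by group
  rw [h2, map_mul, map_mul, hc, ← map_mul, ← map_mul, mul_inv_cancel, map_one]

theorem r1_AB (i j k : Fin n) (hij : i ≠ j) (hjk : j ≠ k) (hik : i ≠ k) (κ κ' : ℝ)
    (h1 : TypeA R i j hij κ) (h2 : TypeB R j k hjk κ') :
    R (tv i j hij 1) * R (tv j k hjk 1) = R (tv j k hjk 1) * R (tv i j hij 1) := by
  refine ContinuousLinearMap.ext fun y => ?_
  obtain ⟨x, z⟩ := y
  show R (tv i j hij 1) (R (tv j k hjk 1) (x, z)) = R (tv j k hjk 1) (R (tv i j hij 1) (x, z))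
  rw [h2, h1, h1, h2]
  refine Prod.ext ?_ rfl
  have e1 : (x + EuclideanSpace.single k (κ' * 1 * x j) : VV n) j = x j := by
    simp [hjk]
  have e2 : (x + EuclideanSpace.single i (κ * 1 * x j) : VV n) j = x j := by
    simp [hij.symm]
  show x + EuclideanSpace.single k (κ' * 1 * x j) +
      EuclideanSpace.single i (κ * 1 * (x + EuclideanSpace.single k (κ' * 1 * x j) : VV n) j) =
    x + EuclideanSpace.single i (κ * 1 * x j) +
      EuclideanSpace.single k (κ' * 1 * (x + EuclideanSpace.single i (κ * 1 * x j) : VV n) j)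
  rw [e1, e2]
  abel

theorem r1_BA (i j k : Fin n) (hij : i ≠ j) (hjk : j ≠ k) (hik : i ≠ k) (κ κ' : ℝ)
    (h1 : TypeB R i j hij κ) (h2 : TypeA R j k hjk κ') :
    R (tv i j hij 1) * R (tv j k hjk 1) = R (tv j k hjk 1) * R (tv i j hij 1) := by
  refine ContinuousLinearMap.ext fun y => ?_
  obtain ⟨x, z⟩ := y
  show R (tv i j hij 1) (R (tv j k hjk 1) (x, z)) = R (tv j k hjk 1) (R (tv i j hij 1) (x, z))
  rw [h2, h1, h1, h2]
  refine Prod.ext ?_ rfl
  have e1 : (x + EuclideanSpace.single j (κ' * 1 * x k) : VV n) i = x i := by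
    simp [hij]
  have e2 : (x + EuclideanSpace.single j (κ * 1 * x i) : VV n) k = x k := by
    simp [hjk.symm]
  show x + EuclideanSpace.single j (κ' * 1 * x k) +
      EuclideanSpace.single j (κ * 1 * (x + EuclideanSpace.single j (κ' * 1 * x k) : VV n) i) =
    x + EuclideanSpace.single j (κ * 1 * x i) +
      EuclideanSpace.single j (κ' * 1 * (x + EuclideanSpace.single j (κ * 1 * x i) : VV n) k)
  rw [e1, e2]
  abel

/-- type A -/
def r1_TA (i j : Fin n) : Prop := ∃ (h : i ≠ j) (κ : ℝ), κ ≠ 0 ∧ TypeA R i j h κ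

theorem r1_step (hall : ∀ (i j : Fin n) (h : i ≠ j), ∃ κ : ℝ, κ ≠ 0 ∧
    (TypeA R i j h κ ∨ TypeB R i j h κ)) (i j k : Fin n) (hjk : j ≠ k) (hik : i ≠ k)
    (h : r1_TA R i j) : r1_TA R j k := by
  obtain ⟨hij, κ, hκ, hA⟩ := h
  obtain ⟨κ', hκ', h' | h'⟩ := hall j k hjk
  · exact ⟨hjk, κ', hκ', h'⟩
  · exfalso
    obtain ⟨κ'', hκ'', h''⟩ := hall i k hik
    exact r1_ne R i k hik κ'' hκ'' h'' 1 one_ne_zero
      (r1_comm R i j k hij hjk hik (r1_AB R i j k hij hjk hik κ κ' hA h'))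

theorem r1_next (hn : 4 ≤ n) (hall : ∀ (i j : Fin n) (h : i ≠ j), ∃ κ : ℝ, κ ≠ 0 ∧
    (TypeA R i j h κ ∨ TypeB R i j h κ)) (i j k : Fin n) (hjk : j ≠ k)
    (h : r1_TA R i j) : r1_TA R j k := by
  by_cases hik : i = k
  · subst hik
    obtain ⟨a, ha⟩ : ∃ a : Fin n, a ∉ ({i, j} : Finset (Fin n)) := by
      by_contra hcon
      push Not at hcon
      have h1 : (Finset.univ : Finset (Fin n)) ⊆ {i, j} := fun k _ => hcon k
      have h2 := Finset.card_le_card h1
      have h3 : ({i, j} : Finset (Fin n)).card ≤ 2 := Finset.card_le_two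
      rw [Finset.card_univ, Fintype.card_fin] at h2
      omega
    obtain ⟨b, hb⟩ : ∃ b : Fin n, b ∉ ({i, j, a} : Finset (Fin n)) := by
      by_contra hcon
      push Not at hcon
      have h1 : (Finset.univ : Finset (Fin n)) ⊆ {i, j, a} := fun k _ => hcon k
      have h2 := Finset.card_le_card h1
      have h3 : ({i, j, a} : Finset (Fin n)).card ≤ 3 := Finset.card_le_three
      rw [Finset.card_univ, Fintype.card_fin] at h2
      omega
    simp only [Finset.mem_insert, Finset.mem_singleton, not_or] at ha hb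
    obtain ⟨ha1, ha2⟩ := ha
    obtain ⟨hb1, hb2, hb3⟩ := hb
    have s1 := r1_step R hall i j a (Ne.symm ha2) (Ne.symm ha1) h
    have s2 := r1_step R hall j a b (Ne.symm hb3) (Ne.symm hb2) s1
    have s3 := r1_step R hall a b j hb2 ha2 s2
    exact r1_step R hall b j i hjk hb1 s3
  · exact r1_step R hall i j k hjk hik h

theorem r1_all (hn : 4 ≤ n) (hall : ∀ (i j : Fin n) (h : i ≠ j), ∃ κ : ℝ, κ ≠ 0 ∧
    (TypeA R i j h κ ∨ TypeB R i j h κ)) (i j : Fin n) (h : r1_TA R i j) (p s : Fin n)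
    (hps : p ≠ s) : r1_TA R p s := by
  by_cases hpj : j = p
  · subst hpj
    exact r1_next R hn hall i j s hps h
  · exact r1_next R hn hall j p s hps (r1_next R hn hall i j p hpj h)

end

theorem p_R1 (hR0 : S_R0) (hR01 : S_R01) : S_R1 := by
  intro n q hn R hRc hRs
  have hall := hR0 n q hn R hRc hRs
  by_cases hex : ∃ i j, r1_TA R i j
  · obtain ⟨i, j, h⟩ := hex
    obtain ⟨lam, h1, h2⟩ := hR01 n q hn R (fun p s hps => by
      obtain ⟨_, κ, hκ, hA⟩ := r1_all R hn hall i j h p s hps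
      exact ⟨κ, hκ, hA⟩)
    exact ⟨lam, h1, Or.inl h2⟩
  · have hB : ∀ (i j : Fin n) (h : i ≠ j), ∃ κ : ℝ, κ ≠ 0 ∧ TypeB R i j h κ := by
      intro i j h
      obtain ⟨κ, hκ, h' | h'⟩ := hall i j h
      · exact absurd ⟨i, j, h, κ, hκ, h'⟩ hex
      · exact ⟨κ, hκ, h'⟩
    obtain ⟨lam, h1, h2⟩ := hR01 n q hn (R.comp (r1_hom n)) (fun i j hij => by
      obtain ⟨κ, hκ, hB'⟩ := hB j i hij.symm
      refine ⟨-κ, neg_ne_zero.2 hκ, fun c x z => ?_⟩
      show R (invT (tv i j hij c)) (x, z) = _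
      rw [r1_invT_tv, hB']
      have : κ * -c * x j = -κ * c * x j := by ring
      rw [this])
    refine ⟨lam, h1, Or.inr fun g x z => ?_⟩
    have h3 := h2 (invT g) x z
    have h4 : (R.comp (r1_hom n)) (invT g) = R g := by
      show R (invT (invT g)) = R g
      rw [r1_invT_invT]
    rw [h4] at h3
    exact h3

end Pool.Agent.Lib.MP_4f3c81_gt.Inf
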