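import Pool.Agent.Lib.MP_4f3c81_gt.Inf.Stmts

open Filter Topology Set Matrix

namespace Pool.Agent.Lib.MP_4f3c81_gt.Inf

private theorem r2_invT {n : ℕ} {k : SLn n} (hk : k ∈ KK n) : invT k = k := by
  have h1 : k.1ᵀ * k.1 = 1 := hk
  have h2 : k.1 * k.1ᵀ = 1 := mul_eq_one_comm.1 h1
  have h3 : (k⁻¹).1 = k.1ᵀ := by
    have h4 : (k⁻¹).1 * k.1 = 1 := val_inv_mul k
    calc (k⁻¹).1 = (k⁻¹).1 * (k.1 * k.1ᵀ) := by rw [h2, Matrix.mul_one]
      _ = ((k⁻¹).1 * k.1) * k.1ᵀ := by rw [Matrix.mul_assoc]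
      _ = k.1ᵀ := by rw [h4, Matrix.one_mul]
  apply SLn_ext
  change ((k⁻¹).1)ᵀ = k.1
  rw [h3, Matrix.transpose_transpose]

private theorem r2_dl {n : ℕ} (lam : Fin n → ℝ) (i : Fin n) :
    dl lam (EuclideanSpace.single i 1) = lam i • (EuclideanSpace.single i 1 : VV n) := by
  ext k
  unfold dl
  rw [TM_diagonal_apply, PiLp.smul_apply, smul_eq_mul]
  by_cases h : k = i
  · rw [h]
  · simp [h]

private theorem r2_wy {n : ℕ} (i j : Fin n) (h : i ≠ j) :
    TM (wy i j h).1 (EuclideanSpace.single i 1) = (EuclideanSpace.single j 1 : VV n) := by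
  ext k
  rw [TM_single, wy_val, mul_one]
  by_cases hki : k = i
  · subst hki
    simp [h]
  · by_cases hkj : k = j
    · subst hkj
      simp [hki]
    · simp [hki, hkj]

private theorem r2_main {n q : ℕ} (hn : 4 ≤ n) (R : SLn n →* (FF n q →L[ℝ] FF n q))
    (hK3 : S_K3) (hR : ∀ k ∈ KK n, R k = st k) (T : SLn n → SLn n) (hT : ∀ k ∈ KK n, T k = k)
    (lam : Fin n → ℝ) (hlam : ∀ i, lam i ≠ 0)
    (h : ∀ g x z, R g (dl lam x, z) = (dl lam (TM (T g).1 x), z)) : ∀ g, R g = st (T g) := by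
  have hc : ∀ i j : Fin n, i ≠ j → lam i = lam j := by
    intro i j hij
    have hk := (hK3 n).2.2 i j hij
    have h1 := h (wy i j hij) (EuclideanSpace.single i 1) 0
    rw [hR _ hk, hT _ hk, r2_wy, r2_dl, r2_dl, st_apply, map_smul, r2_wy] at h1
    have h2 := congrArg (fun y : FF n q => y.1 j) h1
    simpa using h2
  set i₀ : Fin n := ⟨0, by omega⟩ with hi₀
  have hc' : ∀ i, lam i = lam i₀ := by
    intro i
    by_cases hi : i = i₀
    · rw [hi]
    · exact hc i i₀ hi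
  have hd : ∀ x : VV n, dl lam x = lam i₀ • x := by
    intro x
    ext k
    unfold dl
    rw [TM_diagonal_apply, PiLp.smul_apply, smul_eq_mul, hc' k]
  intro g
  refine ContinuousLinearMap.ext fun y => ?_
  obtain ⟨x, z⟩ := y
  have h1 := h g ((lam i₀)⁻¹ • x) z
  rw [hd, hd, map_smul, smul_smul, smul_smul, mul_inv_cancel₀ (hlam i₀), one_smul, one_smul] at h1
  rw [h1, st_apply]

theorem p_R2 (hR1 : S_R1) (hK3 : S_K3) : S_R2 := by
  intro n q hn R hRc hR
  obtain ⟨lam, hlam, h⟩ := hR1 n q hn R hRc (fun i j => hR _ ((hK3 n).2.1 i j))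
  rcases h with h | h
  · left
    exact r2_main hn R hK3 hR (fun g => g) (fun k _ => rfl) lam hlam h
  · right
    exact r2_main hn R hK3 hR invT (fun k hk => r2_invT hk) lam hlam h

end Pool.Agent.Lib.MP_4f3c81_gt.Inf
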