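import Pool.Agent.Lib.MP_4f3c81_gt.Inf.Glue
import Pool.Agent.Lib.MP_4f3c81_gt.Inf.P_A1
import Pool.Agent.Lib.MP_4f3c81_gt.Inf.P_A2
import Pool.Agent.Lib.MP_4f3c81_gt.Inf.P_A3
import Pool.Agent.Lib.MP_4f3c81_gt.Inf.P_A4
import Pool.Agent.Lib.MP_4f3c81_gt.Inf.P_B1
import Pool.Agent.Lib.MP_4f3c81_gt.Inf.P_C1
import Pool.Agent.Lib.MP_4f3c81_gt.Inf.P_C2
import Pool.Agent.Lib.MP_4f3c81_gt.Inf.P_C3
import Pool.Agent.Lib.MP_4f3c81_gt.Inf.P_C4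
import Pool.Agent.Lib.MP_4f3c81_gt.Inf.P_E1
import Pool.Agent.Lib.MP_4f3c81_gt.Inf.P_E2
import Pool.Agent.Lib.MP_4f3c81_gt.Inf.P_E3
import Pool.Agent.Lib.MP_4f3c81_gt.Inf.P_E4
import Pool.Agent.Lib.MP_4f3c81_gt.Inf.P_E5
import Pool.Agent.Lib.MP_4f3c81_gt.Inf.P_E6
import Pool.Agent.Lib.MP_4f3c81_gt.Inf.P_F0
import Pool.Agent.Lib.MP_4f3c81_gt.Inf.P_F1
import Pool.Agent.Lib.MP_4f3c81_gt.Inf.P_F2
import Pool.Agent.Lib.MP_4f3c81_gt.Inf.P_G1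
import Pool.Agent.Lib.MP_4f3c81_gt.Inf.P_G2
import Pool.Agent.Lib.MP_4f3c81_gt.Inf.P_G3
import Pool.Agent.Lib.MP_4f3c81_gt.Inf.P_H1
import Pool.Agent.Lib.MP_4f3c81_gt.Inf.P_H2
import Pool.Agent.Lib.MP_4f3c81_gt.Inf.P_H4
import Pool.Agent.Lib.MP_4f3c81_gt.Inf.P_H5
import Pool.Agent.Lib.MP_4f3c81_gt.Inf.P_H6
import Pool.Agent.Lib.MP_4f3c81_gt.Inf.P_H7
import Pool.Agent.Lib.MP_4f3c81_gt.Inf.P_K1
import Pool.Agent.Lib.MP_4f3c81_gt.Inf.P_K2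
import Pool.Agent.Lib.MP_4f3c81_gt.Inf.P_K3
import Pool.Agent.Lib.MP_4f3c81_gt.Inf.P_L1
import Pool.Agent.Lib.MP_4f3c81_gt.Inf.P_L2
import Pool.Agent.Lib.MP_4f3c81_gt.Inf.P_M1
import Pool.Agent.Lib.MP_4f3c81_gt.Inf.P_M2
import Pool.Agent.Lib.MP_4f3c81_gt.Inf.P_M3
import Pool.Agent.Lib.MP_4f3c81_gt.Inf.P_M4
import Pool.Agent.Lib.MP_4f3c81_gt.Inf.P_N1
import Pool.Agent.Lib.MP_4f3c81_gt.Inf.P_N2
import Pool.Agent.Lib.MP_4f3c81_gt.Inf.P_N3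
import Pool.Agent.Lib.MP_4f3c81_gt.Inf.P_N4
import Pool.Agent.Lib.MP_4f3c81_gt.Inf.P_N5
import Pool.Agent.Lib.MP_4f3c81_gt.Inf.P_R0
import Pool.Agent.Lib.MP_4f3c81_gt.Inf.P_R01
import Pool.Agent.Lib.MP_4f3c81_gt.Inf.P_R1
import Pool.Agent.Lib.MP_4f3c81_gt.Inf.P_R2

/-!
# Smooth actions of `SL(n, ℝ)`: assembly
-/

namespace Pool.Agent.Lib.MP_4f3c81_gt.Inf

theorem all_A2 : S_A2 := p_A2 p_A1

theorem all_B1 : S_B1 := p_B1 all_A2 (p_A3 all_A2) p_A4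

theorem all_G2 : S_G2 := p_G2 p_G1 p_K3

theorem all_R1 : S_R1 := p_R1 p_R0 (p_R01 p_G1)

theorem all_R2 : S_R2 := p_R2 all_R1 p_K3

theorem all_H7 : S_H7 := p_H7 p_G3 p_H1 p_H2 p_H4 (p_H5 p_G3 p_H2) (p_H6 p_G1)

theorem all_C1 : S_C1 := p_C1 all_B1 p_K1 p_K3

theorem all_C2 : S_C2 := p_C2 all_G2 p_K3

theorem all_C3 : S_C3 := p_C3 all_A2 all_C2 all_R2 p_K3

theorem all_C4 : S_C4 := p_C4 all_A2 all_C1 all_C2 all_C3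

theorem all_E4 : S_E4 := p_E4 p_E1 p_E2 p_E3

theorem all_E5 : S_E5 := p_E5 p_E2 all_E4

theorem all_E6 : S_E6 := p_E6 p_E1 p_E3 all_E5

theorem all_F1 : S_F1 := p_F1 p_A4

theorem all_F2 : S_F2 := p_F2 all_F1

theorem all_L1 : S_L1 := p_L1 p_K3

theorem all_L2 : S_L2 := p_L2 p_E1 all_E6 p_F0 all_F1 all_L1

theorem all_M4 : S_M4 := p_M4 p_E1 all_L1 (p_M1 all_L1) p_M2 p_M3

theorem all_N1 : S_N1 := p_N1 all_F2 p_K1 p_K2 p_K3 all_L2 p_M2 p_M3 all_M4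

theorem all_N2 : S_N2 := p_N2 all_C4 all_N1

theorem all_N3 : S_N3 := p_N3 all_B1 all_G2 p_K1

theorem all_N4 : S_N4 := p_N4 all_A2 all_H7 all_R1 all_N2 all_N3

end Pool.Agent.Lib.MP_4f3c81_gt.Inf
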