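import Pool.Agent.Lib.MP_4f3c81_gt.SL

/-!
# Smooth actions of `SL(n, ℝ)`: definitions
-/

open Filter Topology Set Matrix
open scoped ContDiff

namespace Pool.Agent.Lib.MP_4f3c81_gt.Inf

/-- The group `SL(n, ℝ)`. -/
abbrev SLn (n : ℕ) : Type := SpecialLinearGroup (Fin n) ℝ

/-- Euclidean space. -/
abbrev VV (n : ℕ) : Type := EuclideanSpace ℝ (Fin n)

/-- The model space `ℝ^n × ℝ^q`. -/
abbrev FF (n q : ℕ) : Type := VV n × VV q

/-- A continuous action of a topological group by smooth maps. -/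
structure SAct (G E : Type) [Group G] [TopologicalSpace G] [NormedAddCommGroup E]
    [NormedSpace ℝ E] (A : G → E → E) : Prop where
  one : ∀ x, A 1 x = x
  mul : ∀ g h x, A (g * h) x = A g (A h x)
  cont : Continuous fun q : G × E => A q.1 q.2
  smooth : ∀ g, ContDiff ℝ ∞ (A g)

/-- The standard representation on `ℝ^n × ℝ^q`: `g (x, z) = (g x, z)`. -/
noncomputable def st {n q : ℕ} (g : SLn n) : FF n q →L[ℝ] FF n q :=
  (TM g.1).prodMap (ContinuousLinearMap.id ℝ (VV q))

theorem st_apply {n q : ℕ} (g : SLn n) (x : VV n) (z : VV q) :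
    st g (x, z) = (TM g.1 x, z) := rfl

theorem st_apply' {n q : ℕ} (g : SLn n) (y : FF n q) :
    st g y = (TM g.1 y.1, y.2) := rfl

theorem val_one {n : ℕ} : (1 : SLn n).1 = 1 := rfl

theorem val_mul {n : ℕ} (g h : SLn n) : (g * h).1 = g.1 * h.1 := rfl

theorem val_inv {n : ℕ} (g : SLn n) : (g⁻¹).1 = g.1.adjugate := rfl

theorem val_inv_mul {n : ℕ} (g : SLn n) : (g⁻¹).1 * g.1 = 1 := by
  rw [← val_mul, inv_mul_cancel, val_one]

theorem val_mul_inv {n : ℕ} (g : SLn n) : g.1 * (g⁻¹).1 = 1 := by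
  rw [← val_mul, mul_inv_cancel, val_one]

theorem st_one {n q : ℕ} : (st 1 : FF n q →L[ℝ] FF n q) = 1 := by
  unfold st
  rw [val_one, TM_one]
  ext <;> rfl

theorem st_mul {n q : ℕ} (g h : SLn n) : (st (g * h) : FF n q →L[ℝ] FF n q) = st g * st h := by
  unfold st
  rw [val_mul, TM_mul]
  rfl

theorem st_mul_apply {n q : ℕ} (g h : SLn n) (y : FF n q) : st (g * h) y = st g (st h y) := by
  rw [st_mul]; rfl

theorem continuous_st {n q : ℕ} : Continuous (st : SLn n → FF n q →L[ℝ] FF n q) := by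
  have h1 : Continuous fun g : SLn n => TM g.1 :=
    (TMc n).continuous.comp continuous_subtype_val
  unfold st
  exact (ContinuousLinearMap.prodMapL ℝ (VV n) (VV n) (VV q) (VV q)).continuous.comp
    (h1.prodMk continuous_const)

/-- The sign matrix with `-1` in places `i` and `j` (the identity if `i = j`). -/
def sg {n : ℕ} (i j : Fin n) : SLn n :=
  ⟨Matrix.diagonal fun k => (if k = i then -1 else 1) * (if k = j then -1 else 1), by
    rw [Matrix.det_diagonal, Finset.prod_mul_distrib]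
    simp⟩

/-- The transvection `1 + c E_ij`. -/
def tv {n : ℕ} (i j : Fin n) (h : i ≠ j) (c : ℝ) : SLn n :=
  ⟨Matrix.transvection i j c, Matrix.det_transvection_of_ne i j h c⟩

/-- The diagonal matrix with `t` in place `i` and `t⁻¹` in place `j`. -/
noncomputable def dg {n : ℕ} (i j : Fin n) (h : i ≠ j) (t : ℝ) (ht : t ≠ 0) : SLn n :=
  ⟨Matrix.diagonal fun k => (if k = i then t else 1) * (if k = j then t⁻¹ else 1), by
    rw [Matrix.det_diagonal, Finset.prod_mul_distrib]
    simp [ht]⟩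

/-- The rotation by a right angle in the plane `i, j`: `e_i ↦ e_j`, `e_j ↦ - e_i`. -/
def wy {n : ℕ} (i j : Fin n) (h : i ≠ j) : SLn n :=
  tv j i h.symm 1 * tv i j h (-1) * tv j i h.symm 1

/-- The special orthogonal group as a subgroup of `SL(n, ℝ)`. -/
def KK (n : ℕ) : Subgroup (SLn n) where
  carrier := {g | g.1ᵀ * g.1 = 1}
  one_mem' := by
    change (1 : Matrix (Fin n) (Fin n) ℝ)ᵀ * 1 = 1
    rw [Matrix.transpose_one, Matrix.mul_one]
  mul_mem' := by
    intro a b ha hb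
    have ha' : a.1ᵀ * a.1 = 1 := ha
    have hb' : b.1ᵀ * b.1 = 1 := hb
    change (a.1 * b.1)ᵀ * (a.1 * b.1) = 1
    rw [Matrix.transpose_mul]
    calc b.1ᵀ * a.1ᵀ * (a.1 * b.1) = b.1ᵀ * (a.1ᵀ * a.1) * b.1 := by simp only [Matrix.mul_assoc]
      _ = 1 := by rw [ha', Matrix.mul_one, hb']
  inv_mem' := by
    intro a ha
    have h1 : a.1 * a.1ᵀ = 1 := mul_eq_one_comm.1 ha
    have h2 : (a⁻¹).1 = a.1ᵀ := by
      have h3 : (a⁻¹).1 * a.1 = 1 := val_inv_mul a
      calc (a⁻¹).1 = (a⁻¹).1 * (a.1 * a.1ᵀ) := by rw [h1, Matrix.mul_one]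
        _ = ((a⁻¹).1 * a.1) * a.1ᵀ := by rw [Matrix.mul_assoc]
        _ = a.1ᵀ := by rw [h3, Matrix.one_mul]
    change ((a⁻¹).1)ᵀ * (a⁻¹).1 = 1
    rw [h2, Matrix.transpose_transpose, h1]

theorem mem_KK {n : ℕ} {g : SLn n} : g ∈ KK n ↔ g.1ᵀ * g.1 = 1 := Iff.rfl

/-- The inverse transpose automorphism. -/
def invT {n : ℕ} (g : SLn n) : SLn n := (g⁻¹).transpose

/-- The contracting element `diag(2^(-(n-1)), 2, …, 2)`, with the small entry in place `o`. -/
noncomputable def bb {n : ℕ} (o : Fin n) : SLn n :=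
  ⟨Matrix.diagonal fun k => if k = o then ((2 : ℝ) ^ (n - 1))⁻¹ else 2, by
    rw [Matrix.det_diagonal, Finset.prod_ite, Finset.prod_const, Finset.prod_const]
    have h1 : (Finset.univ.filter fun k : Fin n => k = o).card = 1 := by
      rw [Finset.card_eq_one]
      exact ⟨o, by ext; simp⟩
    have h2 : (Finset.univ.filter fun k : Fin n => ¬ k = o).card = n - 1 := by
      rw [Finset.filter_ne' Finset.univ o, Finset.card_erase_of_mem (Finset.mem_univ _),
        Finset.card_univ, Fintype.card_fin]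
    rw [h1, h2, pow_one]
    exact inv_mul_cancel₀ (by positivity)⟩

end Pool.Agent.Lib.MP_4f3c81_gt.Inf
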