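import Pool.Agent.Lib.MP_4f3c81_gt.Inf.Stmts

/-!
# The case `k = ∞` from the last two steps
-/

open Filter Topology Set Matrix
open scoped ContDiff

namespace Pool.Agent.Lib.MP_4f3c81_gt.Inf

theorem glue (hN4 : S_N4) (hN5 : S_N5) (n m : ℕ) (h1 : n < m) (h2 : m < 2 * n - 2)
    (A : SLn n → VV m → VV m) (hone : ∀ x, A 1 x = x)
    (hmul : ∀ g h x, A (g * h) x = A g (A h x))
    (hcont : Continuous fun q : SLn n × VV m => A q.1 q.2)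
    (hsm : ∀ g, ContDiff ℝ ∞ (A g)) (h0 : ∀ g, A g 0 = 0) :
    ∃ (U V : Set (VV m)) (N : Set (SLn n)) (φ : OpenPartialHomeomorph (VV m) (VV m)),
      IsOpen U ∧ IsOpen V ∧ 0 ∈ V ∧ V ⊆ U ∧ N ∈ 𝓝 (1 : SLn n) ∧
      (∀ g ∈ N, ∀ x ∈ V, A g x ∈ U) ∧
      φ.source = U ∧ ContDiffOn ℝ ∞ φ U ∧ ContDiffOn ℝ ∞ φ.symm φ.target ∧ φ 0 = 0 ∧
      ∀ g ∈ N, ∀ x ∈ V, φ (A g x) = fderiv ℝ (A g) 0 (φ x) := by
  have hA : SAct (SLn n) (VV m) A := ⟨hone, hmul, hcont, hsm⟩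
  have hn : 4 ≤ n := by omega
  have hfr : Module.finrank ℝ (VV m) = m := by simp
  exact hN5 n (VV m) A hA h0 (hN4 n m hn h1 h2 (VV m) A hfr hA h0)

end Pool.Agent.Lib.MP_4f3c81_gt.Inf
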