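import Pool.Agent.Lib.MP_4f3c81_gt.Inf.Defs

/-!
# Identities between sign matrices, transvections and diagonal matrices
-/

open Filter Topology Set Matrix
open scoped ContDiff

namespace Pool.Agent.Lib.MP_4f3c81_gt.Inf

variable {n q : ℕ}

/-- the sign of `sg i j` in place `k` -/
def sgn (i j k : Fin n) : ℝ := (if k = i then -1 else 1) * (if k = j then -1 else 1)

theorem sgn_mul_self (i j k : Fin n) : sgn i j k * sgn i j k = 1 := by
  unfold sgn
  split_ifs <;> norm_num

theorem sg_val (i j : Fin n) : (sg i j).1 = Matrix.diagonal (sgn i j) := rfl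

theorem tv_val (i j : Fin n) (h : i ≠ j) (c : ℝ) :
    (tv i j h c).1 = 1 + Matrix.single i j c := rfl

theorem dg_val (i j : Fin n) (h : i ≠ j) (t : ℝ) (ht : t ≠ 0) :
    (dg i j h t ht).1 =
      Matrix.diagonal fun k => (if k = i then t else 1) * (if k = j then t⁻¹ else 1) := rfl

theorem bb_val (o : Fin n) :
    (bb o).1 = Matrix.diagonal fun k => if k = o then ((2 : ℝ) ^ (n - 1))⁻¹ else 2 := rfl

theorem SLn_ext {g h : SLn n} (H : g.1 = h.1) : g = h := Subtype.ext H

theorem sg_self (i : Fin n) : sg i i = 1 := by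
  apply SLn_ext
  rw [sg_val, val_one, ← Matrix.diagonal_one]
  congr 1
  funext k
  simp only [sgn]
  split_ifs <;> norm_num

theorem sg_comm (i j : Fin n) : sg i j = sg j i := by
  apply SLn_ext
  rw [sg_val, sg_val]
  congr 1
  funext k
  simp only [sgn]
  ring

theorem sg_mul_self (i j : Fin n) : sg i j * sg i j = 1 := by
  apply SLn_ext
  rw [val_mul, sg_val, Matrix.diagonal_mul_diagonal, val_one, ← Matrix.diagonal_one]
  congr 1
  funext k
  exact sgn_mul_self i j k

theorem sg_inv (i j : Fin n) : (sg i j)⁻¹ = sg i j :=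
  inv_eq_of_mul_eq_one_left (sg_mul_self i j)

theorem sg_mul_sg (i j k : Fin n) : sg i j * sg j k = sg i k := by
  apply SLn_ext
  rw [val_mul, sg_val, sg_val, Matrix.diagonal_mul_diagonal, sg_val]
  congr 1
  funext l
  simp only [sgn]
  split_ifs <;> norm_num

theorem sg_commute (i j k l : Fin n) : sg i j * sg k l = sg k l * sg i j := by
  apply SLn_ext
  rw [val_mul, val_mul, sg_val, sg_val, Matrix.diagonal_mul_diagonal,
    Matrix.diagonal_mul_diagonal]
  congr 1
  funext m
  ring

theorem sg_mul_dg (i j k l : Fin n) (h : k ≠ l) (t : ℝ) (ht : t ≠ 0) :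
    sg i j * dg k l h t ht = dg k l h t ht * sg i j := by
  apply SLn_ext
  rw [val_mul, val_mul, sg_val, dg_val, Matrix.diagonal_mul_diagonal,
    Matrix.diagonal_mul_diagonal]
  congr 1
  funext m
  ring

theorem sg_mul_bb (i j o : Fin n) : sg i j * bb o = bb o * sg i j := by
  apply SLn_ext
  rw [val_mul, val_mul, sg_val, bb_val, Matrix.diagonal_mul_diagonal,
    Matrix.diagonal_mul_diagonal]
  congr 1
  funext m
  ring

theorem tv_zero (i j : Fin n) (h : i ≠ j) : tv i j h 0 = 1 := by
  apply SLn_ext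
  rw [tv_val, val_one, Matrix.single_zero, add_zero]

theorem tv_add (i j : Fin n) (h : i ≠ j) (c d : ℝ) :
    tv i j h (c + d) = tv i j h c * tv i j h d := by
  apply SLn_ext
  exact (Matrix.transvection_mul_transvection_same i j h c d).symm

theorem tv_neg (i j : Fin n) (h : i ≠ j) (c : ℝ) : tv i j h (-c) = (tv i j h c)⁻¹ := by
  apply eq_inv_of_mul_eq_one_left
  rw [← tv_add, neg_add_cancel, tv_zero]

/-- conjugation of a transvection by a diagonal matrix -/
theorem diag_conj (d d' : Fin n → ℝ) (hd : ∀ k, d k * d' k = 1) (i j : Fin n) (c : ℝ) :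
    Matrix.diagonal d * (1 + Matrix.single i j c) * Matrix.diagonal d' =
      1 + Matrix.single i j (d i * c * d' j) := by
  rw [Matrix.mul_add, Matrix.mul_one, Matrix.add_mul, Matrix.diagonal_mul_diagonal]
  have h1 : (Matrix.diagonal fun k => d k * d' k) = (1 : Matrix (Fin n) (Fin n) ℝ) := by
    rw [← Matrix.diagonal_one]
    congr 1
    funext k
    exact hd k
  rw [h1]
  congr 1
  ext a b
  rw [Matrix.mul_diagonal, Matrix.diagonal_mul]
  simp only [Matrix.single_apply]
  split_ifs with h
  · rw [← h.1, ← h.2]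
  · simp

theorem sg_conj_tv (k l i j : Fin n) (h : i ≠ j) (c : ℝ) :
    sg k l * tv i j h c * (sg k l)⁻¹ = tv i j h (sgn k l i * sgn k l j * c) := by
  rw [sg_inv]
  apply SLn_ext
  rw [val_mul, val_mul, sg_val, tv_val, tv_val, diag_conj _ _ (sgn_mul_self k l)]
  congr 2
  ring

theorem dg_one (i j : Fin n) (h : i ≠ j) : dg i j h 1 one_ne_zero = 1 := by
  apply SLn_ext
  rw [dg_val, val_one, ← Matrix.diagonal_one]
  congr 1
  funext k
  simp

theorem dg_mul (i j : Fin n) (h : i ≠ j) (s t : ℝ) (hs : s ≠ 0) (ht : t ≠ 0) :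
    dg i j h (s * t) (mul_ne_zero hs ht) = dg i j h s hs * dg i j h t ht := by
  apply SLn_ext
  rw [val_mul, dg_val, dg_val, dg_val, Matrix.diagonal_mul_diagonal]
  congr 1
  funext k
  split_ifs
  · field_simp
  all_goals simp [mul_comm]

theorem dg_inv (i j : Fin n) (h : i ≠ j) (t : ℝ) (ht : t ≠ 0) :
    (dg i j h t ht)⁻¹ = dg i j h t⁻¹ (inv_ne_zero ht) := by
  symm
  apply eq_inv_of_mul_eq_one_left
  rw [← dg_mul]
  apply SLn_ext
  rw [dg_val, val_one, ← Matrix.diagonal_one]
  congr 1
  funext k
  simp [ht]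

theorem dg_commute (i j k l : Fin n) (h : i ≠ j) (h' : k ≠ l) (s t : ℝ) (hs : s ≠ 0)
    (ht : t ≠ 0) : dg i j h s hs * dg k l h' t ht = dg k l h' t ht * dg i j h s hs := by
  apply SLn_ext
  rw [val_mul, val_mul, dg_val, dg_val, Matrix.diagonal_mul_diagonal,
    Matrix.diagonal_mul_diagonal]
  congr 1
  funext m
  ring

theorem dg_conj_tv (i j : Fin n) (h : i ≠ j) (t : ℝ) (ht : t ≠ 0) (c : ℝ) :
    dg i j h t ht * tv i j h c * (dg i j h t ht)⁻¹ = tv i j h (t ^ 2 * c) := by
  rw [dg_inv]
  apply SLn_ext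
  rw [val_mul, val_mul, dg_val, tv_val, tv_val, dg_val, diag_conj]
  · congr 2
    simp only [if_true, h, h.symm, if_false, one_mul, mul_one, inv_inv]
    ring
  · intro k
    split_ifs <;> simp [ht]

/-- the commutator of transvections -/
theorem tv_commutator (i j k : Fin n) (hij : i ≠ j) (hjk : j ≠ k) (hik : i ≠ k) (a b : ℝ) :
    tv i j hij a * tv j k hjk b * (tv i j hij a)⁻¹ * (tv j k hjk b)⁻¹ = tv i k hik (a * b) := by
  rw [← tv_neg, ← tv_neg]
  apply SLn_ext
  simp only [val_mul, tv_val, Matrix.mul_add, Matrix.add_mul, Matrix.mul_one, Matrix.one_mul,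
    Matrix.single_mul_single_same, Matrix.single_mul_single_of_ne _ _ _ _ hij.symm,
    Matrix.single_mul_single_of_ne _ _ _ _ hjk.symm, Matrix.single_mul_single_of_ne _ _ _ _ hik.symm,
    Matrix.single_mul_single_of_ne _ _ _ _ hij, Matrix.single_mul_single_of_ne _ _ _ _ hjk,
    Matrix.single_mul_single_of_ne _ _ _ _ hik, add_zero, zero_add, Matrix.zero_mul]
  ext x y
  simp only [Matrix.add_apply, Matrix.single_apply]
  split_ifs <;> ring

/-- the matrix of `wy i j` -/
theorem wy_val (i j : Fin n) (h : i ≠ j) (a b : Fin n) :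
    (wy i j h).1 a b = if a = i then (if b = j then -1 else 0)
      else if a = j then (if b = i then 1 else 0) else if a = b then 1 else 0 := by
  unfold wy
  simp only [val_mul, tv_val, Matrix.mul_add, Matrix.add_mul, Matrix.mul_one, Matrix.one_mul,
    Matrix.single_mul_single_same, Matrix.single_mul_single_of_ne _ _ _ _ h.symm]
  simp only [Matrix.add_apply, Matrix.single_apply, Matrix.one_apply]
  by_cases hai : a = i
  · subst hai
    by_cases hbj : b = j
    · subst hbj
      simp [h, h.symm]
    · by_cases hba : b = a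
      · subst hba
        simp [h, h.symm]
      · simp [h, h.symm, hbj, Ne.symm hbj, hba, Ne.symm hba]
  · by_cases haj : a = j
    · subst haj
      by_cases hbi : b = i
      · subst hbi
        simp [h, h.symm]
      · by_cases hba : b = a
        · subst hba
          simp [h, h.symm]
        · simp [h, h.symm, hbi, Ne.symm hbi, hba, Ne.symm hba]
    · simp [hai, haj, Ne.symm hai, Ne.symm haj]

theorem wy_sq (i j : Fin n) (h : i ≠ j) : wy i j h * wy i j h = sg i j := by
  apply SLn_ext
  ext a b
  rw [val_mul, Matrix.mul_apply, sg_val, Matrix.diagonal_apply]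
  simp only [wy_val]
  by_cases hai : a = i
  · subst hai
    rw [Finset.sum_eq_single j]
    · simp [h.symm, sgn, h, eq_comm]
    · intro c _ hc
      simp [hc]
    · simp
  · by_cases haj : a = j
    · subst haj
      rw [Finset.sum_eq_single i]
      · simp [h, h.symm, sgn, eq_comm]
      · intro c _ hc
        simp [hc, h.symm]
      · simp
    · rw [Finset.sum_eq_single a]
      · simp [hai, haj, sgn]
      · intro c _ hc
        simp [hai, haj, Ne.symm hc]
      · simp

/-- `wy` moves a diagonal matrix -/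
theorem wy_mul_diag (i j : Fin n) (h : i ≠ j) (d : Fin n → ℝ) :
    (wy i j h).1 * Matrix.diagonal d =
      Matrix.diagonal (fun k => d (Equiv.swap i j k)) * (wy i j h).1 := by
  ext a b
  rw [Matrix.mul_diagonal, Matrix.diagonal_mul, wy_val]
  by_cases hai : a = i
  · subst hai
    by_cases hbj : b = j
    · subst hbj
      simp
    · simp [hbj]
  · by_cases haj : a = j
    · subst haj
      by_cases hbi : b = i
      · subst hbi
        simp [hai]
      · simp [hai, hbi]
    · by_cases hab : a = b
      · subst hab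
        simp [hai, haj, Equiv.swap_apply_of_ne_of_ne hai haj]
      · simp [hai, haj, hab]

theorem wy_conj_sg (i j : Fin n) (h : i ≠ j) (k l : Fin n) :
    wy i j h * sg k l * (wy i j h)⁻¹ = sg (Equiv.swap i j k) (Equiv.swap i j l) := by
  rw [mul_inv_eq_iff_eq_mul]
  apply SLn_ext
  rw [val_mul, val_mul, sg_val, sg_val, wy_mul_diag]
  congr 2
  funext m
  simp only [sgn]
  congr 1
  · have : (Equiv.swap i j m = k) ↔ (m = Equiv.swap i j k) := by
      constructor
      · intro hm; rw [← hm, Equiv.swap_apply_self]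
      · intro hm; rw [hm, Equiv.swap_apply_self]
    simp only [this]
  · have : (Equiv.swap i j m = l) ↔ (m = Equiv.swap i j l) := by
      constructor
      · intro hm; rw [← hm, Equiv.swap_apply_self]
      · intro hm; rw [hm, Equiv.swap_apply_self]
    simp only [this]

theorem wy_conj_dg (i j : Fin n) (h : i ≠ j) (t : ℝ) (ht : t ≠ 0) :
    wy i j h * dg i j h t ht * (wy i j h)⁻¹ = dg i j h t⁻¹ (inv_ne_zero ht) := by
  rw [mul_inv_eq_iff_eq_mul]
  apply SLn_ext
  rw [val_mul, val_mul, dg_val, dg_val, wy_mul_diag]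
  congr 2
  funext m
  by_cases hmi : m = i
  · subst hmi
    simp [h, h.symm]
  · by_cases hmj : m = j
    · subst hmj
      simp [h, h.symm]
    · simp [Equiv.swap_apply_of_ne_of_ne hmi hmj, hmi, hmj]

theorem wy_commute_dg (i j k l : Fin n) (h : i ≠ j) (h' : k ≠ l) (h1 : k ≠ i) (h2 : k ≠ j)
    (h3 : l ≠ i) (h4 : l ≠ j) (t : ℝ) (ht : t ≠ 0) :
    wy k l h' * dg i j h t ht * (wy k l h')⁻¹ = dg i j h t ht := by
  rw [mul_inv_eq_iff_eq_mul]
  apply SLn_ext
  rw [val_mul, val_mul, dg_val, wy_mul_diag]
  congr 2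
  funext m
  by_cases hmi : m = k
  · subst hmi
    simp [h1, h2, h3, h4]
  · by_cases hmj : m = l
    · subst hmj
      simp [h1, h2, h3, h4]
    · simp [Equiv.swap_apply_of_ne_of_ne hmi hmj]

/-! ### topology -/

theorem isClosedEmbedding_SLn : IsClosedEmbedding (fun g : SLn n => g.1) :=
  SpecialLinearGroup.isClosedEmbedding_val

instance instT2SLn : T2Space (SLn n) := isClosedEmbedding_SLn.isEmbedding.t2Space

instance instLCMatrix : LocallyCompactSpace (Matrix (Fin n) (Fin n) ℝ) :=
  inferInstanceAs (LocallyCompactSpace (Fin n → Fin n → ℝ))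

instance instSCMatrix : SecondCountableTopology (Matrix (Fin n) (Fin n) ℝ) :=
  inferInstanceAs (SecondCountableTopology (Fin n → Fin n → ℝ))

instance instLCSLn : LocallyCompactSpace (SLn n) :=
  isClosedEmbedding_SLn.locallyCompactSpace

instance instSCSLn : SecondCountableTopology (SLn n) :=
  isClosedEmbedding_SLn.isEmbedding.secondCountableTopology

instance instSCKK : SecondCountableTopology (KK n) :=
  TopologicalSpace.Subtype.secondCountableTopology (KK n : Set (SLn n))

example : BaireSpace (SLn n) := inferInstance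

example : IsTopologicalGroup (KK n) := inferInstance

example : T2Space (KK n) := inferInstance

/-! ### the linear maps -/

theorem TM_diagonal_apply (d : Fin n → ℝ) (x : VV n) (k : Fin n) :
    TM (Matrix.diagonal d) x k = d k * x k := by
  rw [TM_apply, Matrix.mulVec_diagonal]

theorem TM_sg_apply (i j : Fin n) (x : VV n) (k : Fin n) :
    TM (sg i j).1 x k = sgn i j k * x k := by
  rw [sg_val, TM_diagonal_apply]

theorem TM_tv_apply (i j : Fin n) (h : i ≠ j) (c : ℝ) (x : VV n) :
    TM (tv i j h c).1 x = x + EuclideanSpace.single i (c * x j) := by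
  ext k
  rw [TM_apply, tv_val, Matrix.add_mulVec, Matrix.one_mulVec]
  simp only [Pi.add_apply, PiLp.add_apply, Matrix.mulVec, dotProduct, Matrix.single_apply,
    PiLp.single_apply]
  congr 1
  by_cases hk : i = k
  · subst hk
    simp
  · simp [hk, Ne.symm hk]

theorem TM_single (M : Matrix (Fin n) (Fin n) ℝ) (j : Fin n) (r : ℝ) (k : Fin n) :
    TM M (EuclideanSpace.single j r) k = M k j * r := by
  rw [TM_apply]
  simp only [Matrix.mulVec, dotProduct]
  rw [Finset.sum_eq_single j]
  · simp
  · intro b _ hb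
    simp [hb]
  · simp

end Pool.Agent.Lib.MP_4f3c81_gt.Inf
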