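import Pool.Agent.Lib.MP_4f3c81_gt.Inf.Stmts

open Filter Topology Set Matrix
open scoped ContDiff

namespace Pool.Agent.Lib.MP_4f3c81_gt.Inf

theorem p_C4 (hA2 : S_A2) (hC1 : S_C1) (hC2 : S_C2) (hC3 : S_C3) : S_C4 := by
  intro n q hn A hA hA0 hAd
  obtain ⟨φ, ψ, δ₁, hch⟩ := hC1 n q A hA hA0 hAd
  obtain ⟨δ₂, hδ₂, h₂⟩ := hC2 n q hn A φ ψ δ₁ hch
  obtain ⟨δ₃, hδ₃, h₃⟩ := hC3 n q hn A φ ψ δ₁ hch
  have hA2' := hA2 (SLn n) (FF n q) A hA
  obtain ⟨δ, hδ⟩ : ∃ δ, δ = min δ₁ (min δ₂ δ₃) := ⟨_, rfl⟩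
  have hd1 : δ ≤ δ₁ := by rw [hδ]; exact min_le_left _ _
  have hd2 : δ ≤ δ₂ := by rw [hδ]; exact (min_le_right _ _).trans (min_le_left _ _)
  have hd3 : δ ≤ δ₃ := by rw [hδ]; exact (min_le_right _ _).trans (min_le_right _ _)
  have hpos : 0 < δ := by rw [hδ]; exact lt_min hch.pos (lt_min hδ₂ hδ₃)
  have hsub : Metric.ball (0 : FF n q) δ ⊆ Metric.ball 0 δ₁ := Metric.ball_subset_ball hd1
  have hψ : ContDiffOn ℝ ∞ ψ (Metric.ball 0 δ) := hch.psi_smooth.mono hsub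
  have hψc : ContinuousOn ψ (Metric.ball 0 δ) := hψ.continuousOn
  have hz : ∀ z : VV q, ‖z‖ < δ → ((0 : VV n), z) ∈ Metric.ball (0 : FF n q) δ := by
    intro z hz
    rw [mem_ball_zero_iff, Prod.norm_def, norm_zero]
    exact max_lt hpos hz
  have hφd : Differentiable ℝ φ := hch.phi_smooth.differentiable (by simp)
  have hAgd : ∀ g, Differentiable ℝ (A g) := fun g => (hA.smooth g).differentiable (by simp)
  have hψd : ∀ y ∈ Metric.ball (0 : FF n q) δ, DifferentiableAt ℝ ψ y := fun y hy =>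
    (hψ.differentiableOn (by simp)).differentiableAt (Metric.isOpen_ball.mem_nhds hy)
  have hpair : ContinuousOn (fun p : SLn n × FF n q => (p.1, ψ p.2))
      (univ ×ˢ Metric.ball 0 δ) :=
    continuousOn_fst.prodMk (hψc.comp continuousOn_snd fun p hp => hp.2)
  have hcont2 : ContinuousOn (fun p : SLn n × FF n q => A p.1 (ψ p.2))
      (univ ×ˢ Metric.ball 0 δ) := hA.cont.comp_continuousOn hpair
  have hat : ∀ g₀ : SLn n, Tendsto (fun p : SLn n × FF n q => A p.1 (ψ p.2)) (𝓝 (g₀, 0))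
      (𝓝 0) := by
    intro g₀
    have h4 : univ ×ˢ Metric.ball (0 : FF n q) δ ∈ 𝓝 (g₀, (0 : FF n q)) :=
      prod_mem_nhds univ_mem (Metric.ball_mem_nhds _ hpos)
    have h5 := (hcont2.continuousAt h4).tendsto
    have h6 : A g₀ (ψ 0) = 0 := by rw [hch.psi0, hA0]
    rw [h6] at h5
    exact h5
  refine ⟨φ, fun g y => φ (A g (ψ y)), δ, ?_, hch.phi_smooth, hch.phi0, hch.dphi, ?_⟩
  · refine ⟨hpos, fun g => ?_, ?_, ?_, fun g z hz' => ?_, fun g z hz' => ?_,
      fun k hk y hy => ?_, fun g₀ => ?_⟩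
    · exact hch.phi_smooth.comp_contDiffOn ((hA.smooth g).comp_contDiffOn hψ)
    · exact hch.phi_smooth.continuous.comp_continuousOn hcont2
    · have hc : ContinuousOn (fun p : SLn n × FF n q =>
          ((fderiv ℝ φ (A p.1 (ψ p.2))).comp (fderiv ℝ (A p.1) (ψ p.2))).comp
            (fderiv ℝ ψ p.2)) (univ ×ˢ Metric.ball 0 δ) := by
        have c1 : ContinuousOn (fun p : SLn n × FF n q => fderiv ℝ φ (A p.1 (ψ p.2)))
            (univ ×ˢ Metric.ball 0 δ) :=
          (hch.phi_smooth.continuous_fderiv (by simp)).comp_continuousOn hcont2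
        have c2 : ContinuousOn (fun p : SLn n × FF n q => fderiv ℝ (A p.1) (ψ p.2))
            (univ ×ˢ Metric.ball 0 δ) := hA2'.comp_continuousOn hpair
        have c3 : ContinuousOn (fun p : SLn n × FF n q => fderiv ℝ ψ p.2)
            (univ ×ˢ Metric.ball 0 δ) := by
          have c4 := hψ.continuousOn_fderiv_of_isOpen Metric.isOpen_ball (by simp)
          exact c4.comp continuousOn_snd fun p hp => hp.2
        exact (c1.clm_comp c2).clm_comp c3
      refine hc.congr fun p hp => ?_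
      have h7 : HasFDerivAt (fun y => φ (A p.1 (ψ y)))
          (((fderiv ℝ φ (A p.1 (ψ p.2))).comp (fderiv ℝ (A p.1) (ψ p.2))).comp
            (fderiv ℝ ψ p.2)) p.2 := by
        have h8 := (hφd (A p.1 (ψ p.2))).hasFDerivAt.comp (ψ p.2)
          (hAgd p.1 (ψ p.2)).hasFDerivAt
        exact h8.comp p.2 (hψd p.2 hp.2).hasFDerivAt
      exact h7.fderiv
    · change φ (A g (ψ (0, z))) = (0, z)
      rw [h₂ z (hz'.trans_le hd2) g, hch.phi_psi _ (hsub (hz z hz'))]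
    · exact h₃ z (hz'.trans_le hd3) g
    · change φ (A k (ψ y)) = st k y
      rw [hch.phi_k k hk, hch.phi_psi y (hsub hy)]
    · filter_upwards [(hat g₀).eventually hch.psi_phi] with p hp h
      change φ (A h (ψ (φ (A p.1 (ψ p.2))))) = φ (A (h * p.1) (ψ p.2))
      rw [hp, hA.mul]
  · have h4 : Tendsto (fun p : SLn n × FF n q => p.2) (𝓝 ((1 : SLn n), (0 : FF n q))) (𝓝 0) :=
      continuous_snd.tendsto ((1 : SLn n), (0 : FF n q))
    filter_upwards [h4.eventually hch.psi_phi] with p hp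
    change φ (A p.1 p.2) = φ (A p.1 (ψ (φ p.2)))
    rw [hp]

end Pool.Agent.Lib.MP_4f3c81_gt.Inf
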