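import Pool.Agent.Lib.MP_4f3c81_gt.Inf.Stmts

/-!
# Piece G1: transvections generate `SL(n, ℝ)`   (helper54)
-/

open Filter Topology Set Matrix
open scoped ContDiff

namespace Pool.Agent.Lib.MP_4f3c81_gt.Inf

variable {n : ℕ}

/-- the subgroup generated by the transvections -/
private def g1_C (n : ℕ) : Subgroup (SLn n) :=
  Subgroup.closure {g : SLn n | ∃ (i j : Fin n) (h : i ≠ j) (c : ℝ), g = tv i j h c}

private theorem g1_tv_mem (i j : Fin n) (h : i ≠ j) (c : ℝ) : tv i j h c ∈ g1_C n :=
  Subgroup.subset_closure ⟨i, j, h, c, rfl⟩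

/-- the monomial element of the plane `i, j` -/
private noncomputable def g1_w (i j : Fin n) (h : i ≠ j) (t : ℝ) : SLn n :=
  tv i j h t * tv j i h.symm (-t⁻¹) * tv i j h t

private theorem g1_w_mem (i j : Fin n) (h : i ≠ j) (t : ℝ) : g1_w i j h t ∈ g1_C n :=
  mul_mem (mul_mem (g1_tv_mem _ _ _ _) (g1_tv_mem _ _ _ _)) (g1_tv_mem _ _ _ _)

private theorem g1_w_val (i j : Fin n) (h : i ≠ j) (t : ℝ) (ht : t ≠ 0) (a b : Fin n) :
    (g1_w i j h t).1 a b = if a = i then (if b = j then t else 0)
      else if a = j then (if b = i then -t⁻¹ else 0) else if a = b then 1 else 0 := by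
  unfold g1_w
  simp only [val_mul, tv_val, Matrix.mul_add, Matrix.add_mul, Matrix.mul_one, Matrix.one_mul,
    Matrix.single_mul_single_same, Matrix.single_mul_single_of_ne _ _ _ _ h.symm]
  simp only [Matrix.add_apply, Matrix.single_apply, Matrix.one_apply]
  by_cases hai : a = i
  · subst hai
    by_cases hbj : b = j
    · subst hbj
      simp [h, h.symm, ht]
    · by_cases hba : b = a
      · subst hba
        simp [h, h.symm, ht]
      · simp [h, h.symm, hbj, Ne.symm hbj, hba, Ne.symm hba]
  · by_cases haj : a = j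
    · subst haj
      by_cases hbi : b = i
      · subst hbi
        simp [h, h.symm]
      · by_cases hba : b = a
        · subst hba
          simp [h, h.symm, ht]
        · simp [h, h.symm, hbi, Ne.symm hbi, hba, Ne.symm hba]
    · simp [hai, haj, Ne.symm hai, Ne.symm haj]

private theorem g1_dg_eq (i j : Fin n) (h : i ≠ j) (t : ℝ) (ht : t ≠ 0) :
    dg i j h t ht = g1_w i j h t * g1_w i j h (-1) := by
  have hm : (-1 : ℝ) ≠ 0 := by norm_num
  apply SLn_ext
  ext a b
  rw [val_mul, Matrix.mul_apply, dg_val, Matrix.diagonal_apply]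
  simp only [g1_w_val i j h t ht, g1_w_val i j h (-1) hm]
  by_cases hai : a = i
  · subst hai
    rw [Finset.sum_eq_single j]
    · by_cases hb : a = b
      · subst hb
        simp [h, h.symm]
      · simp [h, h.symm, hb, Ne.symm hb]
    · intro c _ hc
      simp [hc]
    · simp
  · by_cases haj : a = j
    · subst haj
      rw [Finset.sum_eq_single i]
      · by_cases hb : a = b
        · subst hb
          simp [h, h.symm]
        · simp [h, h.symm, hb, Ne.symm hb]
      · intro c _ hc
        simp [hc, h.symm]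
      · simp
    · rw [Finset.sum_eq_single a]
      · simp [hai, haj]
      · intro c _ hc
        simp [hai, haj, Ne.symm hc]
      · simp

private theorem g1_dg_mem (i j : Fin n) (h : i ≠ j) (t : ℝ) (ht : t ≠ 0) :
    dg i j h t ht ∈ g1_C n := by
  rw [g1_dg_eq]
  exact mul_mem (g1_w_mem _ _ _ _) (g1_w_mem _ _ _ _)

/-- partial products of the diagonal matrix -/
private noncomputable def g1_E (o : Fin n) (D : Fin n → ℝ) (T : Finset (Fin n)) (k : Fin n) : ℝ :=
  if k = o then (∏ j ∈ T, D j)⁻¹ else if k ∈ T then D k else 1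

private theorem g1_E_mem (o : Fin n) (D : Fin n → ℝ) (hD : ∀ j, D j ≠ 0) (T : Finset (Fin n))
    (hT : o ∉ T) : ∃ g ∈ g1_C n, g.1 = Matrix.diagonal (g1_E o D T) := by
  induction T using Finset.induction_on with
  | empty =>
    refine ⟨1, one_mem _, ?_⟩
    rw [val_one, ← Matrix.diagonal_one]
    congr 1
    funext k
    unfold g1_E
    simp
  | insert j T hj ih =>
    have hoj : j ≠ o := by
      intro e
      exact hT (by rw [e]; exact Finset.mem_insert_self _ _)
    have hoT : o ∉ T := fun e => hT (Finset.mem_insert_of_mem e)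
    obtain ⟨g, hg, hgv⟩ := ih hoT
    refine ⟨g * dg j o hoj (D j) (hD j), mul_mem hg (g1_dg_mem _ _ _ _ _), ?_⟩
    rw [val_mul, hgv, dg_val, Matrix.diagonal_mul_diagonal]
    congr 1
    funext k
    unfold g1_E
    by_cases hko : k = o
    · subst hko
      rw [Finset.prod_insert hj]
      simp [hoj.symm, mul_inv, mul_comm]
    · by_cases hkj : k = j
      · subst hkj
        simp [hko, hj]
      · simp [hko, hkj]

private theorem g1_diag (D : Fin n → ℝ) (hD : ∏ j, D j = 1) :
    ∃ g ∈ g1_C n, g.1 = Matrix.diagonal D := by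
  classical
  have hne : ∀ j, D j ≠ 0 := by
    intro j hj
    have : ∏ j, D j = 0 := Finset.prod_eq_zero (Finset.mem_univ j) hj
    rw [this] at hD
    exact zero_ne_one hD
  rcases isEmpty_or_nonempty (Fin n) with he | ⟨⟨o⟩⟩
  · refine ⟨1, one_mem _, ?_⟩
    ext a
    exact he.elim a
  · obtain ⟨g, hg, hgv⟩ := g1_E_mem o D hne (Finset.univ.erase o) (Finset.notMem_erase _ _)
    refine ⟨g, hg, ?_⟩
    rw [hgv]
    congr 1
    funext k
    unfold g1_E
    by_cases hko : k = o
    · subst hko
      rw [if_pos rfl]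
      have h1 := Finset.mul_prod_erase Finset.univ D (Finset.mem_univ k)
      rw [hD] at h1
      exact (eq_inv_of_mul_eq_one_left h1).symm
    · rw [if_neg hko, if_pos (Finset.mem_erase.2 ⟨hko, Finset.mem_univ _⟩)]

theorem p_G1 : S_G1 := by
  intro n
  change g1_C n = ⊤
  rw [eq_top_iff]
  intro M _
  have key : ∃ g ∈ g1_C n, g.1 = M.1 := by
    apply Matrix.diagonal_transvection_induction (fun A => ∃ g ∈ g1_C n, g.1 = A) M.1
    · intro D hD
      apply g1_diag
      rw [← Matrix.det_diagonal, hD]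
      exact M.2
    · intro t
      exact ⟨tv t.i t.j t.hij t.c, g1_tv_mem _ _ _ _, rfl⟩
    · rintro A B ⟨g, hg, rfl⟩ ⟨g', hg', rfl⟩
      exact ⟨g * g', mul_mem hg hg', val_mul g g'⟩
  obtain ⟨g, hg, hgv⟩ := key
  rw [← SLn_ext hgv]
  exact hg

end Pool.Agent.Lib.MP_4f3c81_gt.Inf
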