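import Pool.Agent.Lib.MP_4f3c81_gt.Inf.Stmts

open Filter Topology Set Matrix
open scoped ContDiff

namespace Pool.Agent.Lib.MP_4f3c81_gt.Inf

/-- Householder reflection. -/
private noncomputable def k2_H {n : ℕ} (w : Fin n → ℝ) : Matrix (Fin n) (Fin n) ℝ :=
  1 + Matrix.vecMulVec ((-(2 / (w ⬝ᵥ w))) • w) w

private theorem k2_mulVec {n : ℕ} (w x : Fin n → ℝ) :
    (k2_H w) *ᵥ x = x + (w ⬝ᵥ x) • ((-(2 / (w ⬝ᵥ w))) • w) := by
  unfold k2_H
  rw [Matrix.add_mulVec, Matrix.one_mulVec, Matrix.vecMulVec_mulVec]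
  rw [op_smul_eq_smul]

private theorem k2_transpose {n : ℕ} (w : Fin n → ℝ) : (k2_H w)ᵀ = k2_H w := by
  unfold k2_H
  ext i j
  simp only [Matrix.transpose_apply, Matrix.add_apply, Matrix.vecMulVec_apply, Pi.smul_apply,
    smul_eq_mul, Matrix.one_apply]
  by_cases h : i = j
  · subst h; rfl
  · rw [if_neg h, if_neg (Ne.symm h)]; ring

private theorem k2_sq {n : ℕ} (w : Fin n → ℝ) (hw : w ⬝ᵥ w ≠ 0) : k2_H w * k2_H w = 1 := by
  apply Matrix.mulVec_injective
  funext x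
  rw [← Matrix.mulVec_mulVec, k2_mulVec, k2_mulVec, Matrix.one_mulVec, dotProduct_add,
    dotProduct_smul, dotProduct_smul]
  funext i
  simp only [Pi.add_apply, Pi.smul_apply, smul_eq_mul]
  field_simp
  ring

private theorem k2_det {n : ℕ} (w : Fin n → ℝ) (hw : w ⬝ᵥ w ≠ 0) : (k2_H w).det = -1 := by
  unfold k2_H
  rw [Matrix.vecMulVec_eq Unit, Matrix.det_one_add_replicateCol_mul_replicateRow]
  rw [dotProduct_smul, smul_eq_mul]
  field_simp
  norm_num

private theorem k2_dot {n : ℕ} (u : VV n) (hu : ‖u‖ = 1) :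
    (WithLp.ofLp u) ⬝ᵥ (WithLp.ofLp u) = 1 := by
  have h := EuclideanSpace.norm_sq_eq u
  rw [hu] at h
  simp only [dotProduct]
  have : ∀ i, ‖u i‖ ^ 2 = u i * u i := fun i => by
    rw [Real.norm_eq_abs, sq_abs]; ring
  simp only [this] at h
  rw [← h]; norm_num

theorem p_K2 : S_K2 := by
  intro n hn u v hu hv
  by_cases huv : u = v
  · refine ⟨1, Subgroup.one_mem _, ?_⟩
    rw [val_one, TM_one, huv]
    rfl
  set a : Fin n → ℝ := WithLp.ofLp u with ha
  set b : Fin n → ℝ := WithLp.ofLp v with hb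
  have haa : a ⬝ᵥ a = 1 := k2_dot u hu
  have hbb : b ⬝ᵥ b = 1 := k2_dot v hv
  have hab : a ≠ b := fun h => huv (WithLp.ofLp_injective 2 h)
  -- the first reflection
  set w : Fin n → ℝ := a - b with hw
  have hw0 : w ≠ 0 := sub_ne_zero.2 hab
  have hww : w ⬝ᵥ w ≠ 0 := fun h => hw0 (dotProduct_self_eq_zero.1 h)
  have hba : b ⬝ᵥ a = a ⬝ᵥ b := dotProduct_comm _ _
  have hww2 : w ⬝ᵥ w = 2 - 2 * (a ⬝ᵥ b) := by
    rw [hw, sub_dotProduct, dotProduct_sub, dotProduct_sub, haa, hbb, hba]; ring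
  have hwa : w ⬝ᵥ a = 1 - a ⬝ᵥ b := by
    rw [hw, sub_dotProduct, haa, hba]
  have h1 : k2_H w *ᵥ a = b := by
    rw [k2_mulVec, smul_smul]
    have h2 : (w ⬝ᵥ a) * -(2 / (w ⬝ᵥ w)) = -1 := by
      have hne : (1 : ℝ) - a ⬝ᵥ b ≠ 0 := by
        intro h
        apply hww
        rw [hww2]
        linarith
      rw [hwa, hww2, show (2 : ℝ) - 2 * (a ⬝ᵥ b) = 2 * (1 - a ⬝ᵥ b) by ring]
      field_simp
    rw [h2, hw]
    funext i
    simp
  -- the second reflection
  obtain ⟨z, hz0, hzb⟩ : ∃ z : Fin n → ℝ, z ≠ 0 ∧ z ⬝ᵥ b = 0 := by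
    set i : Fin n := ⟨0, by omega⟩ with hi
    set j : Fin n := ⟨1, by omega⟩ with hj
    have hij : i ≠ j := by
      rw [hi, hj]; intro h; have := Fin.mk.inj_iff.1 h; omega
    by_cases hbi : b i = 0
    · refine ⟨Pi.single i 1, ?_, ?_⟩
      · intro h
        have := congrFun h i
        simp at this
      · rw [single_dotProduct, hbi, mul_zero]
    · refine ⟨b j • Pi.single i 1 - b i • Pi.single j 1, ?_, ?_⟩
      · intro h
        have := congrFun h j
        simp [hij, hbi] at this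
      · rw [sub_dotProduct, smul_dotProduct, smul_dotProduct, single_dotProduct,
          single_dotProduct]
        simp only [smul_eq_mul]
        ring
  have hzz : z ⬝ᵥ z ≠ 0 := fun h => hz0 (dotProduct_self_eq_zero.1 h)
  have h3 : k2_H z *ᵥ b = b := by
    rw [k2_mulVec, hzb, zero_smul, add_zero]
  refine ⟨⟨k2_H z * k2_H w, ?_⟩, ?_, ?_⟩
  · rw [Matrix.det_mul, k2_det z hzz, k2_det w hww]; norm_num
  · change (k2_H z * k2_H w)ᵀ * (k2_H z * k2_H w) = 1
    rw [Matrix.transpose_mul, k2_transpose, k2_transpose]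
    calc k2_H w * k2_H z * (k2_H z * k2_H w) = k2_H w * (k2_H z * k2_H z) * k2_H w := by
          simp only [Matrix.mul_assoc]
      _ = 1 := by rw [k2_sq z hzz, Matrix.mul_one, k2_sq w hww]
  · change TM (k2_H z * k2_H w) u = v
    apply WithLp.ofLp_injective 2
    funext i
    change TM (k2_H z * k2_H w) u i = b i
    rw [TM_apply, ← Matrix.mulVec_mulVec]
    rw [← ha, h1, h3]

end Pool.Agent.Lib.MP_4f3c81_gt.Inf
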