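import Pool.Agent.Lib.MP_4f3c81_gt.Inf.Stmts

/-!
# Trivial linear part implies locally trivial action
-/

open Filter Topology Set Matrix MeasureTheory
open scoped ContDiff

namespace Pool.Agent.Lib.MP_4f3c81_gt.Inf

/-- the stabiliser of a point -/
private def n3_stab {n : ℕ} {E : Type} [NormedAddCommGroup E] [NormedSpace ℝ E]
    {A : SLn n → E → E} (hA : SAct (SLn n) E A) (x : E) : Subgroup (SLn n) where
  carrier := {g | A g x = x}
  one_mem' := hA.one x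
  mul_mem' := by
    intro a b ha hb
    change A (a * b) x = x
    have ha' : A a x = x := ha
    have hb' : A b x = x := hb
    rw [hA.mul, hb', ha']
  inv_mem' := by
    intro a ha
    change A a⁻¹ x = x
    have ha' : A a x = x := ha
    calc A a⁻¹ x = A a⁻¹ (A a x) := by rw [ha']
      _ = x := by rw [← hA.mul, inv_mul_cancel, hA.one]

theorem p_N3 (hB1 : S_B1) (hG2 : S_G2) (hK1 : S_K1) : S_N3 := by
  intro n E _ _ _ A hA h0 hd
  haveI : CompactSpace (KK n) := isCompact_iff_compactSpace.1 (hK1 n)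
  have hAK : SAct (KK n) E (fun k : KK n => A k.1) := by
    refine ⟨?_, ?_, ?_, ?_⟩
    · intro x; exact hA.one x
    · intro g h x; exact hA.mul g.1 h.1 x
    · exact hA.cont.comp ((continuous_subtype_val.comp continuous_fst).prodMk continuous_snd)
    · intro g; exact hA.smooth g.1
  obtain ⟨φ, hφs, -, hφd, hφk⟩ := hB1 (KK n) E (fun k : KK n => A k.1) hAK (fun k => h0 k.1)
  have hφk' : ∀ k ∈ KK n, ∀ x, φ (A k x) = φ x := by
    intro k hk x
    have h1 := hφk ⟨k, hk⟩ x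
    have h2 : fderiv ℝ (A k) 0 (φ x) = φ x := by rw [hd k]; rfl
    exact h1.trans h2
  -- local injectivity
  have hst : HasStrictFDerivAt φ
      ((ContinuousLinearEquiv.refl ℝ E : E ≃L[ℝ] E) : E →L[ℝ] E) 0 := by
    have h1 : HasStrictFDerivAt φ (fderiv ℝ φ 0) 0 :=
      hφs.contDiffAt.hasStrictFDerivAt (by simp)
    rw [hφd] at h1
    exact h1
  obtain ⟨U, hUo, h0U, hUi⟩ : ∃ U : Set E, IsOpen U ∧ (0 : E) ∈ U ∧ InjOn φ U := by
    refine ⟨(hst.toOpenPartialHomeomorph φ).source, (hst.toOpenPartialHomeomorph φ).open_source,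
      hst.mem_toOpenPartialHomeomorph_source, ?_⟩
    exact (hst.toOpenPartialHomeomorph φ).injOn
  -- uniformity over the compact subgroup
  obtain ⟨ρ₀, hρ₀, hρ⟩ : ∃ ρ₀ > 0, ∀ x : E, ‖x‖ < ρ₀ → ∀ k ∈ KK n, A k x ∈ U := by
    have hop : IsOpen {q : SLn n × E | A q.1 q.2 ∈ U} := hUo.preimage hA.cont
    have hsub : (KK n : Set (SLn n)) ×ˢ ({0} : Set E) ⊆ {q : SLn n × E | A q.1 q.2 ∈ U} := by
      rintro ⟨k, x⟩ ⟨-, hx⟩
      have hx' : x = 0 := hx
      change A k x ∈ U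
      rw [hx', h0]
      exact h0U
    obtain ⟨u, v, -, hv, hu, h0v, huv⟩ := generalized_tube_lemma (hK1 n) isCompact_singleton hop hsub
    obtain ⟨ρ₀, hρ₀, hb⟩ := Metric.isOpen_iff.1 hv 0 (h0v rfl)
    refine ⟨ρ₀, hρ₀, ?_⟩
    intro x hx k hk
    have hxv : x ∈ v := hb (by rw [mem_ball_zero_iff]; exact hx)
    exact huv (Set.mk_mem_prod (hu hk) hxv)
  have hfix : ∀ x : E, ‖x‖ < ρ₀ → ∀ k ∈ KK n, A k x = x := by
    intro x hx k hk
    have h1 : A 1 x ∈ U := hρ x hx 1 (KK n).one_mem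
    rw [hA.one] at h1
    exact hUi (hρ x hx k hk) h1 (hφk' k hk x)
  -- elements near the identity
  have hcont : Tendsto (fun q : SLn n × E => A q.1 q.2) (𝓝 ((1 : SLn n), (0 : E))) (𝓝 0) := by
    have h1 := hA.cont.tendsto ((1 : SLn n), (0 : E))
    have h2 : A ((1 : SLn n), (0 : E)).1 ((1 : SLn n), (0 : E)).2 = 0 := h0 1
    rw [h2] at h1
    exact h1
  have hev : ∀ᶠ q : SLn n × E in 𝓝 ((1 : SLn n), (0 : E)), A q.1 q.2 ∈ Metric.ball (0 : E) ρ₀ :=
    hcont (Metric.ball_mem_nhds 0 hρ₀)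
  rw [nhds_prod_eq, eventually_prod_iff] at hev
  obtain ⟨p, hp, r, hr, hpr⟩ := hev
  obtain ⟨ρ₁, hρ₁, hb₁⟩ := Metric.mem_nhds_iff.1 hr
  refine ⟨min ρ₀ ρ₁, lt_min hρ₀ hρ₁, ?_⟩
  intro x hx
  have hx0 : ‖x‖ < ρ₀ := lt_of_lt_of_le hx (min_le_left _ _)
  have hx1 : ‖x‖ < ρ₁ := lt_of_lt_of_le hx (min_le_right _ _)
  have hrx : r x := hb₁ (by rw [mem_ball_zero_iff]; exact hx1)
  have htop : n3_stab hA x = ⊤ := by
    apply hG2 n (n3_stab hA x) {g | p g} hp
    · intro k hk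
      exact hfix x hx0 k hk
    · intro i j h t ht hN k hk
      have h1 : A (dg i j h t ht) x ∈ Metric.ball (0 : E) ρ₀ := hpr hN hrx
      rw [mem_ball_zero_iff] at h1
      change A ((dg i j h t ht)⁻¹ * k * dg i j h t ht) x = x
      rw [hA.mul, hA.mul, hfix _ h1 k hk, ← hA.mul, inv_mul_cancel, hA.one]
  intro g
  have hg : g ∈ n3_stab hA x := by rw [htop]; exact Subgroup.mem_top g
  exact hg

end Pool.Agent.Lib.MP_4f3c81_gt.Inf
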