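import Pool.Agent.Lib.MP_4f3c81_gt.Inf.Mat

/-!
# Smooth actions of `SL(n, ℝ)`: statements of the steps
-/

open Filter Topology Set Matrix MeasureTheory
open scoped ContDiff

namespace Pool.Agent.Lib.MP_4f3c81_gt.Inf

/-! ## Part A: derivatives in the space variable are jointly continuous -/

/-- All derivatives up to order `k` in the second variable are jointly continuous. -/
def JC {P : Type} [TopologicalSpace P] {E : Type} [NormedAddCommGroup E] [NormedSpace ℝ E] :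
    (k : ℕ) → {E' : Type} → [NormedAddCommGroup E'] → [NormedSpace ℝ E'] → (P → E → E') → Prop
  | 0, _, _, _, F => Continuous fun q : P × E => F q.1 q.2
  | k + 1, _, _, _, F => (∀ p, Differentiable ℝ (F p)) ∧
      (Continuous fun q : P × E => F q.1 q.2) ∧ JC k (fun p x => fderiv ℝ (F p) x)

/-- Local boundedness of the derivative. -/
def S_A1 : Prop :=
  ∀ (G E : Type) [Group G] [TopologicalSpace G] [IsTopologicalGroup G] [BaireSpace G]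
    [NormedAddCommGroup E] [NormedSpace ℝ E] [FiniteDimensional ℝ E] (A : G → E → E),
    SAct G E A → ∀ (g₀ : G) (x₀ : E), ∃ B : ℝ, ∀ᶠ q in 𝓝 (g₀, x₀), ‖fderiv ℝ (A q.1) q.2‖ ≤ B

/-- Joint continuity of the derivative. -/
def S_A2 : Prop :=
  ∀ (G E : Type) [Group G] [TopologicalSpace G] [IsTopologicalGroup G] [BaireSpace G]
    [NormedAddCommGroup E] [NormedSpace ℝ E] [FiniteDimensional ℝ E] (A : G → E → E),
    SAct G E A → Continuous fun q : G × E => fderiv ℝ (A q.1) q.2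

/-- Joint continuity of all derivatives. -/
def S_A3 : Prop :=
  ∀ (G E : Type) [Group G] [TopologicalSpace G] [IsTopologicalGroup G] [BaireSpace G]
    [NormedAddCommGroup E] [NormedSpace ℝ E] [FiniteDimensional ℝ E] (A : G → E → E),
    SAct G E A → ∀ k : ℕ, JC k A

/-- Smoothness of parameter integrals. -/
def S_A4 : Prop :=
  ∀ (P E E' : Type) [TopologicalSpace P] [CompactSpace P] [SecondCountableTopology P]
    [MeasurableSpace P] [BorelSpace P] (μ : Measure P) [IsFiniteMeasure μ]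
    [NormedAddCommGroup E] [NormedSpace ℝ E] [FiniteDimensional ℝ E]
    [NormedAddCommGroup E'] [NormedSpace ℝ E'] [FiniteDimensional ℝ E'] (k : ℕ)
    (F : P → E → E'), JC k F →
    ContDiff ℝ k (fun x => ∫ p, F p x ∂μ) ∧
    (1 ≤ k → ∀ x, HasFDerivAt (fun x => ∫ p, F p x ∂μ) (∫ p, fderiv ℝ (F p) x ∂μ) x)

/-- Averaging over a compact group (Bochner, Cartan). -/
def S_B1 : Prop :=
  ∀ (K E : Type) [Group K] [TopologicalSpace K] [IsTopologicalGroup K] [CompactSpace K]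
    [T2Space K] [SecondCountableTopology K]
    [NormedAddCommGroup E] [NormedSpace ℝ E] [FiniteDimensional ℝ E] (A : K → E → E),
    SAct K E A → (∀ k, A k 0 = 0) →
    ∃ φ : E → E, ContDiff ℝ ∞ φ ∧ φ 0 = 0 ∧ fderiv ℝ φ 0 = ContinuousLinearMap.id ℝ E ∧
      ∀ k x, φ (A k x) = fderiv ℝ (A k) 0 (φ x)

/-! ## Part G: group theory -/

/-- Transvections generate. -/
def S_G1 : Prop :=
  ∀ n : ℕ, Subgroup.closure {g : SLn n | ∃ (i j : Fin n) (h : i ≠ j) (c : ℝ), g = tv i j h c} = ⊤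

/-- The rotations together with slightly conjugated rotations generate. -/
def S_G2 : Prop :=
  ∀ (n : ℕ) (H : Subgroup (SLn n)) (N : Set (SLn n)), N ∈ 𝓝 (1 : SLn n) → KK n ≤ H →
    (∀ (i j : Fin n) (h : i ≠ j) (t : ℝ) (ht : t ≠ 0), dg i j h t ht ∈ N → ∀ k ∈ KK n,
      (dg i j h t ht)⁻¹ * k * dg i j h t ht ∈ H) → H = ⊤

/-- `SO(n)` is compact. -/
def S_K1 : Prop := ∀ n : ℕ, IsCompact (KK n : Set (SLn n))

/-- `SO(n)` is transitive on the sphere. -/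
def S_K2 : Prop :=
  ∀ n : ℕ, 2 ≤ n → ∀ u v : VV n, ‖u‖ = 1 → ‖v‖ = 1 → ∃ k ∈ KK n, TM k.1 u = v

/-- `SO(n)` acts by isometries and contains the sign matrices and the `wy i j`. -/
def S_K3 : Prop :=
  ∀ n : ℕ, (∀ k ∈ KK n, ∀ x : VV n, ‖TM k.1 x‖ = ‖x‖) ∧
    (∀ i j : Fin n, sg i j ∈ KK n) ∧ (∀ (i j : Fin n) (h : i ≠ j), wy i j h ∈ KK n)

/-- Monomial matrices permute the sign matrices. -/
def S_G3 : Prop :=
  ∀ (n : ℕ) (σ : Equiv.Perm (Fin n)), ∃ w : SLn n, ∀ i j, w * sg i j * w⁻¹ = sg (σ i) (σ j)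

/-! ## Part H: the linear part -/

/-- the sign vector of a set -/
def eps {n : ℕ} (I : Finset (Fin n)) (i : Fin n) : ℝ := if i ∈ I then -1 else 1

/-- joint eigenspaces of the sign matrices -/
def EI {n : ℕ} {E : Type} [NormedAddCommGroup E] [NormedSpace ℝ E]
    (R : SLn n →* (E →L[ℝ] E)) (I : Finset (Fin n)) : Submodule ℝ E where
  carrier := {x | ∀ i j, R (sg i j) x = (eps I i * eps I j) • x}
  add_mem' := by
    intro a b ha hb i j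
    rw [map_add, ha i j, hb i j, smul_add]
  zero_mem' := by
    intro i j
    rw [map_zero, smul_zero]
  smul_mem' := by
    intro c x hx i j
    rw [map_smul, hx i j, smul_comm]

/-- the joint eigenspaces span -/
def S_H1 : Prop :=
  ∀ (n : ℕ) (o : Fin n) (E : Type) [NormedAddCommGroup E] [NormedSpace ℝ E]
    (R : SLn n →* (E →L[ℝ] E)), ⨆ I : {I : Finset (Fin n) // o ∉ I}, EI R I.1 = ⊤

/-- the joint eigenspaces are independent -/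
def S_H2 : Prop :=
  ∀ (n : ℕ) (o : Fin n) (E : Type) [NormedAddCommGroup E] [NormedSpace ℝ E]
    (R : SLn n →* (E →L[ℝ] E)), iSupIndep fun I : {I : Finset (Fin n) // o ∉ I} => EI R I.1

/-- counting -/
def S_H4 : Prop :=
  ∀ (n : ℕ) (_ : 5 ≤ n) (o : Fin n) (k : ℕ), 2 ≤ k → k + 2 ≤ n →
    2 * n - 2 ≤ ((Finset.univ : Finset (Finset (Fin n))).filter
      fun I => o ∉ I ∧ (I.card = k ∨ I.card = n - k)).card

/-- the exceptional case `n = 4`, `m = 5` -/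
def S_H5 : Prop :=
  ∀ (E : Type) [NormedAddCommGroup E] [NormedSpace ℝ E] [FiniteDimensional ℝ E]
    (R : SLn 4 →* (E →L[ℝ] E)), Module.finrank ℝ E = 5 →
    ∀ I : Finset (Fin 4), I.card = 2 → EI R I = ⊥

/-- a representation which is trivial on the sign matrices is trivial -/
def S_H6 : Prop :=
  ∀ (n : ℕ) (_ : 3 ≤ n) (E : Type) [NormedAddCommGroup E] [NormedSpace ℝ E]
    (R : SLn n →* (E →L[ℝ] E)), (∀ i j, R (sg i j) = 1) → ∀ g, R g = 1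

/-- the dichotomy for small representations -/
def S_H7 : Prop :=
  ∀ (n m : ℕ) (_ : 4 ≤ n) (_ : n < m) (_ : m < 2 * n - 2)
    (E : Type) [NormedAddCommGroup E] [NormedSpace ℝ E] [FiniteDimensional ℝ E]
    (R : SLn n →* (E →L[ℝ] E)), Module.finrank ℝ E = m →
    (∀ g, R g = 1) ∨ ∃ (q : ℕ) (e : E ≃L[ℝ] FF n q), ∀ i j x, e (R (sg i j) x) = st (sg i j) (e x)

/-- the diagonal map -/
noncomputable def dl {n : ℕ} (lam : Fin n → ℝ) : VV n →L[ℝ] VV n := TM (Matrix.diagonal lam)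

/-- `R (tv i j c) = 1 + κ c E_ij` -/
def TypeA {n q : ℕ} (R : SLn n →* (FF n q →L[ℝ] FF n q)) (i j : Fin n) (h : i ≠ j)
    (κ : ℝ) : Prop :=
  ∀ (c : ℝ) (x : VV n) (z : VV q),
    R (tv i j h c) (x, z) = (x + EuclideanSpace.single i (κ * c * x j), z)

/-- `R (tv i j c) = 1 + κ c E_ji` -/
def TypeB {n q : ℕ} (R : SLn n →* (FF n q →L[ℝ] FF n q)) (i j : Fin n) (h : i ≠ j)
    (κ : ℝ) : Prop :=
  ∀ (c : ℝ) (x : VV n) (z : VV q),
    R (tv i j h c) (x, z) = (x + EuclideanSpace.single j (κ * c * x i), z)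

/-- the shape of the transvections -/
def S_R0 : Prop :=
  ∀ (n q : ℕ) (_ : 4 ≤ n) (R : SLn n →* (FF n q →L[ℝ] FF n q)), Continuous R →
    (∀ i j, R (sg i j) = st (sg i j)) →
    ∀ (i j : Fin n) (h : i ≠ j), ∃ κ : ℝ, κ ≠ 0 ∧ (TypeA R i j h κ ∨ TypeB R i j h κ)

/-- if all transvections have type A, the representation is standard up to a diagonal matrix -/
def S_R01 : Prop :=
  ∀ (n q : ℕ) (_ : 4 ≤ n) (R : SLn n →* (FF n q →L[ℝ] FF n q)),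
    (∀ (i j : Fin n) (h : i ≠ j), ∃ κ : ℝ, κ ≠ 0 ∧ TypeA R i j h κ) →
    ∃ lam : Fin n → ℝ, (∀ i, lam i ≠ 0) ∧
      ∀ g x z, R g (dl lam x, z) = (dl lam (TM g.1 x), z)

/-- classification of representations with standard sign matrices -/
def S_R1 : Prop :=
  ∀ (n q : ℕ) (_ : 4 ≤ n) (R : SLn n →* (FF n q →L[ℝ] FF n q)), Continuous R →
    (∀ i j, R (sg i j) = st (sg i j)) →
    ∃ lam : Fin n → ℝ, (∀ i, lam i ≠ 0) ∧
      ((∀ g x z, R g (dl lam x, z) = (dl lam (TM g.1 x), z)) ∨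
       (∀ g x z, R g (dl lam x, z) = (dl lam (TM (invT g).1 x), z)))

/-- classification with standard maximal compact subgroup -/
def S_R2 : Prop :=
  ∀ (n q : ℕ) (_ : 4 ≤ n) (R : SLn n →* (FF n q →L[ℝ] FF n q)), Continuous R →
    (∀ k ∈ KK n, R k = st k) → (∀ g, R g = st g) ∨ (∀ g, R g = st (invT g))

/-! ## Part C: coordinates in which `SO(n)` is linear -/

/-- coordinates in which `SO(n)` acts linearly -/
structure Chart (n q : ℕ) (A : SLn n → FF n q → FF n q) (φ ψ : FF n q → FF n q) (δ : ℝ) :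
    Prop where
  act : SAct (SLn n) (FF n q) A
  fix0 : ∀ g, A g 0 = 0
  lin : ∀ g, fderiv ℝ (A g) 0 = st g
  phi_smooth : ContDiff ℝ ∞ φ
  phi0 : φ 0 = 0
  dphi : fderiv ℝ φ 0 = ContinuousLinearMap.id ℝ (FF n q)
  phi_k : ∀ k ∈ KK n, ∀ x, φ (A k x) = st k (φ x)
  pos : 0 < δ
  psi_smooth : ContDiffOn ℝ ∞ ψ (Metric.ball 0 δ)
  psi0 : ψ 0 = 0
  phi_psi : ∀ y ∈ Metric.ball (0 : FF n q) δ, φ (ψ y) = y
  psi_phi : ∀ᶠ x in 𝓝 (0 : FF n q), ψ (φ x) = x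
  psi_k : ∀ k ∈ KK n, ∀ y ∈ Metric.ball (0 : FF n q) δ, ψ (st k y) = A k (ψ y)

def S_C1 : Prop :=
  ∀ (n q : ℕ) (A : SLn n → FF n q → FF n q), SAct (SLn n) (FF n q) A → (∀ g, A g 0 = 0) →
    (∀ g, fderiv ℝ (A g) 0 = st g) → ∃ φ ψ δ, Chart n q A φ ψ δ

/-- the points `(0, z)` are fixed -/
def S_C2 : Prop :=
  ∀ (n q : ℕ) (_ : 4 ≤ n) (A : SLn n → FF n q → FF n q) (φ ψ : FF n q → FF n q) (δ : ℝ),
    Chart n q A φ ψ δ → ∃ δ' > 0, ∀ z : VV q, ‖z‖ < δ' → ∀ g, A g (ψ (0, z)) = ψ (0, z)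

/-- the derivative at the points `(0, z)` -/
def S_C3 : Prop :=
  ∀ (n q : ℕ) (_ : 4 ≤ n) (A : SLn n → FF n q → FF n q) (φ ψ : FF n q → FF n q) (δ : ℝ),
    Chart n q A φ ψ δ → ∃ δ' > 0, ∀ z : VV q, ‖z‖ < δ' → ∀ g,
      fderiv ℝ (fun y => φ (A g (ψ y))) (0, z) = st g

/-- a local action in good coordinates -/
structure LAct (n q : ℕ) (B : SLn n → FF n q → FF n q) (δ : ℝ) : Prop where
  pos : 0 < δ
  smooth : ∀ g, ContDiffOn ℝ ∞ (B g) (Metric.ball 0 δ)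
  cont : ContinuousOn (fun p : SLn n × FF n q => B p.1 p.2) (univ ×ˢ Metric.ball 0 δ)
  dcont : ContinuousOn (fun p : SLn n × FF n q => fderiv ℝ (B p.1) p.2)
    (univ ×ˢ Metric.ball 0 δ)
  fix : ∀ g (z : VV q), ‖z‖ < δ → B g (0, z) = (0, z)
  deriv : ∀ g (z : VV q), ‖z‖ < δ → fderiv ℝ (B g) (0, z) = st g
  kk : ∀ k ∈ KK n, ∀ y ∈ Metric.ball (0 : FF n q) δ, B k y = st k y
  mul : ∀ g₀ : SLn n, ∀ᶠ p in 𝓝 (g₀, (0 : FF n q)), ∀ h, B h (B p.1 p.2) = B (h * p.1) p.2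

def S_C4 : Prop :=
  ∀ (n q : ℕ) (_ : 4 ≤ n) (A : SLn n → FF n q → FF n q), SAct (SLn n) (FF n q) A →
    (∀ g, A g 0 = 0) → (∀ g, fderiv ℝ (A g) 0 = st g) →
    ∃ (φ : FF n q → FF n q) (B : SLn n → FF n q → FF n q) (δ : ℝ), LAct n q B δ ∧
      ContDiff ℝ ∞ φ ∧ φ 0 = 0 ∧ fderiv ℝ φ 0 = ContinuousLinearMap.id ℝ (FF n q) ∧
      ∀ᶠ p in 𝓝 ((1 : SLn n), (0 : FF n q)), φ (A p.1 p.2) = B p.1 (φ p.2)

/-! ## Part E: asymptotic phase -/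

section phase

variable {Y W : Type} [NormedAddCommGroup Y] [NormedSpace ℝ Y]
  [NormedAddCommGroup W] [NormedSpace ℝ W]

/-- derivative in the contracting direction -/
noncomputable def dYY (T : Y × W → Y × W) (p : Y × W) : Y →L[ℝ] Y :=
  (ContinuousLinearMap.fst ℝ Y W).comp ((fderiv ℝ T p).comp (ContinuousLinearMap.inl ℝ Y W))

/-- `T` fixes the points `(0, w)` and contracts in the direction `Y` -/
structure Good (T : Y × W → Y × W) (r : ℝ) : Prop where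
  pos : 0 < r
  smooth : ContDiffOn ℝ ∞ T (Metric.ball 0 r)
  fix : ∀ w : W, ‖w‖ < r → T (0, w) = (0, w)
  con : ∀ w : W, ‖w‖ < r → ‖dYY T (0, w)‖ < 1

/-- the limit of the `W` coordinate of the iterates -/
noncomputable def winf (T : Y × W → Y × W) (p : Y × W) : W :=
  limUnder atTop fun N : ℕ => (T^[N] p).2

/-- the tangent lift of `T`, with the contracting coordinates `(y, v)` first and the neutral
coordinates `(w, u)` second -/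
noncomputable def tl (T : Y × W → Y × W) (p : (Y × Y) × (W × W)) : (Y × Y) × (W × W) :=
  (((T (p.1.1, p.2.1)).1, (fderiv ℝ T (p.1.1, p.2.1) (p.1.2, p.2.2)).1),
   ((T (p.1.1, p.2.1)).2, (fderiv ℝ T (p.1.1, p.2.1) (p.1.2, p.2.2)).2))

end phase

def S_E1 : Prop :=
  ∀ (Y W : Type) [NormedAddCommGroup Y] [NormedSpace ℝ Y]
    [NormedAddCommGroup W] [NormedSpace ℝ W] (T : Y × W → Y × W) (r : ℝ), Good T r →
    ∀ ε > 0, ∃ δ > 0, ∃ μ C : ℝ, 0 < μ ∧ μ < 1 ∧ 0 ≤ C ∧ ∀ p : Y × W, ‖p‖ < δ → ∀ N : ℕ,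
      ‖T^[N] p‖ < ε ∧ ‖(T^[N] p).1‖ ≤ μ ^ N * ‖p.1‖ ∧
      ‖(T^[N + 1] p).2 - (T^[N] p).2‖ ≤ C * μ ^ N

def S_E2 : Prop :=
  ∀ (Y W : Type) [NormedAddCommGroup Y] [NormedSpace ℝ Y]
    [NormedAddCommGroup W] [NormedSpace ℝ W] (T : Y × W → Y × W) (r : ℝ), Good T r →
    ∃ r', Good (tl T) r'

def S_E3 : Prop :=
  ∀ (Y W : Type) [NormedAddCommGroup Y] [NormedSpace ℝ Y]
    [NormedAddCommGroup W] [NormedSpace ℝ W] (T : Y × W → Y × W) (r : ℝ), Good T r →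
    ∀ (N : ℕ) (y v : Y) (w u : W), (∀ j < N, ‖T^[j] (y, w)‖ < r) →
      ContDiffAt ℝ ∞ (T^[N]) (y, w) ∧
      (tl T)^[N] ((y, v), (w, u)) =
        (((T^[N] (y, w)).1, (fderiv ℝ (T^[N]) (y, w) (v, u)).1),
         ((T^[N] (y, w)).2, (fderiv ℝ (T^[N]) (y, w) (v, u)).2))

def S_E4 : Prop :=
  ∀ (Y W : Type) [NormedAddCommGroup Y] [NormedSpace ℝ Y] [FiniteDimensional ℝ Y]
    [NormedAddCommGroup W] [NormedSpace ℝ W] [FiniteDimensional ℝ W]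
    (T : Y × W → Y × W) (r : ℝ), Good T r →
    ∃ δ > 0, ∃ L : Y × W → (Y × W →L[ℝ] W), ∀ p : Y × W, ‖p‖ < δ →
      HasFDerivAt (winf T) (L p) p ∧
      ∀ v : Y × W, ‖v‖ < δ → winf (tl T) ((p.1, v.1), (p.2, v.2)) = (winf T p, L p v)

def S_E5 : Prop :=
  ∀ (k : ℕ) (Y W : Type) [NormedAddCommGroup Y] [NormedSpace ℝ Y] [FiniteDimensional ℝ Y]
    [NormedAddCommGroup W] [NormedSpace ℝ W] [FiniteDimensional ℝ W]
    (T : Y × W → Y × W) (r : ℝ), Good T r → ContDiffAt ℝ k (winf T) 0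

def S_E6 : Prop :=
  ∀ (Y W : Type) [NormedAddCommGroup Y] [NormedSpace ℝ Y] [FiniteDimensional ℝ Y]
    [NormedAddCommGroup W] [NormedSpace ℝ W] [FiniteDimensional ℝ W]
    (T : Y × W → Y × W) (r : ℝ), Good T r →
    ∃ δ > 0, ContDiffOn ℝ ∞ (winf T) (Metric.ball 0 δ) ∧
      ∀ p : Y × W, ‖p‖ < δ → Tendsto (fun N : ℕ => (T^[N] p).2) atTop (𝓝 (winf T p))

/-! ## Part F: even functions -/

/-- cutting off -/
def S_F0 : Prop :=
  ∀ (E E' : Type) [NormedAddCommGroup E] [NormedSpace ℝ E] [FiniteDimensional ℝ E]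
    [NormedAddCommGroup E'] [NormedSpace ℝ E'] (r : ℝ), 0 < r →
    ∀ f : ℝ × E → E', ContDiffOn ℝ ∞ f (Metric.ball 0 r) →
    ∃ (g : ℝ × E → E') (χ : ℝ × E → ℝ), ContDiff ℝ ∞ g ∧ (∀ x, g x = χ x • f x) ∧
      (∀ x, ‖x‖ < r / 2 → χ x = 1) ∧ (∀ x, r ≤ ‖x‖ → χ x = 0) ∧
      (∀ (s : ℝ) (z : E), χ (-s, z) = χ (s, z)) ∧ ContDiff ℝ ∞ χ

/-- Hadamard division -/
def S_F1 : Prop :=
  ∀ (Z E' : Type) [NormedAddCommGroup Z] [NormedSpace ℝ Z] [FiniteDimensional ℝ Z]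
    [NormedAddCommGroup E'] [NormedSpace ℝ E'] [FiniteDimensional ℝ E']
    (f : ℝ × Z → E'), ContDiff ℝ ∞ f → (∀ z, f (0, z) = 0) →
    ∃ g : ℝ × Z → E', ContDiff ℝ ∞ g ∧ ∀ r z, f (r, z) = r • g (r, z)

/-- even functions of the norm are smooth -/
def S_F2 : Prop :=
  ∀ (V Z E' : Type) [NormedAddCommGroup V] [InnerProductSpace ℝ V] [FiniteDimensional ℝ V]
    [NormedAddCommGroup Z] [NormedSpace ℝ Z] [FiniteDimensional ℝ Z]
    [NormedAddCommGroup E'] [NormedSpace ℝ E'] [FiniteDimensional ℝ E']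
    (f : ℝ × Z → E'), ContDiff ℝ ∞ f → (∀ r z, f (-r, z) = f (r, z)) →
    ContDiff ℝ ∞ (fun p : V × Z => f (‖p.1‖, p.2)) ∧
    ∀ z, HasFDerivAt (fun p : V × Z => f (‖p.1‖, p.2))
      ((fderiv ℝ (fun z => f (0, z)) z).comp (ContinuousLinearMap.snd ℝ V Z)) (0, z)

/-! ## Part L: the action of the contracting element on the axis -/

/-- the points of the axis -/
noncomputable def ax {n q : ℕ} (o : Fin n) (p : ℝ × VV q) : FF n q :=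
  (EuclideanSpace.single o p.1, p.2)

/-- the map induced by `bb o` on the axis -/
noncomputable def T0 {n q : ℕ} (B : SLn n → FF n q → FF n q) (o : Fin n) (p : ℝ × VV q) :
    ℝ × VV q :=
  ((B (bb o) (ax o p)).1 o, (B (bb o) (ax o p)).2)

/-- the contraction rate -/
noncomputable def mu (n : ℕ) : ℝ := ((2 : ℝ) ^ (n - 1))⁻¹

def S_L1 : Prop :=
  ∀ (n q : ℕ) (_ : 4 ≤ n) (o : Fin n) (B : SLn n → FF n q → FF n q) (δ : ℝ), LAct n q B δ →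
    ∃ δ' > 0, δ' ≤ δ ∧
      (∀ p : ℝ × VV q, ‖p‖ < δ' → B (bb o) (ax o p) = ax o (T0 B o p)) ∧
      (∀ (r : ℝ) (z : VV q), ‖(r, z)‖ < δ' →
        T0 B o (-r, z) = (-(T0 B o (r, z)).1, (T0 B o (r, z)).2)) ∧
      Good (T0 B o) δ' ∧
      (∀ z : VV q, ‖z‖ < δ' → ∀ s : ℝ, (fderiv ℝ (T0 B o) (0, z) (s, 0)).1 = mu n * s)

/-- the linearising functions on the axis -/
structure UW {n q : ℕ} (B : SLn n → FF n q → FF n q) (o : Fin n) (u : ℝ × VV q → ℝ)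
    (w : ℝ × VV q → VV q) (δ : ℝ) : Prop where
  pos : 0 < δ
  u_smooth : ContDiff ℝ ∞ u
  w_smooth : ContDiff ℝ ∞ w
  u_even : ∀ r z, u (-r, z) = u (r, z)
  w_even : ∀ r z, w (-r, z) = w (r, z)
  u_zero : ∀ z, ‖z‖ < δ → u (0, z) = 1
  w_zero : ∀ z, ‖z‖ < δ → w (0, z) = z
  u_lim : ∀ p : ℝ × VV q, ‖p‖ < δ →
    Tendsto (fun N : ℕ => (mu n ^ N)⁻¹ * ((T0 B o)^[N] p).1) atTop (𝓝 (p.1 * u p))
  w_lim : ∀ p : ℝ × VV q, ‖p‖ < δ →
    Tendsto (fun N : ℕ => ((T0 B o)^[N] p).2) atTop (𝓝 (w p))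
  r_lim : ∀ p : ℝ × VV q, ‖p‖ < δ →
    Tendsto (fun N : ℕ => ((T0 B o)^[N] p).1) atTop (𝓝 0)

def S_L2 : Prop :=
  ∀ (n q : ℕ) (_ : 4 ≤ n) (o : Fin n) (B : SLn n → FF n q → FF n q) (δ : ℝ), LAct n q B δ →
    ∃ u w δ', UW B o u w δ'

/-! ## Part M: the parabolic subgroup -/

/-- the component orthogonal to the axis -/
noncomputable def eta {n q : ℕ} (o : Fin n) (y : FF n q) : VV n :=
  y.1 - EuclideanSpace.single o (y.1 o)

/-- expansion transversal to the axis -/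
def S_M1 : Prop :=
  ∀ (n q : ℕ) (_ : 4 ≤ n) (o : Fin n) (B : SLn n → FF n q → FF n q) (δ : ℝ), LAct n q B δ →
    ∃ ρ > 0, ρ ≤ δ ∧ ∀ y : FF n q, ‖y‖ < ρ → (3 / 2) * ‖eta o y‖ ≤ ‖eta o (B (bb o) y)‖

/-- the compact sets in the parabolic subgroup -/
def CC {n : ℕ} (o : Fin n) (c : ℝ) : Set (SLn n) :=
  {g | (∀ i j, |g.1 i j| ≤ c) ∧ (∀ i, i ≠ o → g.1 i o = 0) ∧ c⁻¹ ≤ g.1 o o}

def S_M2 : Prop :=
  ∀ (n : ℕ) (o : Fin n) (c : ℝ), 1 ≤ c → IsCompact (CC o c) ∧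
    ∀ g ∈ CC o c, ∀ N : ℕ, (bb o) ^ N * g * ((bb o) ^ N)⁻¹ ∈ CC o c ∧
      ((bb o) ^ N * g * ((bb o) ^ N)⁻¹).1 o o = g.1 o o

/-- uniformity over a compact set -/
def S_M3 : Prop :=
  ∀ (n q : ℕ) (B : SLn n → FF n q → FF n q) (δ : ℝ), LAct n q B δ →
    ∀ C : Set (SLn n), IsCompact C → ∀ ρ > 0, ∃ ε > 0, ε ≤ δ ∧
      (∀ g ∈ C, ∀ y : FF n q, ‖y‖ < ε → ‖B g y‖ < ρ ∧ ∀ h, B h (B g y) = B (h * g) y) ∧
      (∀ κ > 0, ∃ r₀ > 0, ∀ g ∈ C, ∀ (x : VV n) (z : VV q), ‖x‖ < r₀ → ‖z‖ < ε →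
        ‖B g (x, z) - st g (x, z)‖ ≤ κ * ‖x‖)

/-- the main dynamical statement -/
def S_M4 : Prop :=
  ∀ (n q : ℕ) (_ : 4 ≤ n) (o : Fin n) (B : SLn n → FF n q → FF n q) (δ : ℝ), LAct n q B δ →
    ∀ (u : ℝ × VV q → ℝ) (w : ℝ × VV q → VV q) (δ' : ℝ), UW B o u w δ' →
    ∀ c : ℝ, 1 ≤ c → ∃ ε > 0, ∀ g ∈ CC o c, ∀ p : ℝ × VV q, ‖p‖ < ε →
      ∃ p' : ℝ × VV q, ‖p'‖ < δ' ∧ B g (ax o p) = ax o p' ∧
        p'.1 * u p' = g.1 o o * (p.1 * u p) ∧ w p' = w p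

/-- the linearisation of the local action -/
def S_N1 : Prop :=
  ∀ (n q : ℕ) (_ : 4 ≤ n) (B : SLn n → FF n q → FF n q) (δ : ℝ), LAct n q B δ →
    ∃ Φ : FF n q → FF n q, ContDiff ℝ ∞ Φ ∧ Φ 0 = 0 ∧
      fderiv ℝ Φ 0 = ContinuousLinearMap.id ℝ (FF n q) ∧
      ∀ᶠ p in 𝓝 ((1 : SLn n), (0 : FF n q)), Φ (B p.1 p.2) = st p.1 (Φ p.2)

/-! ## Part N: conclusion -/

/-- the linearisation of an action with standard linear part -/
def S_N2 : Prop :=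
  ∀ (n q : ℕ) (_ : 4 ≤ n) (A : SLn n → FF n q → FF n q), SAct (SLn n) (FF n q) A →
    (∀ g, A g 0 = 0) → (∀ g, fderiv ℝ (A g) 0 = st g) →
    ∃ Φ : FF n q → FF n q, ContDiff ℝ ∞ Φ ∧ Φ 0 = 0 ∧
      fderiv ℝ Φ 0 = ContinuousLinearMap.id ℝ (FF n q) ∧
      ∀ᶠ p in 𝓝 ((1 : SLn n), (0 : FF n q)), Φ (A p.1 p.2) = st p.1 (Φ p.2)

/-- trivial linear part implies locally trivial action -/
def S_N3 : Prop :=
  ∀ (n : ℕ) (E : Type) [NormedAddCommGroup E] [NormedSpace ℝ E] [FiniteDimensional ℝ E]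
    (A : SLn n → E → E), SAct (SLn n) E A → (∀ g, A g 0 = 0) →
    (∀ g, fderiv ℝ (A g) 0 = ContinuousLinearMap.id ℝ E) →
    ∃ ρ > 0, ∀ x : E, ‖x‖ < ρ → ∀ g, A g x = x

/-- linearisation up to germs -/
def S_N4 : Prop :=
  ∀ (n m : ℕ) (_ : 4 ≤ n) (_ : n < m) (_ : m < 2 * n - 2)
    (E : Type) [NormedAddCommGroup E] [NormedSpace ℝ E] [FiniteDimensional ℝ E]
    (A : SLn n → E → E), Module.finrank ℝ E = m → SAct (SLn n) E A → (∀ g, A g 0 = 0) →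
    ∃ Ψ : E → E, ContDiff ℝ ∞ Ψ ∧ Ψ 0 = 0 ∧
      fderiv ℝ Ψ 0 = ContinuousLinearMap.id ℝ E ∧
      ∀ᶠ p in 𝓝 ((1 : SLn n), (0 : E)), Ψ (A p.1 p.2) = fderiv ℝ (A p.1) 0 (Ψ p.2)

/-- from germs to neighbourhoods -/
def S_N5 : Prop :=
  ∀ (n : ℕ) (E : Type) [NormedAddCommGroup E] [NormedSpace ℝ E] [FiniteDimensional ℝ E]
    (A : SLn n → E → E), SAct (SLn n) E A → (∀ g, A g 0 = 0) →
    (∃ Ψ : E → E, ContDiff ℝ ∞ Ψ ∧ Ψ 0 = 0 ∧
      fderiv ℝ Ψ 0 = ContinuousLinearMap.id ℝ E ∧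
      ∀ᶠ p in 𝓝 ((1 : SLn n), (0 : E)), Ψ (A p.1 p.2) = fderiv ℝ (A p.1) 0 (Ψ p.2)) →
    ∃ (U V : Set E) (N : Set (SLn n)) (φ : OpenPartialHomeomorph E E),
      IsOpen U ∧ IsOpen V ∧ 0 ∈ V ∧ V ⊆ U ∧ N ∈ 𝓝 (1 : SLn n) ∧
      (∀ g ∈ N, ∀ x ∈ V, A g x ∈ U) ∧
      φ.source = U ∧ ContDiffOn ℝ ∞ φ U ∧ ContDiffOn ℝ ∞ φ.symm φ.target ∧ φ 0 = 0 ∧
      ∀ g ∈ N, ∀ x ∈ V, φ (A g x) = fderiv ℝ (A g) 0 (φ x)

end Pool.Agent.Lib.MP_4f3c81_gt.Inf
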